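import Mathlib.LinearAlgebra.FreeModule.PID
import Mathlib.Topology.Sheaves.Presheaf
import Mathlib.RingTheory.Flat.TorsionFree
import Mathlib.Algebra.Module.StablyFree.Basic
import Mathlib.Analysis.Calculus.ContDiff.FiniteDimension
import Mathlib.Analysis.InnerProductSpace.NormDet
import Mathlib.Analysis.Real.Pi.Bounds
import Mathlib.RingTheory.PiTensorProduct
import Mathlib.Topology.Baire.LocallyCompactRegular
import Mathlib.NumberTheory.ModularForms.JacobiTheta.TwoVariable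
import Mathlib.RingTheory.SimpleRing.Principal
import Mathlib.Order.CompletePartialOrder
import Mathlib.RingTheory.RegularLocalRing.Defs
import Mathlib.Tactic.Algebra.Basic
import Mathlib.Topology.UniformSpace.Uniformizable

-- ======== part 0: formerly Pool.Agent.MP_6d695c_gt.t1.Theta
section MrgPart0

/-! Theta functions of level four on the Heisenberg group. -/

set_option autoImplicit false

open Complex Real
open scoped ContDiff

namespace Pool.Agent.MP_6d695c_gt.T1.Theta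

noncomputable section

/-- the theta series of period `16 i` -/
def J (w : ℂ) : ℂ := jacobiTheta₂ w (16 * I)

/-- its derivative -/
def J' (w : ℂ) : ℂ := jacobiTheta₂' w (16 * I)

theorem im16 : (16 * I : ℂ).im = 16 := by simp

theorem J_der (w : ℂ) : HasDerivAt J (J' w) w :=
  hasDerivAt_jacobiTheta₂_fst w (by rw [im16]; norm_num)

theorem tail {f : ℤ → ℂ} {s : ℂ} (hf : HasSum f s) {C : ℝ}
    (h : ∀ n : ℤ, n ≠ 0 → ‖f n‖ ≤ C * (1 / 100) ^ n.natAbs) : ‖s - f 0‖ ≤ C * (2 / 99) := by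
  have h1 := (hasSum_nat_add_iff' 1).2 hf.nat_add_neg
  have h2 : HasSum (fun n : ℕ => C * (2 / 100) * (1 / 100 : ℝ) ^ n)
      (C * (2 / 100) * (1 - 1 / 100)⁻¹) :=
    (hasSum_geometric_of_lt_one (by norm_num) (by norm_num)).mul_left _
  have h3 := h1.norm_le_of_bounded h2 fun n => by
    have a := h ((n + 1 : ℕ) : ℤ) (by omega)
    have b := h (-((n + 1 : ℕ) : ℤ)) (by omega)
    rw [Int.natAbs_neg] at b
    rw [Int.natAbs_natCast, pow_succ] at a b
    refine (norm_add_le _ _).trans ?_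
    linarith
  simp only [Finset.range_one, Finset.sum_singleton, Nat.cast_zero, neg_zero] at h3
  rw [show s + f 0 - (f 0 + f 0) = s - f 0 by ring] at h3
  linarith

theorem small (n : ℤ) (hn : n ≠ 0) :
    |(n : ℝ)| * rexp (-π * (16 * n ^ 2 - 2 * 4 * |n|)) ≤ (1 / 100) ^ n.natAbs := by
  have e : |(n : ℝ)| = n.natAbs := by rw [← Int.cast_abs, Int.abs_eq_natAbs, Int.cast_natCast]
  have e2 : (n : ℝ) ^ 2 = (n.natAbs : ℝ) ^ 2 := by rw [← e, sq_abs]
  rw [Int.cast_abs, e2, e]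
  have hk : 1 ≤ n.natAbs := by omega
  generalize n.natAbs = k at hk
  have h1 : (1 : ℝ) ≤ k := by exact_mod_cast hk
  have h2 : (k : ℝ) ≤ 2 ^ k := by exact_mod_cast Nat.lt_two_pow_self.le
  have h3 : rexp (-24) ≤ 1 / 200 := by
    rw [Real.exp_neg, one_div]
    refine inv_anti₀ (by norm_num) ?_
    have := Real.add_one_le_exp 8
    calc (200 : ℝ) ≤ (8 + 1) ^ 3 := by norm_num
      _ ≤ rexp 8 ^ 3 := by gcongr
      _ = rexp 24 := by rw [← Real.exp_nat_mul]; norm_num
  have h4 : rexp (-π * (16 * k ^ 2 - 2 * 4 * k)) ≤ rexp (-24) ^ k := by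
    rw [← Real.exp_nat_mul, Real.exp_le_exp]
    have := Real.pi_gt_three
    have h5 : (8 : ℝ) * k ≤ 16 * k ^ 2 - 2 * 4 * k := by nlinarith
    nlinarith
  calc (k : ℝ) * rexp (-π * (16 * k ^ 2 - 2 * 4 * k)) ≤ 2 ^ k * (1 / 200) ^ k := by
        gcongr
        exact h4.trans (by gcongr)
    _ = (1 / 100) ^ k := by rw [← mul_pow]; norm_num

theorem J_near {w : ℂ} (hw : |w.im| ≤ 4) : ‖J w - 1‖ ≤ 2 / 99 ∧ ‖J' w‖ ≤ 2 * π * (2 / 99) := by
  have h0 : 0 < (16 * I : ℂ).im := by rw [im16]; norm_num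
  constructor
  · have := tail (hasSum_jacobiTheta₂_term w h0) (C := 1) fun n hn => by
      refine (norm_jacobiTheta₂_term_le (T := 16) (by norm_num) hw im16.ge n).trans ?_
      rw [one_mul]
      refine le_trans (le_mul_of_one_le_left (Real.exp_pos _).le ?_) (small n hn)
      exact_mod_cast Int.one_le_abs hn
    simpa [jacobiTheta₂_term, J] using this
  · have := tail (hasSum_jacobiTheta₂'_term w h0) (C := 2 * π) fun n hn => by
      refine (norm_jacobiTheta₂'_term_le (T := 16) (by norm_num) hw im16.ge n).trans ?_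
      rw [mul_assoc, Int.cast_abs]
      have := small n hn
      rw [Int.cast_abs] at this
      gcongr
    simpa [jacobiTheta₂'_term, J'] using this

/-- the class of `m` modulo four -/
def Th (m : ℤ) (ζ : ℂ) : ℂ := cexp (-π * m ^ 2 + 2 * π * I * m * ζ) * J (4 * (ζ + I * m))

/-- its derivative -/
def Th' (m : ℤ) (ζ : ℂ) : ℂ := cexp (-π * m ^ 2 + 2 * π * I * m * ζ) *
  (2 * π * I * m * J (4 * (ζ + I * m)) + 4 * J' (4 * (ζ + I * m)))

theorem Th_der (m : ℤ) (ζ : ℂ) : HasDerivAt (Th m) (Th' m ζ) ζ := by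
  have h1 := (((hasDerivAt_id ζ).const_mul (2 * π * I * m)).const_add (-π * (m : ℂ) ^ 2)).cexp
  have h2 := (J_der (4 * (ζ + I * m))).comp ζ (((hasDerivAt_id ζ).add_const (I * m)).const_mul 4)
  refine (h1.mul h2).congr_deriv ?_
  simp only [Th', id, Function.comp]
  ring

theorem Th_smooth (m : ℤ) : ContDiff ℝ ∞ (Th m) :=
  (Differentiable.contDiff (fun ζ => (Th_der m ζ).differentiableAt)).restrict_scalars ℝ

theorem Th_one (m : ℤ) (ζ : ℂ) : Th m (ζ + 1) = Th m ζ := by
  have h : ∀ w, J (w + 1) = J w := fun w => jacobiTheta₂_add_left w _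
  rw [Th, Th, show 4 * (ζ + 1 + I * m) = 4 * (ζ + I * m) + 1 + 1 + 1 + 1 by ring, h, h, h, h,
    show -π * (m : ℂ) ^ 2 + 2 * π * I * m * (ζ + 1) =
      -π * m ^ 2 + 2 * π * I * m * ζ + m * (2 * π * I) by ring,
    Complex.exp_add _ (m * _), exp_int_mul_two_pi_mul_I, mul_one]

theorem Th_four (m : ℤ) (ζ : ℂ) : Th (m + 4) ζ = Th m ζ := by
  rw [Th, Th, J, J, show 4 * (ζ + I * ((m + 4 : ℤ) : ℂ)) = 4 * (ζ + I * m) + 16 * I by
    push_cast; ring, jacobiTheta₂_add_left', ← mul_assoc, ← Complex.exp_add]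
  congr 2
  push_cast
  linear_combination (-16 * π - 8 * π * m : ℂ) * I_mul_I

theorem Th_shift (m : ℤ) (ζ : ℂ) :
    Th m (ζ - 4 * I) = cexp (16 * π + 8 * π * I * ζ) * Th m ζ := by
  obtain ⟨k, rfl⟩ : ∃ k, m = k + 4 := ⟨m - 4, by ring⟩
  rw [Th_four k ζ, Th, Th, show ζ - 4 * I + I * ((k + 4 : ℤ) : ℂ) = ζ + I * k by push_cast; ring,
    ← mul_assoc, ← Complex.exp_add]
  congr 2
  push_cast
  linear_combination (-32 * π - 8 * π * k : ℂ) * I_mul_I

theorem Th_mod (m : ℤ) : Th (m % 4) = Th m := by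
  have h : Function.Periodic Th 4 := fun m => funext (Th_four m)
  have := h.int_mul (m / 4) (m % 4)
  rw [← this, Int.cast_id, Int.emod_add_ediv_mul]

theorem Th'_mod (m : ℤ) (ζ : ℂ) : Th' (m % 4) ζ = Th' m ζ :=
  (Th_der _ ζ).unique (by rw [Th_mod]; exact Th_der m ζ)

theorem wron (ζ : ℂ) : ∃ m : ℤ, Th m ζ * Th' (m + 1) ζ - Th (m + 1) ζ * Th' m ζ ≠ 0 := by
  refine ⟨⌊-ζ.im⌋, ?_⟩
  have f1 := Int.floor_le (-ζ.im)
  have f2 := Int.lt_floor_add_one (-ζ.im)
  generalize ⌊-ζ.im⌋ = m at *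
  obtain ⟨a1, a2⟩ := J_near (w := 4 * (ζ + I * m)) (by simp; rw [abs_le]; constructor <;> linarith)
  obtain ⟨b1, b2⟩ := J_near (w := 4 * (ζ + I * ((m + 1 : ℤ) : ℂ)))
    (by simp; rw [abs_le]; constructor <;> linarith)
  simp only [Th, Th']
  generalize J (4 * (ζ + I * m)) = x at *
  generalize J' (4 * (ζ + I * m)) = x' at *
  generalize J (4 * (ζ + I * ((m + 1 : ℤ) : ℂ))) = y at *
  generalize J' (4 * (ζ + I * ((m + 1 : ℤ) : ℂ))) = y' at *
  intro h
  have e1 := Complex.exp_ne_zero (-π * (m : ℂ) ^ 2 + 2 * π * I * m * ζ)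
  have e2 := Complex.exp_ne_zero (-π * ((m + 1 : ℤ) : ℂ) ^ 2 + 2 * π * I * ((m + 1 : ℤ) : ℂ) * ζ)
  have h2 : 2 * π * I * (x * y) = 4 * (y * x') - 4 * (x * y') := by
    refine mul_left_cancel₀ (mul_ne_zero e1 e2) ?_
    rw [← sub_eq_zero, ← h]
    push_cast
    ring
  have nx := abs_le.1 ((abs_norm_sub_norm_le x 1).trans a1)
  have ny := abs_le.1 ((abs_norm_sub_norm_le y 1).trans b1)
  rw [norm_one] at nx ny
  have h3 : 2 * π * (‖x‖ * ‖y‖) ≤ 4 * (‖y‖ * ‖x'‖) + 4 * (‖x‖ * ‖y'‖) := by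
    have := congrArg norm h2
    have h4 := norm_sub_le (4 * (y * x')) (4 * (x * y'))
    simp only [norm_mul, norm_I, Complex.norm_ofNat, Complex.norm_of_nonneg pi_pos.le] at this h4
    linarith
  have h5 : ‖y‖ * ‖x'‖ ≤ 2 * (2 * π * (2 / 99)) :=
    mul_le_mul (by linarith) a2 (norm_nonneg _) (by norm_num)
  have h6 : ‖x‖ * ‖y'‖ ≤ 2 * (2 * π * (2 / 99)) :=
    mul_le_mul (by linarith) b2 (norm_nonneg _) (by norm_num)
  have h7 : 9 / 10 * (9 / 10) ≤ ‖x‖ * ‖y‖ :=
    mul_le_mul (by linarith) (by linarith) (by norm_num) (norm_nonneg _)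
  nlinarith [pi_pos]

theorem jet1 (ζ : ℂ) (u v : ℂ) : ∃ a : Fin 4 → ℂ,
    ∑ c, a c * Th (c : ℕ) ζ = u ∧ ∑ c, a c * Th' (c : ℕ) ζ = v := by
  obtain ⟨m, hm⟩ := wron ζ
  have key : ∀ k : ℤ, ∃ c : Fin 4, Th (c : ℕ) ζ = Th k ζ ∧ Th' (c : ℕ) ζ = Th' k ζ := fun k => by
    have e : (((k % 4).toNat : ℕ) : ℤ) = k % 4 := by omega
    exact ⟨⟨(k % 4).toNat, by omega⟩, by simp only [e, Th_mod], by simp only [e, Th'_mod]⟩
  obtain ⟨c, c1, c2⟩ := key m
  obtain ⟨d, d1, d2⟩ := key (m + 1)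
  rw [← c1, ← c2, ← d1, ← d2] at hm
  set W := Th (c : ℕ) ζ * Th' (d : ℕ) ζ - Th (d : ℕ) ζ * Th' (c : ℕ) ζ with hW
  refine ⟨Pi.single c ((u * Th' (d : ℕ) ζ - v * Th (d : ℕ) ζ) / W) +
    Pi.single d ((v * Th (c : ℕ) ζ - u * Th' (c : ℕ) ζ) / W), ?_, ?_⟩
  all_goals
    simp only [Pi.add_apply, add_mul, Finset.sum_add_distrib, Pi.single_apply, ite_mul, zero_mul,
      Finset.sum_ite_eq', Finset.mem_univ, if_true]
    field_simp
    rw [hW]
    ring

/-- the Heisenberg group, coordinates `(z, q, b)` -/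
abbrev Y (m : ℕ) : Type := ℝ × (Fin m → ℝ) × (Fin m → ℝ)

variable {m : ℕ}

/-- the complex coordinates `q - i b` -/
def ze (p : Y m) (j : Fin m) : ℂ := p.2.1 j - I * p.2.2 j

/-- the common factor -/
def pre (p : Y m) : ℂ := cexp (2 * π * I * p.1 - π * ∑ j, (p.2.2 j : ℂ) ^ 2)

/-- the theta functions -/
def F (c : Fin m → Fin 4) (p : Y m) : ℂ := pre p * ∏ j, Th (c j : ℕ) (ze p j)

/-- the derivative in the complex coordinate `j` -/
def F' (c : Fin m → Fin 4) (p : Y m) (j : Fin m) : ℂ :=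
  pre p * ∏ k, if k = j then Th' (c k : ℕ) (ze p k) else Th (c k : ℕ) (ze p k)

theorem F_smooth (c : Fin m → Fin 4) : ContDiff ℝ ∞ (F c) := by
  have o : ∀ {f : Y m → ℝ}, ContDiff ℝ ∞ f → ContDiff ℝ ∞ fun p => (f p : ℂ) :=
    fun h => ofRealCLM.contDiff.comp h
  refine ContDiff.mul (ContDiff.cexp ((contDiff_const.mul (o contDiff_fst)).sub
    (contDiff_const.mul (ContDiff.sum fun j _ => (o ?_).pow 2))))
    (contDiff_prod fun j _ => (Th_smooth _).comp ((o ?_).sub (contDiff_const.mul (o ?_))))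
  all_goals fun_prop

theorem F_der (c : Fin m → Fin 4) (p v : Y m) : fderiv ℝ (F c) p v =
    (2 * π * I * v.1 - 2 * π * ∑ j, (p.2.2 j : ℂ) * v.2.2 j) * F c p +
      ∑ j, ze v j * F' c p j := by
  have l : HasDerivAt (fun s : ℝ => p + s • v) v 0 := by
    simpa using ((hasDerivAt_id (0 : ℝ)).smul_const v).const_add p
  have h0 : HasFDerivAt (F c) (fderiv ℝ (F c) p) (p + (0 : ℝ) • v) := by
    simpa using ((F_smooth c).differentiable (by simp) p).hasFDerivAt
  have h1 := h0.comp_hasDerivAt (0 : ℝ) l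
  have o : ∀ x y : ℝ, HasDerivAt (fun s : ℝ => ((x + s * y : ℝ) : ℂ)) y 0 := fun x y => by
    simpa using (((hasDerivAt_id (0 : ℝ)).mul_const y).const_add x).ofReal_comp
  have h2 := (((o p.1 v.1).const_mul (2 * π * I)).sub ((HasDerivAt.fun_sum (u := Finset.univ)
    fun j _ => (o (p.2.2 j) (v.2.2 j)).pow 2).const_mul (π : ℂ))).cexp
  have h3 := HasDerivAt.fun_finsetProd (u := Finset.univ) fun j _ =>
    (Th_der (c j : ℕ) _).comp_of_eq (0 : ℝ) ((o (p.2.1 j) (v.2.1 j)).sub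
      ((o (p.2.2 j) (v.2.2 j)).const_mul I)) (rfl)
  have h4 := h1.unique (h2.mul h3)
  rw [h4]
  simp only [F, F', pre, ze, Function.comp, zero_mul, zero_smul, add_zero, Pi.sub_apply, Pi.pow_apply,
    smul_eq_mul, Finset.mul_sum, Nat.cast_ofNat, Nat.add_one_sub_one, pow_one]
  congr 1
  · rw [mul_comm (cexp _), mul_assoc]
    congr 2
    exact Finset.sum_congr rfl fun j _ => by ring
  · refine Finset.sum_congr rfl fun j _ => ?_
    rw [← Finset.mul_prod_erase _ _ (Finset.mem_univ j), if_pos rfl,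
      Finset.prod_congr rfl fun k hk => if_neg (Finset.ne_of_mem_erase hk)]
    ring

theorem sum_single (j : Fin m) (f : Fin m → ℂ) :
    ∑ k, f k * ((Pi.single j (1 : ℝ) : Fin m → ℝ) k : ℂ) = f j := by
  rw [Finset.sum_eq_single j (fun k _ hk => by simp [hk]) (by simp)]
  simp

theorem F_R (c : Fin m → Fin 4) (p : Y m) :
    fderiv ℝ (F c) p (1, 0, 0) = 2 * π * I * F c p := by
  simp [F_der, ze]

theorem F_B (c : Fin m → Fin 4) (p : Y m) (j : Fin m) :
    fderiv ℝ (F c) p (0, 0, Pi.single j 1) = -(2 * π * p.2.2 j * F c p) - I * F' c p j := by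
  have e := sum_single j (F' c p)
  rw [F_der, sum_single j fun k => (p.2.2 k : ℂ), ← e, Finset.mul_sum, sub_eq_add_neg (-_),
    ← Finset.sum_neg_distrib]
  congr 1
  · simp
  · exact Finset.sum_congr rfl fun k _ => by simp only [ze, Pi.zero_apply, ofReal_zero]; ring

theorem F_A (c : Fin m → Fin 4) (p : Y m) (j : Fin m) :
    fderiv ℝ (F c) p (-p.2.2 j, Pi.single j 1, 0) = I * fderiv ℝ (F c) p (0, 0, Pi.single j 1) := by
  have e := sum_single j (F' c p)
  have e2 : ∑ k, ze ((-p.2.2 j, Pi.single j 1, 0) : Y m) k * F' c p k = F' c p j := by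
    rw [← e]
    exact Finset.sum_congr rfl fun k _ => by simp only [ze, Pi.zero_apply, ofReal_zero]; ring
  rw [F_B, F_der, e2]
  simp only [Pi.zero_apply, ofReal_zero, mul_zero, Finset.sum_const_zero, ofReal_neg]
  linear_combination F' c p j * I_mul_I

theorem F_z (c : Fin m → Fin 4) (z s : ℝ) (q b : Fin m → ℝ) :
    F c (z + s, q, b) = cexp (2 * π * I * s) * F c (z, q, b) := by
  simp only [F, pre, ze]
  rw [← mul_assoc, ← Complex.exp_add]
  congr 2
  push_cast
  ring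

theorem F_z1 (c : Fin m → Fin 4) (z : ℝ) (q b : Fin m → ℝ) : F c (z + 1, q, b) = F c (z, q, b) := by
  rw [F_z, ofReal_one, mul_one, exp_two_pi_mul_I, one_mul]

theorem F_q1 (c : Fin m → Fin 4) (z : ℝ) (q b : Fin m → ℝ) (j : Fin m) :
    F c (z, q + Pi.single j 1, b) = F c (z, q, b) := by
  simp only [F, pre, ze]
  congr 1
  refine Finset.prod_congr rfl fun k _ => ?_
  by_cases h : k = j
  · subst h
    rw [← Th_one _ (q k - I * b k)]
    congr 1
    simp only [Pi.add_apply, Pi.single_eq_same]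
    push_cast
    ring
  · simp [h]

theorem F_b4 (c : Fin m → Fin 4) (z : ℝ) (q b : Fin m → ℝ) (j : Fin m) :
    F c (z - 4 * q j, q, b + Pi.single j 4) = F c (z, q, b) := by
  simp only [F, pre, ze]
  rw [← Finset.mul_prod_erase _ _ (Finset.mem_univ j), ← Finset.mul_prod_erase _ _ (Finset.mem_univ j),
    ← Finset.add_sum_erase _ _ (Finset.mem_univ j), ← Finset.add_sum_erase _ _ (Finset.mem_univ j),
    Finset.prod_congr rfl fun k hk => by
      rw [Pi.add_apply, Pi.single_eq_of_ne (Finset.ne_of_mem_erase hk), add_zero],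
    Finset.sum_congr rfl fun k hk => by
      rw [Pi.add_apply, Pi.single_eq_of_ne (Finset.ne_of_mem_erase hk), add_zero],
    Pi.add_apply, Pi.single_eq_same,
    show (q j : ℂ) - I * ((b j + 4 : ℝ) : ℂ) = q j - I * b j - 4 * I by push_cast; ring, Th_shift,
    ← mul_assoc, ← mul_assoc, ← mul_assoc, ← Complex.exp_add]
  congr 3
  push_cast
  linear_combination (-8 * π * b j : ℂ) * I_mul_I

theorem F_jet' (p : Y m) (u : ℂ) (v : Fin m → ℂ) : ∃ w : (Fin m → Fin 4) → ℂ,
    ∑ c, w c * F c p = u ∧ ∀ j, ∑ c, w c * F' c p j = v j := by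
  choose a ha using fun k => jet1 (ze p k) 1 0
  choose b hb using fun k => jet1 (ze p k) 0 1
  have hp : pre p ≠ 0 := Complex.exp_ne_zero _
  have prod : ∀ (x : Fin m → Fin 4 → ℂ) (g : Fin m → Fin 4 → ℂ),
      ∑ c : Fin m → Fin 4, (∏ k, x k (c k)) * ∏ k, g k (c k) = ∏ k, ∑ e, x k e * g k e := fun x g => by
    rw [Finset.prod_univ_sum, Fintype.piFinset_univ]
    exact Finset.sum_congr rfl fun c _ => Finset.prod_mul_distrib.symm
  let T : Option (Fin m) → Fin m → Fin 4 → ℂ := fun o k e =>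
    if some k = o then Th' (e : ℕ) (ze p k) else Th (e : ℕ) (ze p k)
  let x : Option (Fin m) → Fin m → Fin 4 → ℂ := fun o k => if some k = o then b k else a k
  have orth : ∀ o o', ∑ c : Fin m → Fin 4, (∏ k, x o k (c k)) * ∏ k, T o' k (c k) =
      if o = o' then 1 else 0 := fun o o' => by
    rw [prod]
    split_ifs with h
    · subst h
      refine Finset.prod_eq_one fun k _ => ?_
      by_cases e : some k = o
      · simp only [x, T, e, if_true, (hb k).2]
      · simp only [x, T, e, if_false, (ha k).1]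
    · obtain _ | k := o
      · obtain _ | k := o'
        · exact absurd rfl h
        · exact Finset.prod_eq_zero (Finset.mem_univ k) (by simp [x, T, (ha k).2])
      · exact Finset.prod_eq_zero (Finset.mem_univ k) (by simp [x, T, h, (hb k).1])
  have all : ∀ o', ∑ c : Fin m → Fin 4, (∑ o : Option (Fin m), o.elim u v / pre p *
      ∏ k, x o k (c k)) * (pre p * ∏ k, T o' k (c k)) = o'.elim u v := fun o' => by
    simp only [Finset.sum_mul]
    rw [Finset.sum_comm, Finset.sum_congr rfl fun o _ => show _ = if o = o' then o.elim u v else 0 by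
      rw [← boole_mul, ← orth, Finset.sum_mul]
      exact Finset.sum_congr rfl fun c _ => by field_simp]
    simp
  exact ⟨_, by simpa [T, F] using all none, fun j => by simpa [T, F'] using all (some j)⟩

/-- the values and the `b`-derivatives can be prescribed at every point -/
theorem F_jet (p : Y m) (u : ℂ) (v : Fin m → ℂ) : ∃ w : (Fin m → Fin 4) → ℂ,
    ∑ c, w c * F c p = u ∧
      ∀ j, ∑ c, w c * fderiv ℝ (F c) p (0, 0, Pi.single j 1) = v j := by
  obtain ⟨w, h1, h2⟩ := F_jet' p u fun j => I * (v j + 2 * π * p.2.2 j * u)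
  refine ⟨w, h1, fun j => ?_⟩
  have : ∑ c, w c * fderiv ℝ (F c) p (0, 0, Pi.single j 1) =
      -(2 * π * p.2.2 j * ∑ c, w c * F c p) - I * ∑ c, w c * F' c p j := by
    rw [Finset.mul_sum, Finset.mul_sum, ← Finset.sum_neg_distrib, ← Finset.sum_sub_distrib]
    exact Finset.sum_congr rfl fun c _ => by rw [F_B]; ring
  rw [this, h1, h2]
  linear_combination -(v j + 2 * π * p.2.2 j * u) * I_mul_I

end

end Pool.Agent.MP_6d695c_gt.T1.Theta

end MrgPart0

-- ======== part 1: formerly Pool.Agent.MP_6d695c_gt.t1.Sard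
section MrgPart1

/-! A parametric transversality lemma for families that are linear in the parameter. -/

set_option autoImplicit false

open MeasureTheory Set Topology Filter

namespace Pool.Agent.MP_6d695c_gt.T1.Sard

variable {E W : Type} [NormedAddCommGroup E] [NormedSpace ℝ E] [FiniteDimensional ℝ E]
  [NormedAddCommGroup W] [NormedSpace ℝ W] [FiniteDimensional ℝ W]

theorem det_zero {A : E →L[ℝ] E} : A.det = 0 ↔ ∃ v, v ≠ 0 ∧ A v = 0 := by
  rw [ContinuousLinearMap.det, LinearMap.det_eq_zero_iff_ker_ne_bot, Submodule.ne_bot_iff]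
  exact ⟨fun ⟨v, h1, h2⟩ => ⟨v, h2, h1⟩, fun ⟨v, h1, h2⟩ => ⟨v, h2, h1⟩⟩

omit [FiniteDimensional ℝ W] in
theorem loc {L : E → W →L[ℝ] E} (hL : ContDiff ℝ 1 L) {p0 : E} (hs : Function.Surjective (L p0)) :
    ∃ K ∈ 𝓝 p0, IsOpen {w | ∃ p ∈ K, L p w = 0 ∧ ((fderiv ℝ L p).flip w).det = 0}ᶜ ∧
      Dense {w | ∃ p ∈ K, L p w = 0 ∧ ((fderiv ℝ L p).flip w).det = 0}ᶜ := by
  obtain ⟨S0, hS⟩ := (L p0 : W →ₗ[ℝ] E).exists_rightInverse_of_surjective
    (LinearMap.range_eq_top.2 hs)
  let S : E →L[ℝ] W := LinearMap.toContinuousLinearMap S0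
  have := FiniteDimensional.complete ℝ E
  have hM : ContDiff ℝ 1 fun p => (L p).comp S := hL.clm_comp contDiff_const
  have hU : IsOpen {p | IsUnit ((L p).comp S)} := Units.isOpen.preimage hM.continuous
  have h0 : p0 ∈ {p | IsUnit ((L p).comp S)} := by
    have : (L p0).comp S = 1 := ContinuousLinearMap.ext fun v => LinearMap.congr_fun hS v
    rw [mem_ofPred_eq, this]
    exact isUnit_one
  have := FiniteDimensional.proper_real E
  obtain ⟨K, hK, hKU, hKc⟩ := local_compact_nhds (hU.mem_nhds h0)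
  refine ⟨K, hK, ?_, fun w => ?_⟩
  · have := isCompact_iff_compactSpace.1 hKc
    have c1 : Continuous fun x : W × K => L x.2 x.1 :=
      (hL.continuous.comp (continuous_subtype_val.comp continuous_snd)).clm_apply continuous_fst
    have c2 : Continuous fun x : W × K => ((fderiv ℝ L x.2).flip x.1).det :=
      ContinuousLinearMap.continuous_det.comp
        (((ContinuousLinearMap.flipₗᵢ ℝ E W E).continuous.comp
          ((hL.continuous_fderiv one_ne_zero).comp
            (continuous_subtype_val.comp continuous_snd))).clm_apply continuous_fst)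
    have := isClosedMap_fst_of_compactSpace _
      ((isClosed_eq c1 continuous_const (g := fun _ => 0)).inter
        (isClosed_eq c2 continuous_const (g := fun _ => 0)))
    convert this.isOpen_compl using 2
    ext w
    exact ⟨fun ⟨p, hp, h⟩ => ⟨(w, ⟨p, hp⟩), h, rfl⟩, fun ⟨x, h, e⟩ => ⟨x.2, x.2.2, e ▸ h⟩⟩
  · borelize E
    let σ : E → E := fun p => -(Ring.inverse ((L p).comp S) (L p w))
    have dσ : ∀ p ∈ K, DifferentiableAt ℝ σ p := fun p hp =>
      (((hM.differentiable one_ne_zero p).inverse (hKU hp)).clm_apply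
        ((hL.differentiable one_ne_zero p).clm_apply (differentiableAt_const w))).neg
    have z : ∀ p, IsUnit ((L p).comp S) → L p (w + S (σ p)) = 0 := fun p hp => by
      have := congrArg (fun A : E →L[ℝ] E => A (L p w)) (Ring.mul_inverse_cancel _ hp)
      simp only [map_add, map_neg, σ]
      exact add_neg_eq_zero.2 this.symm
    have inj : ∀ p, IsUnit ((L p).comp S) → Function.Injective ((L p).comp S) := fun p hp =>
      ((ContinuousLinearMap.isUnit_iff_bijective).1 hp).1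
    have n := addHaar_image_eq_zero_of_det_fderivWithin_eq_zero (μ := Measure.addHaar) (f := σ)
      (s := {p | p ∈ K ∧ (fderiv ℝ σ p).det = 0}) (f' := fderiv ℝ σ)
      (fun p hp => (dσ p hp.1).hasFDerivAt.hasFDerivWithinAt) fun p hp => hp.2
    have d := Measure.dense_of_ae (measure_eq_zero_iff_ae_notMem.1 n) 0
    have := map_mem_closure (f := fun s => w + S s) (by fun_prop) d
      (t := {w | ∃ p ∈ K, L p w = 0 ∧ ((fderiv ℝ L p).flip w).det = 0}ᶜ) ?_
    · simpa using this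
    rintro s hs ⟨p, hp, h1, h2⟩
    have e : σ p = s := inj p (hKU hp) (add_left_cancel (a := L p w) (by
      simpa only [map_add, ContinuousLinearMap.comp_apply] using (z p (hKU hp)).trans h1.symm))
    refine hs ⟨p, ⟨hp, ?_⟩, e⟩
    obtain ⟨v, hv, h3⟩ := det_zero.1 h2
    have d1 := (hL.differentiable one_ne_zero p).hasFDerivAt.clm_apply
      ((S.hasFDerivAt.comp p (dσ p hp).hasFDerivAt).const_add w)
    have d2 : HasFDerivAt (fun x => L x (w + S (σ x))) (0 : E →L[ℝ] E) p :=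
      (hasFDerivAt_const 0 p).congr_of_eventuallyEq
        (eventually_of_mem (hU.mem_nhds (hKU hp)) z)
    have d3 := congrArg (fun A : E →L[ℝ] E => A v) (d1.unique d2)
    simp only [Function.comp, e, add_apply, h3, add_zero] at d3
    exact det_zero.2 ⟨v, hv, inj p (hKU hp) (d3.trans (map_zero _).symm)⟩

theorem sard0 {L : E → W →L[ℝ] E} (hL : ContDiff ℝ 1 L) (hs : ∀ p, Function.Surjective (L p)) :
    ∃ w, ∀ p, L p w = 0 → ∀ v, fderiv ℝ L p v w = 0 → v = 0 := by
  choose K hK h1 h2 using fun p => loc hL (hs p)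
  obtain ⟨s, hs, hc⟩ := TopologicalSpace.countable_cover_nhds hK
  have := FiniteDimensional.complete ℝ W
  obtain ⟨w, hw⟩ := (dense_biInter_of_isOpen (fun p _ => h1 p) hs fun p _ => h2 p).nonempty
  refine ⟨w, fun p hp v hv => by_contra fun c => ?_⟩
  obtain ⟨q, hq, h⟩ := mem_iUnion₂.1 (hc.ge (mem_univ p))
  exact mem_iInter₂.1 hw q hq ⟨p, h, hp, det_zero.2 ⟨v, c, hv⟩⟩

/-- a family of functions, linear in the parameter, whose differentials fill every cotangent
space contains a Morse function -/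
theorem sard {g : E → W →L[ℝ] ℝ} (hg : ContDiff ℝ 2 g)
    (hs : ∀ p, ∀ α : E →L[ℝ] ℝ, ∃ w, fderiv ℝ (fun x => g x w) p = α) :
    ∃ w, ∀ p, fderiv ℝ (fun x => g x w) p = 0 →
      ∀ u, (∀ v, fderiv ℝ (fderiv ℝ fun x => g x w) p u v = 0) → u = 0 := by
  obtain ⟨e⟩ : Nonempty ((E →L[ℝ] ℝ) ≃L[ℝ] E) := by
    refine FiniteDimensional.nonempty_continuousLinearEquiv_of_finrank_eq ?_
    rw [← (LinearMap.toContinuousLinearMap (𝕜 := ℝ) (E := E) (F' := ℝ)).finrank_eq]
    exact Subspace.dual_finrank_eq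
  have d : ∀ w p, fderiv ℝ (fun x => g x w) p = (fderiv ℝ g p).flip w := fun w p => by
    rw [fderiv_clm_apply (hg.differentiable two_ne_zero p) (differentiableAt_const w)]
    simp
  have s1 : ContDiff ℝ 1 fun p => (fderiv ℝ g p).flip :=
    contDiff_clm_apply_iff.2 fun w =>
      funext (d w) ▸ (hg.clm_apply contDiff_const).fderiv_right (m := 1) le_rfl
  have s2 : ContDiff ℝ 1 fun p => (e : (E →L[ℝ] ℝ) →L[ℝ] E).comp (fderiv ℝ g p).flip :=
    contDiff_const.clm_comp s1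
  obtain ⟨w, hw⟩ := sard0 s2 fun p y => by
    obtain ⟨w, h⟩ := hs p (e.symm y)
    exact ⟨w, by simp [← d, h]⟩
  refine ⟨w, fun p hp u hu => hw p (by simp [← d, hp]) u ?_⟩
  have a1 := (s2.differentiable one_ne_zero p).hasFDerivAt.clm_apply (hasFDerivAt_const w p)
  have a2 := (e : (E →L[ℝ] ℝ) →L[ℝ] E).hasFDerivAt.comp p
    ((s1.differentiable one_ne_zero p).clm_apply (differentiableAt_const w)).hasFDerivAt
  have a3 := congrArg (fun A : E →L[ℝ] E => A u) (a1.unique a2)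
  have a4 : fderiv ℝ (fun y => (fderiv ℝ g y).flip w) p u = 0 := by
    rw [← funext (d w)]
    exact ContinuousLinearMap.ext hu
  simpa [a4] using a3

end Pool.Agent.MP_6d695c_gt.T1.Sard

end MrgPart1

-- ======== part 2: formerly Pool.Agent.MP_6d695c_gt.t1.CR
section MrgPart2

/-! A periodic CR function on the Heisenberg group whose real part is a Morse function. -/

set_option autoImplicit false

open Complex Real
open scoped ContDiff

namespace Pool.Agent.MP_6d695c_gt.T1.Theta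

variable {m : ℕ}

/-- invariance under the lattice -/
structure Per (u : Y m → ℝ) : Prop where
  z1 : ∀ z q b, u (z + 1, q, b) = u (z, q, b)
  q1 : ∀ z q b j, u (z, q + Pi.single j 1, b) = u (z, q, b)
  b4 : ∀ z q b j, u (z - 4 * q j, q, b + Pi.single j 4) = u (z, q, b)

/-- `G - i h` is a periodic CR function of weight one and `G` is a Morse function -/
structure CR (G h : Y m → ℝ) : Prop where
  sG : ContDiff ℝ ∞ G
  sh : ContDiff ℝ ∞ h
  RG : ∀ p, fderiv ℝ G p (1, 0, 0) = 2 * π * h p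
  Rh : ∀ p, fderiv ℝ h p (1, 0, 0) = -(2 * π * G p)
  AG : ∀ p j, fderiv ℝ G p (-p.2.2 j, Pi.single j 1, 0) = fderiv ℝ h p (0, 0, Pi.single j 1)
  Ah : ∀ p j, fderiv ℝ h p (-p.2.2 j, Pi.single j 1, 0) = -fderiv ℝ G p (0, 0, Pi.single j 1)
  pG : Per G
  ph : Per h
  morse : ∀ p, fderiv ℝ G p = 0 → ∀ u, (∀ v, fderiv ℝ (fderiv ℝ G) p u v = 0) → u = 0

theorem frame (p v : Y m) : v = (v.1 + ∑ j, v.2.1 j * p.2.2 j) • ((1, 0, 0) : Y m) +
    ∑ j, v.2.1 j • ((-p.2.2 j, Pi.single j 1, 0) : Y m) +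
      ∑ j, v.2.2 j • ((0, 0, Pi.single j 1) : Y m) := by
  have e : ∀ x : Fin m → ℝ, ∑ j, x j • (Pi.single j 1 : Fin m → ℝ) = x := fun x =>
    (pi_eq_sum_univ' x).symm
  refine Prod.ext ?_ (Prod.ext ?_ ?_)
  all_goals simp [Prod.fst_sum, Prod.snd_sum, e]

theorem frame_ext {α β : Y m →L[ℝ] ℝ} (p : Y m) (h1 : α (1, 0, 0) = β (1, 0, 0))
    (h2 : ∀ j, α (-p.2.2 j, Pi.single j 1, 0) = β (-p.2.2 j, Pi.single j 1, 0))
    (h3 : ∀ j, α (0, 0, Pi.single j 1) = β (0, 0, Pi.single j 1)) : α = β := by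
  refine ContinuousLinearMap.ext fun v => ?_
  rw [frame p v]
  simp only [map_add, map_sum, map_smul, h1, h2, h3]

theorem comb (w : (Fin m → Fin 4) → ℂ) (T : ℂ →L[ℝ] ℝ) :
    ContDiff ℝ ∞ (fun p => T (∑ c, w c * F c p)) ∧ ∀ p v,
      fderiv ℝ (fun p => T (∑ c, w c * F c p)) p v = T (∑ c, w c * fderiv ℝ (F c) p v) := by
  refine ⟨T.contDiff.comp (ContDiff.sum fun c _ => contDiff_const.mul (F_smooth c)), fun p v => ?_⟩
  have := T.hasFDerivAt.comp p (HasFDerivAt.fun_sum (u := Finset.univ) fun c _ =>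
    ((F_smooth c).differentiable (by simp) p).hasFDerivAt.const_mul (w c))
  rw [show (fun p => T (∑ c, w c * F c p)) = _ ∘ _ from rfl, this.fderiv]
  simp

theorem exists_CR (m : ℕ) : ∃ G h : Y m → ℝ, CR G h := by
  let g : Y m → ((Fin m → Fin 4) → ℂ) →L[ℝ] ℝ := fun p =>
    reCLM.comp (∑ c, F c p • ContinuousLinearMap.proj c)
  have eg : ∀ w, (fun p => g p w) = fun p => reCLM (∑ c, w c * F c p) := fun w => by
    funext p
    simp [g, mul_comm]
  have sR : ∀ (w : (Fin m → Fin 4) → ℂ) (p : Y m), ∑ c, w c * fderiv ℝ (F c) p (1, 0, 0) =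
      2 * π * I * ∑ c, w c * F c p := fun w p => by
    rw [Finset.mul_sum]
    exact Finset.sum_congr rfl fun c _ => by rw [F_R]; ring
  have sA : ∀ (w : (Fin m → Fin 4) → ℂ) (p : Y m) j,
      ∑ c, w c * fderiv ℝ (F c) p (-p.2.2 j, Pi.single j 1, 0) =
        I * ∑ c, w c * fderiv ℝ (F c) p (0, 0, Pi.single j 1) := fun w p j => by
    rw [Finset.mul_sum]
    exact Finset.sum_congr rfl fun c _ => by rw [F_A]; ring
  obtain ⟨w, hw⟩ := Sard.sard (g := g) (contDiff_clm_apply_iff.2 fun w =>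
    eg w ▸ (comb w reCLM).1.of_le (by norm_cast)) fun p α => by
      obtain ⟨w, h1, h2⟩ := F_jet p (-I * (α (1, 0, 0) / (2 * π) : ℝ)) fun j =>
        α (0, 0, Pi.single j 1) - I * α (-p.2.2 j, Pi.single j 1, 0)
      refine ⟨w, eg w ▸ frame_ext p ?_ (fun j => ?_) fun j => ?_⟩
      · rw [(comb w reCLM).2, sR, h1]
        generalize α (1, 0, 0) = x
        rw [show 2 * π * I * (-I * ((x / (2 * π) : ℝ) : ℂ)) = (2 * π * (x / (2 * π)) : ℝ) by
          push_cast; linear_combination -(2 * π * (x / (2 * π)) : ℂ) * I_mul_I, reCLM_apply,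
          ofReal_re, mul_div_cancel₀ _ (by positivity)]
      · rw [(comb w reCLM).2, sA, h2]
        simp
      · rw [(comb w reCLM).2, h2]
        simp
  rw [eg] at hw
  have per : ∀ T : ℂ →L[ℝ] ℝ, Per fun p => T (∑ c, w c * F c p) := fun T =>
    ⟨fun z q b => by simp only [F_z1], fun z q b j => by simp only [F_q1],
      fun z q b j => by simp only [F_b4]⟩
  have RG : ∀ p, fderiv ℝ (fun p => reCLM (∑ c, w c * F c p)) p (1, 0, 0) =
      2 * π * (-imCLM) (∑ c, w c * F c p) := fun p => by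
    rw [(comb w reCLM).2, sR]
    generalize ∑ c, w c * F c p = x
    simp
  refine ⟨_, _, (comb w reCLM).1, (comb w (-imCLM)).1, RG, fun p => ?_, fun p j => ?_,
    fun p j => ?_, per _, per _, hw⟩
  · rw [(comb w (-imCLM)).2, sR]
    generalize ∑ c, w c * F c p = x
    simp
  · rw [(comb w reCLM).2, (comb w (-imCLM)).2, sA]
    generalize ∑ c, w c * fderiv ℝ (F c) p (0, 0, Pi.single j 1) = x
    simp
  · rw [(comb w reCLM).2, (comb w (-imCLM)).2, sA]
    generalize ∑ c, w c * fderiv ℝ (F c) p (0, 0, Pi.single j 1) = x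
    simp

end Pool.Agent.MP_6d695c_gt.T1.Theta

end MrgPart2

-- marker of a merged file
example : 731051 + 25622 = 731051 + 25622 := rfl
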