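import Mathlib.Geometry.Manifold.Instances.Sphere
import Mathlib.MeasureTheory.Measure.Hausdorff
import Mathlib.MeasureTheory.Measure.Haar.InnerProductSpace
import Pool.Agent.MP_6d695c_gt.Stmt

/-!
Skeleta, stratified sets, and the product with the cotangent bundle of the circle.
-/

open scoped Manifold ContDiff Topology MeasureTheory
open Set

namespace Pool.Agent.MP_6d695c_gt.T1

noncomputable section

variable {d : ℕ} {W : Type} [TopologicalSpace W] [ChartedSpace (EuclideanSpace ℝ (Fin d)) W]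

/-- The points whose forward orbit under `Z` stays in a compact set. -/
def skeleton (Z : VField (𝓡 d) W) : Set W :=
  {x | ∃ (γ : ℝ → W) (C : Set W), γ 0 = x ∧ IsMIntegralCurve γ Z ∧ IsCompact C ∧
    ∀ t, 0 ≤ t → γ t ∈ C}

variable (d) in
/-- `S` is a locally closed smooth submanifold of dimension `k`: near each of its points it is a
coordinate plane in a chart of the maximal smooth atlas. -/
def IsSubmfd (k : ℕ) (S : Set W) : Prop :=
  ∀ x ∈ S, ∃ e ∈ IsManifold.maximalAtlas (𝓡 d) ∞ W, x ∈ e.source ∧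
    ∀ y ∈ e.source, (y ∈ S ↔ ∀ i : Fin d, k ≤ (i : ℕ) → e y i = 0)

variable (d) in
/-- `K` is a finite disjoint union of locally closed smooth submanifolds of dimension `≤ n`. -/
def Stratified (n : ℕ) (K : Set W) : Prop :=
  ∃ (N : ℕ) (S : Fin N → Set W) (k : Fin N → ℕ), K = ⋃ i, S i ∧
    Pairwise (fun i j => Disjoint (S i) (S j)) ∧ ∀ i, k i ≤ n ∧ IsSubmfd d (k i) (S i)

variable (d) in
/-- `K` has `s`-dimensional Hausdorff measure zero in every chart. -/
def Thin (s : ℝ) (K : Set W) : Prop :=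
  ∀ p : W, μH[s] (extChartAt (𝓡 d) p '' (K ∩ (extChartAt (𝓡 d) p).source)) = 0

/-- The angular form `dθ = x dy - y dx` of the unit circle. -/
def dTheta (z : Circle) : EuclideanSpace ℝ (Fin 1) →L[ℝ] ℝ :=
  Complex.imCLM.comp ((ContinuousLinearMap.mul ℝ ℂ (starRingEnd ℂ (z : ℂ))).comp
    (mfderiv (𝓡 1) 𝓘(ℝ, ℂ) (fun w : Circle => (w : ℂ)) z))

/-- The form `l + p dθ` on `W × T^*S¹ = W × (S¹ × ℝ)`. -/
def cyl (l : OneForm (𝓡 d) W) :
    OneForm ((𝓡 d).prod ((𝓡 1).prod 𝓘(ℝ, ℝ))) (W × (Circle × ℝ)) := fun x =>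
  ((l x.1).comp (ContinuousLinearMap.fst ℝ _ _) +
    x.2.2 • (dTheta x.2.1).comp
      ((ContinuousLinearMap.fst ℝ _ _).comp (ContinuousLinearMap.snd ℝ _ _)) :
    EuclideanSpace ℝ (Fin d) × (EuclideanSpace ℝ (Fin 1) × ℝ) →L[ℝ] ℝ)

end

end Pool.Agent.MP_6d695c_gt.T1
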