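import Mathlib.Tactic.Monotonicity.Lemmas
import Mathlib.Algebra.Order.Archimedean.Real.Hom
import Mathlib.Algebra.Order.Chebyshev
import Mathlib.Algebra.Ring.IsFormallyReal
import Mathlib.Topology.Algebra.Module.Cardinality
import Mathlib.Analysis.Complex.ExponentialBounds
import Mathlib.Geometry.Manifold.Sheaf.Basic
import Pool.Agent.MP_6d695c_gt.t1.CR
import Pool.Agent.MP_6d695c_gt.t1.Stmt
import Pool.Agent.MP_6d695c_gt.sw.Base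

-- ======== part 0: formerly Pool.Agent.MP_6d695c_gt.t1.Defs
section MrgPart0

/-! PROJECT T1: definitions.  See /team-store/T1_6d695c_BLUEPRINT.md. -/

open scoped Manifold ContDiff Topology MeasureTheory
open Set Metric Filter Real

namespace Pool.Agent.MP_6d695c_gt.T1

open SW Theta

noncomputable section

/-! ### Symplectic pieces and symplectisations -/

section Gen
variable {X : Type} [NormedAddCommGroup X] [NormedSpace ℝ X]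

/-- an exact symplectic submanifold of `X`; `Pi` inverts `dl` on the tangent spaces -/
structure Smp (E : Type) [NormedAddCommGroup E] [NormedSpace ℝ E] (S : Set X)
    (l : X → X →L[ℝ] ℝ) (Pi : X → (X →L[ℝ] ℝ) →L[ℝ] X) : Prop where
  sub : Sub E S
  sl : ContDiff ℝ ∞ l
  sP : ContDiff ℝ ∞ Pi
  tan : ∀ x ∈ S, ∀ α, Pi x α ∈ Tg S x
  dual : ∀ x ∈ S, ∀ α, ∀ v ∈ Tg S x, dd l x (Pi x α) v = α v

/-- `Φ` is a strict Lyapunov function at `x`, or `x` is a good zero -/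
def Ly (S : Set X) (Z : X → X) (Φ : X → ℝ) (x : X) : Prop :=
  0 < fderiv ℝ Φ x (Z x) ∨ GoodFor S Z Φ x

/-- `ℝ × Σ` -/
def cy (S : Set X) : Set (ℝ × X) := {x | x.2 ∈ S}

/-- the Liouville field of `exp θ * α + d f` on `ℝ × Σ` -/
def XS (P : X → ((ℝ × X) →L[ℝ] ℝ) →L[ℝ] ℝ × X) (f : ℝ × X → ℝ) (x : ℝ × X) : ℝ × X :=
  (1, 0) + exp (-x.1) • P x.2 (fderiv ℝ f x)

/-- what is used of a symplectisation -/
structure Sy (S : Set X) (P : X → ((ℝ × X) →L[ℝ] ℝ) →L[ℝ] ℝ × X) : Prop where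
  sP : ContDiff ℝ ∞ P
  tan : ∀ x ∈ cy S, ∀ (c : ℝ) β, ((1, 0) : ℝ × X) + c • P x.2 β ∈ Tg (cy S) x
  congr : ∀ x ∈ cy S, ∀ β β' : (ℝ × X) →L[ℝ] ℝ, (∀ v ∈ Tg (cy S) x, β v = β' v) →
    P x.2 β = P x.2 β'

/-- a trap in the layer `a ≤ θ ≤ b` over `Ω` that catches the backward orbits over `O` -/
structure Trap (S : Set X) (P : X → ((ℝ × X) →L[ℝ] ℝ) →L[ℝ] ℝ × X) (Ω : Set X) (a b D : ℝ)
    (O : Set X) (f Λ Ξ : ℝ × X → ℝ) : Prop where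
  sf : ContDiff ℝ ∞ f
  sΛ : ContDiff ℝ ∞ Λ
  sΞ : ContDiff ℝ ∞ Ξ
  supp : ∃ C, IsCompact C ∧ C ⊆ Ω ∧
    ∀ x ∈ cy S, x.1 ≤ a ∨ b ≤ x.1 ∨ x.2 ∉ C → ∀ᶠ x' in 𝓝[cy S] x, f x' = 0
  lyap : ∀ x ∈ cy S, Ly (cy S) (XS P f) Λ x
  low : ∀ x ∈ cy S, x.1 ≤ a → Λ x = x.1 ∧ Ξ x = 0
  high : ∀ x ∈ cy S, b ≤ x.1 → Λ x = x.1 + D ∧ (x.2 ∈ O → Ξ x = 1)
  rng : ∀ x ∈ cy S, Ξ x ∈ Icc (0 : ℝ) 1
  mono : ∀ x ∈ cy S, fderiv ℝ Ξ x (XS P f x) ≤ 0

/-- `u` is a decreasing function along the field of the trap, up to an error `η` -/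
structure Slow (S : Set X) (P : X → ((ℝ × X) →L[ℝ] ℝ) →L[ℝ] ℝ × X) (u : X → ℝ) (η : ℝ)
    (f E : ℝ × X → ℝ) : Prop where
  sE : ContDiff ℝ ∞ E
  bd : ∀ x ∈ cy S, |E x| ≤ η
  mono : ∀ x ∈ cy S, fderiv ℝ (fun x => u x.2 + E x) x (XS P f x) ≤ 0

/-- there are traps for `K` at every height -/
def Traps (S : Set X) (P : X → ((ℝ × X) →L[ℝ] ℝ) →L[ℝ] ℝ × X) (Ω K : Set X) : Prop :=
  ∃ (O : Set X) (H D : ℝ), IsOpen O ∧ K ⊆ O ∧ 0 < H ∧
    ∀ s, ∃ f Λ Ξ, Trap S P Ω (s - H) s D O f Λ Ξ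

/-- there are traps for `K` with small displacement at every height -/
def Fine (S : Set X) (P : X → ((ℝ × X) →L[ℝ] ℝ) →L[ℝ] ℝ × X) (Ω K : Set X) : Prop :=
  ∀ (u : X → ℝ) (η : ℝ), ContDiff ℝ ∞ u → 0 < η →
    ∃ (O : Set X) (H D : ℝ), IsOpen O ∧ K ⊆ O ∧ 0 < H ∧
      ∀ s, ∃ f Λ Ξ E, Trap S P Ω (s - H) s D O f Λ Ξ ∧ Slow S P u η f E

end Gen

/-! ### The Heisenberg group -/

section Heis
variable {m : ℕ}

/-- the differential of the left translation by `p` -/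
def Lt (p : Y m) : Y m →L[ℝ] Y m :=
  LinearMap.toContinuousLinearMap
    { toFun := fun ξ => (ξ.1 - ∑ j, p.2.2 j * ξ.2.1 j, ξ.2.1, ξ.2.2)
      map_add' := fun u v => by
        ext <;> simp [mul_add, Finset.sum_add_distrib]
        ring
      map_smul' := fun a v => by
        ext <;> simp [mul_sub, Finset.mul_sum, mul_left_comm] }

theorem Lt_apply (p ξ : Y m) : Lt p ξ = (ξ.1 - ∑ j, p.2.2 j * ξ.2.1 j, ξ.2.1, ξ.2.2) := rfl

/-- the group law -/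
def mul (p η : Y m) : Y m := p + Lt p η

/-- `p⁻¹ y` -/
def ldiv (p y : Y m) : Y m := Lt (-p) (y - p)

/-- the dilation -/
def dil (w : ℝ) (y : Y m) : Y m := (w ^ 2 * y.1, w • y.2.1, w • y.2.2)

def eR (m : ℕ) : Y m := (1, 0, 0)

def eA (j : Fin m) : Y m := (0, Pi.single j 1, 0)

def eB (j : Fin m) : Y m := (0, 0, Pi.single j 1)

/-- the differential in the left invariant frame `R, A, B` -/
def nab (F : Y m → ℝ) (y : Y m) : Y m →L[ℝ] ℝ := (fderiv ℝ F y).comp (Lt y)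

/-- the contact form `dz + b dq` -/
def al0 (y : Y m) : Y m →L[ℝ] ℝ :=
  (ContinuousLinearMap.fst ℝ ℝ _).comp (Lt (-y))

/-- the model Liouville form `exp t * (dz + b dq)` -/
def lam0 (x : ℝ × Y m) : (ℝ × Y m) →L[ℝ] ℝ :=
  exp x.1 • (al0 x.2).comp (ContinuousLinearMap.snd ℝ ℝ (Y m))

/-- the inverse of `d lam0` at `t = 0` -/
def P0 (y : Y m) : ((ℝ × Y m) →L[ℝ] ℝ) →L[ℝ] ℝ × Y m :=
  LinearMap.toContinuousLinearMap
    { toFun := fun β => (β (0, eR m),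
        Lt y (-β (1, 0), fun j => -β (0, eB j), fun j => β (0, Lt y (eA j))))
      map_add' := fun u v => by
        rw [Prod.mk_add_mk, ← map_add]
        congr 2
        ext <;> simp [add_comm]
      map_smul' := fun a v => by
        rw [RingHom.id_apply, Prod.smul_mk, ← map_smul (Lt y)]
        refine Prod.ext rfl (congrArg (Lt y) ?_)
        ext <;> simp }

theorem P0_apply (y : Y m) (β : (ℝ × Y m) →L[ℝ] ℝ) : P0 y β = (β (0, eR m),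
    Lt y (-β (1, 0), fun j => -β (0, eB j), fun j => β (0, Lt y (eA j)))) := rfl

/-- the Liouville field of `lam0 + d f` -/
abbrev XY (f : ℝ × Y m → ℝ) : ℝ × Y m → ℝ × Y m := XS P0 f

/-- minus the gradient of `G`, a contact field -/
def VA (G h : Y m → ℝ) (y : Y m) : Y m :=
  -Lt y (h y, fun j => nab G y (eA j), fun j => nab G y (eB j))

/-- a conformal automorphism of the model -/
structure Aut (k : ℝ) (A A' : ℝ × Y m → ℝ × Y m) : Prop where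
  pos : 0 < k
  sA : ContDiff ℝ ∞ A
  sA' : ContDiff ℝ ∞ A'
  li : ∀ x, A' (A x) = x
  ri : ∀ x, A (A' x) = x
  form : ∀ x v, lam0 (A x) (fderiv ℝ A x v) = k * lam0 x v

/-- uniform constants of the periodic Morse function -/
structure Uni (G h : Y m → ℝ) (B r γ : ℝ) : Prop where
  cr : CR G h
  one : 1 ≤ B
  rpos : 0 < r
  γpos : 0 < γ
  bG : ∀ y, |G y| ≤ B
  bD : ∀ y, ‖nab G y‖ ≤ B
  sep : ∀ p p', fderiv ℝ G p = 0 → fderiv ℝ G p' = 0 → ‖ldiv p p'‖ ≤ r → p' = p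
  far : ∀ ρ, 0 < ρ → ∃ κ, 0 < κ ∧
    ∀ y, (∀ p, fderiv ℝ G p = 0 → ρ ≤ ‖ldiv p y‖) → κ ≤ ‖nab G y‖
  near : ∀ p, fderiv ℝ G p = 0 → ∃ κ, 0 < κ ∧ ∀ᶠ y in 𝓝 p, κ * ‖y - p‖ ≤ ‖nab G y‖
  val : ∀ p, fderiv ℝ G p = 0 → γ < |G p|
  cnt : {p | fderiv ℝ G p = 0}.Countable
  fin : ∀ R, {p | fderiv ℝ G p = 0 ∧ ‖p‖ ≤ R}.Finite

/-- slope at most `σ`, flat at the critical points of `G` -/
structure Flat (G : Y m → ℝ) (σ : ℝ) (u : Y m → ℝ) : Prop where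
  sm : ContDiff ℝ ∞ u
  le : ∀ y, ‖nab u y‖ ≤ σ * ‖nab G y‖

/-- the plug with its Lyapunov function -/
structure Mast (G ℓ u : Y m → ℝ) (γ Lm T B δ : ℝ) (f Λ : ℝ × Y m → ℝ) : Prop where
  sf : ContDiff ℝ ∞ f
  sΛ : ContDiff ℝ ∞ Λ
  oneT : 1 ≤ T
  δ0 : 0 ≤ δ
  out : ∀ x, Lm ≤ ℓ x.2 → f x = 0
  far : ∀ x, T ≤ |x.1| → f x = 0
  lyap : ∀ x, Ly univ (XY f) Λ x
  bd : ∀ x, |Λ x - x.1| ≤ B
  dG : ∀ x, |x.1| ≤ T → -(δ * fderiv ℝ Λ x (XY f x)) ≤ fderiv ℝ G x.2 (XY f x).2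
  dℓ : ∀ x, |x.1| ≤ T → |fderiv ℝ ℓ x.2 (XY f x).2| ≤ δ * fderiv ℝ Λ x (XY f x)
  du : ∀ x, |x.1| ≤ T → |fderiv ℝ u x.2 (XY f x).2| ≤ δ * fderiv ℝ Λ x (XY f x)
  down : ∀ x, |x.1| ≤ 1 → G x.2 ≤ -(γ / 2) → ℓ x.2 ≤ 1 → (XY f x).1 ≤ 0

/-- the plug with all its functions -/
structure Plug (G ℓ u : Y m → ℝ) (γ Lm η T B : ℝ) (f Λ Ξ E : ℝ × Y m → ℝ) : Prop where
  sf : ContDiff ℝ ∞ f
  sΛ : ContDiff ℝ ∞ Λ
  sΞ : ContDiff ℝ ∞ Ξ
  out : ∀ x, Lm ≤ ℓ x.2 → f x = 0 ∧ Ξ x = 0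
  far : ∀ x, T ≤ |x.1| → f x = 0
  lyap : ∀ x, Ly univ (XY f) Λ x
  bd : ∀ x, |Λ x - x.1| ≤ B
  low : ∀ x, x.1 ≤ -T → Ξ x = 0
  high : ∀ x, T ≤ x.1 → G x.2 < -γ → ℓ x.2 < 1 / 4 → Ξ x = 1
  rng : ∀ x, Ξ x ∈ Icc (0 : ℝ) 1
  mono : ∀ x, fderiv ℝ Ξ x (XY f x) ≤ 0
  slow : Slow univ P0 u η f E

/-- a trap in the model, not normalised -/
structure Raw (U : Set (Y m)) (u : Y m → ℝ) (η T B : ℝ) (C O : Set (Y m))
    (f Λ Ξ E : ℝ × Y m → ℝ) : Prop where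
  sf : ContDiff ℝ ∞ f
  sΛ : ContDiff ℝ ∞ Λ
  sΞ : ContDiff ℝ ∞ Ξ
  cpt : IsCompact C
  sub : C ⊆ U
  out : ∀ x, x.2 ∉ C → f x = 0 ∧ Ξ x = 0 ∧ E x = 0
  far : ∀ x, T ≤ |x.1| → f x = 0
  lyap : ∀ x, Ly univ (XY f) Λ x
  bd : ∀ x, |Λ x - x.1| ≤ B
  low : ∀ x, x.1 ≤ -T → Ξ x = 0
  high : ∀ x, T ≤ x.1 → x.2 ∈ O → Ξ x = 1
  rng : ∀ x, Ξ x ∈ Icc (0 : ℝ) 1
  mono : ∀ x, fderiv ℝ Ξ x (XY f x) ≤ 0
  slow : Slow univ P0 u η f E

/-- a trap in the model, normalised for the height `t - τ y` -/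
structure Nrm (U : Set (Y m)) (τ u : Y m → ℝ) (η a b D : ℝ) (O : Set (Y m))
    (f Λ Ξ E : ℝ × Y m → ℝ) : Prop where
  sf : ContDiff ℝ ∞ f
  sΛ : ContDiff ℝ ∞ Λ
  sΞ : ContDiff ℝ ∞ Ξ
  out : ∃ (C : Set (Y m)) (ς : ℝ → ℝ), IsCompact C ∧ C ⊆ U ∧ ContDiff ℝ ∞ ς ∧
    (∀ r, 0 ≤ deriv ς r) ∧ (∀ r ≤ a, ς r = 0) ∧ (∀ r, b ≤ r → ς r = D) ∧
    ∀ x : ℝ × Y m, x.2 ∉ C → f x = 0 ∧ Ξ x = 0 ∧ E x = 0 ∧
      Λ x = x.1 - τ x.2 + ς (x.1 - τ x.2)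
  far : ∀ x : ℝ × Y m, x.1 - τ x.2 ≤ a + 1 ∨ b - 1 ≤ x.1 - τ x.2 → f x = 0
  lyap : ∀ x, Ly univ (XY f) Λ x
  low : ∀ x : ℝ × Y m, x.1 - τ x.2 ≤ a → Λ x = x.1 - τ x.2 ∧ Ξ x = 0
  high : ∀ x : ℝ × Y m, b ≤ x.1 - τ x.2 → Λ x = x.1 - τ x.2 + D ∧ (x.2 ∈ O → Ξ x = 1)
  rng : ∀ x, Ξ x ∈ Icc (0 : ℝ) 1
  mono : ∀ x, fderiv ℝ Ξ x (XY f x) ≤ 0
  slow : Slow univ P0 u η f E

variable {X : Type} [NormedAddCommGroup X] [NormedSpace ℝ X]

/-- the chart of the symplectisation -/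
def kap (r : X → Y m) (τ : Y m → ℝ) (x : ℝ × X) : ℝ × Y m := (x.1 + τ (r x.2), r x.2)

/-- a contact chart -/
structure CCh (S : Set X) (P : X → ((ℝ × X) →L[ℝ] ℝ) →L[ℝ] ℝ × X) (g : Y m → X) (r : X → Y m)
    (τ : Y m → ℝ) (O : Set (Y m)) (N : Set X) : Prop where
  par : Par S g r O N
  sr : ContDiff ℝ ∞ r
  sτ : ContDiff ℝ ∞ τ
  rel : ∀ x ∈ cy S, x.2 ∈ N → ∀ β : (ℝ × Y m) →L[ℝ] ℝ,
    fderiv ℝ (kap r τ) x (P x.2 (β.comp (fderiv ℝ (kap r τ) x))) =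
      exp (-τ (r x.2)) • P0 (r x.2) β

end Heis

/-! ### The contactisation, the cover, the circle -/

section Amb
variable {V : Type} [NormedAddCommGroup V] [NormedSpace ℝ V]

/-- `M × F` -/
def ov (M : Set V) (F : Type) : Set (V × F) := {x | x.1 ∈ M}

/-- the form `exp θ * (l - dp)` on `ℝ × (V × ℝ)` -/
def lS (l : V → V →L[ℝ] ℝ) (x : ℝ × (V × ℝ)) : (ℝ × (V × ℝ)) →L[ℝ] ℝ :=
  exp x.1 • ((l x.2.1).comp (ContinuousLinearMap.fst ℝ V ℝ) -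
    ContinuousLinearMap.snd ℝ V ℝ).comp (ContinuousLinearMap.snd ℝ ℝ (V × ℝ))

/-- the restriction of a covector to `V` -/
def rS (β : (ℝ × (V × ℝ)) →L[ℝ] ℝ) : V →L[ℝ] ℝ :=
  β.comp ((ContinuousLinearMap.inr ℝ ℝ (V × ℝ)).comp (ContinuousLinearMap.inl ℝ V ℝ))

variable [FiniteDimensional ℝ V]

/-- the inverse of `d lS` at `θ = 0` -/
def PS (l : V → V →L[ℝ] ℝ) (Pi : V → (V →L[ℝ] ℝ) →L[ℝ] V) (σ : V × ℝ) :
    ((ℝ × (V × ℝ)) →L[ℝ] ℝ) →L[ℝ] ℝ × (V × ℝ) :=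
  LinearMap.toContinuousLinearMap
    { toFun := fun β => (-β (0, 0, 1), Pi σ.1 (rS β + β (0, 0, 1) • l σ.1),
        l σ.1 (Pi σ.1 (rS β + β (0, 0, 1) • l σ.1)) + β (1, 0, 0))
      map_add' := fun u v => by
        have : rS (u + v) = rS u + rS v := rfl
        ext <;> simp [this, add_smul] <;> abel
      map_smul' := fun a v => by
        have : rS (a • v) = a • rS v := rfl
        ext <;> simp [this, mul_smul, mul_add] }

theorem PS_apply (l : V → V →L[ℝ] ℝ) (Pi : V → (V →L[ℝ] ℝ) →L[ℝ] V) (σ : V × ℝ)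
    (β : (ℝ × (V × ℝ)) →L[ℝ] ℝ) : PS l Pi σ β =
      (-β (0, 0, 1), Pi σ.1 (rS β + β (0, 0, 1) • l σ.1),
        l σ.1 (Pi σ.1 (rS β + β (0, 0, 1) • l σ.1)) + β (1, 0, 0)) := rfl

/-- the inverse of `d l + dp ∧ dθ` on the cover, points are `(x, θ, p)` -/
def PH (Pi : V → (V →L[ℝ] ℝ) →L[ℝ] V) (q : V × ℝ × ℝ) :
    ((V × ℝ × ℝ) →L[ℝ] ℝ) →L[ℝ] V × ℝ × ℝ :=
  LinearMap.toContinuousLinearMap
    { toFun := fun β => (Pi q.1 (β.comp (ContinuousLinearMap.inl ℝ V (ℝ × ℝ))), -β (0, 0, 1),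
        β (0, 1, 0))
      map_add' := fun u v => by
        ext <;> simp [ContinuousLinearMap.add_comp, add_comm]
      map_smul' := fun a v => by
        ext <;> simp [ContinuousLinearMap.smul_comp] }

theorem PH_apply (Pi : V → (V →L[ℝ] ℝ) →L[ℝ] V) (q : V × ℝ × ℝ) (β : (V × ℝ × ℝ) →L[ℝ] ℝ) :
    PH Pi q β = (Pi q.1 (β.comp (ContinuousLinearMap.inl ℝ V (ℝ × ℝ))), -β (0, 0, 1),
      β (0, 1, 0)) := rfl

/-- the Liouville field of `l + p dθ - c dp + d f` on the cover -/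
def XH (l : V → V →L[ℝ] ℝ) (Pi : V → (V →L[ℝ] ℝ) →L[ℝ] V) (c : ℝ) (f : V × ℝ × ℝ → ℝ)
    (q : V × ℝ × ℝ) : V × ℝ × ℝ :=
  (Pi q.1 (l q.1), c, q.2.2) + PH Pi q (fderiv ℝ f q)

omit [FiniteDimensional ℝ V] in
/-- `φ + p²` -/
def psH (φ : V → ℝ) (q : V × ℝ × ℝ) : ℝ := φ q.1 + q.2.2 ^ 2

omit [FiniteDimensional ℝ V] in
/-- from the cover to the symplectisation -/
def pr (fl : ℝ → V → V) (q : V × ℝ × ℝ) : ℝ × (V × ℝ) :=
  (q.2.1, fl (-q.2.1) q.1, exp (-q.2.1) * q.2.2)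

omit [FiniteDimensional ℝ V] in
/-- the flow of a cut-off of the Liouville field -/
structure Cut (M : Set V) (l : V → V →L[ℝ] ℝ) (Pi : V → (V →L[ℝ] ℝ) →L[ℝ] V) (φ : V → ℝ)
    (Z : V → V) (fl : ℝ → V → V) : Prop where
  sZ : ContDiff ℝ ∞ Z
  eq : ∀ x ∈ M, φ x ≤ 4 → Z x = Pi x (l x)
  flow : IsFlow Z fl
  inv : ∀ t, ∀ x ∈ M, φ x ≤ 5 → fl t x ∈ M ∧ φ (fl t x) ≤ 5

/-- data on the cover before gluing with `φ + p²` -/
structure Cov (M : Set V) (l : V → V →L[ℝ] ℝ) (Pi : V → (V →L[ℝ] ℝ) →L[ℝ] V) (φ : V → ℝ)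
    (a L : ℝ) (f Φ : V × ℝ × ℝ → ℝ) : Prop where
  L4 : 4 ≤ L
  sf : ContDiff ℝ ∞ f
  sΦ : ContDiff ℝ ∞ Φ
  supp : ∀ q ∈ ov M (ℝ × ℝ), q.2.1 ≤ a + 1 ∨ a + L - 1 ≤ q.2.1 ∨ 1 ≤ psH φ q →
    ∀ᶠ q' in 𝓝[ov M (ℝ × ℝ)] q, f q' = 0
  low : ∀ q ∈ ov M (ℝ × ℝ), psH φ q ≤ 2 → q.2.1 ≤ a + 1 → Φ q = q.2.1
  high : ∀ q ∈ ov M (ℝ × ℝ), psH φ q ≤ 2 → a + L - 1 ≤ q.2.1 → Φ q = q.2.1 - L
  lyap : ∀ q ∈ ov M (ℝ × ℝ), psH φ q ≤ 2 → Ly (ov M (ℝ × ℝ)) (XH l Pi 1 f) Φ q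

/-- data on the cover that descend to the circle of length `L` -/
structure Cov2 (M : Set V) (l : V → V →L[ℝ] ℝ) (Pi : V → (V →L[ℝ] ℝ) →L[ℝ] V) (φ : V → ℝ)
    (a L A B : ℝ) (G Φ : V × ℝ × ℝ → ℝ) : Prop where
  L4 : 4 ≤ L
  Apos : 0 < A
  sG : ContDiff ℝ ∞ G
  sΦ : ContDiff ℝ ∞ Φ
  per : ∀ x ∈ M, ∀ θ p, |θ - a| ≤ 1 →
    G (x, θ + L, p) = G (x, θ, p) ∧ Φ (x, θ + L, p) = Φ (x, θ, p)
  far : ∀ q ∈ ov M (ℝ × ℝ), 2 ≤ psH φ q → ∀ᶠ q' in 𝓝[ov M (ℝ × ℝ)] q, G q' = 0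
  lin : ∀ q ∈ ov M (ℝ × ℝ), 3 ≤ psH φ q → Φ q = A * psH φ q + B
  lyap : ∀ q ∈ ov M (ℝ × ℝ), |q.2.1 - (a + L / 2)| ≤ L → psH φ q ≤ 4 →
    Ly (ov M (ℝ × ℝ)) (XH l Pi 0 G) Φ q

omit [FiniteDimensional ℝ V] in
/-- the form `l + p (x dy - y dx)` on `V × ℂ × ℝ` -/
def lC (l : V → V →L[ℝ] ℝ) (q : V × ℂ × ℝ) : (V × ℂ × ℝ) →L[ℝ] ℝ :=
  (l q.1).comp (ContinuousLinearMap.fst ℝ V (ℂ × ℝ)) +
    q.2.2 • (Complex.imCLM.comp (ContinuousLinearMap.mul ℝ ℂ (starRingEnd ℂ q.2.1))).comp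
      ((ContinuousLinearMap.fst ℝ ℂ ℝ).comp (ContinuousLinearMap.snd ℝ V (ℂ × ℝ)))

/-- the inverse of `d lC` along the unit circle -/
def PC (Pi : V → (V →L[ℝ] ℝ) →L[ℝ] V) (q : V × ℂ × ℝ) :
    ((V × ℂ × ℝ) →L[ℝ] ℝ) →L[ℝ] V × ℂ × ℝ :=
  LinearMap.toContinuousLinearMap
    { toFun := fun β => (Pi q.1 (β.comp (ContinuousLinearMap.inl ℝ V (ℂ × ℝ))),
        -β (0, 0, 1) • (Complex.I * q.2.1), β (0, Complex.I * q.2.1, 0))
      map_add' := fun u v => by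
        ext <;> simp [ContinuousLinearMap.add_comp, add_comm, add_mul]
      map_smul' := fun a v => by
        ext <;> simp [ContinuousLinearMap.smul_comp, mul_assoc] }

theorem PC_apply (Pi : V → (V →L[ℝ] ℝ) →L[ℝ] V) (q : V × ℂ × ℝ) (β : (V × ℂ × ℝ) →L[ℝ] ℝ) :
    PC Pi q β = (Pi q.1 (β.comp (ContinuousLinearMap.inl ℝ V (ℂ × ℝ))),
      -β (0, 0, 1) • (Complex.I * q.2.1), β (0, Complex.I * q.2.1, 0)) := rfl

omit [FiniteDimensional ℝ V] in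
/-- `φ + (c p)²` -/
def psC (φ : V → ℝ) (c : ℝ) (q : V × ℂ × ℝ) : ℝ := φ q.1 + (c * q.2.2) ^ 2

omit [FiniteDimensional ℝ V] in
/-- the part `psC < 6` of `M × S¹ × ℝ` -/
def MC (M : Set V) (φ : V → ℝ) (c : ℝ) : Set (V × ℂ × ℝ) :=
  {q | q.1 ∈ M ∧ ‖q.2.1‖ = 1 ∧ psC φ c q < 6}

omit [FiniteDimensional ℝ V] in
/-- `l + dG` is Weinstein with the function `Φ` -/
structure Wein (S : Set V) (l : V → V →L[ℝ] ℝ) (Pi : V → (V →L[ℝ] ℝ) →L[ℝ] V) (ψ : V → ℝ)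
    (A B : ℝ) (G Φ : V → ℝ) : Prop where
  Apos : 0 < A
  sG : ContDiff ℝ ∞ G
  sΦ : ContDiff ℝ ∞ Φ
  far : ∀ q ∈ S, 2 ≤ ψ q → ∀ᶠ q' in 𝓝[S] q, G q' = 0
  lin : ∀ q ∈ S, 3 ≤ ψ q → Φ q = A * ψ q + B
  lyap : ∀ q ∈ S, ψ q ≤ 4 → Ly S (fun x => Pi x (l x + fderiv ℝ G x)) Φ q

omit [FiniteDimensional ℝ V] in
/-- `K` contains the starting points of the forward orbits that stay in `φ ≤ 3` -/
def Core (M : Set V) (l : V → V →L[ℝ] ℝ) (Pi : V → (V →L[ℝ] ℝ) →L[ℝ] V) (φ : V → ℝ)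
    (K : Set V) : Prop :=
  ∀ c : ℝ → V, (∀ t, 0 ≤ t → c t ∈ M ∧ φ (c t) ≤ 3 ∧ HasDerivAt c (Pi (c t) (l (c t))) t) →
    c 0 ∈ K

end Amb

/-! ### Manifolds -/

section Mfd
variable {E : Type} [NormedAddCommGroup E] [NormedSpace ℝ E] {H : Type} [TopologicalSpace H]
  (I : ModelWithCorners ℝ E H) {W : Type} [TopologicalSpace W] [ChartedSpace H W]

/-- the embedding of the part `ψ < 6` of `W` -/
structure EmbG (E' : Type) [NormedAddCommGroup E'] [NormedSpace ℝ E'] (l : OneForm I W)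
    (Z : VField I W) (ψ : W → ℝ) {V : Type} [NormedAddCommGroup V] [NormedSpace ℝ V] (e : W → V)
    (l' : V → V →L[ℝ] ℝ) (Pi : V → (V →L[ℝ] ℝ) →L[ℝ] V) (ψ' : V → ℝ) : Prop where
  ex : Exhausting I ψ
  shell : ∀ x, 2 ≤ ψ x → 0 < der I ψ x (Z x)
  sm : ContMDiff I 𝓘(ℝ, V) ∞ e
  smp : Smp E' (e '' {x | ψ x < 6}) l' Pi
  sψ : ContDiff ℝ ∞ ψ'
  fn : ∀ x, ψ x < 6 → ψ' (e x) = ψ x
  form : ∀ x, ψ x < 6 → ∀ v : E, l x v = l' (e x) (mfderiv I 𝓘(ℝ, V) e x v)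
  tg : ∀ x, ψ x < 6 → Tg (e '' {x | ψ x < 6}) (e x) = range (mfderiv I 𝓘(ℝ, V) e x)
  inj : ∀ x, ψ x < 6 → Function.Injective (mfderiv I 𝓘(ℝ, V) e x)
  inv : ∀ x, ψ x < 6 → ∃ ρ : V → W, ContMDiffAt 𝓘(ℝ, V) I ∞ ρ (e x) ∧
    ∀ᶠ v in 𝓝 (e x), ∀ x', ψ x' < 6 → e x' = v → ρ v = x'

end Mfd

/-- `W × S¹ × ℝ` is modelled on this -/
abbrev IC (d : ℕ) := (𝓡 d).prod ((𝓡 1).prod 𝓘(ℝ, ℝ))

section Cyl
variable {d : ℕ} {W : Type} [TopologicalSpace W] [ChartedSpace (Euc d) W]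

/-- the Liouville field of `l + p dθ` -/
def ZC (Z : VField (𝓡 d) W) : VField (IC d) (W × (Circle × ℝ)) := fun x =>
  (show Euc d × (Euc 1 × ℝ) from (Z x.1, 0, x.2.2))

/-- `e × id` -/
def eC {V : Type} (e : W → V) (x : W × (Circle × ℝ)) : V × ℂ × ℝ := (e x.1, x.2.1, x.2.2)

/-- `φ + (c p)²` -/
def psW (φ : W → ℝ) (c : ℝ) (x : W × (Circle × ℝ)) : ℝ := φ x.1 + (c * x.2.2) ^ 2

end Cyl

end

end Pool.Agent.MP_6d695c_gt.T1

end MrgPart0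

-- ======== part 1: formerly Pool.Agent.MP_6d695c_gt.t1.Spec
section MrgPart1

/-! PROJECT T1: module statements.  See /team-store/T1_6d695c_BLUEPRINT.md. -/

open scoped Manifold ContDiff Topology MeasureTheory
open Set Metric Filter Real

namespace Pool.Agent.MP_6d695c_gt.T1

open SW Theta

/-! ### General tools -/

/-- REL: a Lyapunov function is pulled back along a map that relates the fields -/
def RelStmt : Prop :=
  ∀ (X X' : Type) [NormedAddCommGroup X] [NormedSpace ℝ X] [FiniteDimensional ℝ X]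
    [NormedAddCommGroup X'] [NormedSpace ℝ X'] (S N : Set X) (S' : Set X') (A : X → X')
    (B : X' → X) (Z : X → X) (Z' : X' → X') (Φ : X → ℝ) (Φ' : X' → ℝ) (p : X) (c : ℝ),
    IsOpen N → p ∈ N → p ∈ S → ContDiffOn ℝ ∞ A N → DifferentiableAt ℝ B (A p) →
    ContDiff ℝ ∞ Φ → ContDiff ℝ ∞ Φ' →
    (∀ᶠ x in 𝓝[S] p, A x ∈ S' ∧ B (A x) = x ∧ Z x ∈ Tg S x ∧ fderiv ℝ A x (Z x) = Z' (A x) ∧
      Φ x = Φ' (A x) + c) →
    Ly S' Z' Φ' (A p) → Ly S Z Φ p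

/-- PREL: a conformally exact symplectic map relates the inverses of the symplectic forms -/
def PrelStmt : Prop :=
  ∀ (X X' E E' : Type) [NormedAddCommGroup X] [NormedSpace ℝ X] [NormedAddCommGroup X']
    [NormedSpace ℝ X'] [NormedAddCommGroup E] [NormedSpace ℝ E] [NormedAddCommGroup E']
    [NormedSpace ℝ E'] (S N : Set X) (S' : Set X') (l : X → X →L[ℝ] ℝ)
    (Pi : X → (X →L[ℝ] ℝ) →L[ℝ] X) (l' : X' → X' →L[ℝ] ℝ) (Pi' : X' → (X' →L[ℝ] ℝ) →L[ℝ] X')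
    (A : X → X') (k : ℝ) (p : X), Smp E S l Pi → Smp E' S' l' Pi' → IsOpen N → p ∈ N → p ∈ S →
    ContDiffOn ℝ ∞ A N →
    (∀ x ∈ S, x ∈ N → A x ∈ S' ∧ ∀ v ∈ Tg S x, l' (A x) (fderiv ℝ A x v) = k * l x v) →
    (∀ w ∈ Tg S' (A p), ∃ v ∈ Tg S p, fderiv ℝ A p v = w) →
    (∀ β : X' →L[ℝ] ℝ, fderiv ℝ A p (Pi p (β.comp (fderiv ℝ A p))) = k • Pi' (A p) β) ∧
      fderiv ℝ A p (Pi p (l p)) = Pi' (A p) (l' (A p))

/-- MODEL: the model is exact symplectic with Liouville field `∂ t` -/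
def ModelStmt : Prop :=
  ∀ m : ℕ, Smp (ℝ × Y m) univ lam0 (fun x : ℝ × Y m => exp (-x.1) • P0 x.2) ∧
    (∀ x : ℝ × Y m, exp (-x.1) • P0 x.2 (lam0 x) = (1, 0)) ∧
    ∀ f : ℝ × Y m → ℝ, ContDiff ℝ ∞ f → ContDiff ℝ ∞ (XY f)

/-- AUT: automorphisms relate the fields, and can be composed -/
def AutStmt : Prop :=
  ∀ (m : ℕ) (k : ℝ) (A A' : ℝ × Y m → ℝ × Y m), Aut k A A' →
    (∀ f : ℝ × Y m → ℝ, ContDiff ℝ ∞ f → ∀ x,
      fderiv ℝ A x (XY (fun x => k⁻¹ * f (A x)) x) = XY f (A x)) ∧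
    ∀ (k' : ℝ) (B B' : ℝ × Y m → ℝ × Y m), Aut k' B B' → Aut (k' * k) (B ∘ A) (A' ∘ B')

/-- AFF: translations and dilations -/
def AffStmt : Prop :=
  ∀ m : ℕ, (∀ c : ℝ, Aut (exp c) (fun x : ℝ × Y m => (x.1 + c, x.2)) fun x => (x.1 - c, x.2)) ∧
    (∀ (g : Y m) (w : ℝ), 0 < w → Aut (w⁻¹ ^ 2) (fun x => (x.1, mul g (dil w⁻¹ x.2)))
      fun x => (x.1, dil w (ldiv g x.2))) ∧
    (∀ (g : Y m) (w : ℝ) (F : Y m → ℝ), 0 < w → w ≤ 1 → ContDiff ℝ ∞ F → ∀ y,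
      ‖nab (fun y => F (dil w (ldiv g y))) y‖ ≤ w * ‖nab F (dil w (ldiv g y))‖) ∧
    (∀ F : Y m → ℝ, ContDiff ℝ ∞ F → HasCompactSupport F → ∃ C, 0 < C ∧ ∀ y, ‖nab F y‖ ≤ C) ∧
    ∀ (K : Set (Y m)) (w : ℝ), IsCompact K → μH[m + 1] K = 0 → μH[m + 1] (dil w '' K) = 0

/-- CALC: the field of `- exp t * a * h` -/
def CalcStmt : Prop :=
  ∀ (m : ℕ) (G h : Y m → ℝ) (a : ℝ × Y m → ℝ), CR G h → ContDiff ℝ ∞ a → ∀ x : ℝ × Y m,
    XY (fun x => -(exp x.1 * a x * h x.2)) x =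
      (1 + 2 * π * a x * G x.2 - h x.2 * fderiv ℝ a x (0, eR m),
        Lt x.2 ((a x + fderiv ℝ a x (1, 0)) * h x.2,
          fun j => a x * nab G x.2 (eA j) + h x.2 * fderiv ℝ a x (0, eB j),
          fun j => a x * nab G x.2 (eB j) - h x.2 * fderiv ℝ a x (0, Lt x.2 (eA j))))

/-! ### The trap in the model -/

/-- UNI: uniform constants -/
def UniStmt : Prop :=
  ∀ (m : ℕ) (G h : Y m → ℝ), CR G h → ∃ B r γ, Uni G h B r γ

/-- FLAT: flattening at the critical points -/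
def FlatStmt : Prop :=
  ∀ (m : ℕ) (G h : Y m → ℝ) (B r γ : ℝ), Uni G h B r γ → ∃ C, 1 ≤ C ∧
    ∀ (u : Y m → ℝ) (σ : ℝ), ContDiff ℝ ∞ u → 0 ≤ σ → (∀ y, ‖nab u y‖ ≤ σ) →
      ∃ u', Flat G (C * σ) u' ∧ ∀ y, |u' y - u y| ≤ C * σ

/-- PLUG1: the plug and its Lyapunov function -/
def MastStmt : Prop :=
  ∀ (m : ℕ) (G h : Y m → ℝ) (B r γ η : ℝ), Uni G h B r γ → 0 < η →
    ∃ Lm σ, 1 ≤ Lm ∧ 0 < σ ∧ ∀ ℓ u : Y m → ℝ, Flat G σ ℓ → Flat G σ u → (∀ y, -1 ≤ ℓ y) →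
      ∃ T B' δ f Λ, Mast G ℓ u γ Lm T B' δ f Λ ∧ δ * (2 * (T + B') + 2) ≤ η

/-- PLUG2: the monotone functions -/
def PlugStmt : Prop :=
  ∀ (m : ℕ) (G ℓ u : Y m → ℝ) (γ Lm η T B δ : ℝ) (f Λ : ℝ × Y m → ℝ), ContDiff ℝ ∞ G →
    ContDiff ℝ ∞ ℓ → ContDiff ℝ ∞ u → Mast G ℓ u γ Lm T B δ f Λ → 0 < γ → 1 ≤ Lm →
    δ * (2 * (T + B) + 2) ≤ min (γ / 4) (min (1 / 4) η) → ∃ Ξ E, Plug G ℓ u γ Lm η T B f Λ Ξ E

/-- FLOWA: the flow of stage A and its strict lift -/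
def FlowAStmt : Prop :=
  ∀ (m : ℕ) (G h : Y m → ℝ) (R : ℝ), CR G h →
    ∃ (Z : Y m → Y m) (fl : ℝ → Y m → Y m) (κ : ℝ → Y m → ℝ), ContDiff ℝ ∞ Z ∧ IsFlow Z fl ∧
      (∀ y, ‖y‖ ≤ R → Z y = VA G h y) ∧ ∀ S, (∃ M, ∀ y, |κ S y| ≤ M) ∧
        Aut 1 (fun x => (x.1 + κ S x.2, fl S x.2)) fun x => (x.1 + κ (-S) x.2, fl (-S) x.2)

/-- DISP: flat functions hardly change along the flow of stage A -/
def DispStmt : Prop :=
  ∀ (m : ℕ) (G h : Y m → ℝ) (B r γ : ℝ), Uni G h B r γ → ∃ C, 1 ≤ C ∧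
    ∀ (Z : Y m → Y m) (fl : ℝ → Y m → Y m) (R σ c : ℝ) (ℓ u : Y m → ℝ), IsFlow Z fl →
      (∀ y, ‖y‖ ≤ R → Z y = VA G h y) → Flat G σ ℓ → Flat G σ u → 0 ≤ σ → C * σ < 1 →
      (∀ y, ℓ y ≤ c + 1 → ‖y‖ ≤ R) → ∀ y, ℓ y ≤ c → ∀ s, |ℓ (fl s y) - ℓ y| ≤ C * σ ∧
        |u (fl s y) - u y| ≤ C * σ ∧ (0 ≤ s → G (fl s y) ≤ G y)

/-- ESC: a generic translate of a thin set escapes to `G < -γ` -/
def EscStmt : Prop :=
  ∀ (m : ℕ) (G h : Y m → ℝ) (B r γ R : ℝ) (Z : Y m → Y m) (fl : ℝ → Y m → Y m) (K : Set (Y m)),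
    Uni G h B r γ → ContDiff ℝ ∞ Z → IsFlow Z fl → (∀ y, ‖y‖ ≤ R + 1 → Z y = VA G h y) →
    IsCompact K → μH[m + 1] K = 0 → ∃ g : Y m, ‖g‖ ≤ 1 ∧ ∀ x ∈ K,
      (∀ s, 0 ≤ s → ‖fl s (mul g x)‖ ≤ R) → ∃ s, 0 ≤ s ∧ G (fl s (mul g x)) < -γ

/-- TRF: a plug is pulled back by an automorphism -/
def TrfStmt : Prop :=
  ∀ (m : ℕ) (G ℓ u' u ρ κ : Y m → ℝ) (ϕ : Y m → Y m) (γ Lm η T B k M : ℝ)
    (f Λ Ξ E : ℝ × Y m → ℝ) (A' : ℝ × Y m → ℝ × Y m) (U : Set (Y m)),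
    Plug G ℓ u' γ Lm η T B f Λ Ξ E → Aut k (fun x => (x.1 + κ x.2, ϕ x.2)) A' →
    (∀ y, |κ y| ≤ M) → ContDiff ℝ ∞ u' → ContDiff ℝ ∞ u → ContDiff ℝ ∞ ρ →
    IsCompact {y | ρ y ≤ Lm + 1} → {y | ρ y ≤ Lm + 1} ⊆ U →
    (∀ y, ℓ (ϕ y) < Lm → ρ y ≤ Lm + 1 / 4) → (∀ y, ρ y ≤ Lm + 1 → |u' (ϕ y) - u y| ≤ η) →
    ∃ T' B' f' Λ' Ξ' E', Raw U u (2 * η) T' B' {y | ρ y ≤ Lm + 1}
      {y | G (ϕ y) < -γ ∧ ℓ (ϕ y) < 1 / 4} f' Λ' Ξ' E'

/-- TRAP: the trap in the model -/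
def RawStmt : Prop :=
  ∀ (m : ℕ) (K U : Set (Y m)) (u : Y m → ℝ) (η : ℝ), IsCompact K → IsOpen U → K ⊆ U →
    μH[m + 1] K = 0 → ContDiff ℝ ∞ u → HasCompactSupport u → 0 < η →
    ∃ T B C O f Λ Ξ E, IsOpen O ∧ K ⊆ O ∧ Raw U u η T B C O f Λ Ξ E

/-- NORM: normalisation at every height -/
def NrmStmt : Prop :=
  ∀ (m : ℕ) (U C O : Set (Y m)) (τ u : Y m → ℝ) (η T B : ℝ) (f Λ Ξ E : ℝ × Y m → ℝ),
    IsOpen U → ContDiff ℝ ∞ τ → ContDiff ℝ ∞ u → Raw U u η T B C O f Λ Ξ E →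
    ∃ H D, 0 < H ∧ ∀ s, ∃ f' Λ' Ξ' E', Nrm U τ u η (s - H) s D O f' Λ' Ξ' E'

/-! ### Symplectisations -/

/-- ONE: the trap in a contact chart -/
def OneStmt : Prop :=
  ∀ (X : Type) [NormedAddCommGroup X] [NormedSpace ℝ X] [FiniteDimensional ℝ X] (m : ℕ)
    (S Ω K N : Set X) (P : X → ((ℝ × X) →L[ℝ] ℝ) →L[ℝ] ℝ × X) (g : Y m → X) (r : X → Y m)
    (τ : Y m → ℝ) (O : Set (Y m)), Sy S P → CCh S P g r τ O N → IsOpen Ω → IsCompact K →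
    K ⊆ S → K ⊆ N → K ⊆ Ω → μH[m + 1] (r '' K) = 0 → Fine S P Ω K

/-- STACK: one more trap on top -/
def StackStmt : Prop :=
  ∀ (X : Type) [NormedAddCommGroup X] [NormedSpace ℝ X] [FiniteDimensional ℝ X]
    (S Ω : Set X) (P : X → ((ℝ × X) →L[ℝ] ℝ) →L[ℝ] ℝ × X), Sy S P → Traps S P Ω ∅ ∧
      ∀ K K', IsCompact K → Traps S P Ω K → Fine S P Ω K' → Traps S P Ω (K ∪ K')

/-- SYMP: the symplectisation of the contactisation, and the cover -/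
def SympStmt : Prop :=
  ∀ (V E : Type) [NormedAddCommGroup V] [NormedSpace ℝ V] [FiniteDimensional ℝ V]
    [NormedAddCommGroup E] [NormedSpace ℝ E] (M : Set V) (l : V → V →L[ℝ] ℝ)
    (Pi : V → (V →L[ℝ] ℝ) →L[ℝ] V), Smp E M l Pi →
    Sy (ov M ℝ) (PS l Pi) ∧
    Smp (ℝ × (E × ℝ)) (cy (ov M ℝ)) (lS l) (fun x => exp (-x.1) • PS l Pi x.2) ∧
    (∀ x : ℝ × (V × ℝ), exp (-x.1) • PS l Pi x.2 (lS l x) = (1, 0)) ∧
    (∀ x v : ℝ × (V × ℝ), x.2.1 ∈ M → (v ∈ Tg (cy (ov M ℝ)) x ↔ v.2.1 ∈ Tg M x.2.1)) ∧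
    (∀ q v : V × ℝ × ℝ, q.1 ∈ M → (v ∈ Tg (ov M (ℝ × ℝ)) q ↔ v.1 ∈ Tg M q.1)) ∧
    Smp (E × ℝ × ℝ) (ov M (ℝ × ℝ)) (fun q => (l q.1).comp (ContinuousLinearMap.fst ℝ V (ℝ × ℝ)) +
      (q.2.2 • ContinuousLinearMap.fst ℝ ℝ ℝ - ContinuousLinearMap.snd ℝ ℝ ℝ).comp
        (ContinuousLinearMap.snd ℝ V (ℝ × ℝ))) (PH Pi)

/-- CHART: contact charts -/
def ChartStmt : Prop :=
  ∀ (V : Type) [NormedAddCommGroup V] [NormedSpace ℝ V] [FiniteDimensional ℝ V] (n : ℕ)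
    (M : Set V) (l : V → V →L[ℝ] ℝ) (Pi : V → (V →L[ℝ] ℝ) →L[ℝ] V) (φ : V → ℝ) (s : ℝ),
    Amb (Euc (2 * n)) M l Pi φ s → ∀ x ∈ M, φ x < 1 →
    ∃ (g : Y n → V × ℝ) (r : V × ℝ → Y n) (τ : Y n → ℝ) (O : Set (Y n)) (N : Set (V × ℝ)),
      CCh (ov M ℝ) (PS l Pi) g r τ O N ∧ (x, 0) ∈ N

/-- TOP: the stack of traps for the skeleton -/
def TopStmt : Prop :=
  ∀ (V : Type) [NormedAddCommGroup V] [NormedSpace ℝ V] [FiniteDimensional ℝ V]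
    [MeasurableSpace V] [BorelSpace V] (n : ℕ)
    (M K : Set V) (l : V → V →L[ℝ] ℝ) (Pi : V → (V →L[ℝ] ℝ) →L[ℝ] V) (φ : V → ℝ) (s : ℝ),
    Amb (Euc (2 * n)) M l Pi φ s → IsCompact K → (∀ x ∈ K, x ∈ M ∧ φ x < 1) →
    μH[n + 1] K = 0 →
    Traps (ov M ℝ) (PS l Pi) {σ | φ σ.1 + σ.2 ^ 2 < 1} ((fun x => (x, (0 : ℝ))) '' K)

/-! ### The cover -/

/-- ABS: monotonicity and absorption -/
def AbsStmt : Prop :=
  ∀ (V E : Type) [NormedAddCommGroup V] [NormedSpace ℝ V] [FiniteDimensional ℝ V]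
    [NormedAddCommGroup E] [NormedSpace ℝ E] (M K₀ : Set V) (l : V → V →L[ℝ] ℝ)
    (Pi : V → (V →L[ℝ] ℝ) →L[ℝ] V) (φ : V → ℝ) (Z : V → V) (fl : ℝ → V → V),
    Amb E M l Pi φ (1 / 8) → (∀ x ∈ M, 0 ≤ fderiv ℝ φ x (Pi x (l x))) → Cut M l Pi φ Z fl →
    Core M l Pi φ K₀ →
    (∀ x ∈ M, φ x ≤ 5 → ∀ s t, s ≤ t → φ (fl t x) < 4 → φ (fl s x) ≤ φ (fl t x)) ∧
    ∃ K, IsCompact K ∧ K ⊆ K₀ ∧ (∀ x ∈ K, x ∈ M ∧ φ x < 1) ∧
      ∀ O : Set (V × ℝ), IsOpen O → (fun x => (x, (0 : ℝ))) '' K ⊆ O → ∃ L₀, 0 ≤ L₀ ∧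
        ∀ q ∈ ov M (ℝ × ℝ), psH φ q ≤ 2 → L₀ ≤ q.2.1 → (pr fl q).2 ∈ O

/-- LIE: the map `pr` relates the inverses of the symplectic forms -/
def LieStmt : Prop :=
  ∀ (V E : Type) [NormedAddCommGroup V] [NormedSpace ℝ V] [FiniteDimensional ℝ V]
    [NormedAddCommGroup E] [NormedSpace ℝ E] (M : Set V) (l : V → V →L[ℝ] ℝ)
    (Pi : V → (V →L[ℝ] ℝ) →L[ℝ] V) (φ : V → ℝ) (Z : V → V) (fl : ℝ → V → V),
    Smp E M l Pi → ContDiff ℝ ∞ φ → Cut M l Pi φ Z fl → ContDiff ℝ ∞ (pr fl) ∧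
    ∀ q ∈ ov M (ℝ × ℝ), φ q.1 < 4 →
      fderiv ℝ (pr fl) q (Pi q.1 (l q.1), 1, q.2.2) = (1, 0) ∧
      ((∀ t ∈ uIcc 0 (-q.2.1), φ (fl t q.1) < 4) → ∀ β : (ℝ × (V × ℝ)) →L[ℝ] ℝ,
        fderiv ℝ (pr fl) q (PH Pi q (β.comp (fderiv ℝ (pr fl) q))) =
          exp (-q.2.1) • PS l Pi (pr fl q).2 β)

/-- COV: the data on the cover -/
def CovStmt : Prop :=
  ∀ (V : Type) [NormedAddCommGroup V] [NormedSpace ℝ V] [FiniteDimensional ℝ V]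
    [MeasurableSpace V] [BorelSpace V] (n : ℕ)
    (M K₀ : Set V) (l : V → V →L[ℝ] ℝ) (Pi : V → (V →L[ℝ] ℝ) →L[ℝ] V) (φ : V → ℝ),
    Amb (Euc (2 * n)) M l Pi φ (1 / 8) → (∀ x ∈ M, 0 ≤ fderiv ℝ φ x (Pi x (l x))) →
    Core M l Pi φ K₀ → μH[n + 1] K₀ = 0 → ∃ a L f Φ, Cov M l Pi φ a L f Φ

/-- GLUE: gluing with `φ + p²` -/
def GlueStmt : Prop :=
  ∀ (V E : Type) [NormedAddCommGroup V] [NormedSpace ℝ V] [FiniteDimensional ℝ V]
    [NormedAddCommGroup E] [NormedSpace ℝ E] (M : Set V) (l : V → V →L[ℝ] ℝ)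
    (Pi : V → (V →L[ℝ] ℝ) →L[ℝ] V) (φ : V → ℝ) (a L : ℝ) (f Φ : V × ℝ × ℝ → ℝ),
    Amb E M l Pi φ (1 / 8) → (∀ x ∈ M, 0 ≤ fderiv ℝ φ x (Pi x (l x))) → Cov M l Pi φ a L f Φ →
    ∃ A B G Φ', Cov2 M l Pi φ a L A B G Φ'

/-- CIRC: from the cover to the circle -/
def CircStmt : Prop :=
  ∀ (V E : Type) [NormedAddCommGroup V] [NormedSpace ℝ V] [FiniteDimensional ℝ V]
    [NormedAddCommGroup E] [NormedSpace ℝ E] (M : Set V) (l : V → V →L[ℝ] ℝ)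
    (Pi : V → (V →L[ℝ] ℝ) →L[ℝ] V) (φ : V → ℝ) (a L A B : ℝ) (G Φ : V × ℝ × ℝ → ℝ),
    Smp E M l Pi → ContDiff ℝ ∞ φ → Cov2 M l Pi φ a L A B G Φ →
    Smp (E × ℝ × ℝ) (MC M φ (2 * π / L)) (lC l) (PC Pi) →
    ∃ G' Φ', Wein (MC M φ (2 * π / L)) (lC l) (PC Pi) (psC φ (2 * π / L)) A B G' Φ'

/-- SMPC: the product with the circle inside the vector space -/
def SmpCStmt : Prop :=
  ∀ (V E : Type) [NormedAddCommGroup V] [NormedSpace ℝ V] [FiniteDimensional ℝ V]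
    [NormedAddCommGroup E] [NormedSpace ℝ E] (M : Set V) (l : V → V →L[ℝ] ℝ)
    (Pi : V → (V →L[ℝ] ℝ) →L[ℝ] V) (φ : V → ℝ) (c : ℝ), Smp E M l Pi → Continuous φ →
    Smp (E × ℝ × ℝ) (MC M φ c) (lC l) (PC Pi) ∧ ∀ q ∈ MC M φ c, ∀ v : V × ℂ × ℝ,
      v ∈ Tg (MC M φ c) q ↔ v.1 ∈ Tg M q.1 ∧ ∃ a : ℝ, v.2.1 = a • (Complex.I * q.2.1)

/-! ### Manifolds -/

/-- PRODC: the product with the cotangent bundle of the circle is Liouville -/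
def ProdCStmt : Prop :=
  ∀ (d : ℕ) (W : Type) [TopologicalSpace W] [ChartedSpace (Euc d) W] [IsManifold (𝓡 d) ∞ W]
    (l : OneForm (𝓡 d) W) (Z : VField (𝓡 d) W), IsLiouville (𝓡 d) l Z →
    IsLiouville (IC d) (cyl l) (ZC Z)

/-- EMBC: the embedding of the product -/
def EmbCStmt : Prop :=
  ∀ (d : ℕ) (W V : Type) [TopologicalSpace W] [ChartedSpace (Euc d) W] [IsManifold (𝓡 d) ∞ W]
    [NormedAddCommGroup V] [NormedSpace ℝ V] [FiniteDimensional ℝ V] (l : OneForm (𝓡 d) W)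
    (Z : VField (𝓡 d) W) (φ : W → ℝ) (e : W → V) (l' : V → V →L[ℝ] ℝ)
    (Pi : V → (V →L[ℝ] ℝ) →L[ℝ] V) (φ' : V → ℝ) (c : ℝ), Emb l Z φ e l' Pi φ' → 0 < c →
    eC e '' {x | psW φ c x < 6} = MC (e '' {x | φ x < 6}) φ' c ∧
    EmbG (IC d) (Euc d × ℝ × ℝ) (cyl l) (ZC Z) (psW φ c) (eC e) (lC l') (PC Pi) (psC φ' c)

/-- FING: from the ambient space to the manifold -/
def FinGStmt : Prop :=
  ∀ (E : Type) [NormedAddCommGroup E] [NormedSpace ℝ E] [FiniteDimensional ℝ E] (H : Type)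
    [TopologicalSpace H] (I : ModelWithCorners ℝ E H) [I.Boundaryless] (W : Type)
    [TopologicalSpace W] [ChartedSpace H W] [IsManifold I ∞ W] (V E' : Type)
    [NormedAddCommGroup V] [NormedSpace ℝ V] [FiniteDimensional ℝ V] [NormedAddCommGroup E']
    [NormedSpace ℝ E'] [FiniteDimensional ℝ E'] (l : OneForm I W) (Z : VField I W) (ψ : W → ℝ)
    (e : W → V) (l' : V → V →L[ℝ] ℝ) (Pi : V → (V →L[ℝ] ℝ) →L[ℝ] V) (ψ' G Φ : V → ℝ) (A B : ℝ),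
    IsLiouville I l Z → EmbG I E' l Z ψ e l' Pi ψ' →
    Wein (e '' {x | ψ x < 6}) l' Pi ψ' A B G Φ → ∃ l₁, Homotopic I l l₁ ∧ WeinsteinMfd I l₁

/-- SKEL: the image of the skeleton -/
def SkelStmt : Prop :=
  ∀ (d : ℕ) (W V : Type) [TopologicalSpace W] [ChartedSpace (Euc d) W] [IsManifold (𝓡 d) ∞ W]
    [NormedAddCommGroup V] [NormedSpace ℝ V] [FiniteDimensional ℝ V] [MeasurableSpace V]
    [BorelSpace V] (l : OneForm (𝓡 d) W) (Z : VField (𝓡 d) W) (φ : W → ℝ) (e : W → V)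
    (l' : V → V →L[ℝ] ℝ) (Pi : V → (V →L[ℝ] ℝ) →L[ℝ] V) (φ' : V → ℝ) (s : ℝ),
    IsLiouville (𝓡 d) l Z → Emb l Z φ e l' Pi φ' → 0 < s → Thin d s (skeleton Z) →
    ∃ K₀ : Set V, Core (e '' {x | φ x < 6}) l' Pi φ' K₀ ∧ μH[s] K₀ = 0

/-- STRAT: stratified sets are thin -/
def StratStmt : Prop :=
  ∀ (d n : ℕ) (W : Type) [TopologicalSpace W] [ChartedSpace (Euc d) W] [IsManifold (𝓡 d) ∞ W]
    (K : Set W), Stratified d n K → Thin d (n + 1) K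

/-! ### Small shared lemmas -/

section Small
variable {X : Type} [NormedAddCommGroup X] [NormedSpace ℝ X] {E : Type} [NormedAddCommGroup E]
  [NormedSpace ℝ E] {S S' : Set X} {l : X → X →L[ℝ] ℝ} {Pi : X → (X →L[ℝ] ℝ) →L[ℝ] X}
  {Z Z' : X → X} {Φ Φ' : X → ℝ} {x : X}

theorem smp_of_amb {φ : X → ℝ} {s : ℝ} (h : Amb E S l Pi φ s) : Smp E S l Pi :=
  ⟨h.sub, h.sl, h.sP, h.tan, h.dual⟩

theorem Smp.nondeg (h : Smp E S l Pi) {u : X} (hx : x ∈ S) (hu : u ∈ Tg S x)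
    (h0 : ∀ v ∈ Tg S x, dd l x u v = 0) : u = 0 := by
  obtain ⟨α, -, hα⟩ := exists_dual_vector'' ℝ u
  have h1 := h.dual x hx α u hu
  rw [dd_anti, h0 _ (h.tan x hx α), hα] at h1
  simpa using h1.symm

theorem Smp.uniq (h : Smp E S l Pi) {u : X} {α : X →L[ℝ] ℝ} (hx : x ∈ S) (hu : u ∈ Tg S x)
    (h0 : ∀ v ∈ Tg S x, dd l x u v = α v) : u = Pi x α :=
  sub_eq_zero.1 (h.nondeg hx (h.sub.tg_sub hx hu (h.tan x hx α)) fun v hv => by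
    rw [dd_sub_left, h0 v hv, h.dual x hx α v hv, sub_self])

theorem Smp.congr (h : Smp E S l Pi) {α β : X →L[ℝ] ℝ} (hx : x ∈ S)
    (h0 : ∀ v ∈ Tg S x, α v = β v) : Pi x α = Pi x β :=
  h.uniq hx (h.tan x hx α) fun v hv => by rw [h.dual x hx α v hv, h0 v hv]

theorem Smp.self (h : Smp E S l Pi) (hx : x ∈ S) (α : X →L[ℝ] ℝ) : α (Pi x α) = 0 := by
  rw [← h.dual x hx α _ (h.tan x hx α)]
  exact sub_self _

theorem Ly.le (h : Ly S Z Φ x) (hx : x ∈ S)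
    (hle : ∀ᶠ y in 𝓝[S] x, fderiv ℝ Φ y (Z y) ≤ fderiv ℝ Φ' y (Z y)) : Ly S Z Φ' x := by
  rcases h with h | ⟨u, h1, h2⟩
  · exact Or.inl (h.trans_le (hle.self_of_nhdsWithin hx))
  · exact Or.inr ⟨u, h1, (h2.and hle).mono fun y hy => hy.1.trans hy.2⟩

theorem Ly.congr (h : Ly S Z Φ x) (hx : x ∈ S) (he : ∀ᶠ y in 𝓝[S] x, Z' y = Z y) :
    Ly S Z' Φ x := by
  have h0 := he.self_of_nhdsWithin hx
  rcases h with h | ⟨u, ⟨h1, h2, h3, c, hc, h4⟩, h5⟩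
  · exact Or.inl (by rwa [h0])
  · exact Or.inr ⟨u, ⟨h0.trans h1, h2, h3, c, hc, (h4.and he).mono fun y hy => by
      rw [hy.2]; exact hy.1⟩, (h5.and he).mono fun y hy => by rw [hy.2]; exact hy.1⟩

theorem Ly.mono (h : Ly S Z Φ x) (hS : 𝓝[S'] x ≤ 𝓝[S] x) : Ly S' Z Φ x := by
  rcases h with h | ⟨u, ⟨h1, h2, h3, c, hc, h4⟩, h5⟩
  · exact Or.inl h
  · exact Or.inr ⟨u, ⟨h1, h2, h3, c, hc, hS h4⟩, hS h5⟩

theorem Ly.nonneg (h : Ly S Z Φ x) : 0 ≤ fderiv ℝ Φ x (Z x) := by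
  rcases h with h | ⟨u, h1, -⟩
  · exact h.le
  · rw [h1.1, map_zero]

theorem Ly.pos (h : Ly S Z Φ x) (h0 : Z x ≠ 0) : 0 < fderiv ℝ Φ x (Z x) :=
  h.resolve_right fun ⟨_, h1, _⟩ => h0 h1.1

theorem tg_univ (x v : X) : v ∈ Tg (univ : Set X) x :=
  ⟨fun t => x + t • v, by simp, by
    simpa using ((hasDerivAt_id (0 : ℝ)).smul_const v).const_add x, by simp⟩

omit [NormedAddCommGroup X] [NormedSpace ℝ X] in
theorem cy_univ : cy (univ : Set X) = univ := rfl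

variable {P : X → ((ℝ × X) →L[ℝ] ℝ) →L[ℝ] ℝ × X} {f f' : ℝ × X → ℝ} {q : ℝ × X}

theorem XS_of_zero (h : ∀ᶠ y in 𝓝 q, f y = 0) : XS P f q = (1, 0) := by
  have : fderiv ℝ f q = 0 := by
    rw [Filter.EventuallyEq.fderiv_eq (f := fun _ => (0 : ℝ)) h]
    simp
  rw [XS, this, map_zero, smul_zero, add_zero]

theorem Sy.tanX (h : Sy S P) (hq : q ∈ cy S) : XS P f q ∈ Tg (cy S) q := h.tan q hq _ _

theorem Sy.XS_congr (h : Sy S P) (hq : q ∈ cy S) (hf : DifferentiableAt ℝ f q)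
    (hf' : DifferentiableAt ℝ f' q) (he : ∀ᶠ y in 𝓝[cy S] q, f y = f' y) :
    XS P f q = XS P f' q := by
  rw [XS, XS, h.congr q hq _ _ fun v hv => fderiv_congr_tg hf hf' hq he hv]

theorem Sy.XS_zero (h : Sy S P) (hq : q ∈ cy S) (hf : DifferentiableAt ℝ f q)
    (he : ∀ᶠ y in 𝓝[cy S] q, f y = 0) : XS P f q = (1, 0) :=
  (h.XS_congr hq hf (differentiableAt_const 0) he).trans (XS_of_zero (.of_forall fun _ => rfl))

end Small

section Grp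
variable {m : ℕ}

theorem Lt_Lt (p p' ξ : Y m) : Lt p (Lt p' ξ) = Lt (p + p') ξ := by
  simp only [Lt_apply, Prod.snd_add, Pi.add_apply, add_mul, Finset.sum_add_distrib]
  congr 1
  ring

theorem Lt_congr {p p' : Y m} (h : p.2.2 = p'.2.2) : Lt p = Lt p' :=
  ContinuousLinearMap.ext fun ξ => by rw [Lt_apply, Lt_apply, h]

theorem Lt_zero (ξ : Y m) : Lt 0 ξ = ξ := by simp [Lt_apply]

theorem Lt_neg_Lt (p ξ : Y m) : Lt (-p) (Lt p ξ) = ξ := by rw [Lt_Lt, neg_add_cancel, Lt_zero]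

theorem Lt_Lt_neg (p ξ : Y m) : Lt p (Lt (-p) ξ) = ξ := by rw [Lt_Lt, add_neg_cancel, Lt_zero]

theorem ldiv_mul (p η : Y m) : ldiv p (mul p η) = η := by
  rw [ldiv, mul, add_sub_cancel_left, Lt_neg_Lt]

theorem mul_ldiv (p y : Y m) : mul p (ldiv p y) = y := by
  rw [ldiv, mul, Lt_Lt_neg, add_sub_cancel]

theorem nab_apply (F : Y m → ℝ) (y ξ : Y m) : nab F y ξ = fderiv ℝ F y (Lt y ξ) := rfl

theorem Lt_eR (y : Y m) : Lt y (eR m) = eR m := by simp [Lt_apply, eR]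

theorem Lt_eB (y : Y m) (j : Fin m) : Lt y (eB j) = eB j := by simp [Lt_apply, eB]

theorem Lt_eA (y : Y m) (j : Fin m) : Lt y (eA j) = (-y.2.2 j, Pi.single j 1, 0) := by
  simp [Lt_apply, eA, Pi.single_apply]

theorem nab_eq_zero {F : Y m → ℝ} {y : Y m} : nab F y = 0 ↔ fderiv ℝ F y = 0 :=
  ⟨fun h => ContinuousLinearMap.ext fun v => by
    rw [← Lt_Lt_neg y v, ← nab_apply, h]
    rfl, fun h => by rw [nab, h, ContinuousLinearMap.zero_comp]⟩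

theorem contDiff_Lt : ContDiff ℝ ∞ (Lt : Y m → Y m →L[ℝ] Y m) :=
  contDiff_clm_apply_iff.2 fun ξ => by
    simp only [Lt_apply]
    fun_prop

theorem contDiff_nab {F : Y m → ℝ} (hF : ContDiff ℝ ∞ F) : ContDiff ℝ ∞ (nab F) :=
  (hF.fderiv_right (m := ∞) (by simp)).clm_comp contDiff_Lt

theorem expand (β : Y m →L[ℝ] ℝ) (ξ : Y m) :
    β ξ = ξ.1 * β (eR m) + ∑ j, ξ.2.1 j * β (eA j) + ∑ j, ξ.2.2 j * β (eB j) := by
  have e : ∀ x : Fin m → ℝ, ∑ j, x j • (Pi.single j 1 : Fin m → ℝ) = x := fun x =>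
    (pi_eq_sum_univ' x).symm
  have : ξ = ξ.1 • eR m + ∑ j, ξ.2.1 j • eA j + ∑ j, ξ.2.2 j • eB j := by
    refine Prod.ext ?_ (Prod.ext ?_ ?_)
    all_goals simp [Prod.fst_sum, Prod.snd_sum, e, eR, eA, eB]
  conv_lhs => rw [this]
  simp only [map_add, map_sum, map_smul, smul_eq_mul]

end Grp

end Pool.Agent.MP_6d695c_gt.T1

end MrgPart1

-- ======== part 2: formerly Pool.Agent.MP_6d695c_gt.t1.Model
section MrgPart2

/-! PROJECT T1: the model symplectisation, its automorphisms, the field of the plug. -/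

open scoped Manifold ContDiff Topology MeasureTheory
open Set Metric Filter Real

namespace Pool.Agent.MP_6d695c_gt.T1

open SW Theta

namespace Model

variable {m : ℕ}

theorem lam0_apply (x v : ℝ × Y m) :
    lam0 x v = exp x.1 * (v.2.1 + ∑ j, x.2.2.2 j * v.2.2.1 j) := by
  simp [lam0, al0, Lt_apply]

theorem lam0_smooth : ContDiff ℝ ∞ (lam0 (m := m)) :=
  contDiff_clm_apply_iff.2 fun v => by
    simp only [lam0_apply]
    fun_prop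

theorem P0_smooth : ContDiff ℝ ∞ (P0 (m := m)) :=
  contDiff_clm_apply_iff.2 fun β => by
    simp only [P0_apply]
    refine contDiff_const.prodMk (contDiff_Lt.clm_apply (contDiff_const.prodMk
      (contDiff_const.prodMk (contDiff_pi.2 fun j => β.contDiff.comp
        (contDiff_const.prodMk (contDiff_Lt.clm_apply contDiff_const))))))

theorem der_lam0 (x u v : ℝ × Y m) : fderiv ℝ lam0 x u v =
    exp x.1 * (u.1 * (v.2.1 + ∑ j, x.2.2.2 j * v.2.2.1 j) + ∑ j, u.2.2.2 j * v.2.2.1 j) := by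
  have d0 := ((lam0_smooth.differentiable (by simp) x).hasFDerivAt.clm_apply
    (hasFDerivAt_const v x))
  have db : ∀ j, HasFDerivAt (fun y : ℝ × Y m => y.2.2.2 j) _ x := fun j =>
    ((ContinuousLinearMap.proj j).comp ((ContinuousLinearMap.snd ℝ _ _).comp
      ((ContinuousLinearMap.snd ℝ _ _).comp (ContinuousLinearMap.snd ℝ ℝ (Y m))))).hasFDerivAt
  have d1 : HasFDerivAt (fun y : ℝ × Y m => exp y.1 * (v.2.1 + ∑ j, y.2.2.2 j * v.2.2.1 j)) _ x :=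
    hasFDerivAt_fst.exp.fun_mul ((HasFDerivAt.fun_sum (u := Finset.univ) fun j _ =>
      (db j).mul_const (v.2.2.1 j)).const_add v.2.1)
  simp only [lam0_apply] at d0
  have e := congrArg (fun A : ℝ × Y m →L[ℝ] ℝ => A u) (d0.unique d1)
  simp at e
  rw [e]
  simp only [mul_comm (v.2.2.1 _)]
  ring

theorem expand' (β : ℝ × Y m →L[ℝ] ℝ) (y : Y m) (v : ℝ × Y m) :
    β v = v.1 * β (1, 0) + (v.2.1 + ∑ j, y.2.2 j * v.2.2.1 j) * β (0, eR m) +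
      ∑ j, v.2.2.1 j * β (0, Lt y (eA j)) + ∑ j, v.2.2.2 j * β (0, eB j) := by
  have e := expand (β.comp ((ContinuousLinearMap.inr ℝ ℝ (Y m)).comp (Lt y))) (Lt (-y) v.2)
  simp only [ContinuousLinearMap.comp_apply, Lt_Lt_neg, Lt_eR, Lt_eB,
    ContinuousLinearMap.inr_apply] at e
  have e2 : β v = v.1 * β (1, 0) + β (0, v.2) := by
    rw [← smul_eq_mul, ← map_smul, ← map_add]
    simp
  rw [e2, e]
  simp [Lt_apply (-y)]
  ring

theorem dual (x : ℝ × Y m) (β : ℝ × Y m →L[ℝ] ℝ) (v : ℝ × Y m) :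
    dd lam0 x (exp (-x.1) • P0 x.2 β) v = β v := by
  have e : exp x.1 * exp (-x.1) = 1 := by rw [← exp_add, add_neg_cancel, exp_zero]
  rw [dd, der_lam0, der_lam0, expand' β x.2 v, P0_apply, Lt_apply]
  simp only [Prod.smul_mk, smul_eq_mul, Pi.smul_apply, mul_neg, Finset.sum_neg_distrib,
    mul_left_comm _ (exp (-x.1)), mul_assoc (exp (-x.1)), ← Finset.mul_sum,
    mul_comm (β _) (v.2.2.1 _)]
  linear_combination (v.1 * β (1, 0) + (v.2.1 + ∑ j, x.2.2.2 j * v.2.2.1 j) * β (0, eR m) +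
      ∑ j, v.2.2.1 j * β (0, Lt x.2 (eA j)) + ∑ j, v.2.2.2 j * β (0, eB j)) * e

theorem smp : Smp (ℝ × Y m) univ lam0 (fun x : ℝ × Y m => exp (-x.1) • P0 x.2) where
  sub := fun _ _ => ⟨id, id, univ, univ, ⟨isOpen_univ, isOpen_univ, contDiffOn_id, contDiffOn_id,
    fun _ _ => ⟨trivial, trivial, rfl⟩, fun _ _ _ => ⟨trivial, rfl⟩⟩, trivial⟩
  sl := lam0_smooth
  sP := contDiff_clm_apply_iff.2 fun β => (contDiff_exp.comp contDiff_fst.neg).smul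
    ((P0_smooth.comp contDiff_snd).clm_apply (contDiff_const (c := β)))
  tan := fun x _ _ => tg_univ x _
  dual := fun x _ β v _ => dual x β v

theorem liou (x : ℝ × Y m) : exp (-x.1) • P0 x.2 (lam0 x) = (1, 0) := by
  have e : exp (-x.1) * exp x.1 = 1 := by rw [← exp_add, neg_add_cancel, exp_zero]
  have z : ((0, fun _ => 0, fun _ => 0) : Y m) = 0 := rfl
  rw [P0_apply]
  simp [lam0_apply, Lt_eA, eR, eB, Pi.single_apply, e, z]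

end Model

open Model

theorem model : ModelStmt := fun _ => ⟨smp, liou, fun _ hf => contDiff_const.add
  ((contDiff_exp.comp contDiff_fst.neg).smul ((P0_smooth.comp contDiff_snd).clm_apply
    (hf.fderiv_right (m := ∞) (by simp))))⟩

theorem aut (prel : PrelStmt) : AutStmt := by
  intro m k A A' h
  have dA := fun x => (h.sA.differentiable (by simp) x).hasFDerivAt
  refine ⟨fun f hf x => ?_, fun k' B B' h' => ⟨mul_pos h'.pos h.pos, h'.sA.comp h.sA,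
    h.sA'.comp h'.sA', fun x => by simp [h.li, h'.li], fun x => by simp [h.ri, h'.ri],
    fun x v => ?_⟩⟩
  · obtain ⟨h1, h2⟩ := prel _ _ _ _ univ univ univ _ _ _ _ A k x smp smp isOpen_univ trivial
      trivial h.sA.contDiffOn (fun x _ _ => ⟨trivial, fun v _ => h.form x v⟩) fun w _ => by
        have d := (dA (A' (A x))).comp (A x) (h.sA'.differentiable (by simp) (A x)).hasFDerivAt
        rw [show A ∘ A' = id from funext h.ri, h.li] at d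
        exact ⟨_, tg_univ _ _,
          congrArg (fun L : ℝ × Y m →L[ℝ] ℝ × Y m => L w) (d.unique (hasFDerivAt_id _))⟩
    have d : HasFDerivAt (fun x => k⁻¹ * f (A x)) _ x :=
      ((hf.differentiable (by simp) (A x)).hasFDerivAt.comp x (dA x)).const_mul k⁻¹
    simp only [smul_apply, liou] at h1 h2
    rw [XY, XY, XS, XS, d.fderiv, map_add, h2, map_smul (P0 x.2), smul_comm, map_smul, h1,
      smul_smul, inv_mul_cancel₀ h.pos.ne', one_smul]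
  · rw [((h'.sA.differentiable (by simp) (A x)).hasFDerivAt.comp x (dA x)).fderiv,
      ContinuousLinearMap.comp_apply, Function.comp_apply, h'.form, h.form, mul_assoc]

theorem calcP : CalcStmt := by
  intro m G h a c ha x
  have e : exp (-x.1) * exp x.1 = 1 := by rw [← exp_add, neg_add_cancel, exp_zero]
  have d : HasFDerivAt (fun x : ℝ × Y m => -(exp x.1 * a x * h x.2)) _ x :=
    ((hasFDerivAt_fst.exp.fun_mul (ha.differentiable (by simp) x).hasFDerivAt).fun_mul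
      ((c.sh.differentiable (by simp) x.2).hasFDerivAt.comp x hasFDerivAt_snd)).fun_neg
  have D : ∀ v : ℝ × Y m, exp (-x.1) * fderiv ℝ (fun x : ℝ × Y m => -(exp x.1 * a x * h x.2)) x v =
      -(a x * fderiv ℝ h x.2 v.2 + h x.2 * (fderiv ℝ a x v + a x * v.1)) := fun v => by
    rw [d.fderiv]
    simp
    linear_combination
      -(a x * fderiv ℝ h x.2 v.2 + h x.2 * (fderiv ℝ a x v + a x * v.1)) * e
  have hR : fderiv ℝ h x.2 (eR m) = -(2 * π * G x.2) := c.Rh _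
  have hA : ∀ j, fderiv ℝ h x.2 (Lt x.2 (eA j)) = -nab G x.2 (eB j) := fun j => by
    rw [nab_apply, Lt_eA, Lt_eB]
    exact c.Ah _ j
  have hB : ∀ j, fderiv ℝ h x.2 (eB j) = nab G x.2 (eA j) := fun j => by
    rw [nab_apply, Lt_eA]
    exact (c.AG _ j).symm
  rw [XY, XS, P0_apply, Prod.smul_mk, ← map_smul (Lt x.2), Prod.mk_add_mk, zero_add]
  refine Prod.ext ?_ (congrArg (Lt x.2) (Prod.ext ?_ (Prod.ext (funext fun j => ?_)
    (funext fun j => ?_))))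
  all_goals
    simp only [Prod.smul_mk, Pi.smul_apply, smul_eq_mul, mul_neg, D, hR, hA, hB, map_zero]
    ring

end Pool.Agent.MP_6d695c_gt.T1

end MrgPart2

-- ======== part 3: formerly Pool.Agent.MP_6d695c_gt.t1.Aff
section MrgPart3

/-! PROJECT T1, module AFF: translations and dilations of the Heisenberg group. -/

open scoped Manifold ContDiff Topology MeasureTheory
open Set Metric Filter Real

namespace Pool.Agent.MP_6d695c_gt.T1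

open SW Theta

namespace Aff

variable {m : ℕ}

/-- the dilation as a linear map -/
noncomputable def dL (w : ℝ) : Y m →L[ℝ] Y m :=
  LinearMap.toContinuousLinearMap
    { toFun := dil w
      map_add' := fun u v => by
        simp only [dil, Prod.fst_add, Prod.snd_add, mul_add, smul_add, Prod.mk_add_mk]
      map_smul' := fun a v => by
        simp only [dil, Prod.smul_fst, Prod.smul_snd, smul_eq_mul, RingHom.id_apply,
          Prod.smul_mk, smul_comm a w, mul_left_comm a] }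

theorem dL_apply (w : ℝ) (y : Y m) : dL w y = dil w y := rfl

theorem dil_dil (w w' : ℝ) (y : Y m) : dil w (dil w' y) = dil (w * w') y := by
  simp only [dil, smul_smul, mul_pow, mul_assoc]

theorem dil_one (y : Y m) : dil 1 y = y := by simp [dil]

theorem lam0_apply (x v : ℝ × Y m) :
    lam0 x v = exp x.1 * (v.2.1 + ∑ j, x.2.2.2 j * v.2.2.1 j) := by
  simp [lam0, al0, Lt_apply]

theorem dil_Lt (w : ℝ) (p ξ : Y m) : dil w (Lt p ξ) = Lt (dil w p) (dil w ξ) := by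
  simp only [dil, Lt_apply, Pi.smul_apply, smul_eq_mul, mul_sub, Finset.mul_sum]
  congr 2
  exact Finset.sum_congr rfl fun j _ => by ring

theorem norm_dil {w : ℝ} (h0 : 0 < w) (h1 : w ≤ 1) (ξ : Y m) : ‖dil w ξ‖ ≤ w * ‖ξ‖ := by
  have a1 : ‖ξ.1‖ ≤ ‖ξ‖ := norm_fst_le ξ
  have a2 : ‖ξ.2.1‖ ≤ ‖ξ‖ := (norm_fst_le ξ.2).trans (norm_snd_le ξ)
  have a3 : ‖ξ.2.2‖ ≤ ‖ξ‖ := (norm_snd_le ξ.2).trans (norm_snd_le ξ)
  have hw : ‖w‖ = w := Real.norm_of_nonneg h0.le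
  refine norm_prod_le_iff.2 ⟨?_, norm_prod_le_iff.2 ⟨?_, ?_⟩⟩
  · change ‖w ^ 2 * ξ.1‖ ≤ _
    rw [norm_mul, norm_pow, hw]
    have : w ^ 2 ≤ w := by nlinarith
    exact mul_le_mul this a1 (norm_nonneg _) h0.le
  · change ‖w • ξ.2.1‖ ≤ _
    rw [norm_smul, hw]
    exact mul_le_mul_of_nonneg_left a2 h0.le
  · change ‖w • ξ.2.2‖ ≤ _
    rw [norm_smul, hw]
    exact mul_le_mul_of_nonneg_left a3 h0.le

theorem shift (c : ℝ) :
    Aut (exp c) (fun x : ℝ × Y m => (x.1 + c, x.2)) fun x => (x.1 - c, x.2) where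
  pos := exp_pos c
  sA := by fun_prop
  sA' := by fun_prop
  li x := by simp
  ri x := by simp
  form x v := by
    have h : HasFDerivAt (fun x : ℝ × Y m => (x.1 + c, x.2))
        ((ContinuousLinearMap.fst ℝ ℝ (Y m)).prod (ContinuousLinearMap.snd ℝ ℝ (Y m))) x :=
      (hasFDerivAt_fst.add_const c).prodMk hasFDerivAt_snd
    rw [h.fderiv, lam0_apply, lam0_apply, exp_add]
    simp only [ContinuousLinearMap.prod_apply, ContinuousLinearMap.coe_snd']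
    ring

theorem der_mul (g : Y m) (c : ℝ) (y : Y m) :
    HasFDerivAt (fun y => mul g (dil c y)) ((Lt g).comp (dL c)) y :=
  ((Lt g).comp (dL c)).hasFDerivAt.const_add g

theorem der_div (g : Y m) (c : ℝ) (y : Y m) :
    HasFDerivAt (fun y => dil c (ldiv g y)) ((dL c).comp (Lt (-g))) y := by
  have h := ((dL c).comp (Lt (-g))).hasFDerivAt.comp y ((hasFDerivAt_id y).sub_const g)
  rw [ContinuousLinearMap.comp_id] at h
  exact h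

theorem sm_mul (g : Y m) (c : ℝ) : ContDiff ℝ ∞ fun y => mul g (dil c y) :=
  contDiff_const.add ((Lt g).comp (dL c)).contDiff

theorem sm_div (g : Y m) (c : ℝ) : ContDiff ℝ ∞ fun y => dil c (ldiv g y) :=
  ((dL c).comp (Lt (-g))).contDiff.comp (contDiff_id.sub contDiff_const)

theorem scale (g : Y m) {w : ℝ} (hw : 0 < w) :
    Aut (w⁻¹ ^ 2) (fun x : ℝ × Y m => (x.1, mul g (dil w⁻¹ x.2)))
      fun x => (x.1, dil w (ldiv g x.2)) where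
  pos := pow_pos (inv_pos.2 hw) 2
  sA := contDiff_fst.prodMk ((sm_mul g _).comp contDiff_snd)
  sA' := contDiff_fst.prodMk ((sm_div g _).comp contDiff_snd)
  li x := by simp only [ldiv_mul, dil_dil, mul_inv_cancel₀ hw.ne', dil_one]
  ri x := by simp only [dil_dil, inv_mul_cancel₀ hw.ne', dil_one, mul_ldiv]
  form x v := by
    have h : HasFDerivAt (fun x : ℝ × Y m => (x.1, mul g (dil w⁻¹ x.2)))
        ((ContinuousLinearMap.fst ℝ ℝ (Y m)).prod (((Lt g).comp (dL w⁻¹)).comp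
          (ContinuousLinearMap.snd ℝ ℝ (Y m)))) x :=
      hasFDerivAt_fst.prodMk ((der_mul g _ x.2).comp x hasFDerivAt_snd)
    rw [h.fderiv, lam0_apply, lam0_apply]
    simp only [ContinuousLinearMap.prod_apply, ContinuousLinearMap.comp_apply,
      ContinuousLinearMap.coe_snd', dL_apply, mul, Lt_apply, dil, Prod.snd_add, Pi.add_apply,
      Pi.smul_apply, smul_eq_mul, add_mul, Finset.sum_add_distrib]
    have : ∑ j, w⁻¹ * x.2.2.2 j * (w⁻¹ * v.2.2.1 j) = w⁻¹ ^ 2 * ∑ j, x.2.2.2 j * v.2.2.1 j := by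
      rw [Finset.mul_sum]
      exact Finset.sum_congr rfl fun j _ => by ring
    rw [this]
    ring

theorem slope (g : Y m) {w : ℝ} {F : Y m → ℝ} (h0 : 0 < w) (h1 : w ≤ 1) (hF : ContDiff ℝ ∞ F)
    (y : Y m) :
    ‖nab (fun y => F (dil w (ldiv g y))) y‖ ≤ w * ‖nab F (dil w (ldiv g y))‖ := by
  refine ContinuousLinearMap.opNorm_le_bound _ (by positivity) fun ξ => ?_
  have h : HasFDerivAt (fun y => F (dil w (ldiv g y)))
      ((fderiv ℝ F (dil w (ldiv g y))).comp ((dL w).comp (Lt (-g)))) y :=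
    (hF.differentiable (by simp) _).hasFDerivAt.comp y (der_div g w y)
  have e : Lt (-g + y) = Lt (ldiv g y) := Lt_congr (by
    simp only [ldiv, Lt_apply, Prod.snd_add, Prod.snd_neg, Prod.snd_sub]
    abel)
  have : nab (fun y => F (dil w (ldiv g y))) y ξ = nab F (dil w (ldiv g y)) (dil w ξ) := by
    rw [nab_apply, nab_apply, h.fderiv, ← dil_Lt, ← e, ← Lt_Lt]
    rfl
  rw [this]
  calc _ ≤ ‖nab F (dil w (ldiv g y))‖ * ‖dil w ξ‖ := ContinuousLinearMap.le_opNorm _ _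
    _ ≤ ‖nab F (dil w (ldiv g y))‖ * (w * ‖ξ‖) :=
      mul_le_mul_of_nonneg_left (norm_dil h0 h1 ξ) (norm_nonneg _)
    _ = _ := by ring

theorem bound {F : Y m → ℝ} (hF : ContDiff ℝ ∞ F) (hc : HasCompactSupport F) :
    ∃ C, 0 < C ∧ ∀ y, ‖nab F y‖ ≤ C := by
  have h : HasCompactSupport (nab F) :=
    (hc.fderiv ℝ).mono fun y hy h0 => hy (nab_eq_zero.2 h0)
  obtain ⟨C, hC⟩ := (contDiff_nab hF).continuous.bounded_above_of_compact_support h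
  exact ⟨max C 1, lt_max_of_lt_right one_pos, fun y => le_max_of_le_left (hC y)⟩

theorem null {K : Set (Y m)} (w : ℝ) (h : μH[m + 1] K = 0) : μH[m + 1] (dil w '' K) = 0 := by
  have := (dL (m := m) w).lipschitz.hausdorffMeasure_image_le (d := (m : ℝ) + 1)
    (by positivity) K
  rw [h, mul_zero] at this
  exact le_antisymm this (by simp)

end Aff

theorem aff : AffStmt := fun _ =>
  ⟨Aff.shift, fun g _ hw => Aff.scale g hw, fun g _ _ h0 h1 hF => Aff.slope g h0 h1 hF,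
    fun _ => Aff.bound, fun _ w _ => Aff.null w⟩

end Pool.Agent.MP_6d695c_gt.T1

end MrgPart3

-- ======== part 4: formerly Pool.Agent.MP_6d695c_gt.t1.MastA
section MrgPart4

/-! PROJECT T1, row PLUG1, part A: pointwise estimates. -/

open scoped Topology ContDiff
open Set Filter Real

namespace Pool.Agent.MP_6d695c_gt.T1.Mst

open SW Theta

variable {m : ℕ}

/-- the horizontal part of the field of the plug in the left invariant frame -/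
def xi (g l : Y m →L[ℝ] ℝ) (a μ w k : ℝ) : Y m :=
  ((a - μ * w) * k, fun j => a * g (eA j) - μ * k * l (eB j),
    fun j => a * g (eB j) + μ * k * l (eA j))

theorem abs_le_norm (β : Y m →L[ℝ] ℝ) {v : Y m} (hv : ‖v‖ ≤ 1) : |β v| ≤ ‖β‖ :=
  (β.le_opNorm v).trans (mul_le_of_le_one_right (norm_nonneg _) hv)

theorem norm_single (j : Fin m) : ‖(Pi.single j 1 : Fin m → ℝ)‖ ≤ 1 := by
  rw [Pi.norm_single]
  simp

theorem absR (β : Y m →L[ℝ] ℝ) : |β (eR m)| ≤ ‖β‖ := abs_le_norm β (by simp [eR, Prod.norm_def])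

theorem absA (β : Y m →L[ℝ] ℝ) (j : Fin m) : |β (eA j)| ≤ ‖β‖ :=
  abs_le_norm β (by simp [eA, Prod.norm_def, norm_single])

theorem absB (β : Y m →L[ℝ] ℝ) (j : Fin m) : |β (eB j)| ≤ ‖β‖ :=
  abs_le_norm β (by simp [eB, Prod.norm_def, norm_single])

theorem norm_le_sum (β : Y m →L[ℝ] ℝ) :
    ‖β‖ ≤ |β (eR m)| + ∑ j, |β (eA j)| + ∑ j, |β (eB j)| := by
  refine β.opNorm_le_bound (by positivity) fun ξ => ?_
  have h1 : |ξ.1| ≤ ‖ξ‖ := norm_fst_le ξ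
  have h2 : ∀ j, |ξ.2.1 j| ≤ ‖ξ‖ := fun j =>
    (norm_le_pi_norm ξ.2.1 j).trans ((norm_fst_le ξ.2).trans (norm_snd_le ξ))
  have h3 : ∀ j, |ξ.2.2 j| ≤ ‖ξ‖ := fun j =>
    (norm_le_pi_norm ξ.2.2 j).trans ((norm_snd_le ξ.2).trans (norm_snd_le ξ))
  rw [expand β ξ, add_mul, add_mul, Finset.sum_mul, Finset.sum_mul, Real.norm_eq_abs]
  refine (abs_add_three _ _ _).trans (add_le_add_three ?_ ?_ ?_)
  · rw [abs_mul, mul_comm]
    exact mul_le_mul_of_nonneg_left h1 (abs_nonneg _)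
  · refine (Finset.abs_sum_le_sum_abs _ _).trans (Finset.sum_le_sum fun j _ => ?_)
    rw [abs_mul, mul_comm]
    exact mul_le_mul_of_nonneg_left (h2 j) (abs_nonneg _)
  · refine (Finset.abs_sum_le_sum_abs _ _).trans (Finset.sum_le_sum fun j _ => ?_)
    rw [abs_mul, mul_comm]
    exact mul_le_mul_of_nonneg_left (h3 j) (abs_nonneg _)

theorem norm_sq_le (β : Y m →L[ℝ] ℝ) :
    ‖β‖ ^ 2 ≤ 3 * (m + 1) * (β (eR m) ^ 2 + ∑ j, β (eA j) ^ 2 + ∑ j, β (eB j) ^ 2) := by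
  have h0 := norm_le_sum β
  have h1 : (∑ j, |β (eA j)|) ^ 2 ≤ m * ∑ j, β (eA j) ^ 2 := by
    simpa using sq_sum_le_card_mul_sum_sq (s := Finset.univ) (f := fun j : Fin m => |β (eA j)|)
  have h2 : (∑ j, |β (eB j)|) ^ 2 ≤ m * ∑ j, β (eB j) ^ 2 := by
    simpa using sq_sum_le_card_mul_sum_sq (s := Finset.univ) (f := fun j : Fin m => |β (eB j)|)
  have h3 : 0 ≤ ∑ j, β (eA j) ^ 2 := by positivity
  have h4 : 0 ≤ ∑ j, β (eB j) ^ 2 := by positivity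
  have h5 : ‖β‖ ^ 2 ≤ (|β (eR m)| + ∑ j, |β (eA j)| + ∑ j, |β (eB j)|) ^ 2 :=
    pow_le_pow_left₀ (norm_nonneg _) h0 2
  have h6 := sq_abs (β (eR m))
  have h7 : (0 : ℝ) ≤ m * β (eR m) ^ 2 := by positivity
  generalize ∑ j, |β (eA j)| = P at *
  generalize ∑ j, |β (eB j)| = Q at *
  generalize |β (eR m)| = R at *
  nlinarith [sq_nonneg (R - P), sq_nonneg (R - Q), sq_nonneg (P - Q)]

theorem norm_xi_le {g l : Y m →L[ℝ] ℝ} {a μ w k c : ℝ} (h1 : |(a - μ * w) * k| ≤ c)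
    (h2 : |a| * ‖g‖ + |μ| * |k| * ‖l‖ ≤ c) : ‖xi g l a μ w k‖ ≤ c := by
  have h0 : 0 ≤ c := (abs_nonneg _).trans h1
  have e : ∀ x y : ℝ, |x| ≤ ‖g‖ → |y| ≤ ‖l‖ → |a * x| + |μ * k * y| ≤ c := fun x y hx hy => by
    rw [abs_mul, abs_mul, abs_mul]
    refine le_trans (add_le_add ?_ ?_) h2
    · exact mul_le_mul_of_nonneg_left hx (abs_nonneg _)
    · exact mul_le_mul_of_nonneg_left hy (by positivity)
  refine norm_prod_le_iff.2 ⟨h1, norm_prod_le_iff.2 ⟨?_, ?_⟩⟩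
  · exact (pi_norm_le_iff_of_nonneg h0).2 fun j =>
      (abs_sub _ _).trans (e _ _ (absA g j) (absB l j))
  · exact (pi_norm_le_iff_of_nonneg h0).2 fun j =>
      (abs_add_le _ _).trans (e _ _ (absB g j) (absA l j))

theorem abs_k_le {g : Y m →L[ℝ] ℝ} {k : ℝ} (hk : g (eR m) = 2 * π * k) : 6 * |k| ≤ ‖g‖ := by
  have h := absR g
  rw [hk, abs_mul, abs_of_pos (by positivity : 0 < 2 * π)] at h
  nlinarith [pi_gt_three, abs_nonneg k]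

/-- region I: the size of the horizontal part -/
theorem norm_xi_one {g l : Y m →L[ℝ] ℝ} {s w k B σ : ℝ} (hk : g (eR m) = 2 * π * k)
    (hg : ‖g‖ ≤ B) (hl : ‖l‖ ≤ σ * ‖g‖) (hs : 0 < s) (hw : |w| ≤ 1 / 2)
    (hB : B * σ ≤ 1) : ‖xi g l s s w k‖ ≤ 2 * s * ‖g‖ := by
  have h1 := abs_k_le hk
  have h2 := abs_nonneg k
  have h3 := norm_nonneg g
  refine norm_xi_le ?_ ?_
  · have : |s - s * w| ≤ 2 * s := by
      rw [abs_le] at hw ⊢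
      constructor <;> nlinarith
    rw [abs_mul]
    exact mul_le_mul this (by linarith) h2 (by positivity)
  · rw [abs_of_pos hs]
    have h4 : |k| * ‖l‖ ≤ B * (σ * ‖g‖) :=
      mul_le_mul (by linarith) hl (norm_nonneg _) (h3.trans hg)
    have h5 : B * (σ * ‖g‖) ≤ ‖g‖ := by nlinarith
    nlinarith

/-- region I: `G` increases -/
theorem g_xi_one {g l : Y m →L[ℝ] ℝ} {s w k B σ : ℝ} (hk : g (eR m) = 2 * π * k)
    (hg : ‖g‖ ≤ B) (hl : ‖l‖ ≤ σ * ‖g‖) (hs : 0 < s) (hw : |w| ≤ 1 / 2) (hσ : 0 ≤ σ) :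
    s * ‖g‖ ^ 2 * (1 / (48 * (m + 1)) - 2 * m * B * σ) ≤ g (xi g l s s w k) := by
  have h1 := abs_k_le hk
  have h2 := abs_nonneg k
  have h3 := norm_nonneg g
  have h4 := norm_sq_le g
  have e : ∀ x y : ℝ, |x| ≤ ‖g‖ → |y| ≤ ‖l‖ → |k * y * x| ≤ B * σ * ‖g‖ ^ 2 := fun x y hx hy => by
    rw [abs_mul, abs_mul]
    calc |k| * |y| * |x| ≤ B * (σ * ‖g‖) * ‖g‖ :=
          mul_le_mul (mul_le_mul (by linarith) (hy.trans hl) (abs_nonneg _) (h3.trans hg)) hx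
            (abs_nonneg _) (mul_nonneg (h3.trans hg) (by positivity))
      _ = _ := by ring
  have eA' : s * (∑ j, g (eA j) ^ 2) - m * (s * (B * σ * ‖g‖ ^ 2)) ≤
      ∑ j, (s * g (eA j) - s * k * l (eB j)) * g (eA j) := by
    have : ∀ j : Fin m, s * g (eA j) ^ 2 - s * (B * σ * ‖g‖ ^ 2) ≤
        (s * g (eA j) - s * k * l (eB j)) * g (eA j) := fun j => by
      have := (abs_le.1 (e _ _ (absA g j) (absB l j))).2
      nlinarith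
    simpa [Finset.mul_sum] using Finset.sum_le_sum fun j (_ : j ∈ Finset.univ) => this j
  have eB' : s * (∑ j, g (eB j) ^ 2) - m * (s * (B * σ * ‖g‖ ^ 2)) ≤
      ∑ j, (s * g (eB j) + s * k * l (eA j)) * g (eB j) := by
    have : ∀ j : Fin m, s * g (eB j) ^ 2 - s * (B * σ * ‖g‖ ^ 2) ≤
        (s * g (eB j) + s * k * l (eA j)) * g (eB j) := fun j => by
      have := (abs_le.1 (e _ _ (absB g j) (absA l j))).1
      nlinarith
    simpa [Finset.mul_sum] using Finset.sum_le_sum fun j (_ : j ∈ Finset.univ) => this j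
  have eR' : s * (g (eR m) ^ 2 / 16) ≤ (s - s * w) * k * g (eR m) := by
    rw [hk]
    have h5 : 0 ≤ s * π * k ^ 2 := by positivity
    have h6 : π / 4 ≤ 2 * (1 - w) := by nlinarith [pi_le_four, (abs_le.1 hw).2]
    nlinarith [mul_le_mul_of_nonneg_left h6 h5]
  have h7 : 0 ≤ ∑ j, g (eA j) ^ 2 := by positivity
  have h8 : 0 ≤ ∑ j, g (eB j) ^ 2 := by positivity
  have h9 : ‖g‖ ^ 2 * (1 / (48 * (m + 1))) ≤
      g (eR m) ^ 2 / 16 + ∑ j, g (eA j) ^ 2 + ∑ j, g (eB j) ^ 2 := by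
    rw [mul_one_div, div_le_iff₀ (by positivity)]
    have h10 : (0 : ℝ) ≤ (m + 1) * ∑ j, g (eA j) ^ 2 := by positivity
    have h11 : (0 : ℝ) ≤ (m + 1) * ∑ j, g (eB j) ^ 2 := by positivity
    nlinarith
  rw [expand g]
  simp only [xi]
  nlinarith [mul_le_mul_of_nonneg_left h9 hs.le]

/-- region II: the size of the horizontal part -/
theorem norm_xi_two {g l : Y m →L[ℝ] ℝ} {a μ w k B ε : ℝ} (hk : g (eR m) = 2 * π * k)
    (hg : ‖g‖ ≤ B) (hl : ‖l‖ ≤ B) (ha : |a| ≤ ε) (hμ : |μ| ≤ ε) (hw : |w| ≤ 1 / 2) (hB : 1 ≤ B) :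
    ‖xi g l a μ w k‖ ≤ 2 * ε * B ^ 2 := by
  have h1 := abs_k_le hk
  have h2 := abs_nonneg k
  have h3 : 0 ≤ ε := (abs_nonneg _).trans ha
  have h4 : |k| ≤ B := by linarith
  have h5 : B ≤ B ^ 2 := by nlinarith
  refine norm_xi_le ?_ ?_
  · have h6 : |μ * w| ≤ ε := by
      rw [abs_mul]
      nlinarith [abs_nonneg μ, abs_nonneg w]
    rw [abs_mul]
    exact mul_le_mul ((abs_sub _ _).trans (by linarith)) (h4.trans h5) h2 (by positivity)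
  · have h6 : |a| * ‖g‖ ≤ ε * B ^ 2 := mul_le_mul ha (hg.trans h5) (norm_nonneg _) h3
    have h7 : |μ| * |k| * ‖l‖ ≤ ε * B * B :=
      mul_le_mul (mul_le_mul hμ h4 h2 h3) hl (norm_nonneg _) (by positivity)
    nlinarith

/-- region I: the derivative of the Lyapunov function -/
theorem lam_one {φ e C ρ K XG G B Xl s D σ c Φ : ℝ} (hρ : |ρ| ≤ K) (hC : C = K + 1)
    (hG : |G| ≤ B) (hφ : |φ| ≤ Φ) (he : |e| ≤ σ * (s * D ^ 2)) (hXG : s * D ^ 2 * (c / 2) ≤ XG)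
    (hXl : |Xl| ≤ 2 * σ * (s * D ^ 2)) (hs : 0 < s) (hc : 0 < c)
    (hσ : σ * (Φ + 2 * K * B) ≤ c / 4) :
    φ ^ 2 + c / 4 * (s * D ^ 2) ≤ φ * (φ + e) + (C + ρ) * XG - ρ * G * Xl := by
  have h0 : 0 ≤ s * D ^ 2 := by positivity
  have hK : 0 ≤ K := (abs_nonneg _).trans hρ
  have hB : 0 ≤ B := (abs_nonneg _).trans hG
  have h1 : |φ * e| ≤ Φ * (σ * (s * D ^ 2)) := by
    rw [abs_mul]
    exact mul_le_mul hφ he (abs_nonneg _) ((abs_nonneg _).trans hφ)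
  have h2 : |ρ * G * Xl| ≤ K * B * (2 * σ * (s * D ^ 2)) := by
    rw [abs_mul, abs_mul]
    exact mul_le_mul (mul_le_mul hρ hG (abs_nonneg _) hK) hXl (abs_nonneg _) (by positivity)
  have h3 : 0 ≤ XG := le_trans (by positivity) hXG
  have h4 : XG ≤ (C + ρ) * XG := by nlinarith [(abs_le.1 hρ).1]
  nlinarith [(abs_le.1 h1).1, (abs_le.1 h2).2, mul_le_mul_of_nonneg_right hσ h0]

/-- region II: the derivative of the Lyapunov function -/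
theorem lam_two {p q C ρ K XG G B Xl ε : ℝ} (hρ : |ρ| ≤ K) (hC : C = K + 1) (hG : |G| ≤ B)
    (hB : 1 ≤ B) (hε : 0 ≤ ε) (hp : |p| ≤ 8 * ε * B) (hq : |q| ≤ 9 * ε * B ^ 2)
    (hXG : |XG| ≤ 2 * ε * B ^ 3) (hXl : |Xl| ≤ 2 * ε * B ^ 3)
    (hs : ε * ((6 * K + 19) * B ^ 4) ≤ 1 / 2) :
    1 / 2 ≤ (1 + p) * (1 + q) + (C + ρ) * XG - ρ * G * Xl := by
  have hK : 0 ≤ K := (abs_nonneg _).trans hρ
  have b1 : B ≤ B ^ 4 := le_self_pow₀ hB (by norm_num)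
  have b2 : B ^ 2 ≤ B ^ 4 := pow_le_pow_right₀ hB (by norm_num)
  have b3 : B ^ 3 ≤ B ^ 4 := pow_le_pow_right₀ hB (by norm_num)
  have c1 := mul_le_mul_of_nonneg_left b1 hε
  have c2 := mul_le_mul_of_nonneg_left b2 hε
  have c3 := mul_le_mul_of_nonneg_left b3 hε
  have c0 : 0 ≤ K * (ε * B ^ 4) := by positivity
  have h1 : |(C + ρ) * XG| ≤ (2 * K + 1) * (2 * (ε * B ^ 4)) := by
    rw [abs_mul]
    refine mul_le_mul ?_ (by linarith) (abs_nonneg _) (by positivity)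
    rw [abs_le] at hρ ⊢
    constructor <;> linarith
  have h2 : |ρ * G * Xl| ≤ K * B * (2 * ε * B ^ 3) := by
    rw [abs_mul, abs_mul]
    exact mul_le_mul (mul_le_mul hρ hG (abs_nonneg _) hK) hXl (abs_nonneg _) (by positivity)
  have h3 : 0 ≤ 1 - 8 * (ε * B ^ 4) := by nlinarith
  have h4 : 0 ≤ 1 - 9 * (ε * B ^ 4) := by nlinarith
  have h5 : (1 - 8 * (ε * B ^ 4)) * (1 - 9 * (ε * B ^ 4)) ≤ (1 + p) * (1 + q) :=
    mul_le_mul (by linarith [(abs_le.1 hp).1]) (by linarith [(abs_le.1 hq).1]) h4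
      (by linarith [(abs_le.1 hp).1])
  nlinarith [(abs_le.1 h1).1, (abs_le.1 h2).2, sq_nonneg (ε * B ^ 4)]

/-- a non-degenerate zero -/
theorem quad {φ : ℝ × Y m → ℝ} {L : (ℝ × Y m) →L[ℝ] ℝ} {x : ℝ × Y m} {β k : ℝ}
    (hφ : HasFDerivAt φ L x) (h0 : φ x = 0) (hL : ∀ v, L v = β * v.1) (hβ : β ≠ 0) (hk : 0 < k) :
    ∃ c, 0 < c ∧ ∀ᶠ z in 𝓝 x, c * ‖z - x‖ ^ 2 ≤ φ z ^ 2 + k * ‖z.2 - x.2‖ ^ 2 := by
  have hb : 0 < |β| / 2 := by positivity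
  refine ⟨min ((|β| / 2) ^ 2) k, by positivity, ?_⟩
  filter_upwards [hφ.isLittleO.def hb] with z hz
  rw [h0, sub_zero, hL, Real.norm_eq_abs] at hz
  rcases le_total ‖(z - x).1‖ ‖(z - x).2‖ with h | h
  · rw [Prod.norm_def, max_eq_right h]
    have := mul_le_mul_of_nonneg_right (min_le_right ((|β| / 2) ^ 2) k) (sq_nonneg ‖(z - x).2‖)
    rw [Prod.snd_sub] at this ⊢
    nlinarith [sq_nonneg (φ z)]
  · rw [Prod.norm_def, max_eq_left h, Real.norm_eq_abs] at hz ⊢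
    have h1 := mul_le_mul_of_nonneg_right (min_le_left ((|β| / 2) ^ 2) k) (sq_nonneg |(z - x).1|)
    have h2 : |β| / 2 * |(z - x).1| ≤ |φ z| := by
      have := abs_sub_abs_le_abs_sub (β * (z - x).1) (φ z)
      rw [abs_mul, abs_sub_comm] at this
      linarith
    have h3 := pow_le_pow_left₀ (by positivity) h2 2
    rw [sq_abs (φ z), mul_pow] at h3
    have : 0 ≤ k * ‖z.2 - x.2‖ ^ 2 := by positivity
    linarith

/-- the cut-off -/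
theorem exists_zeta : ∃ N : ℝ, 2 ≤ N ∧ ∀ s₀ : ℝ, 0 < s₀ → ∃ ζ : ℝ → ℝ, ContDiff ℝ ∞ ζ ∧
    (∀ s ≤ s₀, ζ s = 0) ∧ (∀ s, 2 * s₀ < s → ζ s = s ∧ deriv ζ s = 1) ∧
    ∀ s, 0 < s → s ≤ 2 * s₀ → |ζ s| ≤ N * s₀ ∧ |deriv ζ s * s| ≤ N * s₀ := by
  have sm : ContDiff ℝ ∞ fun r : ℝ => r * smoothTransition (r - 1) :=
    contDiff_id.mul (smoothTransition.contDiff.comp (by fun_prop))
  obtain ⟨M, hM⟩ := (isCompact_Icc (a := (0 : ℝ)) (b := 2)).exists_bound_of_continuousOn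
    (sm.continuous_deriv (by simp)).continuousOn
  have hM0 : 0 ≤ M := (norm_nonneg _).trans (hM 0 (by simp))
  refine ⟨2 + 2 * M, by linarith, fun s₀ h0 =>
    ⟨fun s => s₀ * (s / s₀ * smoothTransition (s / s₀ - 1)),
      contDiff_const.mul (sm.comp (by fun_prop : ContDiff ℝ ∞ fun s : ℝ => s / s₀)),
      fun s hs => ?_, fun s hs => ?_, fun s hs hs' => ⟨?_, ?_⟩⟩⟩
  · have : s / s₀ - 1 ≤ 0 := by linarith [(div_le_one h0).2 hs]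
    simp [smoothTransition.zero_of_nonpos this]
  · have e : ∀ s, 2 * s₀ < s → s₀ * (s / s₀ * smoothTransition (s / s₀ - 1)) = s := fun s hs => by
      have : 1 ≤ s / s₀ - 1 := by linarith [(le_div_iff₀ h0).2 hs.le]
      rw [smoothTransition.one_of_one_le this]
      field_simp
    refine ⟨e s hs, ?_⟩
    rw [Filter.EventuallyEq.deriv_eq (f := id) ((lt_mem_nhds hs).mono e)]
    simp
  · have h1 := smoothTransition.nonneg (s / s₀ - 1)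
    have h2 := smoothTransition.le_one (s / s₀ - 1)
    have e : s₀ * (s / s₀ * smoothTransition (s / s₀ - 1)) = s * smoothTransition (s / s₀ - 1) := by
      field_simp
    simp only [e]
    rw [abs_of_nonneg (by positivity)]
    nlinarith [mul_nonneg hM0 h0.le]
  · have d := (((sm.differentiable (by simp)) (s / s₀)).hasDerivAt.comp s
      ((hasDerivAt_id s).div_const s₀)).const_mul s₀
    have e : deriv (fun s => s₀ * (s / s₀ * smoothTransition (s / s₀ - 1))) s =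
        deriv (fun r : ℝ => r * smoothTransition (r - 1)) (s / s₀) := by
      refine (HasDerivAt.deriv d).trans ?_
      field_simp
    have h1 := hM (s / s₀) ⟨by positivity, (div_le_iff₀ h0).2 hs'⟩
    rw [e, abs_mul, abs_of_pos hs]
    rw [Real.norm_eq_abs] at h1
    nlinarith [mul_le_mul h1 hs' hs.le hM0]

end Pool.Agent.MP_6d695c_gt.T1.Mst

end MrgPart4

-- ======== part 5: formerly Pool.Agent.MP_6d695c_gt.t1.MastB
section MrgPart5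

/-! PROJECT T1, row PLUG1, part B: the plug, its field and the Lyapunov function. -/

open scoped Topology ContDiff
open Set Filter Real

namespace Pool.Agent.MP_6d695c_gt.T1.Mst

open SW Theta

variable {m : ℕ}

/-- the strength of the plug -/
noncomputable def ss (a₀ : ℝ) (ℓ : Y m → ℝ) (x : ℝ × Y m) : ℝ :=
  a₀ * exp (-ℓ x.2) / (1 + x.1 ^ 2 / 4)

/-- minus the logarithmic derivative of the strength -/
noncomputable def ww (t : ℝ) : ℝ := t / 2 / (1 + t ^ 2 / 4)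

/-- the coefficient of `G` -/
noncomputable def rr (a₀ : ℝ) (ℓ : Y m → ℝ) (x : ℝ × Y m) : ℝ :=
  4 * π * (a₀ * exp (-ℓ x.2)) * arctan (x.1 / 2)

/-- the plug -/
noncomputable def ff (ζ : ℝ → ℝ) (a₀ : ℝ) (ℓ h : Y m → ℝ) (x : ℝ × Y m) : ℝ :=
  -(exp x.1 * ζ (ss a₀ ℓ x) * h x.2)

/-- the Lyapunov function -/
noncomputable def La (C a₀ : ℝ) (G ℓ : Y m → ℝ) (x : ℝ × Y m) : ℝ :=
  x.1 + (C + rr a₀ ℓ x) * G x.2

variable {G h ℓ : Y m → ℝ} {ζ : ℝ → ℝ} {a₀ C : ℝ}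

theorem abs_ww (t : ℝ) : |ww t| ≤ 1 / 2 := by
  have : 0 < 1 + t ^ 2 / 4 := by positivity
  rw [ww, abs_le, le_div_iff₀ this, div_le_iff₀ this]
  constructor <;> nlinarith [sq_nonneg (t - 2), sq_nonneg (t + 2)]

theorem ww_ne {t : ℝ} (ht : t ≠ 0) : ww t ≠ 0 := by
  have : 0 < 1 + t ^ 2 / 4 := by positivity
  rw [ww]
  positivity

theorem ss_smooth (hℓ : ContDiff ℝ ∞ ℓ) : ContDiff ℝ ∞ (ss a₀ ℓ) :=
  ContDiff.div (by fun_prop) (by fun_prop) fun x => by positivity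

theorem rr_smooth (hℓ : ContDiff ℝ ∞ ℓ) : ContDiff ℝ ∞ (rr a₀ ℓ) :=
  ContDiff.mul (by fun_prop) (contDiff_arctan.comp (by fun_prop))

theorem ff_smooth (hζ : ContDiff ℝ ∞ ζ) (hℓ : ContDiff ℝ ∞ ℓ) (hh : ContDiff ℝ ∞ h) :
    ContDiff ℝ ∞ (ff ζ a₀ ℓ h) :=
  (((contDiff_exp.comp contDiff_fst).mul (hζ.comp (ss_smooth hℓ))).mul
    (hh.comp contDiff_snd)).neg

theorem La_smooth (hG : ContDiff ℝ ∞ G) (hℓ : ContDiff ℝ ∞ ℓ) : ContDiff ℝ ∞ (La C a₀ G ℓ) :=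
  contDiff_fst.add ((contDiff_const.add (rr_smooth hℓ)).mul (hG.comp contDiff_snd))

theorem snd_der {F : Y m → ℝ} (hF : ContDiff ℝ ∞ F) (x : ℝ × Y m) :
    HasFDerivAt (fun x : ℝ × Y m => F x.2)
      ((fderiv ℝ F x.2).comp (ContinuousLinearMap.snd ℝ ℝ (Y m))) x :=
  (hF.differentiable (by simp) x.2).hasFDerivAt.comp x hasFDerivAt_snd

theorem E_der (hℓ : ContDiff ℝ ∞ ℓ) (x : ℝ × Y m) :
    HasFDerivAt (fun x : ℝ × Y m => a₀ * exp (-ℓ x.2))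
      (-(a₀ * exp (-ℓ x.2)) • (fderiv ℝ ℓ x.2).comp (ContinuousLinearMap.snd ℝ ℝ (Y m))) x := by
  refine ((snd_der hℓ x).neg.exp.const_mul a₀).congr_fderiv
    (ContinuousLinearMap.ext fun v => ?_)
  simp
  ring

theorem ss_der (hℓ : ContDiff ℝ ∞ ℓ) (x v : ℝ × Y m) :
    fderiv ℝ (ss a₀ ℓ) x v = -(ss a₀ ℓ x * (ww x.1 * v.1 + fderiv ℝ ℓ x.2 v.2)) := by
  have hp : (1 + x.1 ^ 2 / 4) ≠ 0 := by positivity
  have d1 : HasDerivAt (fun t : ℝ => (1 + t ^ 2 / 4)⁻¹) (-(x.1 / 2) / (1 + x.1 ^ 2 / 4) ^ 2) x.1 := by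
    refine ((((hasDerivAt_pow 2 x.1).div_const 4).const_add 1).fun_inv hp).congr_deriv ?_
    simp
    ring
  have d := (E_der (a₀ := a₀) hℓ x).mul (d1.comp_hasFDerivAt x hasFDerivAt_fst)
  have e : ss a₀ ℓ = (fun x : ℝ × Y m => a₀ * exp (-ℓ x.2)) *
      ((fun t : ℝ => (1 + t ^ 2 / 4)⁻¹) ∘ Prod.fst) := by
    funext x
    simp [ss, div_eq_mul_inv]
  rw [e, d.fderiv]
  simp [ww]
  field_simp
  ring

theorem rr_der (hℓ : ContDiff ℝ ∞ ℓ) (x v : ℝ × Y m) :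
    fderiv ℝ (rr a₀ ℓ) x v = 2 * π * ss a₀ ℓ x * v.1 - rr a₀ ℓ x * fderiv ℝ ℓ x.2 v.2 := by
  have hp : (1 + x.1 ^ 2 / 4) ≠ 0 := by positivity
  have d1 : HasDerivAt (fun t : ℝ => arctan (t / 2)) (1 / 2 / (1 + x.1 ^ 2 / 4)) x.1 := by
    refine ((hasDerivAt_id x.1).div_const 2).arctan.congr_deriv ?_
    simp only [id]
    field_simp
    ring
  have d := ((E_der (a₀ := a₀) hℓ x).const_mul (4 * π)).mul
    (d1.comp_hasFDerivAt x hasFDerivAt_fst)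
  have e : rr a₀ ℓ = (fun x : ℝ × Y m => 4 * π * (a₀ * exp (-ℓ x.2))) *
      ((fun t : ℝ => arctan (t / 2)) ∘ Prod.fst) := rfl
  rw [e, d.fderiv]
  simp [ss]
  field_simp
  ring

theorem La_der (hG : ContDiff ℝ ∞ G) (hℓ : ContDiff ℝ ∞ ℓ) (x v : ℝ × Y m) :
    fderiv ℝ (La C a₀ G ℓ) x v = (1 + 2 * π * ss a₀ ℓ x * G x.2) * v.1 +
      (C + rr a₀ ℓ x) * fderiv ℝ G x.2 v.2 - rr a₀ ℓ x * G x.2 * fderiv ℝ ℓ x.2 v.2 := by
  have d := hasFDerivAt_fst.add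
    ((((rr_smooth (a₀ := a₀) hℓ).differentiable (by simp) x).hasFDerivAt.const_add C).mul
      (snd_der hG x))
  have e : La C a₀ G ℓ = Prod.fst + (fun x => C + rr a₀ ℓ x) * fun x : ℝ × Y m => G x.2 := rfl
  rw [e, d.fderiv]
  simp [rr_der hℓ]
  ring

theorem phi_der (hG : ContDiff ℝ ∞ G) (hℓ : ContDiff ℝ ∞ ℓ) {x : ℝ × Y m}
    (h1 : fderiv ℝ G x.2 = 0) (h2 : fderiv ℝ ℓ x.2 = 0)
    (h3 : 1 + 2 * π * ss a₀ ℓ x * G x.2 = 0) :
    ∃ L : (ℝ × Y m) →L[ℝ] ℝ, HasFDerivAt (fun x => 1 + 2 * π * ss a₀ ℓ x * G x.2) L x ∧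
      ∀ v, L v = ww x.1 * v.1 := by
  refine ⟨_, (((((ss_smooth (a₀ := a₀) hℓ).differentiable (by simp) x).hasFDerivAt.const_mul
    (2 * π)).mul (snd_der hG x)).const_add 1), fun v => ?_⟩
  simp [ss_der hℓ, h1, h2]
  linear_combination (-(ww x.1 * v.1)) * h3

theorem X_eq (calcP : CalcStmt) (cr : CR G h) (hζ : ContDiff ℝ ∞ ζ) (hℓ : ContDiff ℝ ∞ ℓ)
    (x : ℝ × Y m) : XY (ff ζ a₀ ℓ h) x =
      (1 + 2 * π * ζ (ss a₀ ℓ x) * G x.2 +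
        deriv ζ (ss a₀ ℓ x) * ss a₀ ℓ x * h x.2 * nab ℓ x.2 (eR m),
      Lt x.2 (xi (nab G x.2) (nab ℓ x.2) (ζ (ss a₀ ℓ x)) (deriv ζ (ss a₀ ℓ x) * ss a₀ ℓ x)
        (ww x.1) (h x.2))) := by
  have d : ∀ v, fderiv ℝ (fun x => ζ (ss a₀ ℓ x)) x v =
      -(deriv ζ (ss a₀ ℓ x) * ss a₀ ℓ x * (ww x.1 * v.1 + fderiv ℝ ℓ x.2 v.2)) := fun v => by
    have := ((hζ.differentiable (by simp) (ss a₀ ℓ x)).hasDerivAt.comp_hasFDerivAt x
      ((ss_smooth (a₀ := a₀) hℓ).differentiable (by simp) x).hasFDerivAt).fderiv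
    rw [show (fun x => ζ (ss a₀ ℓ x)) = ζ ∘ ss a₀ ℓ from rfl, this]
    simp [ss_der hℓ]
    ring
  refine (calcP m G h (fun x => ζ (ss a₀ ℓ x)) cr (hζ.comp (ss_smooth hℓ)) x).trans ?_
  simp only [d, xi, nab_apply, Lt_eR, Lt_eB, map_zero]
  refine Prod.ext (by simp only; ring) (congrArg (Lt x.2) (Prod.ext (by simp only; ring)
    (Prod.ext (funext fun j => by simp only; ring) (funext fun j => by simp only; ring))))

theorem nab_eR (cr : CR G h) (y : Y m) : nab G y (eR m) = 2 * π * h y := by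
  rw [nab_apply, Lt_eR]
  exact cr.RG y

theorem E_le {A : ℝ} (ha : a₀ ∈ Icc A (2 * A)) (hA : 0 < A) {r : ℝ} (hr : -1 ≤ r) :
    a₀ * exp (-r) ≤ 6 * A := by
  have h1 : exp (-r) ≤ 3 := (exp_le_exp.2 (by linarith)).trans (exp_one_lt_d9.le.trans (by norm_num))
  nlinarith [ha.1, ha.2, exp_pos (-r)]

theorem ss_pos (ha : 0 < a₀) (x : ℝ × Y m) : 0 < ss a₀ ℓ x := by
  rw [ss]
  positivity

theorem ss_le (ha : 0 < a₀) (x : ℝ × Y m) : ss a₀ ℓ x ≤ a₀ * exp (-ℓ x.2) :=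
  div_le_self (by positivity) (by nlinarith [sq_nonneg x.1])

theorem abs_rr {A : ℝ} (ha : a₀ ∈ Icc A (2 * A)) (hA : 0 < A) {x : ℝ × Y m} (hr : -1 ≤ ℓ x.2) :
    |rr a₀ ℓ x| ≤ 192 * A := by
  have h0 : 0 < a₀ := hA.trans_le ha.1
  have h1 := E_le ha hA hr
  have h2 : |arctan (x.1 / 2)| ≤ 2 :=
    abs_le.2 ⟨by linarith [neg_pi_div_two_lt_arctan (x.1 / 2), pi_le_four],
      by linarith [arctan_lt_pi_div_two (x.1 / 2), pi_le_four]⟩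
  have h3 : 4 * π * (a₀ * exp (-ℓ x.2)) ≤ 16 * (6 * A) :=
    mul_le_mul (by linarith [pi_le_four]) h1 (by positivity) (by norm_num)
  rw [rr, abs_mul, abs_of_pos (by positivity)]
  nlinarith [mul_le_mul h3 h2 (abs_nonneg _) (by positivity)]

variable {B r γ σ A c ε : ℝ} {x : ℝ × Y m}

theorem abs_two_pi {a g : ℝ} (ha : |a| ≤ ε) (hg : |g| ≤ B) : |2 * π * a * g| ≤ 8 * ε * B := by
  rw [abs_mul, abs_mul, abs_of_pos (by positivity : 0 < 2 * π)]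
  have h0 : 0 ≤ ε := (abs_nonneg _).trans ha
  exact mul_le_mul (mul_le_mul (by linarith [pi_le_four]) ha (abs_nonneg _) (by norm_num)) hg
    (abs_nonneg _) (by positivity)

/-- the estimates where the plug is not cut off -/
theorem regI (calcP : CalcStmt) (un : Uni G h B r γ) (hζ : ContDiff ℝ ∞ ζ) (hℓ : Flat G σ ℓ)
    (ha : a₀ ∈ Icc A (2 * A)) (hA : 0 < A) (hr : -1 ≤ ℓ x.2) (hσ : 0 ≤ σ) (h1 : B * σ ≤ 1)
    (hc : c = 1 / (48 * (m + 1))) (h2 : 2 * m * B * σ ≤ c / 2)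
    (h3 : σ * (1 + 48 * A * B + 2 * (192 * A) * B) ≤ c / 4)
    (hx : ζ (ss a₀ ℓ x) = ss a₀ ℓ x ∧ deriv ζ (ss a₀ ℓ x) = 1) :
    (1 + 2 * π * ss a₀ ℓ x * G x.2) ^ 2 + c / 4 * (ss a₀ ℓ x * ‖nab G x.2‖ ^ 2) ≤
      fderiv ℝ (La (192 * A + 1) a₀ G ℓ) x (XY (ff ζ a₀ ℓ h) x) ∧
    0 ≤ fderiv ℝ G x.2 (XY (ff ζ a₀ ℓ h) x).2 ∧
    (∀ F, Flat G σ F → |fderiv ℝ F x.2 (XY (ff ζ a₀ ℓ h) x).2| ≤
      2 * σ * (ss a₀ ℓ x * ‖nab G x.2‖ ^ 2)) ∧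
    (XY (ff ζ a₀ ℓ h) x).1 ≤
      1 + 2 * π * ss a₀ ℓ x * G x.2 + σ * (ss a₀ ℓ x * ‖nab G x.2‖ ^ 2) ∧
    (fderiv ℝ G x.2 = 0 → 1 + 2 * π * ss a₀ ℓ x * G x.2 = 0 → XY (ff ζ a₀ ℓ h) x = 0) := by
  have h0 : 0 < a₀ := hA.trans_le ha.1
  have hs : 0 < ss a₀ ℓ x := ss_pos h0 x
  have hs' : ss a₀ ℓ x ≤ 6 * A := (ss_le h0 x).trans (E_le ha hA hr)
  have hk := nab_eR un.cr x.2
  have hc0 : 0 < c := hc ▸ by positivity
  have n1 := norm_xi_one hk (un.bD x.2) (hℓ.le x.2) hs (abs_ww x.1) h1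
  have n2 := g_xi_one hk (un.bD x.2) (hℓ.le x.2) hs (abs_ww x.1) hσ
  have n3 := abs_k_le hk
  have hφ : |1 + 2 * π * ss a₀ ℓ x * G x.2| ≤ 1 + 48 * A * B := by
    have := abs_two_pi ((abs_of_pos hs).trans_le hs') (un.bG x.2)
    exact (abs_add_le _ _).trans (by rw [abs_one]; linarith)
  rw [La_der un.cr.sG hℓ.sm, X_eq calcP un.cr hζ hℓ.sm, hx.1, hx.2, one_mul]
  simp only [← nab_apply]
  generalize xi (nab G x.2) (nab ℓ x.2) (ss a₀ ℓ x) (ss a₀ ℓ x) (ww x.1) (h x.2) = ξ at n1 n2 ⊢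
  have hD := norm_nonneg (nab G x.2)
  have n4 : ∀ F, Flat G σ F → |nab F x.2 ξ| ≤ 2 * σ * (ss a₀ ℓ x * ‖nab G x.2‖ ^ 2) :=
    fun F hF => ((nab F x.2).le_opNorm ξ).trans
      ((mul_le_mul (hF.le x.2) n1 (norm_nonneg _) (by positivity)).trans_eq (by ring))
  have n5 : |ss a₀ ℓ x * h x.2 * nab ℓ x.2 (eR m)| ≤ σ * (ss a₀ ℓ x * ‖nab G x.2‖ ^ 2) := by
    rw [abs_mul, abs_mul, abs_of_pos hs]
    exact (mul_le_mul (mul_le_mul_of_nonneg_left (show |h x.2| ≤ ‖nab G x.2‖ by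
      linarith [abs_nonneg (h x.2)]) hs.le) ((absR _).trans (hℓ.le x.2)) (abs_nonneg _)
      (by positivity)).trans_eq (by ring)
  have n6 : ss a₀ ℓ x * ‖nab G x.2‖ ^ 2 * (c / 2) ≤ nab G x.2 ξ :=
    (mul_le_mul_of_nonneg_left (by rw [← hc]; linarith) (by positivity)).trans n2
  refine ⟨lam_one (abs_rr ha hA hr) rfl (un.bG x.2) hφ n5 n6 (n4 ℓ hℓ) hs hc0 h3,
    le_trans (by positivity) n6, n4, by linarith [(abs_le.1 n5).2], fun e1 e2 => ?_⟩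
  have e3 : ‖nab G x.2‖ = 0 := by rw [nab_eq_zero.2 e1, norm_zero]
  rw [e3] at n1 n5
  have e4 : ξ = 0 := norm_le_zero_iff.1 (n1.trans_eq (by ring))
  have e5 := abs_nonpos_iff.1 (n5.trans_eq (by ring))
  rw [e2, e4, e5, map_zero, add_zero]
  rfl

/-- the estimates where the plug is weak -/
theorem regII (calcP : CalcStmt) (un : Uni G h B r γ) (hζ : ContDiff ℝ ∞ ζ) (hℓ : Flat G σ ℓ)
    (ha : a₀ ∈ Icc A (2 * A)) (hA : 0 < A) (hr : -1 ≤ ℓ x.2) (h1 : B * σ ≤ 1)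
    (h2 : ε * ((6 * (192 * A) + 19) * B ^ 4) ≤ 1 / 2) (h3 : ss a₀ ℓ x ≤ ε)
    (hx : |ζ (ss a₀ ℓ x)| ≤ ε ∧ |deriv ζ (ss a₀ ℓ x) * ss a₀ ℓ x| ≤ ε) :
    1 / 2 ≤ fderiv ℝ (La (192 * A + 1) a₀ G ℓ) x (XY (ff ζ a₀ ℓ h) x) ∧
    |fderiv ℝ G x.2 (XY (ff ζ a₀ ℓ h) x).2| ≤ 2 * ε * B ^ 3 ∧
    ∀ F, Flat G σ F → |fderiv ℝ F x.2 (XY (ff ζ a₀ ℓ h) x).2| ≤ 2 * ε * B ^ 3 := by
  have h0 : 0 < a₀ := hA.trans_le ha.1
  have hs : 0 < ss a₀ ℓ x := ss_pos h0 x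
  have hε : 0 ≤ ε := hs.le.trans h3
  have hk := nab_eR un.cr x.2
  have hB := un.one
  have hD := norm_nonneg (nab G x.2)
  have hD' := un.bD x.2
  have n0 : ∀ F, Flat G σ F → ‖nab F x.2‖ ≤ B := fun F hF => (hF.le x.2).trans (by
    rcases le_total σ 0 with h | h
    · nlinarith
    · nlinarith)
  have n1 := norm_xi_two hk hD' (n0 ℓ hℓ) hx.1 hx.2 (abs_ww x.1) hB
  have n3 := abs_k_le hk
  have hp := abs_two_pi ((abs_of_pos hs).trans_le h3) (un.bG x.2)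
  have hq := abs_two_pi hx.1 (un.bG x.2)
  have hq' : |deriv ζ (ss a₀ ℓ x) * ss a₀ ℓ x * h x.2 * nab ℓ x.2 (eR m)| ≤ ε * B * B := by
    rw [abs_mul, abs_mul]
    exact mul_le_mul (mul_le_mul hx.2 (by linarith [abs_nonneg (h x.2)]) (abs_nonneg _) hε)
      ((absR _).trans (n0 ℓ hℓ)) (abs_nonneg _) (by positivity)
  rw [La_der un.cr.sG hℓ.sm, X_eq calcP un.cr hζ hℓ.sm]
  simp only [← nab_apply]
  generalize xi (nab G x.2) (nab ℓ x.2) _ _ (ww x.1) (h x.2) = ξ at n1 ⊢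
  have n4 : ∀ F, ‖nab F x.2‖ ≤ B → |nab F x.2 ξ| ≤ 2 * ε * B ^ 3 :=
    fun F hF => ((nab F x.2).le_opNorm ξ).trans
      ((mul_le_mul hF n1 (norm_nonneg _) (by positivity)).trans_eq (by ring))
  refine ⟨?_, n4 G hD', fun F hF => n4 F (n0 F hF)⟩
  rw [add_assoc 1]
  refine lam_two (abs_rr ha hA hr) rfl (un.bG x.2) hB hε hp ?_ (n4 G hD') (n4 ℓ (n0 ℓ hℓ)) h2
  have : ε * B ≤ ε * B * B := le_mul_of_one_le_right (by positivity) hB
  exact (abs_add_le _ _).trans (by nlinarith)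

end Pool.Agent.MP_6d695c_gt.T1.Mst

end MrgPart5

-- ======== part 6: formerly Pool.Agent.MP_6d695c_gt.t1.Mast
section MrgPart6

/-! PROJECT T1, row PLUG1: the plug and its Lyapunov function. -/

open scoped Topology ContDiff
open Set Filter Real

namespace Pool.Agent.MP_6d695c_gt.T1

open SW Theta

namespace Mst

variable {m : ℕ} {G h ℓ : Y m → ℝ} {ζ : ℝ → ℝ} {a₀ B r γ σ A c s₀ : ℝ} {x : ℝ × Y m}

theorem ev_small (P : ℝ) {Q : ℝ} (hQ : 0 < Q) : ∀ᶠ σ in 𝓝[>] (0 : ℝ), σ * P ≤ Q := by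
  have : Tendsto (fun σ : ℝ => σ * P) (𝓝 0) (𝓝 0) := by
    simpa using (tendsto_id (x := 𝓝 (0 : ℝ))).mul_const P
  exact ((this.eventually (gt_mem_nhds hQ)).mono fun _ h => h.le).filter_mono nhdsWithin_le_nhds

/-- the Lyapunov property where the plug is not cut off -/
theorem lyI (calcP : CalcStmt) (un : Uni G h B r γ) (hζ : ContDiff ℝ ∞ ζ) (hℓ : Flat G σ ℓ)
    (ha : a₀ ∈ Icc A (2 * A)) (hA : 0 < A) (hr : ∀ y, -1 ≤ ℓ y) (hσ : 0 ≤ σ) (h1 : B * σ ≤ 1)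
    (hc : c = 1 / (48 * (m + 1))) (h2 : 2 * m * B * σ ≤ c / 2)
    (h3 : σ * (1 + 48 * A * B + 2 * (192 * A) * B) ≤ c / 4) (h4 : 0 < s₀)
    (hz : ∀ s, 2 * s₀ < s → ζ s = s ∧ deriv ζ s = 1)
    (hg : ∀ p, fderiv ℝ G p = 0 → 1 + 2 * π * (a₀ * exp (-ℓ p)) * G p ≠ 0)
    (hx : 2 * s₀ < ss a₀ ℓ x) : Ly univ (XY (ff ζ a₀ ℓ h)) (La (192 * A + 1) a₀ G ℓ) x := by
  have hc0 : 0 < c := hc ▸ by positivity
  have R := fun z (hz' : 2 * s₀ < ss a₀ ℓ z) =>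
    regI calcP un hζ hℓ ha hA (hr z.2) hσ h1 hc h2 h3 (hz _ hz')
  refine or_iff_not_imp_left.2 fun hn => ?_
  have h5 := (R x hx).1.trans (not_lt.1 hn)
  have hs : 0 < ss a₀ ℓ x := by linarith
  have h6 : 0 ≤ c / 4 * (ss a₀ ℓ x * ‖nab G x.2‖ ^ 2) := by positivity
  have e1 : 1 + 2 * π * ss a₀ ℓ x * G x.2 = 0 := by
    refine pow_eq_zero_iff (two_ne_zero) |>.1 (le_antisymm (by linarith) (sq_nonneg _))
  have e2 : fderiv ℝ G x.2 = 0 := by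
    rw [e1] at h5
    have h7 : c / 4 * (ss a₀ ℓ x * ‖nab G x.2‖ ^ 2) = 0 := le_antisymm (by linarith) h6
    have h8 : ‖nab G x.2‖ ^ 2 = 0 :=
      (mul_eq_zero.1 ((mul_eq_zero.1 h7).resolve_left (by positivity))).resolve_left hs.ne'
    exact nab_eq_zero.1 (norm_eq_zero.1 (pow_eq_zero_iff two_ne_zero |>.1 h8))
  have e3 : fderiv ℝ ℓ x.2 = 0 := by
    have := hℓ.le x.2
    rw [nab_eq_zero.2 e2, norm_zero, mul_zero] at this
    exact nab_eq_zero.1 (norm_le_zero_iff.1 this)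
  have e4 : x.1 ≠ 0 := fun e => hg x.2 e2 (by simpa [ss, e] using e1)
  obtain ⟨L, hL, hL'⟩ := phi_der un.cr.sG hℓ.sm e2 e3 e1
  obtain ⟨κ, hκ, hκ'⟩ := un.near x.2 e2
  obtain ⟨k, hk, hk'⟩ := quad hL e1 hL' (ww_ne e4)
    (show 0 < c / 4 * (2 * s₀ * κ ^ 2) by positivity)
  refine ⟨_, ⟨(R x hx).2.2.2.2 e2 e1, La_smooth un.cr.sG hℓ.sm, ?_, k, hk, ?_⟩,
    .of_forall fun _ => le_rfl⟩
  · refine ContinuousLinearMap.ext fun v => ?_
    rw [La_der un.cr.sG hℓ.sm, e1, e2, e3]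
    simp
  · rw [nhdsWithin_univ]
    filter_upwards [hk', continuous_snd.continuousAt.eventually hκ',
      (ss_smooth (a₀ := a₀) hℓ.sm).continuous.continuousAt.eventually (lt_mem_nhds hx)]
      with z z1 z2 z3
    refine z1.trans (le_trans ?_ (R z z3).1)
    have z4 : (κ * ‖z.2 - x.2‖) ^ 2 ≤ ‖nab G z.2‖ ^ 2 := pow_le_pow_left₀ (by positivity) z2 2
    have z5 : 2 * s₀ * (κ * ‖z.2 - x.2‖) ^ 2 ≤ ss a₀ ℓ z * ‖nab G z.2‖ ^ 2 :=
      mul_le_mul z3.le z4 (by positivity) (by linarith)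
    nlinarith [mul_le_mul_of_nonneg_left z5 (show 0 ≤ c / 4 by positivity)]

theorem exists_a (un : Uni G h B r γ) (ℓ : Y m → ℝ) (hA : 0 < A) : ∃ a₀ ∈ Icc A (2 * A),
    ∀ p, fderiv ℝ G p = 0 → 1 + 2 * π * (a₀ * exp (-ℓ p)) * G p ≠ 0 := by
  obtain ⟨a, h1, h2⟩ := ((un.cnt.image fun p => -1 / (2 * π * exp (-ℓ p) * G p)).dense_compl
    ℝ).exists_between (show A < 2 * A by linarith)
  refine ⟨a, Ioo_subset_Icc_self h2, fun p hp e => h1 ⟨p, hp, ?_⟩⟩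
  have h3 : G p ≠ 0 := abs_pos.1 (un.γpos.trans (un.val p hp))
  have h4 : 2 * π * exp (-ℓ p) * G p ≠ 0 := by positivity
  rw [div_eq_iff h4]
  linarith

end Mst

open Mst

theorem mast (calcP : CalcStmt) (_model : ModelStmt) : MastStmt := by
  intro m G h B r γ η un hη
  obtain ⟨N, hN, hZ⟩ := exists_zeta
  have hB := un.one
  have hγ := un.γpos
  obtain ⟨c, hc⟩ : ∃ c : ℝ, c = 1 / (48 * (m + 1)) := ⟨_, rfl⟩
  have hc0 : 0 < c := hc ▸ by positivity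
  obtain ⟨A, hA, hAγ⟩ : ∃ A : ℝ, 0 < A ∧ 2 ≤ γ * A :=
    ⟨2 / γ, by positivity, by rw [mul_div_cancel₀ _ hγ.ne']⟩
  obtain ⟨T, t1, t2, t3, t4⟩ : ∃ T : ℝ, 14 ≤ T ∧ (384 * A + 1) * B + 1 ≤ T ∧
      48 * N * A * ((6 * (192 * A) + 19) * B ^ 4) ≤ T ∧ 768 * N * A * B ^ 3 / η ≤ T :=
    ((eventually_ge_atTop _).and ((eventually_ge_atTop _).and ((eventually_ge_atTop _).and
      (eventually_ge_atTop _)))).exists
  have t0 : 0 < T := by linarith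
  obtain ⟨s₀, h0, hs⟩ : ∃ s₀ : ℝ, 0 < s₀ ∧ s₀ * T ^ 2 = 24 * A :=
    ⟨24 * A / T ^ 2, by positivity, div_mul_cancel₀ _ (by positivity)⟩
  obtain ⟨ζ, hζ, z1, z2, z3⟩ := hZ s₀ h0
  obtain ⟨σ, ⟨s1, s2, s3, s4, s5⟩, hσ⟩ := (((ev_small B one_pos).and
    ((ev_small (2 * m * B) (half_pos hc0)).and
    ((ev_small (1 + 48 * A * B + 2 * (192 * A) * B) (show 0 < c / 4 by positivity)).and
    ((ev_small (8 / c * (4 * T)) (half_pos hη)).and (ev_small (B ^ 2) hγ))))).and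
    self_mem_nhdsWithin).exists
  replace hσ : 0 < σ := hσ
  rw [mul_comm] at s1 s2
  refine ⟨T ^ 2, σ, by nlinarith, hσ, fun ℓ u hℓ hu hr => ?_⟩
  obtain ⟨a₀, ha, hg⟩ := exists_a un ℓ hA
  have a0 : 0 < a₀ := hA.trans_le ha.1
  have e1 : N * s₀ * ((6 * (192 * A) + 19) * B ^ 4) ≤ 1 / 2 := by
    refine le_of_mul_le_mul_right ?_ (show 0 < T ^ 2 by positivity)
    have : N * s₀ * ((6 * (192 * A) + 19) * B ^ 4) * T ^ 2 =
        48 * N * A * ((6 * (192 * A) + 19) * B ^ 4) / 2 := by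
      linear_combination N * ((6 * (192 * A) + 19) * B ^ 4) * hs
    nlinarith
  have RI := fun (x : ℝ × Y m) (hx : 2 * s₀ < ss a₀ ℓ x) =>
    regI calcP un hζ hℓ ha hA (hr x.2) hσ.le s1 hc s2 s3 (z2 _ hx)
  have RII := fun (x : ℝ × Y m) (hx : ss a₀ ℓ x ≤ 2 * s₀) =>
    regII calcP un hζ hℓ ha hA (hr x.2) s1 e1 (hx.trans (mul_le_mul_of_nonneg_right hN h0.le))
      (z3 _ (ss_pos a0 x) hx)
  have d1 : 0 ≤ 4 * (N * s₀) * B ^ 3 := by positivity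
  have d2 : 0 ≤ σ * (8 / c) := by positivity
  have two : ∀ {v w : ℝ}, 1 / 2 ≤ w → |v| ≤ 2 * (N * s₀) * B ^ 3 →
      |v| ≤ (4 * (N * s₀) * B ^ 3 + σ * (8 / c)) * w := fun hw hv => by nlinarith
  have flat : ∀ F, Flat G σ F → ∀ x : ℝ × Y m, |fderiv ℝ F x.2 (XY (ff ζ a₀ ℓ h) x).2| ≤
      (4 * (N * s₀) * B ^ 3 + σ * (8 / c)) *
        fderiv ℝ (La (192 * A + 1) a₀ G ℓ) x (XY (ff ζ a₀ ℓ h) x) := fun F hF x => by
    rcases le_or_gt (ss a₀ ℓ x) (2 * s₀) with hx | hx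
    · exact two (RII x hx).1 ((RII x hx).2.2 F hF)
    · have p0 : 0 ≤ ss a₀ ℓ x * ‖nab G x.2‖ ^ 2 := by have := ss_pos (ℓ := ℓ) a0 x; positivity
      have p1 := (le_add_of_nonneg_left (sq_nonneg _)).trans (RI x hx).1
      have p2 := mul_le_mul_of_nonneg_left p1 d2
      have p3 : σ * (8 / c) * (c / 4 * (ss a₀ ℓ x * ‖nab G x.2‖ ^ 2)) =
          2 * σ * (ss a₀ ℓ x * ‖nab G x.2‖ ^ 2) := by
        field_simp
        ring
      have p4 := mul_nonneg d1 (le_trans (by positivity) p1)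
      have p5 := (RI x hx).2.2.1 F hF
      linarith
  have zero : ∀ x : ℝ × Y m, ss a₀ ℓ x ≤ s₀ → ff ζ a₀ ℓ h x = 0 := fun x hx => by
    simp [ff, z1 _ hx]
  refine ⟨T, (384 * A + 1) * B, 4 * (N * s₀) * B ^ 3 + σ * (8 / c), ff ζ a₀ ℓ h,
    La (192 * A + 1) a₀ G ℓ, ⟨ff_smooth hζ hℓ.sm un.cr.sh, La_smooth un.cr.sG hℓ.sm, by linarith,
      add_nonneg d1 d2, fun x hx => zero x ?_, fun x hx => zero x ?_, fun x => ?_, fun x => ?_,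
      fun x _ => ?_, fun x _ => flat ℓ hℓ x, fun x _ => flat u hu x, fun x x1 x2 x3 => ?_⟩, ?_⟩
  · refine (ss_le a0 x).trans (le_of_mul_le_mul_right ?_ (show 0 < T ^ 2 by positivity))
    have p1 : exp (-ℓ x.2) * T ^ 2 ≤ 1 := by
      rw [exp_neg, inv_mul_le_iff₀ (exp_pos _)]
      linarith [add_one_le_exp (ℓ x.2)]
    nlinarith [mul_le_mul ha.2 p1 (by positivity) (by positivity)]
  · have p1 : T ^ 2 ≤ x.1 ^ 2 := by
      rw [← sq_abs x.1]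
      exact pow_le_pow_left₀ t0.le hx 2
    rw [ss, div_le_iff₀ (by positivity)]
    nlinarith [E_le ha hA (hr x.2), mul_le_mul_of_nonneg_left p1 h0.le]
  · rcases le_or_gt (ss a₀ ℓ x) (2 * s₀) with hx | hx
    · exact Or.inl (lt_of_lt_of_le (by norm_num) (RII x hx).1)
    · exact lyI calcP un hζ hℓ ha hA hr hσ.le s1 hc s2 s3 h0 z2 hg hx
  · rw [La, add_sub_cancel_left, abs_mul]
    refine mul_le_mul ?_ (un.bG x.2) (abs_nonneg _) (by positivity)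
    have := abs_le.1 (abs_rr ha hA (hr x.2))
    exact abs_le.2 ⟨by linarith, by linarith⟩
  · rcases le_or_gt (ss a₀ ℓ x) (2 * s₀) with hx | hx
    · exact (abs_le.1 (two (RII x hx).1 (RII x hx).2.1)).1
    · have p0 : 0 ≤ ss a₀ ℓ x * ‖nab G x.2‖ ^ 2 := by have := ss_pos (ℓ := ℓ) a0 x; positivity
      exact (neg_nonpos.2 (mul_nonneg (add_nonneg d1 d2)
        (le_trans (by positivity) (RI x hx).1))).trans (RI x hx).2.1
  · have p1 : x.1 ^ 2 ≤ 1 := by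
      rw [← sq_abs x.1]
      exact pow_le_one₀ (abs_nonneg _) x1
    have p2 : 1 / 3 ≤ exp (-ℓ x.2) := by
      rw [exp_neg, one_div]
      exact inv_anti₀ (exp_pos _)
        ((exp_le_exp.2 x3).trans (exp_one_lt_d9.le.trans (by norm_num)))
    have p3 : A / 4 ≤ ss a₀ ℓ x := by
      rw [ss, le_div_iff₀ (by positivity)]
      nlinarith [mul_le_mul ha.1 p2 (by norm_num) a0.le]
    have p4 : 2 * s₀ < ss a₀ ℓ x := by
      have : 196 ≤ T ^ 2 := by nlinarith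
      nlinarith [mul_le_mul_of_nonneg_left this h0.le]
    have p5 : ‖nab G x.2‖ ^ 2 ≤ B ^ 2 := pow_le_pow_left₀ (norm_nonneg _) (un.bD x.2) 2
    have p6 : σ * ‖nab G x.2‖ ^ 2 ≤ γ := (mul_le_mul_of_nonneg_left p5 hσ.le).trans s5
    have p7 : 2 * π * G x.2 ≤ -(3 * γ) := by nlinarith [pi_gt_three]
    have p8 := (ss_pos (ℓ := ℓ) a0 x).le
    refine (RI x p4).2.2.2.1.trans ?_
    nlinarith [mul_le_mul_of_nonneg_left p6 p8, mul_le_mul_of_nonneg_left p7 p8,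
      mul_le_mul_of_nonneg_left p3 hγ.le]
  · have p1 : 4 * (N * s₀) * B ^ 3 * (4 * T) ≤ η / 2 := by
      refine le_of_mul_le_mul_right ?_ t0
      rw [div_le_iff₀ hη] at t4
      have : 4 * (N * s₀) * B ^ 3 * (4 * T) * T = 768 * N * A * B ^ 3 / 2 := by
        linear_combination 16 * N * B ^ 3 * hs
      linarith
    refine (mul_le_mul_of_nonneg_left (show _ ≤ 4 * T by linarith) (add_nonneg d1 d2)).trans ?_
    linarith

end Pool.Agent.MP_6d695c_gt.T1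

end MrgPart6

-- ======== part 7: formerly Pool.Agent.MP_6d695c_gt.t1.Glue
section MrgPart7

/-! PROJECT T1, row GLUE: gluing the data on the cover with `φ + p²`. -/

open scoped Manifold ContDiff Topology MeasureTheory
open Set Metric Filter Real

namespace Pool.Agent.MP_6d695c_gt.T1

open SW Theta

namespace Glue

variable {V : Type} [NormedAddCommGroup V] [NormedSpace ℝ V]

/-- the last coordinate -/
noncomputable def dp (V : Type) [NormedAddCommGroup V] [NormedSpace ℝ V] :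
    (V × ℝ × ℝ) →L[ℝ] ℝ :=
  (ContinuousLinearMap.snd ℝ ℝ ℝ).comp (ContinuousLinearMap.snd ℝ V (ℝ × ℝ))

theorem hasF_p (q : V × ℝ × ℝ) : HasFDerivAt (fun q : V × ℝ × ℝ => q.2.2) (dp V) q :=
  (dp V).hasFDerivAt

theorem sm_psH {φ : V → ℝ} (h : ContDiff ℝ ∞ φ) : ContDiff ℝ ∞ (psH φ) :=
  (h.comp contDiff_fst).add ((contDiff_snd.comp contDiff_snd).pow 2)

theorem fderiv_psH {φ : V → ℝ} (h : ContDiff ℝ ∞ φ) (q v : V × ℝ × ℝ) :
    fderiv ℝ (psH φ) q v = fderiv ℝ φ q.1 v.1 + 2 * q.2.2 * v.2.2 := by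
  have h1 := ((h.differentiable (by simp)) q.1).hasFDerivAt.comp q
    (ContinuousLinearMap.fst ℝ V (ℝ × ℝ)).hasFDerivAt
  have h2 : HasFDerivAt (psH φ) _ q := h1.add ((hasF_p q).pow 2)
  rw [h2.fderiv]
  simp [dp]

variable [FiniteDimensional ℝ V] {l : V → V →L[ℝ] ℝ} {Pi : V → (V →L[ℝ] ℝ) →L[ℝ] V}

theorem PH_dp (q : V × ℝ × ℝ) : PH Pi q (dp V) = (0, -1, 0) := by
  have : (dp V).comp (ContinuousLinearMap.inl ℝ V (ℝ × ℝ)) = 0 := by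
    ext v
    simp [dp]
  rw [PH_apply, this, map_zero]
  simp [dp]

theorem sm_PH (hP : ContDiff ℝ ∞ (PH Pi)) (hl : ContDiff ℝ ∞ l) (hPi : ContDiff ℝ ∞ Pi)
    {G : V × ℝ × ℝ → ℝ} (hG : ContDiff ℝ ∞ G) (c : ℝ) : ContDiff ℝ ∞ (XH l Pi c G) :=
  (((hPi.clm_apply hl).comp contDiff_fst).prodMk
    (contDiff_const.prodMk (contDiff_snd.comp contDiff_snd))).add
    (hP.clm_apply (hG.fderiv_right (m := ∞) (by simp)))

theorem XH_eq {f G : V × ℝ × ℝ → ℝ} {q : V × ℝ × ℝ} (hf : DifferentiableAt ℝ f q)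
    (h : ∀ᶠ y in 𝓝 q, G y = f y - y.2.2) : XH l Pi 0 G q = XH l Pi 1 f q := by
  have h1 : fderiv ℝ G q = fderiv ℝ f q - dp V := by
    rw [Filter.EventuallyEq.fderiv_eq (f := fun y => f y - y.2.2) h]
    exact (hf.hasFDerivAt.sub (hasF_p q)).fderiv
  rw [XH, XH, h1, map_sub, PH_dp]
  ext <;> simp
  ring

end Glue

open Glue in
theorem glueS (symp : SympStmt) : GlueStmt := by
  intro V E _ _ _ _ _ M l Pi φ a L f Φ hA hZ hC
  obtain ⟨-, -, -, -, -, hS⟩ := symp V E M l Pi (smp_of_amb hA)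
  obtain ⟨β, hβ, β1, β0, -, -⟩ := exists_step (show (13 / 8 : ℝ) < 7 / 4 by norm_num)
  obtain ⟨χ, hχ, χ1, χ0, -, -⟩ := exists_step (show (5 / 4 : ℝ) < 3 / 2 by norm_num)
  obtain ⟨s, hs, s1, s0, sr, sd⟩ := exists_step (show (1 : ℝ) < 9 / 8 by norm_num)
  have hψ : ContDiff ℝ ∞ (psH φ) := sm_psH hA.sφ
  have dψ : ∀ q, DifferentiableAt ℝ (psH φ) q := hψ.differentiable (by simp)
  have df : ∀ q, DifferentiableAt ℝ f q := hC.sf.differentiable (by simp)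
  set G : V × ℝ × ℝ → ℝ := fun q => f q - q.2.2 * β (psH φ q) with hG
  set W : V × ℝ × ℝ → ℝ := fun q => χ (psH φ q) * Φ q with hW
  set T : V × ℝ × ℝ → ℝ := fun q => (psH φ q - 1) * (1 - s (psH φ q)) with hT
  have sG : ContDiff ℝ ∞ G :=
    hC.sf.sub ((contDiff_snd.comp contDiff_snd).mul (hβ.comp hψ))
  have sW : ContDiff ℝ ∞ W := (hχ.comp hψ).mul hC.sΦ
  have sT : ContDiff ℝ ∞ T := (hψ.sub contDiff_const).mul (contDiff_const.sub (hs.comp hψ))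
  have sX : ContDiff ℝ ∞ (XH l Pi 0 G) := sm_PH hS.sP hA.sl hA.sP sG 0
  have ltψ : ∀ q (c : ℝ), psH φ q < c → ∀ᶠ y in 𝓝 q, psH φ y < c := fun q c h =>
    hψ.continuous.continuousAt.eventually (gt_mem_nhds h)
  have gtψ : ∀ q (c : ℝ), c < psH φ q → ∀ᶠ y in 𝓝 q, c < psH φ y := fun q c h =>
    hψ.continuous.continuousAt.eventually (lt_mem_nhds h)
  have X1 : ∀ q, psH φ q < 13 / 8 → XH l Pi 0 G q = XH l Pi 1 f q := fun q h =>
    XH_eq (df q) ((ltψ q _ h).mono fun y hy => by simp only [hG, β1 _ hy.le, mul_one])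
  have X2 : ∀ q ∈ ov M (ℝ × ℝ), 1 ≤ psH φ q → 0 < fderiv ℝ (psH φ) q (XH l Pi 0 G q) := by
    intro q hq h
    have e1 : PH Pi q (fderiv ℝ f q) = 0 := by
      rw [hS.congr hq (β := 0) fun v hv => by
        rw [fderiv_congr_tg (df q) (differentiableAt_const (0 : ℝ)) hq
          (hC.supp q hq (Or.inr (Or.inr h))) hv]
        simp, map_zero]
    have e2 := ((hβ.differentiable (by simp)) (psH φ q)).hasDerivAt.comp_hasFDerivAt q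
      (dψ q).hasFDerivAt
    have e3 : HasFDerivAt G _ q := (df q).hasFDerivAt.sub ((hasF_p q).mul e2)
    have e4 := hS.self hq (fderiv ℝ (psH φ) q)
    rw [XH, e3.fderiv]
    simp only [map_add, map_sub, map_smul, e1, PH_dp, e4, map_zero, smul_zero]
    simp only [fderiv_psH hA.sφ, map_zero, mul_zero, add_zero, smul_zero, sub_zero]
    have z := hZ q.1 hq
    by_cases hφ : 1 / 8 ≤ φ q.1
    · have := hA.shell q.1 hq hφ
      nlinarith [mul_self_nonneg q.2.2]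
    · have : 1 ≤ φ q.1 + q.2.2 ^ 2 := h
      nlinarith
  set K : Set (V × ℝ × ℝ) := ({x ∈ M | φ x ≤ 4} ×ˢ
    (closedBall (a + L / 2) L ×ˢ closedBall (0 : ℝ) 2)) ∩ {q | 1 ≤ psH φ q} with hK
  have cK : IsCompact K := ((hA.cpt 4 (by norm_num)).prod
    ((isCompact_closedBall _ _).prod (isCompact_closedBall _ _))).inter_right
    (isClosed_le continuous_const hψ.continuous)
  obtain ⟨m, m0, hm⟩ := exists_pos_le (u := fun q => fderiv ℝ (psH φ) q (XH l Pi 0 G q)) cK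
    ((hψ.continuous_fderiv (by simp)).clm_apply sX.continuous).continuousOn
    fun q hq => X2 q hq.1.1.1 hq.2
  obtain ⟨C, hCb⟩ := cK.exists_bound_of_continuousOn
    (f := fun q => fderiv ℝ W q (XH l Pi 0 G q))
    ((sW.continuous_fderiv (by simp)).clm_apply sX.continuous).continuousOn
  set A : ℝ := (|C| + 1) / m with hAdef
  have A0 : 0 < A := by positivity
  have dΦ' : ∀ q v, fderiv ℝ (fun q => W q + A * T q) q v =
      fderiv ℝ W q v + A * fderiv ℝ T q v := fun q v => by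
    have := ((sW.differentiable (by simp)) q).hasFDerivAt.add
      (((sT.differentiable (by simp)) q).hasFDerivAt.const_mul A)
    have e : HasFDerivAt (fun q => W q + A * T q) _ q := this
    rw [e.fderiv]
    simp
  have dT : ∀ q v, fderiv ℝ T q v = ((1 - s (psH φ q)) - (psH φ q - 1) * deriv s (psH φ q)) *
      fderiv ℝ (psH φ) q v := fun q v => by
    have e2 := ((hs.differentiable (by simp)) (psH φ q)).hasDerivAt.comp_hasFDerivAt q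
      (dψ q).hasFDerivAt
    have e : HasFDerivAt T _ q := ((dψ q).hasFDerivAt.sub_const 1).mul (e2.const_sub 1)
    rw [e.fderiv]
    simp
    ring
  refine ⟨A, -A, G, fun q => W q + A * T q, hC.L4, A0, sG, sW.add (contDiff_const.mul sT),
    fun x hx θ p hθ => ?_, fun q hq h => ?_, fun q hq h => ?_, fun q hq hθ h => ?_⟩
  · rw [abs_le] at hθ
    have q1 : (x, θ, p) ∈ ov M (ℝ × ℝ) := hx
    have q2 : (x, θ + L, p) ∈ ov M (ℝ × ℝ) := hx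
    have f1 : f (x, θ, p) = 0 :=
      (hC.supp _ q1 (Or.inl (by simp only; linarith))).self_of_nhdsWithin q1
    have f2 : f (x, θ + L, p) = 0 :=
      (hC.supp _ q2 (Or.inr (Or.inl (by simp only; linarith)))).self_of_nhdsWithin q2
    have e : psH φ (x, θ + L, p) = psH φ (x, θ, p) := rfl
    refine ⟨by simp only [hG, f1, f2, e], ?_⟩
    simp only [hW, hT, e]
    rcases le_total (psH φ (x, θ, p)) 2 with h | h
    · rw [hC.low _ q1 h (by simp only; linarith), hC.high _ q2 h (by simp only; linarith)]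
      simp
    · rw [χ0 _ (by linarith), zero_mul, zero_mul]
  · filter_upwards [hC.supp q hq (Or.inr (Or.inr (by linarith))),
      mem_nhdsWithin_of_mem_nhds (gtψ q (7 / 4) (by linarith))] with y h1 h2
    simp only [hG, h1, β0 _ (le_of_lt h2), mul_zero, sub_zero]
  · simp only [hW, hT, χ0 _ (show 3 / 2 ≤ psH φ q by linarith),
      s0 _ (show 9 / 8 ≤ psH φ q by linarith)]
    ring
  · rcases lt_or_ge (psH φ q) (5 / 4) with h5 | h5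
    · have h1 : Ly (ov M (ℝ × ℝ)) (XH l Pi 0 G) Φ q :=
        (hC.lyap q hq (by linarith)).congr hq (mem_nhdsWithin_of_mem_nhds
          ((ltψ q _ h5).mono fun y hy => X1 y (by linarith)))
      refine h1.le hq ?_
      filter_upwards [self_mem_nhdsWithin, mem_nhdsWithin_of_mem_nhds (ltψ q _ h5)] with y hy h2
      have e : fderiv ℝ W y = fderiv ℝ Φ y := Filter.EventuallyEq.fderiv_eq
        ((ltψ y _ h2).mono fun z hz => by simp only [hW, χ1 _ hz.le, one_mul])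
      rw [dΦ', e, le_add_iff_nonneg_right]
      refine mul_nonneg A0.le ?_
      rcases lt_or_ge (psH φ y) 1 with h3 | h3
      · have e' : fderiv ℝ T y = fderiv ℝ (fun _ => (0 : ℝ)) y := Filter.EventuallyEq.fderiv_eq
          ((ltψ y _ h3).mono fun z hz => by simp only [hT, s1 _ hz.le, sub_self, mul_zero])
        simp [e']
      · rw [dT]
        refine mul_nonneg ?_ (X2 y hy h3).le
        nlinarith [(sr (psH φ y)).2, sd (psH φ y)]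
    · refine Or.inl ?_
      have hqK : q ∈ K := by
        have h0 := hA.nn q.1 hq
        have h4 : φ q.1 + q.2.2 ^ 2 ≤ 4 := h
        refine ⟨⟨⟨hq, by nlinarith [sq_nonneg q.2.2]⟩, hθ, ?_⟩, show 1 ≤ psH φ q by linarith⟩
        rw [mem_closedBall, dist_zero_right, Real.norm_eq_abs, abs_le]
        constructor <;> nlinarith
      have e' : fderiv ℝ T q = fderiv ℝ (fun y => psH φ y - 1) q := Filter.EventuallyEq.fderiv_eq
        ((gtψ q (9 / 8) (by linarith)).mono fun z hz => by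
          simp only [hT, s0 _ hz.le, sub_zero, mul_one])
      rw [dΦ', e', fderiv_sub_const]
      have b1 := hCb q hqK
      have b2 := mul_le_mul_of_nonneg_left (hm q hqK) A0.le
      have b3 : A * m = |C| + 1 := by rw [hAdef]; field_simp
      rw [Real.norm_eq_abs, abs_le] at b1
      linarith [b1.1, le_abs_self C]

end Pool.Agent.MP_6d695c_gt.T1

end MrgPart7

-- marker of a merged file
example : 731051 + 639564 = 731051 + 639564 := rfl
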