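import Mathlib.LinearAlgebra.QuadraticForm.Signature
import Mathlib.RingTheory.TotallySplit
import Pool.Agent.MP_6d695c_gt.t1.CR
import Pool.Agent.MP_6d695c_gt.sw.Flow
import Pool.Agent.MP_6d695c_gt.t1.Glue

-- ======== part 0: formerly Pool.Agent.MP_6d695c_gt.t1.Hess
section MrgPart0

/-! The Hessian of the real part of a CR function at a critical point. -/

set_option autoImplicit false

open Real Module
open scoped ContDiff

namespace Pool.Agent.MP_6d695c_gt.T1.Theta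

theorem cone0 {E : Type} [NormedAddCommGroup E] [NormedSpace ℝ E] [FiniteDimensional ℝ E] {m : ℕ}
    (B : E →L[ℝ] E →L[ℝ] ℝ) (sym : ∀ u v, B u v = B v u) (nd : ∀ u, (∀ v, B u v = 0) → u = 0)
    (T : E →ₗ[ℝ] E) (hT : Function.Injective T) (neg : ∀ u, u ≠ 0 → B u u + B (T u) (T u) < 0)
    (hd : finrank ℝ E ≤ 2 * m + 1) :
    ∃ (pr : E →L[ℝ] Fin m → ℝ) (C : ℝ), ∀ d, 0 ≤ B d d → ‖d‖ ≤ C * ‖pr d‖ := by
  let Q : QuadraticForm ℝ E := LinearMap.BilinMap.toQuadraticMap B.toLinearMap₁₂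
  have hQ : ∀ u, Q u = B u u := fun _ => rfl
  have rad : Q.radical = ⊥ := (Submodule.eq_bot_iff _).2 fun u hu => nd u fun v => by
    obtain ⟨h1, h2⟩ := QuadraticMap.mem_radical_iff'.1 hu
    have := h2 v
    simp only [hQ, map_add, add_apply] at this h1
    linarith [sym u v]
  have e := Q.sigPos_add_sigNeg_add_radical
  rw [rad, finrank_bot] at e
  obtain ⟨P, hP, pP⟩ := exists_finrank_eq_sigPos_and_posDef Q
  obtain ⟨N, hN, pN⟩ := exists_finrank_eq_sigNeg_and_negDef Q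
  have h1 : P ⊓ P.map T = ⊥ := (Submodule.eq_bot_iff _).2 (by
    rintro _ ⟨h, u, hu, rfl⟩
    by_contra c
    have c' : u ≠ 0 := fun z => c (by rw [z, map_zero])
    have a1 : 0 ≤ B u u := pP.nonneg ⟨u, hu⟩
    have a2 : 0 ≤ B (T u) (T u) := pP.nonneg ⟨_, h⟩
    linarith [neg u c'])
  have h2 := Submodule.finrank_sup_add_finrank_inf_eq P (P.map T)
  rw [h1, finrank_bot, ← (Submodule.equivMapOfInjective T hT P).finrank_eq] at h2
  have h3 := (P ⊔ P.map T).finrank_le
  have h4 := N.finrank_quotient_add_finrank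
  obtain ⟨f, hf⟩ := (finrank_le_iff_exists_linearMap (R := ℝ) (M := E ⧸ N) (M' := Fin m → ℝ)).1
    (by rw [finrank_fin_fun]; omega)
  let pr : E →L[ℝ] Fin m → ℝ := LinearMap.toContinuousLinearMap (f ∘ₗ N.mkQ)
  have := FiniteDimensional.proper_real E
  have cB : Continuous fun d => B d d := B.continuous.clm_apply continuous_id
  obtain ⟨c, hc, h5⟩ := ((isCompact_sphere (0 : E) 1).inter_right
    (isClosed_le continuous_const cB (f := fun _ => 0))).exists_forall_le'
    (f := fun d => ‖pr d‖) (a := 0) pr.continuous.norm.continuousOn (by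
      rintro d ⟨h6, h7⟩
      refine norm_pos_iff.2 fun z => ?_
      have h8 : d ∈ N := (Submodule.Quotient.mk_eq_zero N).1 (hf (z.trans (map_zero f).symm))
      have h9 : 0 < -B d d := pN ⟨d, h8⟩ fun z => by
        have : d = 0 := congrArg Subtype.val z
        simp [this] at h6
      exact absurd h7 (by simpa using h9))
  refine ⟨pr, c⁻¹, fun d h => ?_⟩
  rcases eq_or_ne d 0 with rfl | h0
  · simp
  have n := norm_pos_iff.2 h0
  have := h5 (‖d‖⁻¹ • d) ⟨by simp [norm_smul, n.ne'], by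
    simp only [Set.mem_ofPred_eq, map_smul, smul_apply, smul_eq_mul]
    positivity⟩
  rw [map_smul, norm_smul, norm_inv, norm_norm, le_inv_mul_iff₀ n] at this
  rwa [le_inv_mul_iff₀ hc, mul_comm]

variable {m : ℕ} {G h : Y m → ℝ}

theorem snd_sym {u : Y m → ℝ} (hu : ContDiff ℝ ∞ u) (p x y : Y m) :
    fderiv ℝ (fderiv ℝ u) p x y = fderiv ℝ (fderiv ℝ u) p y x :=
  (hu.contDiffAt.isSymmSndFDerivAt (by simp; norm_cast)) x y

theorem der_const {u : Y m → ℝ} (hu : ContDiff ℝ ∞ u) (p y : Y m) :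
    HasFDerivAt (fun x => fderiv ℝ u x y) ((fderiv ℝ (fderiv ℝ u) p).flip y) p := by
  simpa using ((hu.fderiv_right (m := 1) (by norm_cast)).differentiable one_ne_zero
    p).hasFDerivAt.clm_apply (hasFDerivAt_const y p)

theorem der_A {u : Y m → ℝ} (hu : ContDiff ℝ ∞ u) (p v : Y m) (j : Fin m) :
    fderiv ℝ (fun x => fderiv ℝ u x (-x.2.2 j, Pi.single j 1, 0)) p v =
      fderiv ℝ (fderiv ℝ u) p v (-p.2.2 j, Pi.single j 1, 0) - v.2.2 j * fderiv ℝ u p (1, 0, 0) := by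
  let l : Y m →L[ℝ] ℝ := (ContinuousLinearMap.proj j).comp
    ((ContinuousLinearMap.snd ℝ _ _).comp (ContinuousLinearMap.snd ℝ _ _))
  have h1 : HasFDerivAt (fun x : Y m => ((-x.2.2 j, Pi.single j 1, 0) : Y m)) _ p :=
    l.hasFDerivAt.neg.prodMk (hasFDerivAt_const _ p)
  rw [(((hu.fderiv_right (m := 1) (by norm_cast)).differentiable one_ne_zero
    p).hasFDerivAt.clm_apply h1).fderiv]
  have : ((-v.2.2 j, 0) : Y m) = -v.2.2 j • ((1, 0, 0) : Y m) := by ext <;> simp
  simp only [add_apply, ContinuousLinearMap.comp_apply, ContinuousLinearMap.prod_apply, neg_apply,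
    zero_apply, ContinuousLinearMap.flip_apply]
  rw [show l v = v.2.2 j from rfl, this, map_smul, smul_eq_mul]
  ring

theorem CR.hR (c : CR G h) (p v : Y m) :
    fderiv ℝ (fderiv ℝ G) p v (1, 0, 0) = 2 * π * fderiv ℝ h p v := by
  have h1 := der_const c.sG p (1, 0, 0)
  rw [funext c.RG] at h1
  exact congrArg (fun A : Y m →L[ℝ] ℝ => A v)
    (h1.unique ((c.sh.differentiable (by simp) p).hasFDerivAt.const_mul _))

theorem CR.hA (c : CR G h) {p : Y m} (hp : fderiv ℝ G p = 0) (v : Y m) (j : Fin m) :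
    fderiv ℝ (fderiv ℝ G) p v (-p.2.2 j, Pi.single j 1, 0) =
      fderiv ℝ (fderiv ℝ h) p v (0, 0, Pi.single j 1) := by
  have h1 := der_A c.sG p v j
  rw [funext fun x => c.AG x j, (der_const c.sh p _).fderiv, hp] at h1
  simpa using h1.symm

theorem CR.hB (c : CR G h) (p v : Y m) (j : Fin m) :
    fderiv ℝ (fderiv ℝ G) p v (0, 0, Pi.single j 1) =
      -fderiv ℝ (fderiv ℝ h) p v (-p.2.2 j, Pi.single j 1, 0) - v.2.2 j * (2 * π * G p) := by
  have h1 := der_A c.sh p v j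
  rw [funext fun x => c.Ah x j, (der_const c.sG p _).fun_neg.fderiv, c.Rh] at h1
  simp only [neg_apply, ContinuousLinearMap.flip_apply] at h1
  linarith

theorem CR.dh (c : CR G h) {p : Y m} (hp : fderiv ℝ G p = 0) (v : Y m) :
    fderiv ℝ h p v = -(2 * π * G p) * (v.1 + ∑ j, v.2.1 j * p.2.2 j) := by
  conv_lhs => rw [frame p v]
  simp only [map_add, map_sum, map_smul, c.Rh, c.Ah, ← c.AG, hp, smul_eq_mul, zero_apply, neg_zero,
    mul_zero, Finset.sum_const_zero, add_zero]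
  ring

/-- the critical values are not zero -/
theorem CR.ne (c : CR G h) {p : Y m} (hp : fderiv ℝ G p = 0) : G p ≠ 0 := fun h0 => by
  have := c.morse p hp (1, 0, 0) fun v => by rw [snd_sym c.sG, c.hR, c.dh hp, h0]; ring
  simpa using congrArg Prod.fst this

theorem CR.h0 (c : CR G h) {p : Y m} (hp : fderiv ℝ G p = 0) : h p = 0 := by
  have := c.RG p
  rw [hp] at this
  exact (mul_eq_zero.1 this.symm).resolve_left (by positivity)

theorem CR.hE (c : CR G h) {p : Y m} (hp : fderiv ℝ G p = 0) (v : Y m) (x y : Fin m → ℝ) :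
    fderiv ℝ (fderiv ℝ G) p v (-∑ j, x j * p.2.2 j, x, y) =
      fderiv ℝ (fderiv ℝ h) p v (∑ j, y j * p.2.2 j, -y, x) - 2 * π * G p * ∑ j, y j * v.2.2 j := by
  rw [frame p (-∑ j, x j * p.2.2 j, x, y), frame p (∑ j, y j * p.2.2 j, -y, x)]
  simp only [map_add, map_sum, map_smul, c.hA hp, c.hB, smul_eq_mul, Pi.neg_apply, neg_mul,
    Finset.sum_neg_distrib, neg_add_cancel, add_neg_cancel, zero_mul, zero_add, mul_sub,
    Finset.sum_sub_distrib, mul_neg, Finset.mul_sum]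
  rw [Finset.sum_congr rfl fun j _ => show y j * (v.2.2 j * (2 * π * G p)) =
    2 * π * G p * (y j * v.2.2 j) by ring]
  ring

/-- the Hessian in the directions `ρ R + η` and `ρ R + J η` -/
theorem CR.sum (c : CR G h) {p : Y m} (hp : fderiv ℝ G p = 0) (ρ : ℝ) (x y : Fin m → ℝ) :
    fderiv ℝ (fderiv ℝ G) p (ρ - ∑ j, x j * p.2.2 j, x, y) (ρ - ∑ j, x j * p.2.2 j, x, y) +
      fderiv ℝ (fderiv ℝ G) p (ρ + ∑ j, y j * p.2.2 j, -y, x) (ρ + ∑ j, y j * p.2.2 j, -y, x) =
        -(2 * π * G p) * (4 * π * ρ ^ 2 + ∑ j, (x j ^ 2 + y j ^ 2)) := by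
  have e : ∀ x y : Fin m → ℝ, fderiv ℝ (fderiv ℝ G) p (ρ - ∑ j, x j * p.2.2 j, x, y)
      (ρ - ∑ j, x j * p.2.2 j, x, y) = -(2 * π * G p) * (2 * π * ρ ^ 2) +
        fderiv ℝ (fderiv ℝ G) p (-∑ j, x j * p.2.2 j, x, y) (-∑ j, x j * p.2.2 j, x, y) := by
    intro x y
    have e1 : ((ρ - ∑ j, x j * p.2.2 j, x, y) : Y m) =
        ρ • ((1, 0, 0) : Y m) + (-∑ j, x j * p.2.2 j, x, y) := by
      ext <;> simp [sub_eq_add_neg]
    have e2 := c.hR p (-∑ j, x j * p.2.2 j, x, y)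
    have e3 := c.hR p (1, 0, 0)
    rw [c.dh hp] at e2
    rw [c.Rh] at e3
    simp only [neg_add_cancel, mul_zero] at e2
    rw [e1]
    simp only [map_add, map_smul, add_apply, smul_apply, smul_eq_mul]
    rw [snd_sym c.sG p (1, 0, 0) (-∑ j, x j * p.2.2 j, x, y), e2, e3]
    ring
  have a1 := e x y
  have a2 := e (-y) x
  have a3 := c.hE hp (-∑ j, x j * p.2.2 j, x, y) x y
  have a4 := c.hE hp (∑ j, y j * p.2.2 j, -y, x) (-y) x
  have a5 : ((∑ j, x j * p.2.2 j, - x, -y) : Y m) = -(-∑ j, x j * p.2.2 j, x, y) := by simp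
  simp only [Pi.neg_apply, neg_mul, Finset.sum_neg_distrib, neg_neg, sub_neg_eq_add] at a2 a4
  rw [a5, map_neg, snd_sym c.sh] at a4
  rw [a1, a2, a3, a4, Finset.sum_add_distrib]
  simp only [sq]
  ring

theorem finrank_Y (m : ℕ) : finrank ℝ (Y m) = 2 * m + 1 := by
  simp only [finrank_prod, finrank_self, finrank_fin_fun]
  ring

/-- at a critical point with positive value the cone where the Hessian is nonnegative is a
Lipschitz graph over a space of dimension `m` -/
theorem CR.cone (c : CR G h) {p : Y m} (hp : fderiv ℝ G p = 0) (h0 : 0 < G p) :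
    ∃ (pr : Y m →L[ℝ] Fin m → ℝ) (C : ℝ),
      ∀ d, 0 ≤ fderiv ℝ (fderiv ℝ G) p d d → ‖d‖ ≤ C * ‖pr d‖ := by
  let T : Y m →ₗ[ℝ] Y m :=
    { toFun := fun v => (v.1 + ∑ j, v.2.1 j * p.2.2 j + ∑ j, v.2.2 j * p.2.2 j, -v.2.2, v.2.1)
      map_add' := fun u v => by
        ext <;> simp [add_mul, Finset.sum_add_distrib]
        all_goals ring
      map_smul' := fun a v => by
        ext <;> simp [mul_add, Finset.mul_sum, mul_assoc] }
  refine cone0 _ (snd_sym c.sG p) (c.morse p hp) T ((injective_iff_map_eq_zero T).2 ?_) ?_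
    (finrank_Y m).le
  · rintro ⟨z, x, y⟩ e
    obtain ⟨e1, e2, e3⟩ : z + ∑ j, x j * p.2.2 j + ∑ j, y j * p.2.2 j = 0 ∧ -y = 0 ∧ x = 0 := by
      simpa [T] using e
    rw [neg_eq_zero] at e2
    subst e2 e3
    simpa using e1
  · rintro ⟨z, x, y⟩ hu
    have := c.sum hp (z + ∑ j, x j * p.2.2 j) x y
    rw [add_sub_cancel_right] at this
    refine this.trans_lt (mul_neg_of_neg_of_pos (neg_lt_zero.2 (by positivity)) ?_)
    have s : 0 ≤ ∑ j, (x j ^ 2 + y j ^ 2) := by positivity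
    refine lt_of_le_of_ne (by positivity) fun e => hu ?_
    have t : 0 ≤ 4 * π * (z + ∑ j, x j * p.2.2 j) ^ 2 := by positivity
    have s0 := (Finset.sum_eq_zero_iff_of_nonneg fun j _ => by positivity).1
      (show ∑ j, (x j ^ 2 + y j ^ 2) = 0 by linarith)
    obtain rfl : x = 0 := funext fun j => by
      have := s0 j (Finset.mem_univ j)
      exact pow_eq_zero_iff two_ne_zero |>.1 (by nlinarith [sq_nonneg (x j), sq_nonneg (y j)])
    obtain rfl : y = 0 := funext fun j => by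
      have := s0 j (Finset.mem_univ j)
      exact pow_eq_zero_iff two_ne_zero |>.1 (by simpa using this)
    have : 4 * π * z ^ 2 = 0 := by simpa using e.symm
    obtain rfl : z = 0 := by simpa [pi_ne_zero] using this
    rfl

end Pool.Agent.MP_6d695c_gt.T1.Theta

end MrgPart0

-- ======== part 1: formerly Pool.Agent.MP_6d695c_gt.t1.Fund
section MrgPart1

/-! Compactness by periodicity and the gradient inequality for the periodic Morse function. -/

set_option autoImplicit false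

open Set Metric Filter Topology Real
open scoped ContDiff

namespace Pool.Agent.MP_6d695c_gt.T1.Theta

variable {m : ℕ} {G h : Y m → ℝ}

/-- a compact set that meets every orbit of the lattice -/
def Dom (m : ℕ) : Set (Y m) := closedBall 0 4

theorem Dom_compact (m : ℕ) : IsCompact (Dom m) := isCompact_closedBall 0 4

theorem Per.zint {u : Y m → ℝ} (hu : Per u) (k : ℤ) (z : ℝ) (q b : Fin m → ℝ) :
    u (z + k, q, b) = u (z, q, b) := by
  simpa using Function.Periodic.int_mul (f := fun z => u (z, q, b)) (c := 1)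
    (fun z => hu.z1 z q b) k z

theorem Per.qint {u : Y m → ℝ} (hu : Per u) (k : Fin m → ℤ) (z : ℝ) (q b : Fin m → ℝ) :
    u (z, q + fun j => (k j : ℝ), b) = u (z, q, b) := by
  let H : AddSubgroup (Fin m → ℝ) :=
    { carrier := {k | ∀ q, u (z, q + k, b) = u (z, q, b)}
      zero_mem' := fun q => by rw [add_zero]
      add_mem' := fun h1 h2 q => by rw [← add_assoc, h2, h1]
      neg_mem' := fun {x} h1 q => by rw [← h1, neg_add_cancel_right] }
  have e : (fun j => (k j : ℝ)) = ∑ j, k j • (Pi.single j 1 : Fin m → ℝ) := by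
    ext i
    simp [Pi.single_apply]
  rw [e]
  exact H.sum_mem (fun j _ => H.zsmul_mem (fun q => hu.q1 z q b j) _) q

theorem Per.bint {u : Y m → ℝ} (hu : Per u) (k : Fin m → ℤ) (z : ℝ) (q b : Fin m → ℝ) :
    u (z - ∑ j, 4 * k j * q j, q, b + fun j => 4 * (k j : ℝ)) = u (z, q, b) := by
  let H : AddSubgroup (Fin m → ℝ) :=
    { carrier := {k | ∀ z b, u (z - ∑ j, k j * q j, q, b + k) = u (z, q, b)}
      zero_mem' := fun z b => by simp
      add_mem' := fun {x y} h1 h2 z b => by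
        rw [← h1 z b, ← h2 (z - ∑ j, x j * q j) (b + x), add_assoc, sub_sub,
          ← Finset.sum_add_distrib]
        simp only [Pi.add_apply, add_mul]
      neg_mem' := fun {x} h1 z b => by
        rw [← h1]
        simp }
  have e : (fun j => 4 * (k j : ℝ)) = ∑ j, k j • (Pi.single j 4 : Fin m → ℝ) := by
    ext i
    simp [Pi.single_apply, mul_comm]
  have : (fun j => 4 * (k j : ℝ)) ∈ H := by
    rw [e]
    refine H.sum_mem fun j _ => H.zsmul_mem (fun z b => ?_) _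
    rw [← hu.b4 z q b j]
    simp [Pi.single_apply]
  exact this z b

/-- the translation by `g` in the Heisenberg group -/
def tr (g x : Y m) : Y m := (x.1 + g.1 - ∑ j, g.2.2 j * x.2.1 j, x.2.1 + g.2.1, x.2.2 + g.2.2)

theorem exists_lat (y : Y m) :
    ∃ k, tr k y ∈ Dom m ∧ ∀ u : Y m → ℝ, Per u → ∀ w, u (tr k w) = u w := by
  obtain ⟨z, q, b⟩ := y
  have f : ∀ t : ℝ, ‖t + (-⌊t⌋ : ℤ)‖ ≤ 1 := fun t => by
    have := Int.floor_le t
    have := Int.lt_floor_add_one t
    rw [Int.cast_neg]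
    exact abs_le.2 ⟨by linarith, by linarith⟩
  let k : Fin m → ℤ := fun j => -⌊b j / 4⌋
  refine ⟨(((-⌊z - ∑ j, 4 * k j * q j⌋ : ℤ) : ℝ), fun j => ((-⌊q j⌋ : ℤ) : ℝ),
    fun j => 4 * (k j : ℝ)), ?_, fun u hu w => by
      rw [tr, add_sub_right_comm, hu.zint, hu.qint, hu.bint]⟩
  rw [tr, add_sub_right_comm]
  refine mem_closedBall_zero_iff.2 (max_le ((f _).trans (by norm_num)) (max_le
    ((pi_norm_le_iff_of_nonneg (by norm_num)).2 fun j => (f _).trans (by norm_num))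
    ((pi_norm_le_iff_of_nonneg (by norm_num)).2 fun j => ?_)))
  have := abs_le.1 (f (b j / 4))
  exact abs_le.2 ⟨by simp only [Pi.add_apply, k]; linarith, by simp only [Pi.add_apply, k]; linarith⟩

theorem exists_dom (y : Y m) : ∃ x ∈ Dom m, ∀ u : Y m → ℝ, Per u → u x = u y :=
  let ⟨_, h1, h2⟩ := exists_lat y
  ⟨_, h1, fun u hu => h2 u hu y⟩

theorem Per.B {u : Y m → ℝ} (hu : Per u) (hs : ContDiff ℝ ∞ u) (j : Fin m) :
    Per fun p => fderiv ℝ u p (0, 0, Pi.single j 1) := by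
  have key : ∀ x y : Y m, (∀ t : ℝ, u (x + t • (0, 0, Pi.single j 1)) =
      u (y + t • (0, 0, Pi.single j 1))) →
      fderiv ℝ u x (0, 0, Pi.single j 1) = fderiv ℝ u y (0, 0, Pi.single j 1) := fun x y e => by
    rw [← (hs.differentiable (by simp) x).lineDeriv_eq_fderiv,
      ← (hs.differentiable (by simp) y).lineDeriv_eq_fderiv, lineDeriv, lineDeriv, funext e]
  refine ⟨fun z q b => key _ _ fun t => ?_, fun z q b i => key _ _ fun t => ?_,
    fun z q b i => key _ _ fun t => ?_⟩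
  all_goals simp only [Prod.smul_mk, Prod.mk_add_mk, smul_zero, add_zero]
  · exact hu.z1 _ _ _
  · exact hu.q1 _ _ _ _
  · rw [add_right_comm]
    exact hu.b4 _ _ _ _

/-- the square of the length of the gradient -/
noncomputable def n2 (G h : Y m → ℝ) (p : Y m) : ℝ :=
  2 * π * h p ^ 2 + ∑ j, (fderiv ℝ h p (0, 0, Pi.single j 1) ^ 2 +
    fderiv ℝ G p (0, 0, Pi.single j 1) ^ 2)

theorem n2_nonneg (p : Y m) : 0 ≤ n2 G h p := by
  unfold n2
  positivity

theorem CR.n2_per (c : CR G h) : Per (n2 G h) :=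
  ⟨fun z q b => by simp only [n2, c.ph.z1, (c.ph.B c.sh _).z1, (c.pG.B c.sG _).z1],
    fun z q b i => by simp only [n2, c.ph.q1, (c.ph.B c.sh _).q1, (c.pG.B c.sG _).q1],
    fun z q b i => by simp only [n2, c.ph.b4, (c.ph.B c.sh _).b4, (c.pG.B c.sG _).b4]⟩

theorem CR.n2_cont (c : CR G h) : Continuous (n2 G h) := by
  have a := c.sh.continuous
  have a1 := c.sh.continuous_fderiv (by simp)
  have a2 := c.sG.continuous_fderiv (by simp)
  unfold n2
  fun_prop

theorem le_h (p : Y m) : |h p| ≤ √(n2 G h p) := by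
  refine abs_le_sqrt (le_trans ?_ (le_add_of_nonneg_right (by positivity)))
  nlinarith [pi_gt_three, sq_nonneg (h p)]

theorem le_B (p : Y m) (j : Fin m) : |fderiv ℝ h p (0, 0, Pi.single j 1)| ≤ √(n2 G h p) ∧
    |fderiv ℝ G p (0, 0, Pi.single j 1)| ≤ √(n2 G h p) := by
  have := (Finset.single_le_sum (f := fun j => fderiv ℝ h p (0, 0, Pi.single j 1) ^ 2 +
    fderiv ℝ G p (0, 0, Pi.single j 1) ^ 2) (fun _ _ => by positivity) (Finset.mem_univ j)).trans
    (le_add_of_nonneg_left (show 0 ≤ 2 * π * h p ^ 2 by positivity))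
  exact ⟨abs_le_sqrt ((le_add_of_nonneg_right (sq_nonneg _)).trans this),
    abs_le_sqrt ((le_add_of_nonneg_left (sq_nonneg _)).trans this)⟩

theorem CR.norm_le (c : CR G h) (p : Y m) :
    ‖fderiv ℝ G p‖ ≤ (2 * π * (1 + m * ‖p‖) + 2 * m) * √(n2 G h p) := by
  refine ContinuousLinearMap.opNorm_le_bound _ (by positivity) fun v => ?_
  have v1 : ∀ j, |v.2.1 j| ≤ ‖v‖ := fun j =>
    (norm_le_pi_norm v.2.1 j).trans ((norm_fst_le v.2).trans (norm_snd_le v))
  have v2 : ∀ j, |v.2.2 j| ≤ ‖v‖ := fun j =>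
    (norm_le_pi_norm v.2.2 j).trans ((norm_snd_le v.2).trans (norm_snd_le v))
  have p2 : ∀ j, |p.2.2 j| ≤ ‖p‖ := fun j =>
    (norm_le_pi_norm p.2.2 j).trans ((norm_snd_le p.2).trans (norm_snd_le p))
  have sm : ∀ (x y : Fin m → ℝ) (b : ℝ), (∀ j, |x j| ≤ ‖v‖) → (∀ j, |y j| ≤ b) →
      |∑ j, x j * y j| ≤ m * (‖v‖ * b) := fun x y b hx hy =>
    (Finset.abs_sum_le_sum_abs _ _).trans ((Finset.sum_le_card_nsmul _ _ (‖v‖ * b) fun j _ => by
      rw [abs_mul]
      exact mul_le_mul (hx j) (hy j) (abs_nonneg _) (norm_nonneg _)).trans_eq (by simp))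
  have a1 := sm _ _ _ v1 fun j => (le_B (G := G) (h := h) p j).1
  have a2 := sm _ _ _ v2 fun j => (le_B (G := G) (h := h) p j).2
  have a3 : |v.1 + ∑ j, v.2.1 j * p.2.2 j| ≤ ‖v‖ + m * (‖v‖ * ‖p‖) :=
    (abs_add_le _ _).trans (add_le_add (norm_fst_le v) (sm _ _ _ v1 p2))
  have a4 : |(v.1 + ∑ j, v.2.1 j * p.2.2 j) * (2 * π * h p)| ≤
      (‖v‖ + m * (‖v‖ * ‖p‖)) * (2 * π * √(n2 G h p)) := by
    rw [abs_mul, abs_mul (2 * π), abs_of_pos two_pi_pos]
    gcongr
    exact le_h p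
  conv_lhs => rw [frame p v]
  simp only [map_add, map_sum, map_smul, c.RG, c.AG, smul_eq_mul, norm_eq_abs]
  refine (abs_add_three _ _ _).trans ?_
  linarith

theorem CR.n2_zero (c : CR G h) (p : Y m) : n2 G h p = 0 ↔ fderiv ℝ G p = 0 := by
  refine ⟨fun e => ?_, fun e => by simp [n2, c.h0 e, ← c.AG, e]⟩
  simpa [e] using c.norm_le p

theorem CR.bdd (c : CR G h) : ∃ M, ∀ p, |G p| ≤ M := by
  obtain ⟨M, hM⟩ := (Dom_compact m).exists_bound_of_continuousOn c.sG.continuous.continuousOn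
  refine ⟨M, fun p => ?_⟩
  obtain ⟨x, hx, e⟩ := exists_dom p
  exact e G c.pG ▸ hM x hx

/-- the critical values stay away from zero -/
theorem CR.gap (c : CR G h) : ∃ γ, 0 < γ ∧ ∀ p, fderiv ℝ G p = 0 → γ < |G p| := by
  obtain ⟨γ, h0, hγ⟩ := ((Dom_compact m).inter_right
    (isClosed_eq c.n2_cont continuous_const (g := fun _ => 0))).exists_forall_le'
      (f := fun p => |G p|) (a := 0) c.sG.continuous.abs.continuousOn
      fun p hp => abs_pos.2 (c.ne ((c.n2_zero p).1 hp.2))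
  refine ⟨γ / 2, half_pos h0, fun p hp => (half_lt_self h0).trans_le ?_⟩
  obtain ⟨x, hx, e⟩ := exists_dom p
  exact e G c.pG ▸ hγ x ⟨hx, (e _ c.n2_per).trans ((c.n2_zero p).2 hp)⟩

/-- near a critical point the gradient is at least the distance -/
theorem CR.near (c : CR G h) {p : Y m} (hp : fderiv ℝ G p = 0) :
    ∃ a, 0 ≤ a ∧ ∀ᶠ x in 𝓝 p, ‖x - p‖ ≤ a * √(n2 G h x) := by
  obtain ⟨K, -, hK⟩ := (fderiv ℝ (fderiv ℝ G) p).toLinearMap.exists_antilipschitzWith
    (LinearMap.ker_eq_bot'.2 fun u hu => c.morse p hp u fun v => by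
      rw [show fderiv ℝ (fderiv ℝ G) p u = 0 from hu, zero_apply])
  have d := ((c.sG.fderiv_right (m := 1) (by norm_cast)).differentiable one_ne_zero
    p).hasFDerivAt.isLittleO.def (c := 1 / (2 * (K + 1))) (by positivity)
  refine ⟨2 * K * (2 * π * (1 + m * (‖p‖ + 1)) + 2 * m), by positivity, ?_⟩
  filter_upwards [d, closedBall_mem_nhds p one_pos] with x h1 h2
  have a1 : ‖x - p‖ ≤ K * ‖fderiv ℝ (fderiv ℝ G) p (x - p)‖ := ZeroHomClass.bound_of_antilipschitz
    _ hK (x - p)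
  rw [hp, sub_zero] at h1
  have a2 := norm_le_norm_add_norm_sub (fderiv ℝ G x) (fderiv ℝ (fderiv ℝ G) p (x - p))
  have a3 : (K : ℝ) * (1 / (2 * (K + 1)) * ‖x - p‖) ≤ ‖x - p‖ / 2 := by
    rw [← mul_assoc, mul_one_div, le_div_iff₀' two_pos, ← mul_assoc, ← mul_div_assoc]
    exact mul_le_of_le_one_left (norm_nonneg _) ((div_le_one (by positivity)).2 (by linarith))
  have a4 : ‖fderiv ℝ G x‖ ≤ (2 * π * (1 + m * (‖p‖ + 1)) + 2 * m) * √(n2 G h x) := by
    refine (c.norm_le x).trans ?_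
    gcongr
    exact norm_le_of_mem_closedBall h2
  have a5 := mul_le_mul_of_nonneg_left (a2.trans (add_le_add a4 h1)) K.2
  simp only [NNReal.val_eq_coe] at a5
  linarith

/-- the gradient inequality -/
theorem CR.loj (c : CR G h) : ∃ (V : Finset ℝ) (a : ℝ), 0 < a ∧
    ∀ x, ∃ v ∈ V, |G x - v| ≤ (a * √(n2 G h x)) ^ 2 := by
  have loc : ∀ p, ∃ a, 0 < a ∧ ∀ᶠ x in 𝓝 p, |G x - G p| ≤ (a * √(n2 G h x)) ^ 2 := fun p => by
    by_cases hp : fderiv ℝ G p = 0
    · obtain ⟨a, a0, ha⟩ := c.near hp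
      obtain ⟨L, hL⟩ := ((c.sG.fderiv_right (m := 1) (by norm_cast)).contDiffOn
        (s := closedBall p 1)).exists_lipschitzOnWith one_ne_zero (convex_closedBall p 1)
        (isCompact_closedBall p 1)
      refine ⟨(L + 1) * (a + 1), by positivity, ?_⟩
      filter_upwards [ha, closedBall_mem_nhds p one_pos] with x h1 h2
      have b := (convex_closedBall p ‖x - p‖).norm_image_sub_le_of_norm_fderiv_le (𝕜 := ℝ) (f := G)
        (C := L * ‖x - p‖) (fun y _ => c.sG.differentiable (by simp) y) (fun y hy => by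
          have := hL.norm_sub_le (closedBall_subset_closedBall (mem_closedBall_iff_norm.1 h2) hy)
            (mem_closedBall_self one_pos.le)
          rw [hp, sub_zero] at this
          exact this.trans (mul_le_mul_of_nonneg_left (mem_closedBall_iff_norm.1 hy) L.2))
        (mem_closedBall_self (norm_nonneg _)) (mem_closedBall_iff_norm.2 le_rfl)
      refine b.trans ?_
      calc (L : ℝ) * ‖x - p‖ * ‖x - p‖ = L * ‖x - p‖ ^ 2 := by ring
        _ ≤ (L + 1) ^ 2 * ((a + 1) * √(n2 G h x)) ^ 2 := by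
          gcongr
          · nlinarith [L.coe_nonneg]
          · exact h1.trans (by gcongr; linarith)
        _ = _ := by ring
    · have n0 := sqrt_pos.2 ((n2_nonneg p).lt_of_ne' (mt (c.n2_zero p).1 hp))
      refine ⟨2 / √(n2 G h p), by positivity, ?_⟩
      refine ((c.sG.continuous.sub continuous_const).abs.continuousAt.eventually_lt
        ((continuous_const.mul c.n2_cont.sqrt).pow 2).continuousAt ?_).mono fun x hx => hx.le
      simp [n0.ne']
  obtain ⟨V, a, a0, H⟩ : ∃ (V : Finset ℝ) (a : ℝ), 0 < a ∧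
      ∀ x ∈ Dom m, ∃ v ∈ V, |G x - v| ≤ (a * √(n2 G h x)) ^ 2 := by
    refine (Dom_compact m).induction_on (p := fun s => ∃ (V : Finset ℝ) (a : ℝ), 0 < a ∧
      ∀ x ∈ s, ∃ v ∈ V, |G x - v| ≤ (a * √(n2 G h x)) ^ 2) ⟨∅, 1, one_pos, by simp⟩
      (fun s t st ⟨V, a, a0, H⟩ => ⟨V, a, a0, fun x hx => H x (st hx)⟩) ?_ fun p _ => ?_
    · rintro s t ⟨V, a, a0, H⟩ ⟨V', a', a0', H'⟩
      refine ⟨V ∪ V', a + a', by positivity, ?_⟩
      rintro x (hx | hx)
      · obtain ⟨v, hv, e⟩ := H x hx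
        exact ⟨v, Finset.mem_union_left _ hv, e.trans (by gcongr; linarith)⟩
      · obtain ⟨v, hv, e⟩ := H' x hx
        exact ⟨v, Finset.mem_union_right _ hv, e.trans (by gcongr; linarith)⟩
    · obtain ⟨a, a0, ha⟩ := loc p
      exact ⟨_, mem_nhdsWithin_of_mem_nhds ha, {G p}, a, a0, fun x hx =>
        ⟨_, Finset.mem_singleton_self _, hx⟩⟩
  refine ⟨V, a, a0, fun y => ?_⟩
  obtain ⟨x, hx, e⟩ := exists_dom y
  rw [← e G c.pG, ← e _ c.n2_per]
  exact H x hx

end Pool.Agent.MP_6d695c_gt.T1.Theta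

end MrgPart1

-- ======== part 2: formerly Pool.Agent.MP_6d695c_gt.t1.Dyn
section MrgPart2

/-! Two lemmas on orbits: the cone condition at a zero, and a length estimate. -/

set_option autoImplicit false

open Set Metric Filter Topology Real

namespace Pool.Agent.MP_6d695c_gt.T1.Dyn

variable {E : Type} [NormedAddCommGroup E] [NormedSpace ℝ E]

theorem negdef [FiniteDimensional ℝ E] (B : E →L[ℝ] E →L[ℝ] ℝ) (D : E →L[ℝ] E)
    (neg : ∀ v, v ≠ 0 → B v (D v) < 0) : ∃ c, 0 < c ∧ ∀ v, B v (D v) ≤ -c * ‖v‖ ^ 2 := by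
  obtain ⟨c, hc, h⟩ := (isCompact_sphere (0 : E) 1).exists_forall_le'
    (f := fun v => -B v (D v)) (a := 0) (by fun_prop)
    fun v hv => neg_pos.2 (neg v (ne_zero_of_mem_unit_sphere ⟨v, hv⟩))
  refine ⟨c, hc, fun v => ?_⟩
  rcases eq_or_ne v 0 with rfl | hv
  · simp
  have n := norm_pos_iff.2 hv
  have := h (‖v‖⁻¹ • v) (by simp [norm_smul, n.ne'])
  simp only [map_smul, smul_apply, smul_eq_mul] at this
  have e : B v (D v) = ‖v‖ ^ 2 * (‖v‖⁻¹ * (‖v‖⁻¹ * B v (D v))) := by field_simp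
  rw [e]
  nlinarith [sq_nonneg ‖v‖]

/-- two forward orbits that stay near a zero differ by a vector in the cone -/
theorem cone [FiniteDimensional ℝ E] {X : E → E} {p : E} (hX : ContDiffAt ℝ 1 X p)
    (B : E →L[ℝ] E →L[ℝ] ℝ) (sym : ∀ u v, B u v = B v u)
    (neg : ∀ v, v ≠ 0 → B v (fderiv ℝ X p v) < 0) :
    ∃ r, 0 < r ∧ ∀ c₁ c₂ : ℝ → E, (∀ t, 0 ≤ t → HasDerivAt c₁ (X (c₁ t)) t ∧ c₁ t ∈ ball p r) →
      (∀ t, 0 ≤ t → HasDerivAt c₂ (X (c₂ t)) t ∧ c₂ t ∈ ball p r) →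
        0 ≤ B (c₁ 0 - c₂ 0) (c₁ 0 - c₂ 0) := by
  obtain ⟨c, hc, hn⟩ := negdef B _ neg
  let b := ‖B‖ + 1
  have hb : 0 < b := by positivity
  have bd : ∀ u v, |B u v| ≤ b * (‖u‖ * ‖v‖) := fun u v =>
    (B.le_opNorm₂ u v).trans (by rw [mul_assoc]; gcongr; exact (lt_add_one _).le)
  have st := ((hX.hasStrictFDerivAt one_ne_zero).isLittleO.def (c := c / (2 * b)) (by positivity))
  obtain ⟨r, hr, st⟩ := Metric.eventually_nhds_iff_ball.1 st
  refine ⟨r, hr, fun c₁ c₂ h₁ h₂ => ?_⟩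
  let k := c / b
  let d := fun t => c₁ t - c₂ t
  have der : ∀ t, 0 ≤ t → HasDerivAt (fun t => exp (-k * t) * B (d t) (d t))
      (exp (-k * t) * (2 * B (d t) (X (c₁ t) - X (c₂ t)) - k * B (d t) (d t))) t := fun t ht => by
    have a := (h₁ t ht).1.fun_sub (h₂ t ht).1
    have := ((hasDerivAt_id' t).const_mul (-k)).exp.fun_mul
      ((B.hasFDerivAt.comp_hasDerivAt t a).clm_apply a)
    refine this.congr_deriv ?_
    simp only [Function.comp_apply, d]
    rw [sym (X (c₁ t) - X (c₂ t))]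
    ring
  have sg : ∀ t, 0 ≤ t → 2 * B (d t) (X (c₁ t) - X (c₂ t)) - k * B (d t) (d t) ≤ 0 := fun t ht => by
    have a := st (c₁ t, c₂ t) (by rw [← ball_prod_same]; exact ⟨(h₁ t ht).2, (h₂ t ht).2⟩)
    have e : X (c₁ t) - X (c₂ t) =
        fderiv ℝ X p (d t) + (X (c₁ t) - X (c₂ t) - fderiv ℝ X p (d t)) := by abel
    have a1 := (abs_le.1 (bd (d t) (X (c₁ t) - X (c₂ t) - fderiv ℝ X p (d t)))).2
    have a2 : b * (‖d t‖ * ‖X (c₁ t) - X (c₂ t) - fderiv ℝ X p (d t)‖) ≤ c / 2 * ‖d t‖ ^ 2 :=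
      (mul_le_mul_of_nonneg_left (mul_le_mul_of_nonneg_left a (norm_nonneg _)) hb.le).trans_eq
        (by simp only [d]; field_simp)
    have a3 := mul_le_mul_of_nonneg_left (abs_le.1 (bd (d t) (d t))).1 (div_pos hc hb).le
    have a4 : c / b * -(b * (‖d t‖ * ‖d t‖)) = -c * ‖d t‖ ^ 2 := by field_simp
    have a5 := hn (d t)
    rw [e, map_add]
    linarith
  have anti : AntitoneOn (fun t => exp (-k * t) * B (d t) (d t)) (Ici 0) :=
    antitoneOn_of_hasDerivWithinAt_nonpos (convex_Ici 0)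
      (fun t ht => (der t ht).continuousAt.continuousWithinAt)
      (fun t ht => (der t (interior_subset ht)).hasDerivWithinAt)
      fun t ht => mul_nonpos_of_nonneg_of_nonpos (exp_pos _).le (sg t (interior_subset ht))
  have lim : Tendsto (fun t => exp (-k * t) * -(b * (2 * r * (2 * r)))) atTop (𝓝 0) := by
    simpa using (tendsto_exp_atBot.comp
      (tendsto_id.const_mul_atTop_of_neg (neg_lt_zero.2 (div_pos hc hb)))).mul_const
        (-(b * (2 * r * (2 * r))))
  refine le_of_tendsto lim ?_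
  filter_upwards [eventually_ge_atTop 0] with t ht
  have a := anti self_mem_Ici ht ht
  simp only [mul_zero, exp_zero, one_mul] at a
  refine le_trans (mul_le_mul_of_nonneg_left ?_ (exp_pos _).le) a
  have n : ‖d t‖ ≤ 2 * r := by
    have := dist_triangle_right (c₁ t) (c₂ t) p
    rw [dist_eq_norm] at this
    linarith [mem_ball.1 (h₁ t ht).2, mem_ball.1 (h₂ t ht).2]
  refine le_trans (neg_le_neg ?_) (abs_le.1 (bd (d t) (d t))).1
  gcongr

/-- the smoothed odd square root -/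
noncomputable def rt (δ x : ℝ) : ℝ := x / √√(δ ^ 4 + x ^ 2)

theorem rt_der {δ : ℝ} (hδ : 0 < δ) (x : ℝ) :
    ∃ y, HasDerivAt (rt δ) y x ∧ 1 / (2 * (δ + √|x|)) ≤ y := by
  have p0 : 0 < δ ^ 4 + x ^ 2 := by positivity
  have p1 := sqrt_pos.2 p0
  have p2 := sqrt_pos.2 p1
  refine ⟨_, (hasDerivAt_id' x).fun_div
    ((((hasDerivAt_pow 2 x).const_add (δ ^ 4)).sqrt p0.ne').sqrt p1.ne') p2.ne', ?_⟩
  have e1 := sq_sqrt p0.le
  have e2 := sq_sqrt p1.le
  have e3 : √√(δ ^ 4 + x ^ 2) ≤ δ + √|x| := by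
    have s := sq_sqrt (abs_nonneg x)
    have s0 := sqrt_nonneg |x|
    refine sqrt_le_iff.2 ⟨by positivity, sqrt_le_iff.2 ⟨by positivity, ?_⟩⟩
    rw [← sq_abs x]
    generalize √|x| = u at s s0
    rw [← s]
    nlinarith [mul_nonneg hδ.le s0, mul_nonneg (mul_nonneg hδ.le s0) (sq_nonneg δ),
      mul_nonneg (mul_nonneg hδ.le s0) (sq_nonneg u), sq_nonneg (δ * u)]
  generalize √√(δ ^ 4 + x ^ 2) = w at e2 p2 e3
  rw [← e2] at e1 ⊢
  refine le_trans (b := 1 / (2 * w)) (by gcongr) ?_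
  rw [div_le_div_iff₀ (by positivity) (by positivity)]
  have : x * (2 * x / (2 * w ^ 2) / (2 * w)) * (2 * w) = x ^ 2 / w ^ 2 := by field_simp
  have b : x ^ 2 / w ^ 2 ≤ w ^ 2 := by
    rw [div_le_iff₀ (by positivity)]
    nlinarith [pow_pos hδ 4]
  simp only [Nat.cast_ofNat, Nat.add_one_sub_one, pow_one]
  nlinarith

theorem rt_zero : Continuous (rt 0) := by
  have e : ∀ x, rt 0 x = x / √|x| := fun x => by simp [rt, sqrt_sq_eq_abs]
  refine continuous_iff_continuousAt.2 fun x => ?_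
  rw [funext e]
  rcases eq_or_ne x 0 with rfl | hx
  · have n : ∀ x : ℝ, ‖x / √|x|‖ = √|x| := fun x => by
      rw [norm_div, norm_eq_abs, norm_eq_abs, abs_of_nonneg (sqrt_nonneg _), div_sqrt]
    rw [ContinuousAt, zero_div, tendsto_zero_iff_norm_tendsto_zero, funext n]
    simpa using (show Continuous fun x : ℝ => √|x| by fun_prop).tendsto 0
  · exact continuousAt_id.div (by fun_prop) (sqrt_pos.2 (abs_pos.2 hx)).ne'

theorem rt_lim (x : ℝ) : Tendsto (fun δ => rt δ x) (𝓝[>] 0) (𝓝 (rt 0 x)) := by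
  rcases eq_or_ne x 0 with rfl | hx
  · simp [rt]
  · refine Tendsto.mono_left (ContinuousAt.div continuousAt_const (by fun_prop) ?_)
      nhdsWithin_le_nhds
    positivity

/-- length estimate along a gradient-like curve -/
theorem loj (V : Finset ℝ) {a : ℝ} (ha : 0 < a) {c c' : ℝ → E} {g n : ℝ → ℝ} {w s t : ℝ}
    (hw : 0 ≤ w) (st : s ≤ t) (h : ∀ u ∈ Icc s t, HasDerivAt c (c' u) u ∧
      HasDerivAt g (-n u ^ 2) u ∧ 0 ≤ n u ∧ ‖c' u‖ ≤ w * n u ∧ ∃ v ∈ V, |g u - v| ≤ (a * n u) ^ 2) :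
    ‖c t - c s‖ ≤ w * (2 * a * ∑ v ∈ V, rt 0 (g s - v) - 2 * a * ∑ v ∈ V, rt 0 (g t - v)) := by
  have lim : Tendsto (fun δ => w * (2 * a * ∑ v ∈ V, rt δ (g s - v) -
      2 * a * ∑ v ∈ V, rt δ (g t - v) + δ / a * (t - s))) (𝓝[>] 0) (𝓝 (w * (2 * a *
        ∑ v ∈ V, rt 0 (g s - v) - 2 * a * ∑ v ∈ V, rt 0 (g t - v) + 0 / a * (t - s)))) :=
    (((tendsto_finsetSum _ fun v _ => rt_lim _).const_mul _).sub
      ((tendsto_finsetSum _ fun v _ => rt_lim _).const_mul _)).add
      (((tendsto_id.mono_left nhdsWithin_le_nhds).div_const a).mul_const _) |>.const_mul w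
  rw [zero_div, zero_mul, add_zero] at lim
  refine ge_of_tendsto lim ?_
  filter_upwards [self_mem_nhdsWithin] with δ hδ
  choose y hy hy' using rt_der (δ := δ) hδ
  have der : ∀ u ∈ Icc s t, HasDerivAt (fun u => w * (2 * a * ∑ v ∈ V, rt δ (g s - v) -
      2 * a * ∑ v ∈ V, rt δ (g u - v) + δ / a * (u - s)))
      (w * (-(2 * a * ∑ v ∈ V, y (g u - v) * -n u ^ 2) + δ / a * 1)) u := fun u hu =>
    ((((HasDerivAt.fun_sum fun v _ => (hy _).comp u ((h u hu).2.1.sub_const v)).const_mul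
      _).const_sub _).fun_add (((hasDerivAt_id' u).sub_const s).const_mul _)).const_mul w
  refine image_norm_le_of_norm_deriv_right_le_deriv_boundary' (f := fun u => c u - c s) (f' := c')
    (fun u hu => ((h u hu).1.sub_const _).continuousAt.continuousWithinAt)
    (fun u hu => ((h u (Ico_subset_Icc_self hu)).1.sub_const _).hasDerivWithinAt) (by simp)
    (fun u hu => (der u hu).continuousAt.continuousWithinAt)
    (fun u hu => (der u (Ico_subset_Icc_self hu)).hasDerivWithinAt) (fun u hu => ?_)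
    (right_mem_Icc.2 st)
  obtain ⟨-, -, n0, h1, v, hv, h2⟩ := h u (Ico_subset_Icc_self hu)
  refine h1.trans (mul_le_mul_of_nonneg_left ?_ hw)
  have δ0 : 0 < δ := hδ
  have b1 : y (g u - v) ≤ ∑ v ∈ V, y (g u - v) := Finset.single_le_sum
    (f := fun v => y (g u - v)) (fun v _ => le_trans (by positivity) (hy' _)) hv
  have b2 : 1 / (2 * (δ + a * n u)) ≤ ∑ v ∈ V, y (g u - v) := by
    refine le_trans ?_ ((hy' _).trans b1)
    gcongr
    exact sqrt_le_iff.2 ⟨by positivity, h2⟩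
  rw [← Finset.sum_mul]
  generalize ∑ v ∈ V, y (g u - v) = S at b2
  have b3 : n u - δ / a ≤ 2 * a * (1 / (2 * (δ + a * n u)) * n u ^ 2) := by
    rw [show 2 * a * (1 / (2 * (δ + a * n u)) * n u ^ 2) = a * n u ^ 2 / (δ + a * n u) by
      field_simp, le_div_iff₀ (by positivity)]
    have : δ / a * (δ + a * n u) = δ ^ 2 / a + δ * n u := by field_simp
    have : 0 ≤ δ ^ 2 / a := by positivity
    nlinarith
  have b4 : 2 * a * (1 / (2 * (δ + a * n u)) * n u ^ 2) ≤ 2 * a * (S * n u ^ 2) := by gcongr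
  linarith

omit [NormedSpace ℝ E] in
/-- a curve whose increments are bounded by those of a bounded function converges -/
theorem conv [CompleteSpace E] {c : ℝ → E} {θ : ℝ → ℝ} {M : ℝ} (hM : ∀ t, 0 ≤ t → M ≤ θ t)
    (h : ∀ s t, 0 ≤ s → s ≤ t → ‖c t - c s‖ ≤ θ s - θ t) : ∃ p, Tendsto c atTop (𝓝 p) := by
  let φ := fun t => θ (max t 0)
  have an : Antitone φ := fun s t st =>
    sub_nonneg.1 ((norm_nonneg _).trans (h _ _ (le_max_right _ _) (max_le_max_right 0 st)))
  have lim := tendsto_atTop_ciInf an ⟨M, by rintro _ ⟨t, rfl⟩; exact hM _ (le_max_right _ _)⟩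
  refine cauchySeq_tendsto_of_complete (Metric.cauchySeq_iff'.2 fun ε hε => ?_)
  obtain ⟨N, hN⟩ := Metric.cauchySeq_iff'.1 lim.cauchySeq (ε / 2) (half_pos hε)
  refine ⟨max N 0, fun t ht => ?_⟩
  have a := abs_lt.1 (hN t ((le_max_left _ _).trans ht))
  have b := h _ t (le_max_right N 0) ht
  simp only [φ, max_eq_left ((le_max_right N 0).trans ht)] at a
  rw [dist_eq_norm]
  linarith

end Pool.Agent.MP_6d695c_gt.T1.Dyn

end MrgPart2

-- ======== part 3: formerly Pool.Agent.MP_6d695c_gt.t1.StA1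
section MrgPart3

/-! The gradient flow of the periodic Morse function: orbits have bounded length. -/

set_option autoImplicit false

open Set Metric Filter Topology Real
open scoped ContDiff

namespace Pool.Agent.MP_6d695c_gt.T1.Theta

variable {m : ℕ} {G h : Y m → ℝ}

/-- the contact field of `dz + b dq` with Hamiltonian `-u` -/
noncomputable def ham (u : Y m → ℝ) (p : Y m) : Y m :=
  (-u p + ∑ j, p.2.2 j * fderiv ℝ u p (0, 0, Pi.single j 1),
    fun j => -fderiv ℝ u p (0, 0, Pi.single j 1),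
    fun j => fderiv ℝ u p (-p.2.2 j, Pi.single j 1, 0))

theorem ham_smooth {u : Y m → ℝ} (hu : ContDiff ℝ ∞ u) : ContDiff ℝ ∞ (ham u) := by
  have a : ContDiff ℝ ∞ (fderiv ℝ u) := hu.fderiv_right (by simp)
  unfold ham
  fun_prop

theorem ham_eq (u : Y m → ℝ) (p : Y m) : ham u p = -u p • ((1, 0, 0) : Y m) +
    ∑ j, -fderiv ℝ u p (0, 0, Pi.single j 1) • ((-p.2.2 j, Pi.single j 1, 0) : Y m) +
      ∑ j, fderiv ℝ u p (-p.2.2 j, Pi.single j 1, 0) • ((0, 0, Pi.single j 1) : Y m) := by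
  rw [frame p (ham u p)]
  simp only [ham, neg_mul, Finset.sum_neg_distrib, mul_comm (p.2.2 _), add_neg_cancel_right]

theorem CR.dG_ham (c : CR G h) (p : Y m) : fderiv ℝ G p (ham h p) = -n2 G h p := by
  rw [ham_eq]
  simp only [map_add, map_sum, map_smul, c.RG, c.AG, c.Ah, smul_eq_mul, n2, neg_mul, sq,
    Finset.sum_neg_distrib, Finset.sum_add_distrib]
  ring

theorem CR.ham_snd (c : CR G h) (p : Y m) : ‖(ham h p).2‖ ≤ √(n2 G h p) :=
  max_le ((pi_norm_le_iff_of_nonneg (sqrt_nonneg _)).2 fun j => by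
      simpa [ham] using (le_B (G := G) (h := h) p j).1)
    ((pi_norm_le_iff_of_nonneg (sqrt_nonneg _)).2 fun j => by
      simpa [ham, c.Ah] using (le_B (G := G) (h := h) p j).2)

theorem CR.ham_le (c : CR G h) (p : Y m) : ‖ham h p‖ ≤ (1 + m * ‖p.2‖) * √(n2 G h p) := by
  refine max_le ((norm_add_le _ _).trans ?_) ((c.ham_snd p).trans
    (le_mul_of_one_le_left (sqrt_nonneg _) (le_add_of_nonneg_right (by positivity))))
  rw [add_mul, one_mul, norm_neg]
  refine add_le_add (le_h p) ((norm_sum_le _ _).trans ((Finset.sum_le_card_nsmul _ _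
    (‖p.2‖ * √(n2 G h p)) fun j _ => ?_).trans_eq (by simp [mul_assoc])))
  rw [norm_mul]
  exact mul_le_mul ((norm_le_pi_norm p.2.2 j).trans (norm_snd_le p.2)) (le_B p j).1
    (norm_nonneg _) (norm_nonneg _)

/-- the Hessian is a strict Lyapunov form for the linearised field -/
theorem CR.neg (c : CR G h) {p : Y m} (hp : fderiv ℝ G p = 0) (v : Y m) (hv : v ≠ 0) :
    fderiv ℝ (fderiv ℝ G) p v (fderiv ℝ (ham h) p v) < 0 := by
  have sm : ∀ {a : Y m → ℝ} {a' : Y m →L[ℝ] ℝ} {f : Y m → Y m}, HasFDerivAt a a' p → a p = 0 →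
      DifferentiableAt ℝ f p → HasFDerivAt (fun x => a x • f x) (a'.smulRight (f p)) p :=
    fun ha h0 hf => by simpa [h0] using ha.fun_smul hf.hasFDerivAt
  have d := ((sm (f := fun _ => ((1, 0, 0) : Y m))
    (c.sh.differentiable (by simp) p).hasFDerivAt.fun_neg (by simp [c.h0 hp]) (by fun_prop)).fun_add
    (HasFDerivAt.fun_sum (u := Finset.univ) fun j _ =>
      sm (f := fun x => ((-x.2.2 j, Pi.single j 1, 0) : Y m))
        (der_const c.sh p (0, 0, Pi.single j 1)).fun_neg (by simp [← c.AG, hp])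
        (by fun_prop))).fun_add (HasFDerivAt.fun_sum (u := Finset.univ) fun j _ =>
      sm (f := fun _ => ((0, 0, Pi.single j 1) : Y m))
        (der_const c.sG p (0, 0, Pi.single j 1)).fun_neg (by simp [hp]) (by fun_prop))
  simp only [← c.Ah, ← ham_eq] at d
  rw [d.fderiv]
  simp only [add_apply, sum_apply, ContinuousLinearMap.smulRight_apply, neg_apply,
    ContinuousLinearMap.flip_apply, map_add, map_sum, map_smul, smul_eq_mul, ← c.hA hp, neg_mul,
    Finset.sum_neg_distrib]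
  have e := c.hR p v
  have s1 : 0 ≤ ∑ j, fderiv ℝ (fderiv ℝ G) p v (-p.2.2 j, Pi.single j 1, 0) *
      fderiv ℝ (fderiv ℝ G) p v (-p.2.2 j, Pi.single j 1, 0) :=
    Finset.sum_nonneg fun _ _ => mul_self_nonneg _
  have s2 : 0 ≤ ∑ j, fderiv ℝ (fderiv ℝ G) p v (0, 0, Pi.single j 1) *
      fderiv ℝ (fderiv ℝ G) p v (0, 0, Pi.single j 1) :=
    Finset.sum_nonneg fun _ _ => mul_self_nonneg _
  have s3 : 0 ≤ fderiv ℝ h p v * fderiv ℝ (fderiv ℝ G) p v (1, 0, 0) := by
    rw [e, mul_left_comm]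
    exact mul_nonneg two_pi_pos.le (mul_self_nonneg _)
  by_contra hn
  refine hv (c.morse p hp v fun w => ?_)
  rw [frame_ext (α := fderiv ℝ (fderiv ℝ G) p v) (β := 0) p ?_ (fun j => ?_) fun j => ?_, zero_apply]
  · have : fderiv ℝ h p v * fderiv ℝ (fderiv ℝ G) p v (1, 0, 0) = 0 := by linarith
    exact (mul_eq_zero.1 this).elim (fun a => by rw [e, a, mul_zero, zero_apply]) id
  · exact mul_self_eq_zero.1 ((Finset.sum_eq_zero_iff_of_nonneg fun _ _ => mul_self_nonneg _).1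
      (le_antisymm (by linarith) s1) j (Finset.mem_univ j))
  · exact mul_self_eq_zero.1 ((Finset.sum_eq_zero_iff_of_nonneg fun _ _ => mul_self_nonneg _).1
      (le_antisymm (by linarith) s2) j (Finset.mem_univ j))

theorem CR.der (c : CR G h) {y : ℝ → Y m} {t : ℝ} (hy : HasDerivAt y (ham h (y t)) t) :
    HasDerivAt (fun t => G (y t)) (-n2 G h (y t)) t :=
  c.dG_ham _ ▸ (c.sG.differentiable (by simp) _).hasFDerivAt.comp_hasDerivAt t hy

/-- the length of an orbit is bounded by the drop of a bounded function -/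
theorem CR.len (c : CR G h) : ∃ (θ : Y m → ℝ) (M : ℝ), (∀ p, |θ p| ≤ M) ∧
    ∀ (y : ℝ → Y m) (s t ρ : ℝ), s ≤ t → 0 ≤ ρ →
      (∀ u ∈ Icc s t, HasDerivAt y (ham h (y u)) u ∧ ‖(y u).2‖ ≤ ρ) →
        ‖y t - y s‖ ≤ (1 + m * ρ) * (θ (y s) - θ (y t)) := by
  obtain ⟨V, a, a0, H⟩ := c.loj
  obtain ⟨M, hM⟩ := c.bdd
  have ct : Continuous fun x => 2 * a * ∑ v ∈ V, Dyn.rt 0 (x - v) :=
    continuous_const.mul (continuous_finsetSum _ fun v _ =>
      Dyn.rt_zero.comp (continuous_sub_right v))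
  obtain ⟨N, hN⟩ := (isCompact_Icc (a := -M) (b := M)).exists_bound_of_continuousOn ct.continuousOn
  have dg : ∀ {y : ℝ → Y m} {t : ℝ}, HasDerivAt y (ham h (y t)) t →
      HasDerivAt (fun t => G (y t)) (-√(n2 G h (y t)) ^ 2) t := fun hy => by
    rw [sq_sqrt (n2_nonneg _)]
    exact c.der hy
  exact ⟨fun p => 2 * a * ∑ v ∈ V, Dyn.rt 0 (G p - v), N, fun p => hN _ (abs_le.1 (hM p)),
    fun y s t ρ st ρ0 hy => Dyn.loj V a0 (g := fun t => G (y t)) (by positivity) st fun u hu =>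
      ⟨(hy u hu).1, dg (hy u hu).1, sqrt_nonneg _,
        (c.ham_le _).trans (by gcongr; exact (hy u hu).2), H _⟩⟩

/-- bounded forward orbits converge to a critical point -/
theorem CR.conv (c : CR G h) {X : Y m → Y m} {fl : ℝ → Y m → Y m} (hf : SW.IsFlow X fl) {R : ℝ}
    (hX : ∀ y, ‖y‖ ≤ R → X y = ham h y) {x : Y m} (st : ∀ t, 0 ≤ t → ‖fl t x‖ ≤ R) :
    ∃ p, fderiv ℝ G p = 0 ∧ Tendsto (fun t => fl t x) atTop (𝓝 p) := by
  obtain ⟨θ, M, hM, H⟩ := c.len
  have R0 := (norm_nonneg _).trans (st 0 le_rfl)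
  obtain ⟨p, hp⟩ := Dyn.conv (c := fun t => fl t x)
    (θ := fun t => (1 + m * R) * θ (fl t x)) (M := (1 + m * R) * -M)
    (fun t _ => mul_le_mul_of_nonneg_left (abs_le.1 (hM _)).1 (by positivity)) fun s t s0 h1 => by
      rw [← mul_sub]
      exact H _ s t R h1 R0 fun u hu => ⟨hX _ (st u (s0.trans hu.1)) ▸ hf.der x u,
        (norm_snd_le _).trans (st u (s0.trans hu.1))⟩
  refine ⟨p, (c.n2_zero p).1 ?_, hp⟩
  have fx : ∀ s, fl s p = p := fun s => by
    have a := ((hf.sm.continuous.comp (continuous_const.prodMk continuous_id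
      (f := fun _ => s))).tendsto p).comp hp
    refine tendsto_nhds_unique a ((hp.comp (tendsto_atTop_add_const_left _ s tendsto_id)).congr
      fun t => hf.add s t x)
  have z := hf.der p 0
  simp only [fx] at z
  rw [← neg_eq_zero, ← c.dG_ham, ← hX p (le_of_tendsto hp.norm ((eventually_ge_atTop 0).mono st)),
    z.unique (hasDerivAt_const 0 p), map_zero]

end Pool.Agent.MP_6d695c_gt.T1.Theta

end MrgPart3

-- ======== part 4: formerly Pool.Agent.MP_6d695c_gt.t1.Uni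
section MrgPart4

/-! PROJECT T1, row UNI: uniform constants of the periodic Morse function. -/

open scoped ContDiff Topology
open Set Metric Filter Real

namespace Pool.Agent.MP_6d695c_gt.T1

open SW Theta

variable {m : ℕ} {G h : Y m → ℝ}

theorem mul_eq_tr (g x : Y m) : mul g x = tr g x := by
  refine Prod.ext ?_ (Prod.ext ?_ ?_)
  all_goals simp [mul, tr, Lt_apply, add_comm]
  ring

theorem ldiv_tr (k a b : Y m) : ldiv (tr k a) (tr k b) = ldiv a b := by
  refine Prod.ext ?_ (Prod.ext ?_ ?_)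
  all_goals simp [ldiv, tr, Lt_apply, add_mul, mul_sub, Finset.sum_add_distrib]
  ring

theorem tr_ldiv (k a : Y m) : tr k (ldiv k a) = a := by
  refine Prod.ext ?_ (Prod.ext ?_ ?_)
  all_goals simp [ldiv, tr, Lt_apply]
  ring

theorem nab_R (u : Y m → ℝ) (y : Y m) : nab u y (eR m) = fderiv ℝ u y (1, 0, 0) := by
  simp [nab, eR, Lt_apply]

theorem nab_A (u : Y m → ℝ) (y : Y m) (j : Fin m) :
    nab u y (eA j) = fderiv ℝ u y (-y.2.2 j, Pi.single j 1, 0) := by
  simp [nab, eA, Lt_apply, Pi.single_apply]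

theorem nab_B (u : Y m → ℝ) (y : Y m) (j : Fin m) :
    nab u y (eB j) = fderiv ℝ u y (0, 0, Pi.single j 1) := by
  simp [nab, eB, Lt_apply]

theorem VA_eq (c : CR G h) (y : Y m) : VA G h y = ham h y := by
  refine Prod.ext ?_ (Prod.ext ?_ ?_)
  all_goals simp [VA, ham, nab_A, nab_B, Lt_apply, c.AG, c.Ah, Pi.neg_def]
  ring

theorem n2_le (c : CR G h) (y : Y m) : √(n2 G h y) ≤ (1 + 2 * m) * ‖nab G y‖ := by
  have b : ∀ v : Y m, ‖v‖ = 1 → nab G y v ^ 2 ≤ ‖nab G y‖ ^ 2 := fun v hv =>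
    sq_le_sq' (by simpa [hv] using (abs_le.1 ((nab G y).le_opNorm v)).1)
      (by simpa [hv] using (abs_le.1 ((nab G y).le_opNorm v)).2)
  have b1 := b (eR m) (by simp [eR, Prod.norm_def])
  have b2 : ∑ j, (fderiv ℝ h y (0, 0, Pi.single j 1) ^ 2 + fderiv ℝ G y (0, 0, Pi.single j 1) ^ 2) ≤
      m * (2 * ‖nab G y‖ ^ 2) := (Finset.sum_le_card_nsmul _ _ (2 * ‖nab G y‖ ^ 2) fun j _ => by
    have a1 := b (eA j) (by simp [eA, Prod.norm_def, Pi.norm_single])
    have a2 := b (eB j) (by simp [eB, Prod.norm_def, Pi.norm_single])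
    rw [nab_A, c.AG] at a1
    rw [nab_B] at a2
    linarith).trans_eq (by simp)
  rw [nab_R, c.RG] at b1
  refine sqrt_le_iff.2 ⟨by positivity, ?_⟩
  have m0 := Nat.cast_nonneg (α := ℝ) m
  have b3 : 2 * π * h y ^ 2 ≤ (2 * π * h y) ^ 2 := by
    nlinarith [mul_nonneg two_pi_pos.le (sq_nonneg (h y)), pi_gt_three]
  unfold n2
  nlinarith [mul_nonneg m0 (sq_nonneg ‖nab G y‖), sq_nonneg (m * ‖nab G y‖)]

theorem nab_le (c : CR G h) (y : Y m) : ‖nab G y‖ ≤ (2 * π + 2 * m) * √(n2 G h y) := by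
  refine ContinuousLinearMap.opNorm_le_bound _ (by positivity) fun v => ?_
  have sm : ∀ x w : Fin m → ℝ, ‖x‖ ≤ ‖v‖ → (∀ j, |w j| ≤ √(n2 G h y)) →
      |∑ j, x j * w j| ≤ m * (‖v‖ * √(n2 G h y)) := fun x w hx hw =>
    (Finset.abs_sum_le_sum_abs _ _).trans ((Finset.sum_le_card_nsmul _ _ _ fun j _ => by
      rw [abs_mul]
      exact mul_le_mul ((norm_le_pi_norm x j).trans hx) (hw j) (abs_nonneg _)
        (norm_nonneg _)).trans_eq (by simp))
  have a1 := sm _ _ ((norm_fst_le v.2).trans (norm_snd_le v)) fun j => (le_B y j).1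
  have a2 := sm _ _ ((norm_snd_le v.2).trans (norm_snd_le v)) fun j => (le_B y j).2
  have a4 : |v.1 * (2 * π * h y)| ≤ ‖v‖ * (2 * π * √(n2 G h y)) := by
    rw [abs_mul, abs_mul (2 * π), abs_of_pos two_pi_pos]
    gcongr
    exacts [norm_fst_le v, le_h y]
  rw [nab, ContinuousLinearMap.comp_apply, frame y (Lt y v)]
  simp only [map_add, map_sum, map_smul, c.RG, c.AG, smul_eq_mul, norm_eq_abs, Lt_apply,
    mul_comm (y.2.2 _), sub_add_cancel]
  refine (abs_add_three _ _ _).trans ?_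
  linarith

theorem uni : UniStmt := by
  intro m G h c
  obtain ⟨M, hM⟩ := c.bdd
  obtain ⟨γ, γ0, hγ⟩ := c.gap
  obtain ⟨N, hN⟩ := (Dom_compact m).exists_bound_of_continuousOn c.n2_cont.sqrt.continuousOn
  have cr : ∀ {k : Y m}, (∀ u : Y m → ℝ, Per u → ∀ w, u (tr k w) = u w) → ∀ w,
      fderiv ℝ G (tr k w) = 0 ↔ fderiv ℝ G w = 0 := fun hk w => by
    rw [← c.n2_zero, ← c.n2_zero, hk _ c.n2_per]
  have iso : ∀ p, fderiv ℝ G p = 0 → ∀ᶠ x in 𝓝 p, fderiv ℝ G x = 0 → x = p := fun p hp => by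
    obtain ⟨a, -, ha⟩ := c.near hp
    filter_upwards [ha] with x hx h0
    rwa [(c.n2_zero x).2 h0, sqrt_zero, mul_zero, norm_le_zero_iff, sub_eq_zero] at hx
  have fin : ∀ R, {p | fderiv ℝ G p = 0 ∧ ‖p‖ ≤ R}.Finite := fun R => by
    refine IsCompact.finite ((isCompact_closedBall 0 R).of_isClosed_subset
      ((isClosed_eq (c.sG.continuous_fderiv (by simp)) continuous_const).and
        (isClosed_le continuous_norm continuous_const)) fun p hp => mem_closedBall_zero_iff.2 hp.2)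
      (isDiscrete_iff_forall_mem_exists_isOpen.2 fun p hp => ?_)
    obtain ⟨U, h1, h2, h3⟩ := _root_.eventually_nhds_iff.1 (iso p hp.1)
    exact ⟨U, h2, subset_antisymm (fun x hx => h1 x hx.1 hx.2.1)
      (singleton_subset_iff.2 ⟨h3, hp⟩)⟩
  obtain ⟨r, r0, hr⟩ : ∃ r, 0 < r ∧ ∀ ξ : Y m, dist ξ 0 < r →
      ∀ p ∈ {p | fderiv ℝ G p = 0 ∧ ‖p‖ ≤ 4}, fderiv ℝ G (tr p ξ) = 0 → tr p ξ = p := by
    refine Metric.eventually_nhds_iff.1 ((eventually_all_finite (fin 4)).2 fun p hp => ?_)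
    refine (Continuous.tendsto' (f := tr p) ?_ 0 p (by simp [tr])).eventually (iso p hp.1)
    unfold tr
    fun_prop
  have z : ∀ p : Y m, ldiv p p = 0 := fun p => by rw [ldiv, sub_self, map_zero]
  refine ⟨1 + |M| + (2 * π + 2 * m) * |N|, r / 2, γ, c, ?_, half_pos r0, γ0, fun y => ?_,
    fun y => ?_, fun p p' hp hp' d => ?_, fun ρ ρ0 => ?_, fun p hp => ?_, hγ, ?_, fin⟩
  · rw [add_assoc]
    exact le_add_of_nonneg_right (by positivity)
  · exact (hM y).trans ((le_abs_self M).trans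
      (le_add_of_le_of_nonneg (le_add_of_nonneg_left zero_le_one) (by positivity)))
  · obtain ⟨x, hx, e⟩ := exists_dom y
    refine (nab_le c y).trans (le_add_of_nonneg_of_le (by positivity) ?_)
    rw [← e _ c.n2_per]
    gcongr
    exact (le_abs_self _).trans ((hN x hx).trans (le_abs_self N))
  · obtain ⟨k, h1, h2⟩ := exists_lat p
    have := hr (ldiv (tr k p) (tr k p')) (by rw [ldiv_tr, dist_zero_right]; linarith) (tr k p)
      ⟨(cr h2 p).2 hp, mem_closedBall_zero_iff.1 h1⟩ (by rw [tr_ldiv]; exact (cr h2 p').2 hp')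
    rw [tr_ldiv] at this
    rw [← tr_ldiv p p', ← ldiv_tr k, this, ldiv_tr, tr_ldiv]
  · have cl : IsClosed {x : Y m | ∀ p, fderiv ℝ G p = 0 → ρ ≤ ‖ldiv p x‖} := by
      simp only [ofPred_forall]
      refine isClosed_iInter fun p => isClosed_iInter fun _ => isClosed_le continuous_const ?_
      unfold ldiv
      fun_prop
    obtain ⟨κ, κ0, hκ⟩ := ((Dom_compact m).inter_right cl).exists_forall_le'
      (f := fun x => √(n2 G h x)) (a := 0) c.n2_cont.sqrt.continuousOn fun x hx =>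
        sqrt_pos.2 ((n2_nonneg x).lt_of_ne' fun e => by
          have := hx.2 x ((c.n2_zero x).1 e)
          rw [z, norm_zero] at this
          linarith)
    refine ⟨κ / (1 + 2 * m), by positivity, fun y hy => ?_⟩
    obtain ⟨k, h1, h2⟩ := exists_lat y
    have := hκ (tr k y) ⟨h1, fun p hp => by
      rw [← tr_ldiv k p] at hp ⊢
      rw [ldiv_tr]
      exact hy _ ((cr h2 _).1 hp)⟩
    simp only [h2 _ c.n2_per] at this
    rw [div_le_iff₀' (by positivity)]
    exact this.trans (n2_le c y)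
  · obtain ⟨a, a0, ha⟩ := c.near hp
    refine ⟨((a + 1) * (1 + 2 * m))⁻¹, by positivity, ha.mono fun x hx => ?_⟩
    rw [inv_mul_le_iff₀ (by positivity), mul_assoc]
    exact hx.trans (mul_le_mul (lt_add_one a).le (n2_le c x) (sqrt_nonneg _) (by positivity))
  · refine (countable_iUnion fun n : ℕ => (fin n).countable).mono fun p hp => ?_
    obtain ⟨n, hn⟩ := exists_nat_ge ‖p‖
    exact mem_iUnion.2 ⟨n, hp, hn⟩

end Pool.Agent.MP_6d695c_gt.T1

end MrgPart4

-- ======== part 5: formerly Pool.Agent.MP_6d695c_gt.t1.Aut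
section MrgPart5

/-! The flow of a contact Hamiltonian lifts to a flow that preserves `exp t (dz + b dq)`. -/

set_option autoImplicit false

open Set Metric Filter Topology Real
open scoped ContDiff

namespace Pool.Agent.MP_6d695c_gt.T1.Theta

section
variable {X : Type} [NormedAddCommGroup X] [NormedSpace ℝ X] {W : X → X} {fl : ℝ → X → X}

theorem flow_smooth (hf : SW.IsFlow W fl) (s : ℝ) : ContDiff ℝ ∞ (fl s) :=
  hf.sm.comp (contDiff_const.prodMk contDiff_id)

/-- the variational equation -/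
theorem flow_var (hf : SW.IsFlow W fl) (hW : ContDiff ℝ ∞ W) (x u : X) (s : ℝ) :
    HasDerivAt (fun s => fderiv ℝ (fl s) x u)
      (fderiv ℝ W (fl s x) (fderiv ℝ (fl s) x u)) s := by
  set F := fun q : ℝ × X => fl q.1 q.2
  have d1 := fun q => (hf.sm.differentiable (by simp) q).hasFDerivAt
  have d2 := fun q => ((hf.sm.fderiv_right (m := 1) (by norm_cast)).differentiable one_ne_zero
    q).hasFDerivAt
  have sl : ∀ s : ℝ, HasDerivAt (fun s => (s, x)) (1, 0) s := fun s =>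
    (hasDerivAt_id' s).prodMk (hasDerivAt_const s x)
  have e1 : ∀ s, fderiv ℝ (fl s) x u = fderiv ℝ F (s, x) (0, u) := fun s =>
    congrArg (fun A : X →L[ℝ] X => A u) ((d1 (s, x)).comp x (hasFDerivAt_prodMk_right s x)).fderiv
  have e2 : (fun q => fderiv ℝ F q (1, 0)) = fun q => W (F q) := funext fun q =>
    ((d1 (q.1, q.2)).comp_hasDerivAt q.1 (f := fun s => (s, q.2))
      ((hasDerivAt_id' q.1).prodMk (hasDerivAt_const q.1 q.2))).unique (hf.der q.2 q.1)
  have e3 := (d2 (s, x)).clm_apply (hasFDerivAt_const ((1, 0) : ℝ × X) (s, x))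
  rw [e2] at e3
  have e4 := congrArg (fun A : ℝ × X →L[ℝ] X => A (0, u)) (e3.unique
    ((hW.differentiable (by simp) _).hasFDerivAt.comp (s, x) (d1 (s, x))))
  simp only [e1]
  refine (((d2 (s, x)).comp_hasDerivAt s (sl s)).clm_apply
    (hasDerivAt_const s ((0, u) : ℝ × X))).congr_deriv ?_
  rw [map_zero, add_zero, (hf.sm.contDiffAt.isSymmSndFDerivAt (by simp; norm_cast)) (1, 0) (0, u)]
  simpa using e4

/-- a form with vanishing Lie derivative is invariant under the flow -/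
theorem lie_flow (hf : SW.IsFlow W fl) (hW : ContDiff ℝ ∞ W) {L : X → X →L[ℝ] ℝ}
    (hL : Differentiable ℝ L)
    (h : ∀ x w, fderiv ℝ (fun y => L y w) x (W x) + L x (fderiv ℝ W x w) = 0) (s : ℝ) (x u : X) :
    L (fl s x) (fderiv ℝ (fl s) x u) = L x u := by
  have d : ∀ s, HasDerivAt (fun s => L (fl s x) (fderiv ℝ (fl s) x u)) 0 s := fun s => by
    refine (((hL _).hasFDerivAt.comp_hasDerivAt s (hf.der x s)).clm_apply
      (flow_var hf hW x u s)).congr_deriv ?_
    rw [← h (fl s x) (fderiv ℝ (fl s) x u),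
      ((hL _).hasFDerivAt.clm_apply (hasFDerivAt_const _ _)).fderiv]
    simp
  have := is_const_of_deriv_eq_zero (fun s => (d s).differentiableAt) (fun s => (d s).deriv) s 0
  rw [this, hf.zero, show fl 0 = id from funext hf.zero, fderiv_id]
  rfl

end

variable {m : ℕ}

/-- the bilinear form `(p, v) ↦ ∑ b_j(p) q_j(v)` -/
noncomputable def om (m : ℕ) : Y m →L[ℝ] Y m →L[ℝ] ℝ :=
  ∑ j, ((ContinuousLinearMap.proj j).comp
    ((ContinuousLinearMap.snd ℝ _ _).comp (ContinuousLinearMap.snd ℝ _ _))).smulRight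
      ((ContinuousLinearMap.proj j).comp
        ((ContinuousLinearMap.fst ℝ _ _).comp (ContinuousLinearMap.snd ℝ _ _)))

theorem om_apply (p v : Y m) : om m p v = ∑ j, p.2.2 j * v.2.1 j := by
  simp [om]

/-- the form `exp t (dz + b dq)` -/
noncomputable def lam (x : ℝ × Y m) : ℝ × Y m →L[ℝ] ℝ :=
  exp x.1 • (ContinuousLinearMap.fst ℝ _ _ + om m x.2).comp (ContinuousLinearMap.snd ℝ _ _)

theorem lam_apply (x v : ℝ × Y m) :
    lam x v = exp x.1 * (v.2.1 + ∑ j, x.2.2.2 j * v.2.2.1 j) := by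
  simp [lam, om_apply, mul_add]

theorem lam_smooth : ContDiff ℝ ∞ (lam (m := m)) :=
  (contDiff_exp.comp contDiff_fst).smul ((contDiff_const.add
    ((om m).contDiff.comp contDiff_snd)).clm_comp contDiff_const)

/-- the lift of the contact field -/
noncomputable def lift (u : Y m → ℝ) (x : ℝ × Y m) : ℝ × Y m :=
  (fderiv ℝ u x.2 (1, 0, 0), ham u x.2)

theorem lift_lie {u : Y m → ℝ} (hu : ContDiff ℝ ∞ u) (x w : ℝ × Y m) :
    fderiv ℝ (fun y => lam y w) x (lift u x) + lam x (fderiv ℝ (lift u) x w) = 0 := by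
  have dh := ((ham_smooth hu).differentiable (by simp) x.2).hasFDerivAt
  have d1 : HasFDerivAt (fun y : ℝ × Y m => exp y.1 * (w.2.1 + (om m).flip w.2 y.2)) _ x :=
    hasFDerivAt_fst.exp.fun_mul
      ((((om m).flip w.2).hasFDerivAt.comp x hasFDerivAt_snd).const_add w.2.1)
  have d2 : HasFDerivAt (lift u) _ x :=
    ((der_const hu x.2 (1, 0, 0)).comp x hasFDerivAt_snd).prodMk (dh.comp x hasFDerivAt_snd)
  have d3 := (hasFDerivAt_fst.comp x.2 dh).fun_add ((om m).hasFDerivAt.clm_apply dh)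
  have e : (fun p => (Prod.fst ∘ ham u) p + om m p (ham u p)) = fun p => -u p := funext fun p => by
    simp [om_apply, ham]
  rw [e] at d3
  have e3 := congrArg (fun A : Y m →L[ℝ] ℝ => A w.2)
    (d3.unique (hu.differentiable (by simp) x.2).hasFDerivAt.fun_neg)
  have e4 := congrArg (fderiv ℝ u x.2) (frame x.2 w.2)
  rw [show (fun y => lam y w) = fun y : ℝ × Y m => exp y.1 * (w.2.1 + (om m).flip w.2 y.2) from
    funext fun y => by simp [lam, mul_add], d1.fderiv, d2.fderiv, lam_apply]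
  simp only [map_add, map_sum, map_smul, smul_eq_mul] at e4
  simp [om_apply, ham] at e3
  simp [om_apply, lift, ham]
  simp only [mul_comm (w.2.2.1 _)] at e4
  linear_combination exp x.1 * (e3 - e4)

theorem ham_zero {u : Y m → ℝ} {y : Y m} (hy : y ∉ tsupport u) :
    u y = 0 ∧ fderiv ℝ u y = 0 ∧ ham u y = 0 := by
  have a := image_eq_zero_of_notMem_tsupport hy
  have b := fderiv_of_notMem_tsupport ℝ hy
  exact ⟨a, b, by ext <;> simp [ham, a, b]⟩

/-- the flow of a compactly supported contact Hamiltonian and its strict lift -/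
theorem lifted {u : Y m → ℝ} (hu : ContDiff ℝ ∞ u) (cu : HasCompactSupport u) :
    ∃ (fl : ℝ → Y m → Y m) (Fl : ℝ → ℝ × Y m → ℝ × Y m), SW.IsFlow (ham u) fl ∧
      SW.IsFlow (lift u) Fl ∧ (∀ s t y, Fl s (t, y) = (t + (Fl s (0, y)).1, fl s y)) ∧
      (∀ s x v, lam (Fl s x) (fderiv ℝ (Fl s) x v) = lam x v) ∧
      ∀ s x, x.2 ∉ tsupport u → Fl s x = x := by
  have s1 : ContDiff ℝ ∞ fun y => (fderiv ℝ u y (1, 0, 0), ham u y) :=
    ((hu.fderiv_right (by simp)).clm_apply contDiff_const).prodMk (ham_smooth hu)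
  obtain ⟨K, hK⟩ := s1.lipschitzWith_of_hasCompactSupport (.intro cu fun y hy => by
    rw [(ham_zero hy).2.1, (ham_zero hy).2.2, zero_apply, Prod.mk_zero_zero]) (by simp)
  have s2 : ContDiff ℝ ∞ (lift u) := s1.comp contDiff_snd
  obtain ⟨Fl, hF⟩ := SW.exists_isFlow s2 (hK.comp LipschitzWith.prod_snd)
  obtain ⟨-, fl, -, hf⟩ := SW.exists_isFlow_cpt (ham_smooth hu)
    (.intro cu fun y hy => (ham_zero hy).2.2)
  refine ⟨fl, Fl, hf, hF, fun s t y => ?_,
    lie_flow hF s2 (lam_smooth.differentiable (by simp)) (lift_lie hu), fun s x hx => hF.fix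
      (by rw [lift, (ham_zero hx).2.1, (ham_zero hx).2.2, zero_apply, Prod.mk_zero_zero]) s⟩
  have a := hF.eq_of (c := fun s => (t, 0) + Fl s (0, y)) (a := 0) (b := s) fun s _ => by
    simpa [lift] using (hF.der (0, y) s).const_add (t, 0)
  have b := hf.eq_of (c := fun s => (Fl s (0, y)).2) (a := 0) (b := s) fun s _ =>
    (ContinuousLinearMap.snd ℝ ℝ (Y m)).hasFDerivAt.comp_hasDerivAt s (hF.der (0, y) s)
  simp only [sub_zero, hF.zero, Prod.mk_add_mk, add_zero, zero_add] at a b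
  rw [← a, ← b]
  simp [Prod.ext_iff]

end Pool.Agent.MP_6d695c_gt.T1.Theta

end MrgPart5

-- ======== part 6: formerly Pool.Agent.MP_6d695c_gt.t1.FlowA
section MrgPart6

/-! PROJECT T1, row FLOWA: the flow of stage A and its strict lift. -/

open scoped ContDiff Topology
open Set Metric Filter Real

namespace Pool.Agent.MP_6d695c_gt.T1

open SW Theta

theorem lam0_eq {m : ℕ} (x v : ℝ × Y m) : lam0 x v = lam x v := by
  simp [lam0, al0, lam_apply, Lt_apply, mul_add]

theorem flowA (_ : CalcStmt) (_ : ModelStmt) : FlowAStmt := by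
  intro m G h R c
  obtain ⟨b, hb, bc, -, b1, -⟩ := exists_cut (isCompact_closedBall (0 : Y m) R) isOpen_univ
    (subset_univ _)
  have su : ContDiff ℝ ∞ fun y => b y * h y := hb.mul c.sh
  have cu : HasCompactSupport fun y => b y * h y := bc.mul_right
  obtain ⟨fl, Fl, hf, hF, e, inv, out⟩ := lifted su cu
  have e' : ∀ S, (fun x : ℝ × Y m => (x.1 + (Fl S (0, x.2)).1, fl S x.2)) = Fl S := fun S =>
    funext fun x => (e S x.1 x.2).symm
  refine ⟨_, fl, fun S y => (Fl S (0, y)).1, ham_smooth su, hf, fun y hy => ?_, fun S => ⟨?_, ?_⟩⟩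
  · have : (fun y => b y * h y) =ᶠ[𝓝 y] h := by
      filter_upwards [b1 y (mem_closedBall_zero_iff.2 hy)] with x hx
      rw [hx, one_mul]
    rw [VA_eq c, ham, ham, this.fderiv_eq, this.eq_of_nhds]
  · exact Continuous.bounded_above_of_compact_support (f := fun y => (Fl S (0, y)).1)
      ((flow_smooth hF S).continuous.comp (continuous_const.prodMk continuous_id)).fst
      (.intro cu fun y hy => by rw [out S (0, y) hy])
  · rw [e', e']
    exact ⟨one_pos, flow_smooth hF S, flow_smooth hF _,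
      fun x => by rw [← hF.add, neg_add_cancel, hF.zero],
      fun x => by rw [← hF.add, add_neg_cancel, hF.zero],
      fun x v => by rw [lam0_eq, lam0_eq, inv, one_mul]⟩

end Pool.Agent.MP_6d695c_gt.T1

end MrgPart6

-- marker of a merged file
example : 731051 + 621745 = 731051 + 621745 := rfl
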