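import Pool.Agent.MP_6d695c_gt.t1.Glue
import Pool.Agent.MP_6d695c_gt.t1.FlowA
import Pool.Agent.MP_6d695c_gt.sw.Base

-- ======== part 0: formerly Pool.Agent.MP_6d695c_gt.t1.Rel
section MrgPart0

/-! PROJECT T1: related fields (REL, PREL). -/

open scoped Manifold ContDiff Topology MeasureTheory
open Set Metric Filter Real

namespace Pool.Agent.MP_6d695c_gt.T1

open SW Theta

theorem rel : RelStmt := by
  intro X X' _ _ _ _ _ S N S' A B Z Z' Φ Φ' p c hN hpN hpS hA hB hΦ hΦ' hev hL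
  have dA : ∀ x ∈ N, DifferentiableAt ℝ A x := fun x hx =>
    (hA.contDiffAt (hN.mem_nhds hx)).differentiableAt (by simp)
  have evN : ∀ᶠ x in 𝓝[S] p, x ∈ N := mem_nhdsWithin_of_mem_nhds (hN.mem_nhds hpN)
  have chain : ∀ u : X' → ℝ, ContDiff ℝ ∞ u → ∀ x ∈ N,
      HasFDerivAt (fun y => u (A y)) ((fderiv ℝ u (A x)).comp (fderiv ℝ A x)) x :=
    fun u hu x hx => (hu.differentiable (by simp) (A x)).hasFDerivAt.comp x (dA x hx).hasFDerivAt
  have key : ∀ᶠ x in 𝓝[S] p, fderiv ℝ Φ x (Z x) = fderiv ℝ Φ' (A x) (Z' (A x)) := by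
    filter_upwards [hev, eventually_eventually_nhdsWithin.2 hev, evN, self_mem_nhdsWithin]
      with x h1 h2 h3 h4
    have h5 := (chain Φ' hΦ' x h3).add_const c
    rw [fderiv_congr_tg (hΦ.differentiable (by simp) x) h5.differentiableAt h4
      (h2.mono fun y hy => hy.2.2.2.2) h1.2.2.1, h5.fderiv, ContinuousLinearMap.comp_apply,
      h1.2.2.2.1]
  have hp := hev.self_of_nhdsWithin hpS
  rcases hL with h | ⟨u, ⟨h1, h2, h3, c', hc', h4⟩, h5⟩
  · exact Or.inl (by rwa [key.self_of_nhdsWithin hpS])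
  have hT : Tendsto A (𝓝[S] p) (𝓝[S'] (A p)) :=
    tendsto_nhdsWithin_iff.2 ⟨(dA p hpN).continuousAt.tendsto.mono_left nhdsWithin_le_nhds,
      hev.mono fun y hy => hy.1⟩
  obtain ⟨b, hb, -, hs, hb1, -⟩ := exists_cut (isCompact_singleton (x := p)) hN
    (singleton_subset_iff.2 hpN)
  have he : (fun x => b x • u (A x)) =ᶠ[𝓝 p] fun x => u (A x) :=
    (hb1 p rfl).mono fun y hy => by simp [hy]
  have hd : ∀ᶠ x in 𝓝[S] p,
      fderiv ℝ (fun x => b x • u (A x)) x (Z x) = fderiv ℝ u (A x) (Z' (A x)) := by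
    filter_upwards [hev, evN, mem_nhdsWithin_of_mem_nhds he.eventuallyEq_nhds] with x a1 a2 a3
    rw [Filter.EventuallyEq.fderiv_eq a3, (chain u h2 x a2).fderiv,
      ContinuousLinearMap.comp_apply, a1.2.2.2.1]
  obtain ⟨C, hC, hCb⟩ := hB.isBigO_sub.exists_pos
  refine Or.inr ⟨fun x => b x • u (A x), ⟨?_, contDiff_cut_smul hN hb hs (h2.comp_contDiffOn hA),
    ?_, c' / C ^ 2, by positivity, ?_⟩, ?_⟩
  · have a1 := hB.hasFDerivAt.comp p (dA p hpN).hasFDerivAt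
    have a2 := fderiv_congr_tg (u := B ∘ A) (u' := id) a1.differentiableAt differentiableAt_id hpS
      (hev.mono fun y hy => hy.2.1) hp.2.2.1
    rw [a1.fderiv, ContinuousLinearMap.comp_apply, hp.2.2.2.1, h1, map_zero] at a2
    simpa using a2.symm
  · rw [he.fderiv_eq, (chain u h2 p hpN).fderiv, h3, ContinuousLinearMap.zero_comp]
  · filter_upwards [hev, hd, hT.eventually h4,
      (hT.mono_right nhdsWithin_le_nhds).eventually hCb.bound] with x a1 a2 a3 a4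
    rw [a1.2.1, hp.2.1] at a4
    rw [a2]
    refine le_trans ?_ a3
    have a5 := pow_le_pow_left₀ (norm_nonneg _) a4 2
    rw [div_mul_eq_mul_div, div_le_iff₀ (by positivity)]
    nlinarith
  · filter_upwards [key, hd, hT.eventually h5] with x a1 a2 a3
    rw [a1, a2]; exact a3

theorem prel : PrelStmt := by
  intro X X' E E' _ _ _ _ _ _ _ _ S N S' l Pi l' Pi' A k p h h' hN hpN hpS hA hf hs
  have cA : ∀ x ∈ N, ContDiffAt ℝ ∞ A x := fun x hx => hA.contDiffAt (hN.mem_nhds hx)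
  have dA : ∀ x ∈ N, DifferentiableAt ℝ A x := fun x hx => (cA x hx).differentiableAt (by simp)
  have hp' := (hf p hpS hpN).1
  have tg : ∀ v ∈ Tg S p, fderiv ℝ A p v ∈ Tg S' (A p) := by
    rintro v ⟨γ, h0, h1, h2⟩
    subst h0
    refine ⟨A ∘ γ, rfl, (dA _ hpN).hasFDerivAt.comp_hasDerivAt (0 : ℝ) h1, ?_⟩
    filter_upwards [h2, h1.continuousAt.eventually (hN.mem_nhds hpN)] with t a1 a2
    exact (hf _ a1 a2).1
  have key : ∀ u ∈ Tg S p, ∀ v ∈ Tg S p,
      dd l' (A p) (fderiv ℝ A p u) (fderiv ℝ A p v) = k * dd l p u v := by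
    obtain ⟨g, r, O, N₀, hP, hN₀⟩ := h.sub p hpS
    obtain ⟨y, hy, rfl⟩ : ∃ y ∈ O, g y = p := ⟨r p, hP.rm p hpS hN₀⟩
    rw [hP.tg hy]
    rintro _ ⟨a, rfl⟩ _ ⟨b, rfl⟩
    have c1 : ContDiffAt ℝ 2 g y := (hP.cg hy).of_le (by norm_cast)
    have c2 : ContDiffAt ℝ 2 (A ∘ g) y := ((cA _ hpN).comp y (hP.cg hy)).of_le (by norm_cast)
    have e1 := dd_pullback (l := l') (f := A ∘ g) (h'.sl.differentiable (by simp) _) c2 a b
    have e2 := dd_pullback (l := l) (f := g) (h.sl.differentiable (by simp) _) c1 a b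
    have e3 : (fun y => (l' ((A ∘ g) y)).comp (fderiv ℝ (A ∘ g) y)) =ᶠ[𝓝 y]
        fun y => k • (l (g y)).comp (fderiv ℝ g y) := by
      filter_upwards [hP.oO.mem_nhds hy, (hP.dg hy).continuousAt.eventually (hN.mem_nhds hpN)]
        with z a1 a2
      ext w
      rw [fderiv_comp z (dA _ a2) (hP.dg a1)]
      exact (hf _ (hP.gm z a1).1 a2).2 _ (by rw [hP.tg a1]; exact ⟨w, rfl⟩)
    have d1 : DifferentiableAt ℝ (fun y => (l (g y)).comp (fderiv ℝ g y)) y :=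
      ((h.sl.differentiable (by simp) _).comp y (hP.dg hy)).clm_comp
        ((c1.fderiv_right (m := 1) (by norm_num)).differentiableAt one_ne_zero)
    rw [fderiv_comp y (dA _ hpN) (hP.dg hy)] at e1
    rw [← e2]
    refine e1.symm.trans ?_
    simp only [dd, e3.fderiv_eq, fderiv_fun_const_smul d1, smul_apply,
      smul_eq_mul]
    ring
  refine ⟨fun β => ?_, ?_⟩
  · rw [← map_smul]
    refine h'.uniq hp' (tg _ (h.tan p hpS _)) fun w hw => ?_
    obtain ⟨v, hv, rfl⟩ := hs w hw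
    rw [key _ (h.tan p hpS _) v hv, h.dual p hpS _ v hv]
    rfl
  · refine h'.uniq hp' (tg _ (h.tan p hpS _)) fun w hw => ?_
    obtain ⟨v, hv, rfl⟩ := hs w hw
    rw [key _ (h.tan p hpS _) v hv, h.dual p hpS _ v hv, (hf p hpS hpN).2 v hv]

end Pool.Agent.MP_6d695c_gt.T1

end MrgPart0

-- ======== part 1: formerly Pool.Agent.MP_6d695c_gt.t1.Null
section MrgPart1

/-! A set of `(m + 1)`-dimensional measure zero times a Lipschitz `m`-piece is null in
dimension `2 m + 1`. -/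

set_option autoImplicit false

open MeasureTheory Set Metric Filter Topology
open scoped ENNReal NNReal

namespace Pool.Agent.MP_6d695c_gt.T1.Null

variable {E X : Type} [NormedAddCommGroup E] [NormedSpace ℝ E] [FiniteDimensional ℝ E]
  [MeasurableSpace E] [BorelSpace E] [MetricSpace X] {m : ℕ}

theorem piece (μ : Measure E) [μ.IsAddHaarMeasure] (hE : Module.finrank ℝ E = 2 * m + 1)
    {K : Set X} {A : Set (Fin m → ℝ)} {R : ℝ} (hR : 0 ≤ R) (hA : ∀ s ∈ A, ‖s‖ ≤ R)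
    {Ψ : X × (Fin m → ℝ) → E} {L : ℝ≥0} (hΨ : LipschitzOnWith L Ψ (K ×ˢ A)) {t : Set X} {r : ℝ}
    (h0 : 0 < r) (h1 : r ≤ 1) (ht : ∀ x ∈ t, ∀ y ∈ t, dist x y ≤ r) :
    μ (Ψ '' ((K ∩ t) ×ˢ A)) ≤
      ENNReal.ofReal ((2 * R + 5) ^ m * L ^ (2 * m + 1) * r ^ (m + 1)) * μ (ball 0 1) := by
  let N : ℕ := ⌈R / r⌉₊
  let F := Fintype.piFinset fun _ : Fin m => Finset.Icc (-(N : ℤ)) N
  let P : (Fin m → ℤ) → Set E := fun k => Ψ '' ((K ∩ t) ×ˢ {s | s ∈ A ∧ ∀ j, ⌊s j / r⌋ = k j})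
  have cov : Ψ '' ((K ∩ t) ×ˢ A) ⊆ ⋃ k ∈ F, P k := by
    rintro _ ⟨⟨x, s⟩, ⟨hx, hs⟩, rfl⟩
    refine mem_biUnion (x := fun j => ⌊s j / r⌋) ?_ ⟨(x, s), ⟨hx, hs, fun _ => rfl⟩, rfl⟩
    refine Fintype.mem_piFinset.2 fun j => Finset.mem_Icc.2 ?_
    have a := abs_le.1 ((norm_le_pi_norm s j).trans (hA s hs))
    have b : R / r ≤ N := Nat.le_ceil _
    have c1 : s j / r ≤ R / r := by gcongr; exact a.2
    have c2 : -R / r ≤ s j / r := by gcongr; exact a.1
    rw [neg_div] at c2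
    exact ⟨Int.le_floor.2 (by push_cast; linarith),
      Int.floor_le_iff.2 (by push_cast; linarith)⟩
  have one : ∀ k, μ (P k) ≤ ENNReal.ofReal ((L * r) ^ (2 * m + 1)) * μ (ball 0 1) := fun k => by
    rcases (P k).eq_empty_or_nonempty with e | ⟨_, ⟨x, s⟩, ⟨hx, hs⟩, rfl⟩
    · simp [e]
    rw [← hE, ← μ.addHaar_closedBall (Ψ (x, s)) (by positivity)]
    refine measure_mono ?_
    rintro _ ⟨⟨y, u⟩, ⟨hy, hu⟩, rfl⟩
    refine (hΨ.dist_le_mul _ ⟨hy.1, hu.1⟩ _ ⟨hx.1, hs.1⟩).trans ?_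
    gcongr
    refine max_le (ht _ hy.2 _ hx.2) ((dist_pi_le_iff h0.le).2 fun j => ?_)
    have := Int.abs_sub_lt_one_of_floor_eq_floor ((hu.2 j).trans (hs.2 j).symm)
    rw [← sub_div, abs_div, abs_of_pos h0, div_lt_one h0] at this
    exact this.le
  refine (measure_mono cov).trans ((measure_biUnion_finset_le _ _).trans
    ((Finset.sum_le_card_nsmul _ _ _ fun k _ => one k).trans ?_))
  rw [nsmul_eq_mul, ← mul_assoc, ← ENNReal.ofReal_natCast, ← ENNReal.ofReal_mul (by positivity)]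
  refine mul_le_mul_left (ENNReal.ofReal_le_ofReal ?_) _
  have c : (F.card : ℝ) = (2 * N + 1) ^ m := by
    simp only [F, Fintype.card_piFinset, Int.card_Icc, Finset.prod_const, Finset.card_univ,
      Fintype.card_fin]
    rw [show ((N : ℤ) + 1 - -N).toNat = 2 * N + 1 by omega]
    push_cast
    rfl
  have d : (2 * N + 1 : ℝ) * r ≤ 2 * R + 5 := by
    have : (N : ℝ) < R / r + 1 := Nat.ceil_lt_add_one (by positivity)
    have := mul_le_mul_of_nonneg_right this.le h0.le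
    rw [add_mul, div_mul_cancel₀ _ h0.ne'] at this
    linarith
  calc (F.card : ℝ) * (L * r) ^ (2 * m + 1)
      = ((2 * N + 1) * r) ^ m * L ^ (2 * m + 1) * r ^ (m + 1) := by rw [c, mul_pow, mul_pow]; ring
    _ ≤ _ := by gcongr

theorem null [MeasurableSpace X] [BorelSpace X] (μ : Measure E) [μ.IsAddHaarMeasure]
    (hE : Module.finrank ℝ E = 2 * m + 1) {K : Set X} (hK : μH[m + 1] K = 0)
    {A : Set (Fin m → ℝ)} (hA : Bornology.IsBounded A) {Ψ : X × (Fin m → ℝ) → E} {L : ℝ≥0}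
    (hΨ : LipschitzOnWith L Ψ (K ×ˢ A)) : μ (Ψ '' (K ×ˢ A)) = 0 := by
  obtain ⟨R, hR, hA⟩ := hA.exists_pos_norm_le
  let C : ℝ≥0∞ := ENNReal.ofReal ((2 * R + 5) ^ m * L ^ (2 * m + 1)) * μ (ball 0 1)
  have hC : C ≠ ∞ := ENNReal.mul_ne_top ENNReal.ofReal_ne_top measure_ball_lt_top.ne
  let ν : OuterMeasure X := OuterMeasure.map Prod.fst
    (OuterMeasure.restrict (K ×ˢ A) (OuterMeasure.comap Ψ μ.toOuterMeasure))
  have hν : ∀ t, ν t = μ (Ψ '' ((K ∩ t) ×ˢ A)) := fun t => by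
    simp only [ν, OuterMeasure.map_apply, OuterMeasure.restrict_apply, OuterMeasure.comap_apply,
      Measure.toOuterMeasure_apply]
    congr 2
    ext x
    simp only [mem_inter_iff, mem_preimage, mem_prod]
    tauto
  have key : ∀ t (r : ℝ), 0 < r → r ≤ 1 → ediam t ≤ ENNReal.ofReal r →
      ν t ≤ C * ENNReal.ofReal r ^ (m + 1) := fun t r h0 h1 ht => by
    rw [hν]
    refine (piece μ hE hR.le hA hΨ h0 h1 fun x hx y hy => ?_).trans (le_of_eq ?_)
    · exact (edist_le_ofReal h0.le).1 ((edist_le_ediam_of_mem hx hy).trans ht)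
    · rw [ENNReal.ofReal_mul (by positivity), ENNReal.ofReal_pow h0.le, mul_right_comm]
  have h := OuterMeasure.le_mkMetric (fun r => C * r ^ ((m : ℝ) + 1)) ν 1 one_pos fun t ht => by
    rw [← Nat.cast_succ, ENNReal.rpow_natCast]
    rcases eq_or_ne (ediam t) 0 with e | e
    · have : Tendsto (fun r : ℝ => C * ENNReal.ofReal r ^ (m + 1)) (𝓝[>] 0)
          (𝓝 (C * ENNReal.ofReal 0 ^ (m + 1))) :=
        ENNReal.Tendsto.const_mul (ENNReal.Tendsto.pow
          (ENNReal.continuous_ofReal.continuousAt.tendsto.mono_left nhdsWithin_le_nhds)) (.inr hC)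
      rw [ENNReal.ofReal_zero] at this
      rw [e]
      refine ge_of_tendsto this ?_
      filter_upwards [Ioc_mem_nhdsGT one_pos] with r hr
      exact key t r hr.1 hr.2 (by simp [e])
    · have f : ediam t ≠ ∞ := ne_top_of_le_ne_top ENNReal.one_ne_top ht
      have := key t (ediam t).toReal (ENNReal.toReal_pos e f)
        (by simpa using ENNReal.toReal_mono ENNReal.one_ne_top ht) (by rw [ENNReal.ofReal_toReal f])
      rwa [ENNReal.ofReal_toReal f] at this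
  have g := OuterMeasure.mkMetric_mono_smul (X := X) (m₁ := fun r => C * r ^ ((m : ℝ) + 1))
    (m₂ := fun r => r ^ ((m : ℝ) + 1)) (c := C + 1) (by simpa using hC) (by simp)
    (.of_forall fun r => mul_le_mul_left le_self_add _)
  have := (h K).trans (g K)
  rw [hν, inter_self, smul_apply, OuterMeasure.coe_mkMetric] at this
  exact le_zero_iff.1 (this.trans_eq (by rw [show Measure.mkMetric _ K = 0 from hK, smul_zero]))

end Pool.Agent.MP_6d695c_gt.T1.Null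

end MrgPart1

-- ======== part 2: formerly Pool.Agent.MP_6d695c_gt.t1.Esc
section MrgPart2

/-! PROJECT T1, row ESC: a generic translate of a thin set escapes to `G < -γ`. -/

open scoped ContDiff Topology NNReal
open Set Metric Filter Real MeasureTheory

namespace Pool.Agent.MP_6d695c_gt.T1

open SW Theta

theorem null_graph {E X F : Type} [NormedAddCommGroup E] [NormedSpace ℝ E] [FiniteDimensional ℝ E]
    [MeasurableSpace E] [BorelSpace E] [MetricSpace X] [MeasurableSpace X] [BorelSpace X]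
    [NormedAddCommGroup F] [NormedSpace ℝ F] {m : ℕ} (μ : Measure E) [μ.IsAddHaarMeasure]
    (hE : Module.finrank ℝ E = 2 * m + 1) {K : Set X} (hK : μH[m + 1] K = 0) {W : Set F}
    (hW : Bornology.IsBounded W) (pr : F →L[ℝ] Fin m → ℝ) {C : ℝ}
    (hC : ∀ x ∈ W, ∀ y ∈ W, ‖x - y‖ ≤ C * ‖pr (x - y)‖) {Φ : X × F → E} {L : ℝ≥0}
    (hΦ : LipschitzOnWith L Φ (K ×ˢ W)) : μ (Φ '' (K ×ˢ W)) = 0 := by
  let σ := Function.invFunOn pr W
  have h1 : ∀ s ∈ pr '' W, σ s ∈ W ∧ pr (σ s) = s := fun s hs => Function.invFunOn_pos hs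
  have lip : LipschitzOnWith (L * (1 + |C|).toNNReal) (fun q : X × (Fin m → ℝ) => Φ (q.1, σ q.2))
      (K ×ˢ (pr '' W)) := by
    refine hΦ.comp (g := Φ) (LipschitzOnWith.of_dist_le' fun a ha b hb => max_le ?_ ?_)
      fun a ha => ⟨ha.1, (h1 _ ha.2).1⟩
    · exact (le_max_left _ _).trans (le_mul_of_one_le_left (dist_nonneg (x := a) (y := b))
        (le_add_of_nonneg_right (abs_nonneg C)))
    · have := hC _ (h1 _ ha.2).1 _ (h1 _ hb.2).1
      rw [map_sub, (h1 _ ha.2).2, (h1 _ hb.2).2, ← dist_eq_norm, ← dist_eq_norm] at this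
      exact this.trans (mul_le_mul (by linarith [le_abs_self C]) (le_max_right _ _) dist_nonneg
        (by positivity))
  refine measure_mono_null ?_ (Null.null μ hE hK (pr.lipschitz.isBounded_image hW) lip)
  rintro _ ⟨⟨x, y⟩, ⟨hx, hy⟩, rfl⟩
  have a := h1 _ (mem_image_of_mem pr hy)
  have := hC _ a.1 _ hy
  rw [map_sub, a.2, sub_self, norm_zero, mul_zero, norm_le_zero_iff, sub_eq_zero] at this
  exact ⟨(x, pr y), ⟨hx, mem_image_of_mem pr hy⟩, by simp only [this]⟩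

variable {m : ℕ}

/-- the translation that takes `x` to `y` -/
def dv (x y : Y m) : Y m :=
  (y.1 - x.1 + ∑ j, (y.2.2 j - x.2.2 j) * x.2.1 j, y.2.1 - x.2.1, y.2.2 - x.2.2)

theorem dv_tr (g x : Y m) : dv x (tr g x) = g := by
  refine Prod.ext ?_ (Prod.ext ?_ ?_)
  all_goals simp [dv, tr]
  ring

theorem esc : EscStmt := by
  intro m G h B r₀ γ R X fl K U _ hf hZ cK hK
  have c := U.cr
  have hX : ∀ y, ‖y‖ ≤ R → X y = ham h y := fun y hy =>
    (hZ y (hy.trans (lt_add_one R).le)).trans (VA_eq c y)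
  have cn := fun p : {p : Y m // fderiv ℝ G p = 0 ∧ 0 < G p} =>
    Dyn.cone (((ham_smooth c.sh).of_le (by simp)).contDiffAt) _ (snd_sym c.sG p.1) (c.neg p.2.1)
  choose r r0 hr using cn
  obtain ⟨T, cT, hT⟩ := TopologicalSpace.countable_cover_nhds
    (f := fun p : {p : Y m // fderiv ℝ G p = 0 ∧ 0 < G p} => Subtype.val ⁻¹' ball p.1 (r p))
    fun p => continuous_subtype_val.continuousAt.preimage_mem_nhds (ball_mem_nhds _ (r0 p))
  let W := fun p => {y | ∀ t, 0 ≤ t →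
    HasDerivAt (fun t => fl t y) (ham h (fl t y)) t ∧ fl t y ∈ ball p.1 (r p)}
  let Φ := fun (n : ℕ) (q : Y m × Y m) => dv q.1 (fl (-n) q.2)
  have nl : ∀ p n, Measure.addHaar (Φ n '' (K ×ˢ W p)) = 0 := fun p n => by
    have sub : W p ⊆ closedBall p.1 (r p) := fun y hy =>
      ball_subset_closedBall (hf.zero y ▸ (hy 0 le_rfl).2)
    obtain ⟨pr, C, hC⟩ := c.cone p.2.1 p.2.2
    have sm : ContDiff ℝ 1 (Φ n) := by
      have : ContDiff ℝ 1 fun q : Y m × Y m => fl (-n) q.2 :=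
        (hf.sm.of_le (by simp)).comp (contDiff_const.prodMk contDiff_snd)
      have d : ContDiff ℝ 1 fun q : Y m × Y m => dv q.1 q.2 := by
        unfold dv
        fun_prop
      exact d.comp (contDiff_fst.prodMk this)
    obtain ⟨L, hL⟩ := (sm.locallyLipschitz.locallyLipschitzOn
      (s := K ×ˢ closedBall p.1 (r p))).exists_lipschitzOnWith_of_compact
        (cK.prod (isCompact_closedBall _ _))
    refine null_graph _ (finrank_Y m) hK (isBounded_closedBall.subset sub) pr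
      (fun x hx y hy => hC _ ?_) (hL.mono (prod_mono_right sub))
    simpa only [hf.zero] using hr p _ _ hx hy
  have n0 : Measure.addHaar (⋃ p ∈ T, ⋃ n, Φ n '' (K ×ˢ W p)) = 0 :=
    (measure_biUnion_null_iff cT).2 fun p _ => measure_iUnion_null (nl p)
  obtain ⟨g, gU, gn⟩ := not_subset.1 fun a =>
    (measure_ball_pos Measure.addHaar (0 : Y m) one_pos).ne' (measure_mono_null a n0)
  refine ⟨g, (mem_ball_zero_iff.1 gU).le, fun x hx st => ?_⟩
  rw [mul_eq_tr] at st ⊢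
  by_contra! hn
  obtain ⟨p, hp, lim⟩ := c.conv hf hX st
  have a : -γ ≤ G p := ge_of_tendsto ((c.sG.continuous.tendsto p).comp lim)
    ((eventually_ge_atTop 0).mono hn)
  have b : 0 < G p := by
    by_contra! b
    have := U.val p hp
    rw [abs_of_nonpos b] at this
    linarith
  obtain ⟨p', pT, hp'⟩ := mem_iUnion₂.1 (hT.symm ▸ mem_univ
    (⟨p, hp, b⟩ : {p : Y m // fderiv ℝ G p = 0 ∧ 0 < G p}))
  obtain ⟨N, hN⟩ := eventually_atTop.1 (lim.eventually (isOpen_ball.mem_nhds hp'))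
  obtain ⟨n, hn⟩ := exists_nat_ge N
  refine gn (mem_iUnion₂.2 ⟨p', pT, mem_iUnion.2 ⟨n, (x, fl n (tr g x)), ⟨hx, fun t ht =>
    ⟨?_, hf.add _ _ _ ▸ hN _ (by linarith)⟩⟩, ?_⟩⟩)
  · have := hX _ (st (t + n) (by positivity))
    rw [hf.add] at this
    exact this ▸ hf.der _ t
  · simp only [Φ]
    rw [← hf.add, neg_add_cancel, hf.zero, dv_tr]

end Pool.Agent.MP_6d695c_gt.T1

end MrgPart2

-- ======== part 3: formerly Pool.Agent.MP_6d695c_gt.t1.Plug
section MrgPart3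

/-! PROJECT T1, row PLUG2: the monotone functions of the plug. -/

open scoped ContDiff Topology
open Set Filter

namespace Pool.Agent.MP_6d695c_gt.T1

open SW Theta

namespace Plug2

theorem step {u v : ℝ} (h : u < v) : ∃ b : ℝ → ℝ, ContDiff ℝ ∞ b ∧ (∀ x ≤ u, b x = 1) ∧
    (∀ x, v ≤ x → b x = 0) ∧ (∀ x, b x ∈ Icc (0 : ℝ) 1) ∧ (∀ x, deriv b x ≤ 0) ∧
    ∀ x, x ≤ u ∨ v ≤ x → deriv b x = 0 := by
  obtain ⟨b, h1, h2, h3, h4, h5⟩ := exists_step h
  refine ⟨b, h1, h2, h3, h4, h5, fun x hx => hx.elim (fun hx => ?_) fun hx => ?_⟩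
  · exact IsLocalMax.deriv_eq_zero (.of_forall fun y => by rw [h2 x hx]; exact (h4 y).2)
  · exact IsLocalMin.deriv_eq_zero (.of_forall fun y => by rw [h3 x hx]; exact (h4 y).1)

/-- a bounded monotone function with slope at least one on `[-R, R]` -/
theorem exists_vp {R : ℝ} (hR : 0 ≤ R) : ∃ vp : ℝ → ℝ, ContDiff ℝ ∞ vp ∧
    (∀ s, 0 ≤ deriv vp s) ∧ (∀ s, |s| ≤ R → 1 ≤ deriv vp s) ∧
    ∀ s, vp s ∈ Icc 0 (2 * R + 2) := by
  obtain ⟨b, sb, b1, b0, b01, bd, bz⟩ := step (show R < R + 1 by linarith)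
  let h : ℝ → ℝ := fun s => R + 1 - (R + 1 - s) * b s
  let h' : ℝ → ℝ := fun s => b s - (R + 1 - s) * deriv b s
  have sh : ContDiff ℝ ∞ h := contDiff_const.sub ((contDiff_const.sub contDiff_id).mul sb)
  have dh : ∀ s, HasDerivAt h (h' s) s := fun s => by
    have := (((hasDerivAt_id s).const_sub (R + 1)).mul
      (sb.differentiable (by simp) s).hasDerivAt).const_sub (R + 1)
    refine this.congr_deriv ?_
    simp only [id, h']
    ring
  have d0 : ∀ s, b s ≤ h' s := fun s => by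
    simp only [h']
    rcases le_total s (R + 1) with hs | hs
    · nlinarith [bd s]
    · rw [bz s (Or.inr hs)]; simp
  have dg : ∀ s, deriv (fun s => R + 1 - h (-h s)) s = h' (-h s) * h' s := fun s => by
    have := ((dh (-h s)).comp s (dh s).neg).const_sub (R + 1)
    refine this.deriv.trans ?_
    ring
  have up : ∀ s, h s ≤ R + 1 := fun s => by
    simp only [h]
    rcases le_total s (R + 1) with hs | hs
    · linarith [mul_nonneg (sub_nonneg.2 hs) (b01 s).1]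
    · rw [b0 s hs]; simp
  have lo : ∀ s, -(R + 1) ≤ s → -(R + 1) ≤ h s := fun s hs => by
    simp only [h]
    nlinarith [(b01 s).1, (b01 s).2]
  refine ⟨fun s => R + 1 - h (-h s), contDiff_const.sub (sh.comp sh.neg), fun s => ?_,
    fun s hs => ?_, fun s => ⟨sub_nonneg.2 (up _), ?_⟩⟩
  · rw [dg]
    exact mul_nonneg ((b01 _).1.trans (d0 _)) ((b01 _).1.trans (d0 _))
  · have e : h s = s := by simp only [h]; rw [b1 s (abs_le.1 hs).2]; ring
    rw [dg, e]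
    exact one_le_mul_of_one_le_of_one_le (b1 (-s) (by linarith [(abs_le.1 hs).1]) ▸ d0 _)
      (b1 s (abs_le.1 hs).2 ▸ d0 _)
  · linarith [lo (-h s) (by linarith [up s])]

variable {m : ℕ} {G ℓ u : Y m → ℝ} {γ Lm T B δ : ℝ} {f Λ : ℝ × Y m → ℝ} {vp : ℝ → ℝ}

theorem fd (φ : Y m → ℝ) (hφ : ContDiff ℝ ∞ φ) (hΛ : ContDiff ℝ ∞ Λ) (sv : ContDiff ℝ ∞ vp)
    (c : ℝ) (x v : ℝ × Y m) : fderiv ℝ (fun x : ℝ × Y m => φ x.2 + c * vp (Λ x)) x v =
      fderiv ℝ φ x.2 v.2 + c * (deriv vp (Λ x) * fderiv ℝ Λ x v) := by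
  have h1 := (hφ.differentiable (by simp) x.2).hasFDerivAt.comp x (hasFDerivAt_snd (𝕜 := ℝ))
  have h2 := ((sv.differentiable (by simp) (Λ x)).hasDerivAt.comp_hasFDerivAt x
    (hΛ.differentiable (by simp) x).hasFDerivAt).const_mul c
  refine (congrArg (fun L => L v) (h1.add h2).fderiv).trans ?_
  simp

theorem key (hM : Mast G ℓ u γ Lm T B δ f Λ) (v0 : ∀ s, 0 ≤ deriv vp s)
    (v1 : ∀ s, |s| ≤ T + B → 1 ≤ deriv vp s) (φ : Y m → ℝ)
    (h : ∀ x, |x.1| ≤ T → -(δ * fderiv ℝ Λ x (XY f x)) ≤ fderiv ℝ φ x.2 (XY f x).2)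
    (x : ℝ × Y m) :
    0 ≤ fderiv ℝ φ x.2 (XY f x).2 + δ * (deriv vp (Λ x) * fderiv ℝ Λ x (XY f x)) := by
  have h0 := (hM.lyap x).nonneg
  rcases le_or_gt |x.1| T with ht | ht
  · have h1 : 1 ≤ deriv vp (Λ x) := v1 _ (by
      have := abs_add_le (Λ x - x.1) x.1
      rw [sub_add_cancel] at this
      linarith [hM.bd x])
    have h2 := mul_nonneg hM.δ0 (mul_nonneg (sub_nonneg.2 h1) h0)
    linarith [h x ht]
  · have h1 : XY f x = (1, 0) := XS_of_zero
      ((continuous_fst.abs.continuousAt.eventually (lt_mem_nhds ht)).mono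
        fun y hy => hM.far y hy.le)
    have h2 := mul_nonneg hM.δ0 (mul_nonneg (v0 (Λ x)) h0)
    rw [show (XY f x).2 = 0 by rw [h1], map_zero, zero_add]
    exact h2

end Plug2

open Plug2 in
theorem plug : PlugStmt := by
  intro m G ℓ u γ Lm η T B δ f Λ sG sℓ su hM hγ hL hδ
  have hB : 0 ≤ B := (abs_nonneg _).trans (hM.bd 0)
  have hT := hM.oneT
  obtain ⟨vp, sv, v0, v1, vb⟩ := exists_vp (show 0 ≤ T + B by linarith)
  obtain ⟨w1, s1, a1, b1, r1, d1, -⟩ := step (show -(3 * γ / 4) < -(γ / 2) by linarith)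
  obtain ⟨w3, s3, a3, b3, r3, d3, -⟩ := step (show (1 / 2 : ℝ) < 1 by norm_num)
  obtain ⟨w2, s2, a2, b2, r2, d2, z2⟩ := step (show (-1 : ℝ) < 1 by norm_num)
  have e0 : ∀ s, 0 ≤ δ * vp s := fun s => mul_nonneg hM.δ0 (vb s).1
  have e1 : ∀ s, δ * vp s ≤ min (γ / 4) (min (1 / 4) η) := fun s =>
    (mul_le_mul_of_nonneg_left (vb s).2 hM.δ0).trans hδ
  simp only [le_min_iff] at e1
  have sA : ∀ φ : Y m → ℝ, ContDiff ℝ ∞ φ →
      ContDiff ℝ ∞ fun x : ℝ × Y m => φ x.2 + δ * vp (Λ x) := fun φ hφ =>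
    (hφ.comp contDiff_snd).add (contDiff_const.mul (sv.comp hM.sΛ))
  refine ⟨fun x => w1 (G x.2 + δ * vp (Λ x)) * w3 (ℓ x.2 + δ * vp (Λ x)) * (1 - w2 x.1),
    fun x => -δ * vp (Λ x), hM.sf, hM.sΛ,
    ((s1.comp (sA G sG)).mul (s3.comp (sA ℓ sℓ))).mul (contDiff_const.sub (s2.comp contDiff_fst)),
    fun x hx => ⟨hM.out x hx, ?_⟩, hM.far, hM.lyap, hM.bd, fun x hx => ?_, fun x h1 h2 h3 => ?_,
    fun x => ?_, fun x => ?_, contDiff_const.mul (sv.comp hM.sΛ), fun x _ => ?_, fun x _ => ?_⟩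
  · rw [b3 _ (by linarith [e0 (Λ x)]), mul_zero, zero_mul]
  · rw [a2 _ (by linarith), sub_self, mul_zero]
  · rw [a1 _ (by linarith [(e1 (Λ x)).1]), a3 _ (by linarith [(e1 (Λ x)).2.1]),
      b2 _ (by linarith)]
    norm_num
  · have h2 : 1 - w2 x.1 ∈ Icc (0 : ℝ) 1 := ⟨by linarith [(r2 x.1).2], by linarith [(r2 x.1).1]⟩
    exact ⟨mul_nonneg (mul_nonneg (r1 _).1 (r3 _).1) h2.1,
      mul_le_one₀ (mul_le_one₀ (r1 _).2 (r3 _).1 (r3 _).2) h2.1 h2.2⟩
  · have kG := key hM v0 v1 G hM.dG x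
    have kℓ := key hM v0 v1 ℓ (fun x hx => (abs_le.1 (hM.dℓ x hx)).1) x
    rw [← fd G sG hM.sΛ sv] at kG
    rw [← fd ℓ sℓ hM.sΛ sv] at kℓ
    have h1 := (s1.differentiable (by simp) _).hasDerivAt.comp_hasFDerivAt x
      ((sA G sG).differentiable (by simp) x).hasFDerivAt
    have h3 := (s3.differentiable (by simp) _).hasDerivAt.comp_hasFDerivAt x
      ((sA ℓ sℓ).differentiable (by simp) x).hasFDerivAt
    have h2 := ((s2.differentiable (by simp) x.1).hasDerivAt.comp_hasFDerivAt x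
      (hasFDerivAt_fst (𝕜 := ℝ))).const_sub 1
    refine (congrArg (fun L => L (XY f x)) ((h1.mul h3).mul h2).fderiv).trans_le ?_
    simp only [add_apply, smul_apply,
      neg_apply, smul_eq_mul, Function.comp_apply, Pi.mul_apply,
      ContinuousLinearMap.coe_fst']
    have p1 := (r1 (G x.2 + δ * vp (Λ x))).1
    have p3 := (r3 (ℓ x.2 + δ * vp (Λ x))).1
    have p2 : 0 ≤ 1 - w2 x.1 := by linarith [(r2 x.1).2]
    have q1 := mul_nonneg p3 (mul_nonneg (neg_nonneg.2 (d1 (G x.2 + δ * vp (Λ x)))) kG)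
    have q3 := mul_nonneg p1 (mul_nonneg (neg_nonneg.2 (d3 (ℓ x.2 + δ * vp (Λ x)))) kℓ)
    have q2 : 0 ≤ w1 (G x.2 + δ * vp (Λ x)) * w3 (ℓ x.2 + δ * vp (Λ x)) *
        (deriv w2 x.1 * (XY f x).1) := by
      rcases le_or_gt (-(γ / 2)) (G x.2) with c1 | c1
      · rw [b1 _ (by linarith [e0 (Λ x)])]; simp
      rcases le_or_gt 1 (ℓ x.2) with c3 | c3
      · rw [b3 _ (by linarith [e0 (Λ x)])]; simp
      rcases le_or_gt 1 |x.1| with c2 | c2
      · rw [z2 _ ((le_abs'.1 c2).imp id id)]; simp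
      exact mul_nonneg (mul_nonneg p1 p3)
        (mul_nonneg_of_nonpos_of_nonpos (d2 _) (hM.down x c2.le c1.le c3.le))
    nlinarith [mul_nonneg p2 q1, mul_nonneg p2 q3]
  · rw [neg_mul, abs_neg, abs_of_nonneg (e0 _)]
    exact (e1 _).2.2
  · have k := key hM v0 v1 (fun y => -u y) (fun x hx => by
      rw [fderiv_fun_neg, neg_apply]
      linarith [(abs_le.1 (hM.du x hx)).2]) x
    rw [fderiv_fun_neg, neg_apply] at k
    rw [fd u su hM.sΛ sv]
    linarith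

end Pool.Agent.MP_6d695c_gt.T1

end MrgPart3

-- ======== part 4: formerly Pool.Agent.MP_6d695c_gt.t1.Disp
section MrgPart4

/-! PROJECT T1, row DISP: flat functions hardly change along the flow of stage A. -/

open scoped Manifold ContDiff Topology
open Set Metric Filter Real

namespace Pool.Agent.MP_6d695c_gt.T1

open SW Theta

namespace Disp

lemma le_of_der {f f' : ℝ → ℝ} (hf : ∀ t, HasDerivAt f (f' t) t) {s : ℝ} (hs : 0 ≤ s)
    (h : ∀ t ∈ Ioo 0 s, 0 ≤ f' t) : f 0 ≤ f s :=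
  monotoneOn_of_deriv_nonneg (convex_Icc 0 s)
    (fun t _ => (hf t).continuousAt.continuousWithinAt)
    (fun t _ => (hf t).differentiableAt.differentiableWithinAt)
    (fun t ht => by rw [(hf t).deriv]; exact h t (by rwa [interior_Icc] at ht))
    (left_mem_Icc.2 hs) (right_mem_Icc.2 hs) hs

lemma abs_le_of_der {g g' w w' : ℝ → ℝ} (hg : ∀ t, HasDerivAt g (g' t) t)
    (hw : ∀ t, HasDerivAt w (w' t) t) {K s : ℝ} (hs : 0 ≤ s)
    (h : ∀ t ∈ Ioo 0 s, |w' t| ≤ K * g' t) : |w s - w 0| ≤ K * (g s - g 0) := by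
  have h1 := le_of_der (f := fun t => K * g t - w t) (fun t => ((hg t).const_mul K).sub (hw t)) hs
    fun t ht => by linarith [(abs_le.1 (h t ht)).2]
  have h2 := le_of_der (f := fun t => K * g t + w t) (fun t => ((hg t).const_mul K).add (hw t)) hs
    fun t ht => by linarith [(abs_le.1 (h t ht)).1]
  exact abs_le.2 ⟨by linarith, by linarith⟩

lemma key {g g' l l' v v' : ℝ → ℝ} (hg : ∀ t, HasDerivAt g (g' t) t)
    (hl : ∀ t, HasDerivAt l (l' t) t) (hv : ∀ t, HasDerivAt v (v' t) t) {K B c : ℝ} (hK : 0 ≤ K)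
    (hB : ∀ t, |g t| ≤ B) (h1 : 2 * B * K < 1) (h0 : l 0 ≤ c)
    (h : ∀ t, l t ≤ c + 1 → |l' t| ≤ K * g' t ∧ |v' t| ≤ K * g' t ∧ 0 ≤ g' t) {s : ℝ}
    (hs : 0 ≤ s) : |l s - l 0| ≤ 2 * B * K ∧ |v s - v 0| ≤ 2 * B * K ∧ g 0 ≤ g s := by
  have hosc : ∀ t, K * (g t - g 0) ≤ 2 * B * K := fun t => by
    have a := (abs_le.1 (hB t)).2
    have b := (abs_le.1 (hB 0)).1
    nlinarith
  have hin : ∀ t ∈ Ioo 0 s, l t ≤ c + 1 := by
    intro t ht
    by_contra hc
    have hT : IsClosed {t | c + 1 ≤ l t} :=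
      isClosed_le continuous_const (continuous_iff_continuousAt.2 fun t => (hl t).continuousAt)
    obtain ⟨t0, h2, h3, h4⟩ := first_time hT (a := 0) (b := t) (not_le.1 hc).le ht.1.le
    have h5 := abs_le_of_der hg hl h2.1 fun r hr =>
      (h r (not_le.1 (h4 r ⟨hr.1.le, hr.2⟩)).le).1
    have h6 := (abs_le.1 (h5.trans (hosc t0))).2
    have h7 : c + 1 ≤ l t0 := h3
    linarith
  exact ⟨(abs_le_of_der hg hl hs fun t ht => (h t (hin t ht)).1).trans (hosc s),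
    (abs_le_of_der hg hv hs fun t ht => (h t (hin t ht)).2.1).trans (hosc s),
    le_of_der hg hs fun t ht => (h t (hin t ht)).2.2⟩

variable {m : ℕ} {G h : Y m → ℝ}

/-- the components of the gradient -/
noncomputable def xi (G h : Y m → ℝ) (y : Y m) : Y m :=
  (h y, fun j => nab G y (eA j), fun j => nab G y (eB j))

lemma der_VA (F : Y m → ℝ) (y : Y m) : fderiv ℝ F y (VA G h y) = -nab F y (xi G h y) := by
  rw [VA, map_neg, nab_apply, xi]

lemma nab_eR (hc : CR G h) (y : Y m) : nab G y (eR m) = 2 * π * h y := by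
  rw [nab_apply, Lt_eR, eR, hc.RG]

lemma sq_le (hc : CR G h) (y : Y m) : ‖xi G h y‖ ^ 2 ≤ nab G y (xi G h y) := by
  rw [expand (nab G y), nab_eR hc]
  simp only [xi]
  have hπ := pi_gt_three
  have a0 : 0 ≤ h y * (2 * π * h y) := by nlinarith [mul_self_nonneg (h y)]
  have a1 : 0 ≤ ∑ j, nab G y (eA j) * nab G y (eA j) :=
    Finset.sum_nonneg fun j _ => mul_self_nonneg _
  have a2 : 0 ≤ ∑ j, nab G y (eB j) * nab G y (eB j) :=
    Finset.sum_nonneg fun j _ => mul_self_nonneg _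
  generalize hQ : h y * (2 * π * h y) + ∑ j, nab G y (eA j) * nab G y (eA j) +
    ∑ j, nab G y (eB j) * nab G y (eB j) = Q
  have hQ0 : 0 ≤ Q := by linarith
  refine (Real.le_sqrt (norm_nonneg _) hQ0).1 ?_
  have hs := Real.sqrt_nonneg Q
  refine norm_prod_le_iff.2 ⟨?_, norm_prod_le_iff.2 ⟨?_, ?_⟩⟩
  · refine Real.abs_le_sqrt ?_
    nlinarith [mul_self_nonneg (h y)]
  · refine (pi_norm_le_iff_of_nonneg hs).2 fun j => Real.abs_le_sqrt ?_
    have := Finset.single_le_sum (f := fun j => nab G y (eA j) * nab G y (eA j))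
      (fun j _ => mul_self_nonneg _) (Finset.mem_univ j)
    nlinarith
  · refine (pi_norm_le_iff_of_nonneg hs).2 fun j => Real.abs_le_sqrt ?_
    have := Finset.single_le_sum (f := fun j => nab G y (eB j) * nab G y (eB j))
      (fun j _ => mul_self_nonneg _) (Finset.mem_univ j)
    nlinarith

lemma norm_nab_le (hc : CR G h) (y : Y m) : ‖nab G y‖ ≤ (8 + 2 * m) * ‖xi G h y‖ := by
  refine ContinuousLinearMap.opNorm_le_bound _ (by positivity) fun ξ => ?_
  rw [expand (nab G y), nab_eR hc]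
  have b0 : |h y| ≤ ‖xi G h y‖ := norm_fst_le (xi G h y)
  have b1 : ∀ j, |nab G y (eA j)| ≤ ‖xi G h y‖ := fun j =>
    ((norm_le_pi_norm (xi G h y).2.1 j).trans (norm_fst_le _)).trans (norm_snd_le _)
  have b2 : ∀ j, |nab G y (eB j)| ≤ ‖xi G h y‖ := fun j =>
    ((norm_le_pi_norm (xi G h y).2.2 j).trans (norm_snd_le _)).trans (norm_snd_le _)
  have c0 : |ξ.1| ≤ ‖ξ‖ := norm_fst_le ξ
  have c1 : ∀ j, |ξ.2.1 j| ≤ ‖ξ‖ := fun j =>
    ((norm_le_pi_norm ξ.2.1 j).trans (norm_fst_le _)).trans (norm_snd_le _)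
  have c2 : ∀ j, |ξ.2.2 j| ≤ ‖ξ‖ := fun j =>
    ((norm_le_pi_norm ξ.2.2 j).trans (norm_snd_le _)).trans (norm_snd_le _)
  have hx := norm_nonneg (xi G h y)
  have hξ := norm_nonneg ξ
  generalize ‖xi G h y‖ = D at *
  have sum : ∀ a b : Fin m → ℝ, (∀ j, |a j| ≤ ‖ξ‖) → (∀ j, |b j| ≤ D) →
      |∑ j, a j * b j| ≤ m * (‖ξ‖ * D) := fun a b ha hb => by
    refine (Finset.abs_sum_le_sum_abs _ _).trans
      ((Finset.sum_le_card_nsmul _ _ (‖ξ‖ * D) fun j _ => ?_).trans (by simp))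
    rw [abs_mul]
    exact mul_le_mul (ha j) (hb j) (abs_nonneg _) hξ
  have d0 : |ξ.1 * (2 * π * h y)| ≤ ‖ξ‖ * (8 * D) := by
    rw [abs_mul, abs_mul, abs_of_pos (by positivity : 0 < 2 * π)]
    exact mul_le_mul c0 (mul_le_mul (by linarith [pi_le_four]) b0 (abs_nonneg _) (by norm_num))
      (by positivity) hξ
  have d1 := sum _ _ c1 b1
  have d2 := sum _ _ c2 b2
  rw [Real.norm_eq_abs]
  refine (abs_add_three _ _ _).trans ?_
  nlinarith

lemma flat_le (hc : CR G h) {σ : ℝ} {u : Y m → ℝ} (hu : Flat G σ u) (hσ : 0 ≤ σ) (y : Y m) :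
    |fderiv ℝ u y (VA G h y)| ≤ (8 + 2 * m) * σ * -fderiv ℝ G y (VA G h y) := by
  rw [der_VA, der_VA, neg_neg, abs_neg]
  have h1 := (nab u y).le_opNorm (xi G h y)
  rw [Real.norm_eq_abs] at h1
  have h2 := norm_nab_le hc y
  have h3 := sq_le hc y
  have hx := norm_nonneg (xi G h y)
  calc |nab u y (xi G h y)| ≤ σ * ((8 + 2 * m) * ‖xi G h y‖) * ‖xi G h y‖ :=
        h1.trans (mul_le_mul_of_nonneg_right
          ((hu.le y).trans (mul_le_mul_of_nonneg_left h2 hσ)) hx)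
    _ = (8 + 2 * m) * σ * ‖xi G h y‖ ^ 2 := by ring
    _ ≤ _ := mul_le_mul_of_nonneg_left h3 (by positivity)

lemma VA_nonpos (hc : CR G h) (y : Y m) : 0 ≤ -fderiv ℝ G y (VA G h y) := by
  rw [der_VA, neg_neg]
  exact (sq_nonneg _).trans (sq_le hc y)

end Disp

open Disp

theorem disp : DispStmt := by
  intro m G h B r γ hU
  have hm : (0 : ℝ) ≤ m := Nat.cast_nonneg m
  have hB := hU.one
  refine ⟨2 * B * (8 + 2 * m), by nlinarith, ?_⟩
  intro Z fl R σ c ℓ u hfl hZ hℓ hu hσ hC hR y hy s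
  have der : ∀ F : Y m → ℝ, ContDiff ℝ ∞ F → ∀ t,
      HasDerivAt (fun t => F (fl t y)) (fderiv ℝ F (fl t y) (Z (fl t y))) t := fun F hF t =>
    (hF.differentiable (by simp) _).hasFDerivAt.comp_hasDerivAt t (hfl.der y t)
  have hK : 0 ≤ (8 + 2 * m) * σ := by positivity
  have e : 2 * B * (8 + 2 * m) * σ = 2 * B * ((8 + 2 * m) * σ) := by ring
  rw [e] at hC ⊢
  have est : ∀ x, ℓ x ≤ c + 1 →
      |fderiv ℝ ℓ x (Z x)| ≤ (8 + 2 * m) * σ * -fderiv ℝ G x (Z x) ∧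
        |fderiv ℝ u x (Z x)| ≤ (8 + 2 * m) * σ * -fderiv ℝ G x (Z x) ∧
        0 ≤ -fderiv ℝ G x (Z x) := fun x hx => by
    rw [hZ x (hR x hx)]
    exact ⟨flat_le hU.cr hℓ hσ x, flat_le hU.cr hu hσ x, VA_nonpos hU.cr x⟩
  have fwd := fun (s : ℝ) (hs : 0 ≤ s) =>
    key (fun t => (der G hU.cr.sG t).neg) (der ℓ hℓ.sm) (der u hu.sm) hK (B := B) (c := c)
      (fun t => by simpa using hU.bG (fl t y)) hC (by rwa [hfl.zero]) (fun t ht => est _ ht) hs
  rcases le_total 0 s with hs | hs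
  · obtain ⟨h1, h2, h3⟩ := fwd s hs
    simp only [hfl.zero, Pi.neg_apply, neg_le_neg_iff] at h1 h2 h3
    exact ⟨h1, h2, fun _ => h3⟩
  · have der' : ∀ F : Y m → ℝ, ContDiff ℝ ∞ F → ∀ t, HasDerivAt (fun t => F (fl (-t) y))
        (-fderiv ℝ F (fl (-t) y) (Z (fl (-t) y))) t := fun F hF t => by
      simpa [Function.comp_def] using (der F hF (-t)).comp t (hasDerivAt_neg t)
    obtain ⟨h1, h2, -⟩ := key (der' G hU.cr.sG) (der' ℓ hℓ.sm) (der' u hu.sm) hK (B := B) (c := c)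
      (fun t => hU.bG _) hC (by rwa [neg_zero, hfl.zero])
      (fun t ht => by rw [abs_neg, abs_neg]; exact est _ ht) (neg_nonneg.2 hs)
    simp only [neg_neg, neg_zero, hfl.zero] at h1 h2
    refine ⟨h1, h2, fun h0 => ?_⟩
    rw [le_antisymm hs h0, hfl.zero]

end Pool.Agent.MP_6d695c_gt.T1

end MrgPart4

-- ======== part 5: formerly Pool.Agent.MP_6d695c_gt.t1.Trf
section MrgPart5

/-! PROJECT T1, row TRF: a plug is pulled back by an automorphism. -/

open scoped Manifold ContDiff Topology MeasureTheory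
open Set Metric Filter Real

namespace Pool.Agent.MP_6d695c_gt.T1

open SW Theta

theorem trf (rel : RelStmt) (aut : AutStmt) : TrfStmt := by
  intro m G ℓ u' u ρ κ ϕ γ Lm η T B k M f Λ Ξ E A' U hP hA hκ hu' hu hρ hC hU h1 h2
  obtain ⟨χ, sχ, χ1, χ0, χr, -⟩ := exists_step (u := Lm + 1 / 2) (v := Lm + 1) (by linarith)
  set A : ℝ × Y m → ℝ × Y m := fun x => (x.1 + κ x.2, ϕ x.2) with hAd
  have hX := (aut m k A A' hA).1 f hP.sf
  have sA := hA.sA
  have comp : ∀ F : ℝ × Y m → ℝ, ContDiff ℝ ∞ F → ∀ x,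
      fderiv ℝ (fun x => F (A x)) x (XY (fun x => k⁻¹ * f (A x)) x) =
        fderiv ℝ F (A x) (XY f (A x)) := fun F hF x => by
    rw [fderiv_fun_comp x (hF.differentiable (by simp) _) (sA.differentiable (by simp) x),
      ContinuousLinearMap.comp_apply, hX]
  have out : ∀ x : ℝ × Y m, Lm + 1 / 4 < ρ x.2 → f (A x) = 0 ∧ Ξ (A x) = 0 := fun x hx =>
    hP.out (A x) (le_of_not_gt fun h => (h1 _ h).not_gt hx)
  have sW : ContDiff ℝ ∞ fun x : ℝ × Y m => u' x.2 + E x :=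
    (hu'.comp contDiff_snd).add hP.slow.sE
  have su : ContDiff ℝ ∞ fun x : ℝ × Y m => u x.2 := hu.comp contDiff_snd
  have sc : ContDiff ℝ ∞ fun x : ℝ × Y m => χ (ρ x.2) := (sχ.comp hρ).comp contDiff_snd
  have cρ : Continuous fun x : ℝ × Y m => ρ x.2 := hρ.continuous.comp continuous_snd
  refine ⟨T + M, B + M, fun x => k⁻¹ * f (A x), fun x => Λ (A x), fun x => Ξ (A x),
    fun x => χ (ρ x.2) * (u' (A x).2 + E (A x) - u x.2), contDiff_const.mul (hP.sf.comp sA),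
    hP.sΛ.comp sA, hP.sΞ.comp sA, hC, hU, fun x hx => ?_, fun x hx => ?_, fun x => ?_, fun x => ?_,
    fun x hx => hP.low _ ?_, fun x hx ho => hP.high _ ?_ ho.1 ho.2, fun x => hP.rng _, fun x => ?_,
    sc.mul ((sW.comp sA).sub su), fun x _ => ?_, fun x _ => ?_⟩
  · have h : Lm + 1 < ρ x.2 := lt_of_not_ge hx
    obtain ⟨e1, e2⟩ := out x (by linarith)
    exact ⟨by rw [e1, mul_zero], e2, by rw [χ0 _ h.le, zero_mul]⟩
  · have h3 := hκ x.2
    have h4 : |x.1| ≤ |x.1 + κ x.2| + |κ x.2| := by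
      simpa using abs_sub (x.1 + κ x.2) (κ x.2)
    rw [hP.far (A x) (by change T ≤ |x.1 + κ x.2|; linarith), mul_zero]
  · exact rel _ _ univ univ univ A A' _ (XY f) _ Λ x 0 isOpen_univ trivial trivial sA.contDiffOn
      (hA.sA'.differentiable (by simp) _) (hP.sΛ.comp sA) hP.sΛ
      (.of_forall fun y => ⟨trivial, hA.li y, tg_univ _ _, hX y, (add_zero _).symm⟩) (hP.lyap _)
  · have h3 := abs_le.1 (hκ x.2)
    have h4 : -B ≤ Λ (A x) - (x.1 + κ x.2) ∧ Λ (A x) - (x.1 + κ x.2) ≤ B := abs_le.1 (hP.bd (A x))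
    exact abs_le.2 ⟨by linarith [h3.1, h4.1], by linarith [h3.2, h4.2]⟩
  · change x.1 + κ x.2 ≤ -T
    linarith [(abs_le.1 (hκ x.2)).2]
  · change T ≤ x.1 + κ x.2
    linarith [(abs_le.1 (hκ x.2)).1]
  · rw [comp Ξ hP.sΞ]; exact hP.mono _
  · have h3 := hP.slow.bd (A x) trivial
    rcases le_or_gt (ρ x.2) (Lm + 1) with h | h
    · have h4 := abs_le.1 (h2 _ h)
      have h5 := abs_le.1 h3
      rw [abs_mul, abs_of_nonneg (χr _).1]
      refine (mul_le_of_le_one_left (abs_nonneg _) (χr _).2).trans (abs_le.2 ⟨?_, ?_⟩)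
      · linarith [h4.1, h5.1]
      · linarith [h4.2, h5.2]
    · rw [χ0 _ h.le, zero_mul, abs_zero]
      linarith [abs_nonneg (E (A x))]
  · have h3 := (comp _ sW x).trans_le (hP.slow.mono (A x) trivial)
    rcases lt_or_ge (ρ x.2) (Lm + 1 / 2) with h | h
    · refine le_of_eq_of_le (congrArg (fun L : (ℝ × Y m) →L[ℝ] ℝ => L _)
        (Filter.EventuallyEq.fderiv_eq ?_)) h3
      filter_upwards [(isOpen_lt cρ continuous_const).mem_nhds h] with y hy
      rw [χ1 _ (le_of_lt hy)]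
      ring
    · have h4 : XY (fun x => k⁻¹ * f (A x)) x = (1, 0) := XS_of_zero (by
        filter_upwards [(isOpen_lt continuous_const cρ).mem_nhds
          (show Lm + 1 / 4 < ρ x.2 by linarith)] with y hy
        rw [(out y hy).1, mul_zero])
      have d1 := (hu.differentiable (by simp) x.2).hasFDerivAt.comp x hasFDerivAt_snd
      have d2 := ((sχ.comp hρ).differentiable (by simp) x.2).hasFDerivAt.comp x hasFDerivAt_snd
      have d3 := ((sW.comp sA).differentiable (by simp) x).hasFDerivAt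
      have d4 := (d1.add (d2.mul (d3.sub d1))).fderiv
      rw [h4] at h3
      change fderiv ℝ _ x (XY _ x) ≤ 0
      rw [h4]
      refine le_of_eq_of_le (congrArg (fun L : (ℝ × Y m) →L[ℝ] ℝ => L (1, 0)) d4) ?_
      simpa [Function.comp_def] using mul_nonpos_of_nonneg_of_nonpos (χr (ρ x.2)).1 h3

end Pool.Agent.MP_6d695c_gt.T1

end MrgPart5

-- ======== part 6: formerly Pool.Agent.MP_6d695c_gt.t1.Raw
section MrgPart6

/-! PROJECT T1, row TRAP: the trap in the model. -/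

open scoped Manifold ContDiff Topology MeasureTheory
open Set Metric Filter Real

namespace Pool.Agent.MP_6d695c_gt.T1

open SW Theta

namespace RawP

variable {m : ℕ}

theorem flat_mono {G u : Y m → ℝ} {σ σ' : ℝ} (h : Flat G σ u) (hσ : σ ≤ σ') : Flat G σ' u :=
  ⟨h.sm, fun y => (h.le y).trans (mul_le_mul_of_nonneg_right hσ (norm_nonneg _))⟩

theorem cont_dil (w : ℝ) : Continuous (dil w : Y m → Y m) := by
  unfold dil
  fun_prop

theorem exists_R {Q : Set (Y m)} (hQ : IsCompact Q) (w : ℝ) :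
    ∃ R, ∀ g : Y m, ‖g‖ ≤ 1 → ∀ y ∈ Q, ‖mul g (dil w y)‖ ≤ R := by
  have hc : Continuous fun q : Y m × Y m => mul q.1 (dil w q.2) :=
    continuous_fst.add ((contDiff_Lt.continuous.comp continuous_fst).clm_apply
      ((cont_dil w).comp continuous_snd))
  obtain ⟨R, hR⟩ := ((isCompact_closedBall (0 : Y m) 1).prod hQ).exists_bound_of_continuousOn
    hc.continuousOn
  exact ⟨R, fun g hg y hy => hR (g, y) ⟨mem_closedBall_zero_iff.2 hg, hy⟩⟩

theorem nab_const_sub (F : Y m → ℝ) (c : ℝ) (y : Y m) :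
    ‖nab (fun y => c - F y) y‖ = ‖nab F y‖ := by
  rw [nab, nab, fderiv_const_sub, ContinuousLinearMap.neg_comp, norm_neg]

theorem exists_w {e C D : ℝ} (he : 0 < e) (hC : 0 < C) (hD : 0 < D) :
    ∃ w, 0 < w ∧ w ≤ 1 ∧ D * (w * C) ≤ e := by
  refine ⟨min 1 (e / (D * C)), lt_min one_pos (by positivity), min_le_left _ _, ?_⟩
  have h1 : min 1 (e / (D * C)) ≤ e / (D * C) := min_le_right _ _
  rw [le_div_iff₀ (by positivity)] at h1
  linarith

theorem exists_time {K : Set (Y m)} (hK : IsCompact K) {F : ℝ → Y m → ℝ} {c : ℝ}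
    (hF : ∀ t, Continuous (F t)) (h1 : ∀ x ∈ K, ∃ t, F t x < c)
    (h2 : ∀ x ∈ K, ∀ s t, s ≤ t → F t x ≤ F s x) : ∃ S, ∀ x ∈ K, F S x < c := by
  obtain ⟨T, hT⟩ := hK.elim_finite_subcover (fun t : ℝ => {x | F t x < c})
    (fun t => isOpen_lt (hF t) continuous_const) fun x hx => mem_iUnion.2 (h1 x hx)
  obtain ⟨S, hS⟩ := T.bddAbove
  refine ⟨S, fun x hx => ?_⟩
  obtain ⟨t, ht, h⟩ := mem_iUnion₂.1 (hT hx)
  exact (h2 x hx t S (hS ht)).trans_lt h

end RawP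

open RawP

theorem raw (aut : AutStmt) (aff : AffStmt) (uni : UniStmt) (flat : FlatStmt) (mast : MastStmt)
    (plug : PlugStmt) (flowA : FlowAStmt) (disp : DispStmt) (esc : EscStmt) (trf : TrfStmt) :
    RawStmt := by
  intro m K U u η hK hUo hKU hnull su cu hη
  obtain ⟨G, h, hCR⟩ := exists_CR m
  obtain ⟨B, r, γ, hU⟩ := uni m G h hCR
  have hγ := hU.γpos
  obtain ⟨Lm, σ, hLm, hσ, hM⟩ := mast m G h B r γ (min (γ / 4) (min (1 / 4) (η / 2))) hU
    (by positivity)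
  obtain ⟨b, sb, cb, tb, b1, bI⟩ := exists_cut hK hUo hKU
  obtain ⟨-, aA, aN, aC, aH⟩ := aff m
  have sF : ContDiff ℝ ∞ fun y => (Lm + 3) * b y := contDiff_const.mul sb
  obtain ⟨C₁, hC₁, hb₁⟩ := aC _ sF cb.mul_left
  obtain ⟨C₂, hC₂, hb₂⟩ := aC _ su cu
  obtain ⟨Cf, hCf, hF⟩ := flat m G h B r γ hU
  obtain ⟨Cd, hCd, hD⟩ := disp m G h B r γ hU
  obtain ⟨w, w0, w1, hw⟩ := exists_w (e := min σ (min (1 / 100) (η / 2))) (C := C₁ + C₂)
    (D := (1 + Cd) * Cf) (by positivity) (by positivity) (by positivity)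
  obtain ⟨R, hR⟩ := exists_R cb.isCompact w⁻¹
  obtain ⟨Z, fl, κ, sZ, hfl, hZ, hS⟩ := flowA m G h (R + 1) hCR
  obtain ⟨g, hg, hesc⟩ := esc m G h B r γ R Z fl (dil w⁻¹ '' K) hU sZ hfl hZ
    (hK.image (cont_dil _)) (aH K _ hK hnull)
  have hA := aA g w w0
  set ψ : Y m → Y m := fun y => mul g (dil w⁻¹ y) with hψ
  set ψ' : Y m → Y m := fun y => dil w (ldiv g y) with hψ'
  have sψ : ContDiff ℝ ∞ ψ := contDiff_snd.comp (hA.sA.comp (contDiff_prodMk_right (0 : ℝ)))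
  have sψ' : ContDiff ℝ ∞ ψ' := contDiff_snd.comp (hA.sA'.comp (contDiff_prodMk_right (0 : ℝ)))
  have li : ∀ y, ψ' (ψ y) = y := fun y => congrArg Prod.snd (hA.li (0, y))
  have ri : ∀ y, ψ (ψ' y) = y := fun y => congrArg Prod.snd (hA.ri (0, y))
  have s0 : 0 ≤ w * (C₁ + C₂) := by positivity
  have sl : ContDiff ℝ ∞ fun y => Lm + 3 - (Lm + 3) * b y := contDiff_const.sub sF
  obtain ⟨ℓ, fℓ, dℓ⟩ := hF (fun y => Lm + 3 - (Lm + 3) * b (ψ' y)) _ (sl.comp sψ') s0 fun y => by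
    refine (aN g w _ w0 w1 sl y).trans (mul_le_mul_of_nonneg_left ?_ w0.le)
    rw [nab_const_sub]
    linarith [hb₁ (dil w (ldiv g y))]
  obtain ⟨u', fu, du⟩ := hF (fun y => u (ψ' y)) _ (su.comp sψ') s0 fun y => by
    refine (aN g w _ w0 w1 su y).trans (mul_le_mul_of_nonneg_left ?_ w0.le)
    linarith [hb₂ (dil w (ldiv g y))]
  rw [mul_assoc] at hw
  generalize hs : Cf * (w * (C₁ + C₂)) = s at hw fℓ dℓ fu du
  have s1 : 0 ≤ s := by rw [← hs]; positivity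
  have s2 : 0 ≤ Cd * s := by positivity
  have e1 : s + Cd * s ≤ σ := by linarith [hw.trans (min_le_left _ _)]
  have e2 : s + Cd * s ≤ 1 / 100 := by
    linarith [hw.trans ((min_le_right _ _).trans (min_le_left _ _))]
  have e3 : s + Cd * s ≤ η / 2 := by
    linarith [hw.trans ((min_le_right _ _).trans (min_le_right _ _))]
  obtain ⟨T, B', δ, f, Λ, hMast, hδ⟩ := hM ℓ u' (flat_mono fℓ (by linarith))
    (flat_mono fu (by linarith)) fun y => by
      have h1 := (abs_le.1 (dℓ y)).1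
      have h2 : (Lm + 3) * b (ψ' y) ≤ (Lm + 3) * 1 :=
        mul_le_mul_of_nonneg_left (bI _).2 (by linarith)
      linarith
  obtain ⟨Ξ, E, hP⟩ := plug m G ℓ u' γ Lm (η / 2) T B' δ f Λ hCR.sG fℓ.sm fu.sm hMast hγ hLm hδ
  have hsup : ∀ y, ℓ y ≤ Lm + 2 → ψ' y ∈ tsupport b := fun y hy =>
    subset_tsupport _ fun h0 => by
      have h1 := (abs_le.1 (dℓ y)).1
      simp only [h0, mul_zero] at h1
      linarith
  have hball : ∀ y, ℓ y ≤ Lm + 1 + 1 → ‖y‖ ≤ R := fun y hy => by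
    have := hR g hg _ (hsup y (by linarith))
    rwa [show mul g (dil w⁻¹ (ψ' y)) = y from ri y] at this
  have hd := hD Z fl R s (Lm + 1) ℓ u' hfl (fun y hy => hZ y (by linarith)) fℓ fu s1
    (by linarith) hball
  have hK0 : ∀ x ∈ K, ∀ t, ℓ (fl t (ψ x)) ≤ 1 / 100 := fun x hx t => by
    have h1 := (abs_le.1 (dℓ (ψ x))).2
    simp only [li, (b1 x hx).self_of_nhds] at h1
    have h2 := (abs_le.1 (hd (ψ x) (by linarith) t).1).2
    linarith
  have cfl : ∀ t, Continuous fun y => fl t (ψ y) := fun t =>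
    hfl.sm.continuous.comp (continuous_const.prodMk sψ.continuous)
  obtain ⟨S, hSK⟩ := exists_time hK (F := fun t x => G (fl t (ψ x))) (c := -γ)
    (fun t => hCR.sG.continuous.comp (cfl t))
    (fun x hx => by
      obtain ⟨t, -, ht⟩ := hesc _ (mem_image_of_mem _ hx) fun t _ =>
        hball _ (by linarith [hK0 x hx t])
      exact ⟨t, ht⟩)
    fun x hx t t' htt => by
      have := (hd (fl t (ψ x)) (by linarith [hK0 x hx t]) (t' - t)).2.2 (by linarith)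
      rwa [← hfl.add, sub_add_cancel] at this
  obtain ⟨⟨M, hMκ⟩, hA2⟩ := hS S
  have hA3 := (aut m _ _ _ hA).2 _ _ _ hA2
  have hsub : {y | ℓ (ψ y) ≤ Lm + 1} ⊆ tsupport b := fun y hy => by
    have := hsup (ψ y) (by linarith [show ℓ (ψ y) ≤ Lm + 1 from hy])
    rwa [li] at this
  obtain ⟨T', B'', f', Λ', Ξ', E', hRaw⟩ := trf m G ℓ u' u (fun y => ℓ (ψ y))
    (fun y => κ S (ψ y)) (fun y => fl S (ψ y)) γ Lm (η / 2) T B' _ M f Λ Ξ E _ U hP hA3
    (fun y => hMκ _) fu.sm su (fℓ.sm.comp sψ)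
    (cb.isCompact.of_isClosed_subset
      (isClosed_le (fℓ.sm.continuous.comp sψ.continuous) continuous_const) hsub)
    (hsub.trans tb)
    (fun y hy => by
      have h1 := (abs_le.1 (hd (fl S (ψ y)) (by linarith) (-S)).1).2
      rw [← hfl.add, neg_add_cancel, hfl.zero] at h1
      linarith)
    fun y hy => by
      have h1 := abs_le.1 (hd (ψ y) hy S).2.1
      have h2 := abs_le.1 (du (ψ y))
      simp only [li] at h2
      rw [abs_le]
      constructor <;> linarith [h1.1, h1.2, h2.1, h2.2]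
  rw [show 2 * (η / 2) = η by ring] at hRaw
  refine ⟨T', B'', _, {y | G (fl S (ψ y)) < -γ ∧ ℓ (fl S (ψ y)) < 1 / 4}, f', Λ', Ξ', E', ?_,
    fun x hx => ⟨hSK x hx, ?_⟩, hRaw⟩
  · exact (isOpen_lt (hCR.sG.continuous.comp (cfl S)) continuous_const).inter
      (isOpen_lt (fℓ.sm.continuous.comp (cfl S)) continuous_const)
  · linarith [hK0 x hx S]

end Pool.Agent.MP_6d695c_gt.T1

end MrgPart6

-- ======== part 7: formerly Pool.Agent.MP_6d695c_gt.t1.One
section MrgPart7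

/-! PROJECT T1, row ONE: the trap in a contact chart. -/

open scoped Manifold ContDiff Topology MeasureTheory
open Set Metric Filter Real

namespace Pool.Agent.MP_6d695c_gt.T1

open SW Theta

namespace OneAux

variable {X : Type} [NormedAddCommGroup X] [NormedSpace ℝ X] {m : ℕ} {S N : Set X}
  {P : X → ((ℝ × X) →L[ℝ] ℝ) →L[ℝ] ℝ × X} {g : Y m → X} {r : X → Y m} {τ : Y m → ℝ}
  {O : Set (Y m)}

theorem sm_kap (h : CCh S P g r τ O N) : ContDiff ℝ ∞ (kap r τ) :=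
  (contDiff_fst.add (h.sτ.comp (h.sr.comp contDiff_snd))).prodMk (h.sr.comp contDiff_snd)

theorem line (x : ℝ × X) : HasDerivAt (fun t : ℝ => (x.1 + t, x.2)) ((1, 0) : ℝ × X) 0 :=
  ((hasDerivAt_id (0 : ℝ)).const_add x.1).prodMk (hasDerivAt_const _ _)

theorem fderiv_one {F : Type} [NormedAddCommGroup F] [NormedSpace ℝ F] {A : ℝ × X → F}
    {x : ℝ × X} {v : F} (hA : DifferentiableAt ℝ A x)
    (hv : HasDerivAt (fun t : ℝ => A (x.1 + t, x.2)) v 0) : fderiv ℝ A x (1, 0) = v :=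
  (HasFDerivAt.comp_hasDerivAt_of_eq (0 : ℝ) hA.hasFDerivAt (line x) (by simp)).unique hv

theorem dkap_one (h : CCh S P g r τ O N) (x : ℝ × X) :
    fderiv ℝ (kap r τ) x (1, 0) = (1, 0) :=
  fderiv_one ((sm_kap h).differentiable (by simp) x)
    ((((hasDerivAt_id (0 : ℝ)).const_add x.1).add_const (τ (r x.2))).prodMk
      (hasDerivAt_const (0 : ℝ) (r x.2)))

theorem dkap (h : CCh S P g r τ O N) {f : ℝ × Y m → ℝ} (hf : ContDiff ℝ ∞ f) {x : ℝ × X}
    (hx : x ∈ cy S) (hN : x.2 ∈ N) :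
    fderiv ℝ (kap r τ) x (XS P (fun x => f (kap r τ x)) x) = XY f (kap r τ x) := by
  have h1 : fderiv ℝ (fun x => f (kap r τ x)) x =
      (fderiv ℝ f (kap r τ x)).comp (fderiv ℝ (kap r τ) x) :=
    fderiv_comp x (hf.differentiable (by simp) _) ((sm_kap h).differentiable (by simp) x)
  rw [XS, map_add, map_smul, dkap_one h, h1, h.rel x hx hN, smul_smul, ← exp_add]
  simp only [XS, kap, neg_add]

end OneAux

open OneAux in
theorem one1 (rel : RelStmt) (raw : RawStmt) (nrm : NrmStmt) : OneStmt := by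
  intro X _ _ _ m S Ω K N P g r τ O hS h hΩ hK hKS hKN hKΩ hμ u η hu hη
  have hp := h.par
  have sk := sm_kap h
  have hW : IsOpen (O ∩ g ⁻¹' Ω) := hp.sg.continuousOn.isOpen_inter_preimage hp.oO hΩ
  have hKY : IsCompact (r '' K) := hK.image h.sr.continuous
  have hKW : r '' K ⊆ O ∩ g ⁻¹' Ω := by
    rintro _ ⟨x, hx, rfl⟩
    have := hp.rm x (hKS hx) (hKN hx)
    exact ⟨this.1, by rw [mem_preimage, this.2]; exact hKΩ hx⟩
  obtain ⟨L, hL, hKL, hLW⟩ := exists_compact_between hKY hW hKW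
  obtain ⟨c, sc, cc, tc, c1, -⟩ := exists_cut hL hp.oO (hLW.trans inter_subset_left)
  have su : ContDiff ℝ ∞ fun y => c y • u (g y) :=
    contDiff_cut_smul hp.oO sc tc (hu.comp_contDiffOn hp.sg)
  obtain ⟨T, B, C₀, Om, f₀, Λ₀, Ξ₀, E₀, hOm, hKO, hR⟩ := raw m (r '' K) (interior L)
    (fun y => c y • u (g y)) η hKY isOpen_interior hKL hμ su cc.smul_right hη
  obtain ⟨H, D, hH, hn⟩ := nrm m (interior L) C₀ Om τ _ η T B f₀ Λ₀ Ξ₀ E₀ isOpen_interior h.sτ su hR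
  refine ⟨N ∩ r ⁻¹' Om, H, D, hp.oN.inter (hOm.preimage h.sr.continuous),
    fun x hx => ⟨hKN hx, hKO ⟨x, hx, rfl⟩⟩, hH, fun s => ?_⟩
  obtain ⟨f, Λ, Ξ, E, hN⟩ := hn s
  obtain ⟨C, ς, hC, hCU, sς, dς, ς0, ς1, out⟩ := hN.out
  have hCW : C ⊆ O ∩ g ⁻¹' Ω := hCU.trans (interior_subset.trans hLW)
  have hCO : C ⊆ O := hCW.trans inter_subset_left
  have hgC : IsCompact (g '' C) := hC.image_of_continuousOn (hp.sg.continuousOn.mono hCO)
  have hgN : g '' C ⊆ N := fun x hx => ((hp.mem_image hCO).1 hx).2.1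
  obtain ⟨b, sb, -, tb, b1, b01⟩ := exists_cut hgC hp.oN hgN
  have kt : ∀ x : ℝ × X, (kap r τ x).1 - τ (kap r τ x).2 = x.1 := fun x => by simp [kap]
  have sE := hN.slow.sE
  -- the transported functions
  have smh : ∀ F : ℝ × Y m → ℝ, ContDiff ℝ ∞ F →
      ContDiff ℝ ∞ fun x : ℝ × X => b x.2 * F (kap r τ x) := fun F hF =>
    (sb.comp contDiff_snd).mul (hF.comp sk)
  have hatA : ∀ x ∈ cy S, x.2 ∈ N → ∀ a : ℝ, (r x.2 ∉ C → a = 0) → b x.2 * a = a := by
    intro x hx hxN a ha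
    by_cases hc : r x.2 ∈ C
    · rw [(b1 _ ((hp.mem_image hCO).2 ⟨hx, hxN, hc⟩)).self_of_nhds, one_mul]
    · rw [ha hc, mul_zero]
  have hatB : ∀ x ∈ cy S, x.2 ∉ g '' C → ∀ a : ℝ, (r x.2 ∉ C → a = 0) → b x.2 * a = 0 := by
    intro x hx hxC a ha
    by_cases hxN : x.2 ∈ N
    · rw [ha fun hc => hxC ((hp.mem_image hCO).2 ⟨hx, hxN, hc⟩), mul_zero]
    · rw [image_eq_zero_of_notMem_tsupport fun h' => hxN (tb h'), zero_mul]
  have oΛ : ∀ x : ℝ × X, r x.2 ∉ C → Λ (kap r τ x) - x.1 - ς x.1 = 0 := fun x hx => by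
    have := (out (kap r τ x) hx).2.2.2
    rw [kt] at this
    rw [this]
    ring
  have sf := smh f hN.sf
  have sΛ : ContDiff ℝ ∞ fun x : ℝ × X =>
      x.1 + ς x.1 + b x.2 * (Λ (kap r τ x) - x.1 - ς x.1) :=
    (contDiff_fst.add (sς.comp contDiff_fst)).add ((sb.comp contDiff_snd).mul
      (((hN.sΛ.comp sk).sub contDiff_fst).sub (sς.comp contDiff_fst)))
  have nA : ∀ x : ℝ × X, x.2 ∈ N → ∀ᶠ x' in 𝓝[cy S] x, x' ∈ cy S ∧ x'.2 ∈ N := fun x hx =>
    eventually_mem_nhdsWithin.and (mem_nhdsWithin_of_mem_nhds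
      ((hp.oN.preimage continuous_snd).mem_nhds hx))
  have nB : ∀ x : ℝ × X, x.2 ∉ g '' C → ∀ᶠ x' in 𝓝[cy S] x, x' ∈ cy S ∧ x'.2 ∉ g '' C :=
    fun x hx => eventually_mem_nhdsWithin.and (mem_nhdsWithin_of_mem_nhds
      ((hgC.isClosed.isOpen_compl.preimage continuous_snd).mem_nhds hx))
  have fA : ∀ x ∈ cy S, x.2 ∈ N → fderiv ℝ (kap r τ) x
      (XS P (fun x => b x.2 * f (kap r τ x)) x) = XY f (kap r τ x) := fun x hx hxN => by
    rw [hS.XS_congr hx (sf.differentiable (by simp) x)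
      ((hN.sf.comp sk).differentiable (by simp) x)
      ((nA x hxN).mono fun x' hx' => hatA x' hx'.1 hx'.2 _ fun hc => (out _ hc).1)]
    exact dkap h hN.sf hx hxN
  have f0 : ∀ x : ℝ × X, x.2 ∉ g '' C → ∀ᶠ x' in 𝓝[cy S] x, b x'.2 * f (kap r τ x') = 0 :=
    fun x hx => (nB x hx).mono fun x' hx' => hatB x' hx'.1 hx'.2 _ fun hc => (out _ hc).1
  have fB : ∀ x ∈ cy S, x.2 ∉ g '' C →
      XS P (fun x => b x.2 * f (kap r τ x)) x = (1, 0) := fun x hx hxC =>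
    hS.XS_zero hx (sf.differentiable (by simp) x) (f0 x hxC)
  have dA : ∀ (Φ : ℝ × X → ℝ) (Φ' : ℝ × Y m → ℝ), ContDiff ℝ ∞ Φ → ContDiff ℝ ∞ Φ' →
      ∀ x ∈ cy S, x.2 ∈ N → (∀ᶠ x' in 𝓝[cy S] x, Φ x' = Φ' (kap r τ x')) →
      fderiv ℝ Φ x (XS P (fun x => b x.2 * f (kap r τ x)) x) =
        fderiv ℝ Φ' (kap r τ x) (XY f (kap r τ x)) := fun Φ Φ' h1 h2 x hx hxN he => by
    rw [fderiv_congr_tg (h1.differentiable (by simp) x) ((h2.comp sk).differentiable (by simp) x)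
      hx he (hS.tanX hx), fderiv_comp x (h2.differentiable (by simp) _)
      (sk.differentiable (by simp) x), ContinuousLinearMap.comp_apply, fA x hx hxN]
  have dB : ∀ (Φ Φ' : ℝ × X → ℝ), ContDiff ℝ ∞ Φ → ContDiff ℝ ∞ Φ' →
      ∀ x ∈ cy S, x.2 ∉ g '' C → (∀ᶠ x' in 𝓝[cy S] x, Φ x' = Φ' x') →
      fderiv ℝ Φ x (XS P (fun x => b x.2 * f (kap r τ x)) x) = fderiv ℝ Φ' x (1, 0) :=
    fun Φ Φ' h1 h2 x hx hxC he => by
      rw [fderiv_congr_tg (h1.differentiable (by simp) x) (h2.differentiable (by simp) x)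
        hx he (hS.tanX hx), fB x hx hxC]
  refine ⟨fun x => b x.2 * f (kap r τ x),
    fun x => x.1 + ς x.1 + b x.2 * (Λ (kap r τ x) - x.1 - ς x.1),
    fun x => b x.2 * Ξ (kap r τ x), fun x => b x.2 * E (kap r τ x),
    ⟨sf, sΛ, smh Ξ hN.sΞ, ⟨g '' C, hgC, ?_, fun x hx h3 => ?_⟩, fun x hx => ?_, fun x hx h1 => ?_,
      fun x hx h1 => ?_, fun x hx => ?_, fun x hx => ?_⟩,
    ⟨smh E sE, fun x hx => ?_, fun x hx => ?_⟩⟩
  · rintro _ ⟨y, hy, rfl⟩
    exact (hCW hy).2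
  · rcases h3 with h3 | h3 | h3
    · filter_upwards [mem_nhdsWithin_of_mem_nhds ((isOpen_lt continuous_fst
        continuous_const).mem_nhds (show x.1 < s - H + 1 by linarith))] with x' hx'
      rw [hN.far _ (Or.inl (by rw [kt]; exact le_of_lt hx')), mul_zero]
    · filter_upwards [mem_nhdsWithin_of_mem_nhds ((isOpen_lt continuous_const
        continuous_fst).mem_nhds (show s - 1 < x.1 by linarith))] with x' hx'
      rw [hN.far _ (Or.inr (by rw [kt]; exact le_of_lt hx')), mul_zero]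
    · exact f0 x h3
  · by_cases hxN : x.2 ∈ N
    · refine rel _ _ (cy S) univ univ (kap r τ) (fun y => (y.1 - τ y.2, g y.2)) _ (XY f) _ Λ x 0
        isOpen_univ trivial hx sk.contDiffOn ?_ sΛ hN.sΛ ?_ (hN.lyap _)
      · exact (differentiableAt_fst.sub ((h.sτ.differentiable (by simp) _).comp _
          differentiableAt_snd)).prodMk (DifferentiableAt.comp (g := g) (kap r τ x)
          (hp.dg (hp.rm _ hx hxN).1) differentiableAt_snd)
      · filter_upwards [nA x hxN] with x' hx'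
        refine ⟨trivial, Prod.ext (kt x') (hp.rm _ hx'.1 hx'.2).2, hS.tanX hx'.1,
          fA x' hx'.1 hx'.2, ?_⟩
        rw [hatA x' hx'.1 hx'.2 _ (oΛ x')]
        ring
    · have hxC : x.2 ∉ g '' C := fun hc => hxN (hgN hc)
      have s1 : ContDiff ℝ ∞ fun x : ℝ × X => x.1 + ς x.1 :=
        contDiff_fst.add (sς.comp contDiff_fst)
      refine Or.inl ?_
      rw [dB _ _ sΛ s1 x hx hxC ((nB x hxC).mono fun x' hx' => by
        rw [hatB x' hx'.1 hx'.2 _ (oΛ x'), add_zero])]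
      have h1 : HasDerivAt (fun t : ℝ => x.1 + t) 1 0 := (hasDerivAt_id (0 : ℝ)).const_add x.1
      have h2 := HasDerivAt.comp_of_eq (0 : ℝ)
        (sς.differentiable (by simp) x.1).hasDerivAt h1 (by simp)
      rw [fderiv_one (s1.differentiable (by simp) x) (h1.add h2)]
      linarith [dς x.1]
  · have := hN.low (kap r τ x) (by rw [kt]; exact h1)
    rw [kt] at this
    simp only [this.1, this.2, ς0 _ h1]
    constructor <;> ring
  · have := hN.high (kap r τ x) (by rw [kt]; exact h1)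
    rw [kt] at this
    refine ⟨by simp only [this.1, ς1 _ h1]; ring, fun hO => ?_⟩
    rw [hatA x hx hO.1 _ fun hc => (out _ hc).2.1]
    exact this.2 hO.2
  · exact ⟨mul_nonneg (b01 _).1 (hN.rng _).1, mul_le_one₀ (b01 _).2 (hN.rng _).1 (hN.rng _).2⟩
  · by_cases hxN : x.2 ∈ N
    · rw [dA _ Ξ (smh Ξ hN.sΞ) hN.sΞ x hx hxN
        ((nA x hxN).mono fun x' hx' => hatA x' hx'.1 hx'.2 _ fun hc => (out _ hc).2.1)]
      exact hN.mono _
    · have hxC : x.2 ∉ g '' C := fun hc => hxN (hgN hc)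
      rw [dB _ (fun _ => 0) (smh Ξ hN.sΞ) contDiff_const x hx hxC
        ((nB x hxC).mono fun x' hx' => hatB x' hx'.1 hx'.2 _ fun hc => (out _ hc).2.1)]
      simp
  · rw [abs_mul, abs_of_nonneg (b01 _).1]
    exact (mul_le_of_le_one_left (abs_nonneg _) (b01 _).2).trans (hN.slow.bd _ trivial)
  · have s1 : ContDiff ℝ ∞ fun x : ℝ × X => u x.2 + b x.2 * E (kap r τ x) :=
      (hu.comp contDiff_snd).add (smh E sE)
    by_cases hxU : x.2 ∈ N ∧ r x.2 ∈ interior L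
    · rw [dA _ (fun y => c y.2 • u (g y.2) + E y) s1 ((su.comp contDiff_snd).add sE) x hx hxU.1 ?_]
      · exact hN.slow.mono _ trivial
      · filter_upwards [nA x hxU.1, mem_nhdsWithin_of_mem_nhds ((isOpen_interior.preimage
          (h.sr.continuous.comp continuous_snd)).mem_nhds hxU.2)] with x' hx' hU
        rw [hatA x' hx'.1 hx'.2 _ fun hc => (out _ hc).2.2.1]
        change _ = c (r x'.2) • u (g (r x'.2)) + _
        rw [(c1 (r x'.2) (interior_subset hU)).self_of_nhds, one_smul, (hp.rm _ hx'.1 hx'.2).2]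
    · have hxC : x.2 ∉ g '' C := fun hc =>
        hxU ⟨hgN hc, hCU ((hp.mem_image hCO).1 hc).2.2⟩
      have s2 : ContDiff ℝ ∞ fun x : ℝ × X => u x.2 := hu.comp contDiff_snd
      rw [dB _ _ s1 s2 x hx hxC ((nB x hxC).mono fun x' hx' => by
        rw [hatB x' hx'.1 hx'.2 _ fun hc => (out _ hc).2.2.1, add_zero]),
        fderiv_one (s2.differentiable (by simp) x) (hasDerivAt_const (0 : ℝ) (u x.2))]

end Pool.Agent.MP_6d695c_gt.T1

end MrgPart7

-- ======== part 8: formerly Pool.Agent.MP_6d695c_gt.t1.Stack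
section MrgPart8

/-! PROJECT T1, row STACK: one more trap on top. -/

open scoped Manifold ContDiff Topology
open Set Metric Filter Real

namespace Pool.Agent.MP_6d695c_gt.T1

open SW

namespace Stack

variable {X : Type} [NormedAddCommGroup X] [NormedSpace ℝ X] {S Ω : Set X}
  {P : X → ((ℝ × X) →L[ℝ] ℝ) →L[ℝ] ℝ × X}

theorem dif {Y : Type} [NormedAddCommGroup Y] [NormedSpace ℝ Y] {f : Y → ℝ}
    (h : ContDiff ℝ ∞ f) (x : Y) : DifferentiableAt ℝ f x :=
  h.differentiable (by simp) x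

omit [NormedSpace ℝ X] in
theorem ev {U : Set (ℝ × X)} (hU : IsOpen U) {p : ℝ × X → Prop} (h : ∀ y ∈ cy S, y ∈ U → p y)
    {x : ℝ × X} (hx : x ∈ U) : ∀ᶠ y in 𝓝[cy S] x, p y :=
  (eventually_mem_nhdsWithin.and (mem_nhdsWithin_of_mem_nhds (hU.mem_nhds hx))).mono
    fun y hy => h y hy.1 hy.2

theorem XS_loc (h : Sy S P) {f g : ℝ × X → ℝ} (hf : ContDiff ℝ ∞ f) (hg : ContDiff ℝ ∞ g)
    {U : Set (ℝ × X)} (hU : IsOpen U) (he : ∀ y ∈ cy S, y ∈ U → f y = g y) :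
    ∀ y ∈ cy S, y ∈ U → XS P f y = XS P g y := fun y hy hyU =>
  h.XS_congr hy (dif hf y) (dif hg y) (ev hU he hyU)

theorem ly_loc (h : Sy S P) {f g Λ Λ₀ : ℝ × X → ℝ} {c : ℝ} (hf : ContDiff ℝ ∞ f)
    (hg : ContDiff ℝ ∞ g) (hΛ : ContDiff ℝ ∞ Λ) (hΛ₀ : ContDiff ℝ ∞ Λ₀) {U : Set (ℝ × X)}
    (hU : IsOpen U) (he : ∀ y ∈ cy S, y ∈ U → f y = g y)
    (hl : ∀ y ∈ cy S, y ∈ U → Λ y = Λ₀ y + c) {x : ℝ × X} (hx : x ∈ cy S) (hxU : x ∈ U)
    (h0 : Ly (cy S) (XS P g) Λ₀ x) : Ly (cy S) (XS P f) Λ x := by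
  refine Ly.congr (Ly.le h0 hx (ev hU (fun y hy hyU => ?_) hxU)) hx
    (ev hU (XS_loc h hf hg hU he) hxU)
  rw [fderiv_congr_tg (dif hΛ y) ((dif hΛ₀ y).add_const c) hy (ev hU hl hyU) (h.tanX hy),
    fderiv_add_const]

theorem empty (s : ℝ) : Trap S P Ω (s - 1) s 0 ∅ (fun _ => 0) Prod.fst fun _ => 0 where
  sf := contDiff_const
  sΛ := contDiff_fst
  sΞ := contDiff_const
  supp := ⟨∅, isCompact_empty, empty_subset _, fun _ _ _ => .of_forall fun _ => rfl⟩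
  lyap x _ := Or.inl (by
    rw [XS_of_zero (.of_forall fun _ => rfl), fderiv_fst]
    exact one_pos)
  low _ _ _ := ⟨rfl, rfl⟩
  high _ _ _ := ⟨(add_zero _).symm, fun h => h.elim⟩
  rng _ _ := ⟨le_rfl, zero_le_one⟩
  mono _ _ := by simp

/-- the derivative of the new monotone function -/
theorem der {Ξ₁ Ξ' F : ℝ × X → ℝ} {b₀ b₁ : ℝ → ℝ} (h₁ : ContDiff ℝ ∞ Ξ₁) (h' : ContDiff ℝ ∞ Ξ')
    (hF : ContDiff ℝ ∞ F) (hb₀ : ContDiff ℝ ∞ b₀) (hb₁ : ContDiff ℝ ∞ b₁) (x v : ℝ × X) :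
    fderiv ℝ (fun x => 1 - (1 - Ξ₁ x) * (b₁ x.1 * (1 - Ξ' x) + (1 - b₁ x.1) * b₀ (F x))) x v =
      fderiv ℝ Ξ₁ x v * (b₁ x.1 * (1 - Ξ' x) + (1 - b₁ x.1) * b₀ (F x)) +
        (1 - Ξ₁ x) * (deriv b₁ x.1 * v.1 * (b₀ (F x) - (1 - Ξ' x)) + b₁ x.1 * fderiv ℝ Ξ' x v -
          (1 - b₁ x.1) * (deriv b₀ (F x) * fderiv ℝ F x v)) := by
  have e₁ := (dif h₁ x).hasFDerivAt
  have e' := (dif h' x).hasFDerivAt
  have e₀ : HasFDerivAt (fun x => b₀ (F x)) (deriv b₀ (F x) • fderiv ℝ F x) x :=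
    (dif hb₀ _).hasDerivAt.comp_hasFDerivAt x (dif hF x).hasFDerivAt
  have e₂ : HasFDerivAt (fun x : ℝ × X => b₁ x.1)
      (deriv b₁ x.1 • ContinuousLinearMap.fst ℝ ℝ X) x :=
    (dif hb₁ _).hasDerivAt.comp_hasFDerivAt x hasFDerivAt_fst
  have e := ((e₁.const_sub 1).fun_mul
    ((e₂.fun_mul (e'.const_sub 1)).fun_add ((e₂.const_sub 1).fun_mul e₀))).const_sub 1
  rw [e.fderiv]
  simp only [neg_apply, add_apply, smul_apply, ContinuousLinearMap.coe_fst', smul_eq_mul]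
  ring

theorem step (h : Sy S P) {a b D' D₁ s : ℝ} {O' O₁ : Set X} {f' Λ' Ξ' f₁ Λ₁ Ξ₁ E : ℝ × X → ℝ}
    {u : X → ℝ} (hu : ContDiff ℝ ∞ u) (hO : ∀ y, y ∉ O' → u y = 0) (hab : a ≤ b)
    (hs : b + 1 ≤ s) (t' : Trap S P Ω a b D' O' f' Λ' Ξ')
    (t₁ : Trap S P Ω (b + 1) s D₁ O₁ f₁ Λ₁ Ξ₁) (hE : Slow S P u (1 / 4) f₁ E) :
    ∃ f Λ Ξ, Trap S P Ω a s (D' + D₁) ({y | 3 / 4 < u y} ∪ O₁) f Λ Ξ := by
  obtain ⟨b₀, s₀, l₀, r₀, m₀, d₀⟩ := exists_step (show (1 / 4 : ℝ) < 1 / 2 by norm_num)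
  obtain ⟨b₁, s₁, l₁, r₁, m₁, d₁⟩ := exists_step (show b + 1 / 3 < b + 2 / 3 by linarith)
  obtain ⟨C', c', o', z'⟩ := t'.supp
  obtain ⟨C₁, c₁, o₁, z₁⟩ := t₁.supp
  have sf : ContDiff ℝ ∞ fun x => f' x + f₁ x := t'.sf.add t₁.sf
  have sΛ : ContDiff ℝ ∞ fun x => Λ' x + Λ₁ x - x.1 := (t'.sΛ.add t₁.sΛ).sub contDiff_fst
  have sF : ContDiff ℝ ∞ fun x : ℝ × X => u x.2 + E x := (hu.comp contDiff_snd).add hE.sE
  have oU : IsOpen {x : ℝ × X | b < x.1} := isOpen_lt continuous_const continuous_fst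
  have oL : IsOpen {x : ℝ × X | x.1 < b + 1} := isOpen_lt continuous_fst continuous_const
  have fU : ∀ y ∈ cy S, y ∈ {x : ℝ × X | b < x.1} → f' y + f₁ y = f₁ y := fun y hy k => by
    rw [(z' y hy (Or.inr (Or.inl (le_of_lt k)))).self_of_nhdsWithin hy, zero_add]
  have fL : ∀ y ∈ cy S, y ∈ {x : ℝ × X | x.1 < b + 1} → f' y + f₁ y = f' y := fun y hy k => by
    rw [(z₁ y hy (Or.inl (le_of_lt k))).self_of_nhdsWithin hy, add_zero]
  have XU := XS_loc h sf t₁.sf oU fU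
  have XL := XS_loc h sf t'.sf oL fL
  have hM : ∀ x ∈ cy S,
      b₁ x.1 * (1 - Ξ' x) + (1 - b₁ x.1) * b₀ (u x.2 + E x) ∈ Icc (0 : ℝ) 1 := fun x hx => by
    obtain ⟨k₁, k₂⟩ := m₁ x.1
    obtain ⟨k₃, k₄⟩ := m₀ (u x.2 + E x)
    obtain ⟨k₅, k₆⟩ := t'.rng x hx
    constructor <;> nlinarith
  refine ⟨fun x => f' x + f₁ x, fun x => Λ' x + Λ₁ x - x.1,
    fun x => 1 - (1 - Ξ₁ x) * (b₁ x.1 * (1 - Ξ' x) + (1 - b₁ x.1) * b₀ (u x.2 + E x)),
    sf, sΛ, ?_, ⟨C' ∪ C₁, c'.union c₁, union_subset o' o₁, fun x hx k => ?_⟩, fun x hx => ?_,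
    fun x hx k => ?_, fun x hx k => ?_, fun x hx => ?_, fun x hx => ?_⟩
  · have k₁ : ContDiff ℝ ∞ fun x : ℝ × X => b₁ x.1 := s₁.comp contDiff_fst
    exact contDiff_const.sub ((contDiff_const.sub t₁.sΞ).mul
      ((k₁.mul (contDiff_const.sub t'.sΞ)).add ((contDiff_const.sub k₁).mul (s₀.comp sF))))
  · have k' : x.1 ≤ a ∨ b ≤ x.1 ∨ x.2 ∉ C' := by
      rcases k with k | k | k
      · exact Or.inl k
      · exact Or.inr (Or.inl (by linarith))
      · exact Or.inr (Or.inr fun j => k (Or.inl j))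
    have k₁ : x.1 ≤ b + 1 ∨ s ≤ x.1 ∨ x.2 ∉ C₁ := by
      rcases k with k | k | k
      · exact Or.inl (by linarith)
      · exact Or.inr (Or.inl k)
      · exact Or.inr (Or.inr fun j => k (Or.inr j))
    exact ((z' x hx k').and (z₁ x hx k₁)).mono fun y hy => by rw [hy.1, hy.2, add_zero]
  · by_cases k : b < x.1
    · refine ly_loc (c := D') h sf t₁.sf sΛ t₁.sΛ oU fU (fun y hy j => ?_) hx k (t₁.lyap x hx)
      rw [(t'.high y hy (le_of_lt j)).1]
      ring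
    · refine ly_loc (c := 0) h sf t'.sf sΛ t'.sΛ oL fL (fun y hy j => ?_) hx
        (show x.1 < b + 1 by linarith [not_lt.1 k]) (t'.lyap x hx)
      rw [(t₁.low y hy (le_of_lt j)).1]
      ring
  · have k₁ := t₁.low x hx (by linarith)
    have k' := t'.low x hx k
    rw [k₁.1, k₁.2, k'.1, k'.2, l₁ _ (by linarith)]
    constructor <;> ring
  · have k₁ := t₁.high x hx k
    have k' := t'.high x hx (by linarith)
    refine ⟨by rw [k₁.1, k'.1]; ring, fun j => ?_⟩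
    rcases j with j | j
    · have j' : 3 / 4 < u x.2 := j
      rw [r₁ _ (by linarith), r₀ _ (by linarith [(abs_le.1 (hE.bd x hx)).1])]
      ring
    · rw [k₁.2 j]
      ring
  · obtain ⟨k₁, k₂⟩ := hM x hx
    obtain ⟨k₃, k₄⟩ := t₁.rng x hx
    constructor <;> nlinarith
  · rw [der t₁.sΞ t'.sΞ sF s₀ s₁]
    have hT := h.tanX (f := fun x => f' x + f₁ x) hx
    have hU := XU x hx
    have hL := XL x hx
    generalize XS P (fun x => f' x + f₁ x) x = v at hT hU hL ⊢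
    have T₀ : fderiv ℝ Ξ₁ x v ≤ 0 := by
      by_cases k : b < x.1
      · rw [hU k]
        exact t₁.mono x hx
      · rw [fderiv_congr_tg (u' := fun _ => 0) (dif t₁.sΞ x) (differentiableAt_const 0) hx
          (ev oL (fun y hy j => (t₁.low y hy (le_of_lt j)).2)
            (show x.1 < b + 1 by linarith [not_lt.1 k])) hT]
        simp
    have T₁ : deriv b₁ x.1 * v.1 * (b₀ (u x.2 + E x) - (1 - Ξ' x)) ≤ 0 := by
      by_cases k : x.1 < b + 1 / 3
      · rw [Filter.EventuallyEq.deriv_eq (f := fun _ => 1)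
          ((Iio_mem_nhds k : _ ∈ 𝓝 x.1) |> mem_of_superset <| fun r j => l₁ r (le_of_lt j)),
          deriv_const, zero_mul, zero_mul]
      by_cases k' : b + 2 / 3 < x.1
      · rw [Filter.EventuallyEq.deriv_eq (f := fun _ => 0)
          ((Ioi_mem_nhds k' : _ ∈ 𝓝 x.1) |> mem_of_superset <| fun r j => r₁ r (le_of_lt j)),
          deriv_const, zero_mul, zero_mul]
      have j : b ≤ x.1 := by linarith [not_lt.1 k]
      rw [hL (show x.1 < b + 1 by linarith [not_lt.1 k']),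
        h.XS_zero hx (dif t'.sf x) (z' x hx (Or.inr (Or.inl j))), mul_one]
      refine mul_nonpos_of_nonpos_of_nonneg (d₁ _) ?_
      by_cases i : x.2 ∈ O'
      · rw [(t'.high x hx j).2 i]
        linarith [(m₀ (u x.2 + E x)).1]
      · rw [l₀ _ (by rw [hO _ i]; linarith [(abs_le.1 (hE.bd x hx)).2])]
        linarith [(t'.rng x hx).1]
    have T₂ : b₁ x.1 * fderiv ℝ Ξ' x v ≤ 0 := by
      by_cases k : x.1 < b + 1
      · rw [hL k]
        exact mul_nonpos_of_nonneg_of_nonpos (m₁ _).1 (t'.mono x hx)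
      · rw [r₁ _ (by linarith [not_lt.1 k]), zero_mul]
    have T₃ : 0 ≤ (1 - b₁ x.1) * (deriv b₀ (u x.2 + E x) *
        fderiv ℝ (fun x : ℝ × X => u x.2 + E x) x v) := by
      by_cases k : b < x.1
      · rw [hU k]
        exact mul_nonneg (sub_nonneg.2 (m₁ _).2)
          (mul_nonneg_of_nonpos_of_nonpos (d₀ _) (hE.mono x hx))
      · rw [l₁ _ (by linarith [not_lt.1 k]), sub_self, zero_mul]
    exact add_nonpos (mul_nonpos_of_nonpos_of_nonneg T₀ (hM x hx).1)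
      (mul_nonpos_of_nonneg_of_nonpos (sub_nonneg.2 (t₁.rng x hx).2) (by linarith))

end Stack

theorem stack : StackStmt := by
  intro X _ _ _ S Ω P h
  refine ⟨⟨∅, 1, 0, isOpen_empty, subset_rfl, one_pos, fun s => ⟨_, _, _, Stack.empty s⟩⟩, ?_⟩
  rintro K K' hK ⟨O', H', D', o', k', p', t'⟩ hF
  obtain ⟨u, su, -, ts, u1, -⟩ := exists_cut hK o' k'
  obtain ⟨O₁, H₁, D₁, o₁, k₁, p₁, t₁⟩ := hF u (1 / 4) su (by norm_num)
  refine ⟨{y | 3 / 4 < u y} ∪ O₁, H₁ + 1 + H', D' + D₁,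
    (isOpen_lt continuous_const su.continuous).union o₁,
    union_subset_union (fun y hy => ?_) k₁, by linarith, fun s => ?_⟩
  · show 3 / 4 < u y
    rw [(u1 y hy).self_of_nhds]
    norm_num
  · obtain ⟨f', Λ', Ξ', a'⟩ := t' (s - H₁ - 1)
    obtain ⟨f₁, Λ₁, Ξ₁, E, a₁, hE⟩ := t₁ s
    rw [show s - (H₁ + 1 + H') = s - H₁ - 1 - H' by ring]
    rw [← sub_add_cancel (s - H₁) 1] at a₁
    exact Stack.step h su (fun y hy => image_eq_zero_of_notMem_tsupport fun j => hy (ts j))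
      (by linarith) (by linarith) a' a₁ hE

end Pool.Agent.MP_6d695c_gt.T1

end MrgPart8

-- ======== part 9: formerly Pool.Agent.MP_6d695c_gt.t1.Top
section MrgPart9

/-! PROJECT T1, row TOP: the stack of traps for the skeleton. -/

open scoped ContDiff Topology MeasureTheory
open Set Metric Filter

namespace Pool.Agent.MP_6d695c_gt.T1

open SW Theta

theorem top (symp : SympStmt) (chart : ChartStmt) (one1 : OneStmt) (stack : StackStmt) :
    TopStmt := by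
  intro V _ _ _ _ _ n M K l Pi φ s hA hK hKM hμ
  have hSy := (symp V (Euc (2 * n)) M l Pi (smp_of_amb hA)).1
  have hΩ : IsOpen {σ : V × ℝ | φ σ.1 + σ.2 ^ 2 < 1} :=
    isOpen_lt ((hA.sφ.continuous.comp continuous_fst).add (continuous_snd.pow 2)) continuous_const
  obtain ⟨h0, hst⟩ := stack (V × ℝ) (ov M ℝ) {σ | φ σ.1 + σ.2 ^ 2 < 1} (PS l Pi) hSy
  have hι : ContDiff ℝ ∞ fun x : V => (x, (0 : ℝ)) := contDiff_id.prodMk contDiff_const
  have key : ∀ K₀ : Set (V × ℝ), IsCompact K₀ →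
      Traps (ov M ℝ) (PS l Pi) {σ | φ σ.1 + σ.2 ^ 2 < 1} K₀ →
      ∃ K₁, IsCompact K₁ ∧ K₀ ⊆ K₁ ∧ (fun x => (x, (0 : ℝ))) '' K ⊆ K₁ ∧
        Traps (ov M ℝ) (PS l Pi) {σ | φ σ.1 + σ.2 ^ 2 < 1} K₁ := by
    refine hK.induction_on (p := fun t => ∀ K₀ : Set (V × ℝ), IsCompact K₀ →
      Traps (ov M ℝ) (PS l Pi) {σ | φ σ.1 + σ.2 ^ 2 < 1} K₀ →
      ∃ K₁, IsCompact K₁ ∧ K₀ ⊆ K₁ ∧ (fun x => (x, (0 : ℝ))) '' t ⊆ K₁ ∧
        Traps (ov M ℝ) (PS l Pi) {σ | φ σ.1 + σ.2 ^ 2 < 1} K₁) ?_ ?_ ?_ ?_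
    · exact fun K₀ h1 h2 => ⟨K₀, h1, Subset.rfl, by simp, h2⟩
    · intro t t' htt h K₀ h1 h2
      obtain ⟨K₁, a, b, c, d⟩ := h K₀ h1 h2
      exact ⟨K₁, a, b, (image_mono htt).trans c, d⟩
    · intro t t' h h' K₀ h1 h2
      obtain ⟨K₁, a, b, c, d⟩ := h K₀ h1 h2
      obtain ⟨K₂, a', b', c', d'⟩ := h' K₁ a d
      exact ⟨K₂, a', b.trans b', by rw [image_union]; exact union_subset (c.trans b') c', d'⟩
    · intro x hx
      obtain ⟨g, r, τ, O, N, hC, hN⟩ := chart V n M l Pi φ s hA x (hKM x hx).1 (hKM x hx).2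
      obtain ⟨L, t, ht, hL⟩ :=
        ((hC.sr.comp hι).contDiffAt (x := x)).of_le (m := 1) (by simp) |>.exists_lipschitzOnWith
      obtain ⟨ρ, hρ, hb⟩ := nhds_basis_closedBall.mem_iff.1
        (inter_mem ht (hι.continuous.continuousAt.preimage_mem_nhds (hC.par.oN.mem_nhds hN)))
      refine ⟨K ∩ closedBall x ρ, inter_mem_nhdsWithin _ (closedBall_mem_nhds x hρ),
        fun K₀ h1 h2 => ?_⟩
      have hc : IsCompact ((fun x => (x, (0 : ℝ))) '' (K ∩ closedBall x ρ)) :=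
        (hK.inter_right isClosed_closedBall).image hι.continuous
      refine ⟨_, h1.union hc, subset_union_left, subset_union_right, hst K₀ _ h1 h2
        (one1 (V × ℝ) n _ _ _ N _ g r τ O hSy hC hΩ hc ?_ ?_ ?_ ?_)⟩
      · rintro _ ⟨y, hy, rfl⟩
        exact (hKM y hy.1).1
      · rintro _ ⟨y, hy, rfl⟩
        exact (hb hy.2).2
      · rintro _ ⟨y, hy, rfl⟩
        simpa using (hKM y hy.1).2
      · rw [← image_comp]
        refine nonpos_iff_eq_zero.1 (((hL.mono fun y hy => (hb hy.2).1).hausdorffMeasure_image_le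
          (by positivity)).trans ?_)
        rw [MeasureTheory.measure_mono_null inter_subset_left hμ, mul_zero]
  obtain ⟨K₁, -, -, h1, O, H, D, h2, h3, h4⟩ := key ∅ isCompact_empty h0
  exact ⟨O, H, D, h2, h1.trans h3, h4⟩

end Pool.Agent.MP_6d695c_gt.T1

end MrgPart9

-- ======== part 10: formerly Pool.Agent.MP_6d695c_gt.t1.Abs
section MrgPart10

/-! PROJECT T1, row ABS: monotonicity of `φ` along the cut-off flow, and absorption. -/

open scoped Manifold ContDiff Topology MeasureTheory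
open Set Metric Filter Real

namespace Pool.Agent.MP_6d695c_gt.T1

open SW Theta

namespace Abs

variable {V E : Type} [NormedAddCommGroup V] [NormedSpace ℝ V] [NormedAddCommGroup E]
  [NormedSpace ℝ E] {M : Set V} {l : V → V →L[ℝ] ℝ} {Pi : V → (V →L[ℝ] ℝ) →L[ℝ] V} {φ : V → ℝ}
  {Z : V → V} {fl : ℝ → V → V}

theorem cont_fl (h : IsFlow Z fl) (t : ℝ) : Continuous (fl t) :=
  h.sm.continuous.comp (continuous_const.prodMk continuous_id)

theorem cont_t (h : IsFlow Z fl) (x : V) : Continuous fun t => fl t x :=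
  h.sm.continuous.comp (continuous_id.prodMk continuous_const)

theorem rd (hφ : ContDiff ℝ ∞ φ) (hC : Cut M l Pi φ Z fl) {x : V} (hx : x ∈ M) (h5 : φ x ≤ 5)
    (t : ℝ) (h4 : φ (fl t x) ≤ 4) {p : ℝ → Prop}
    (hp : p (fderiv ℝ φ (fl t x) (Pi (fl t x) (l (fl t x))))) :
    RD (fun r => φ (fl r x)) t p := by
  refine ⟨_, ?_, hp⟩
  rw [← hC.eq _ (hC.inv t x hx h5).1 h4]
  exact (((hφ.differentiable (by simp)) (fl t x)).hasFDerivAt.comp_hasDerivAt t
    (hC.flow.der x t)).hasDerivWithinAt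

theorem mono (hA : Amb E M l Pi φ (1 / 8)) (h0 : ∀ x ∈ M, 0 ≤ fderiv ℝ φ x (Pi x (l x)))
    (hC : Cut M l Pi φ Z fl) {x : V} (hx : x ∈ M) (h5 : φ x ≤ 5) {s t : ℝ} (hst : s ≤ t)
    (h4 : φ (fl t x) < 4) : φ (fl s x) ≤ φ (fl t x) := by
  have hc : Continuous fun r => φ (fl r x) := hA.sφ.continuous.comp (cont_t hC.flow x)
  have h1 := fence_back (f := fun r => φ (fl r x)) (a := s) (b := t) (v := 4) hc.continuousOn
    (fun r _ hr => rd hA.sφ hC hx h5 r hr.le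
      (hA.shell _ (hC.inv r x hx h5).1 (by linarith))) h4
  have h2 := speed_ge (f := fun r => φ (fl r x)) (m := 0) hst hc.continuousOn
    fun r hr => rd hA.sφ hC hx h5 r (h1 r ⟨hr.1, hr.2.le⟩).le (h0 _ (hC.inv r x hx h5).1)
  linarith

end Abs

open Abs in
theorem absS : AbsStmt := by
  intro V E _ _ _ _ _ M K₀ l Pi φ Z fl hA h0 hC hK
  refine ⟨fun x hx h5 s t hst h4 => mono hA h0 hC hx h5 hst h4, ?_⟩
  have hφ : Continuous φ := hA.sφ.continuous
  have hcl : ∀ t c : ℝ, IsClosed {x | φ (fl t x) ≤ c} := fun t c =>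
    isClosed_le (hφ.comp (cont_fl hC.flow t)) continuous_const
  have hQ : IsCompact {x ∈ M | φ x ≤ 3} := hA.cpt 3 (by norm_num)
  set K : Set V := {x ∈ M | φ x ≤ 3} ∩ ⋂ t ∈ Ici (0 : ℝ), {x | φ (fl t x) ≤ 3} with hKdef
  have hKm : ∀ x, x ∈ K ↔ (x ∈ M ∧ φ x ≤ 3) ∧ ∀ t, 0 ≤ t → φ (fl t x) ≤ 3 := fun x => by
    simp [hKdef]
  refine ⟨K, hQ.inter_right (isClosed_biInter fun t _ => hcl t 3), ?_, ?_, ?_⟩
  · intro x hx
    obtain ⟨⟨hM, h3⟩, ht⟩ := (hKm x).1 hx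
    have := hK (fun t => fl t x) fun t h => by
      have hm := (hC.inv t x hM (by linarith)).1
      refine ⟨hm, ht t h, ?_⟩
      rw [← hC.eq _ hm (by linarith [ht t h])]
      exact hC.flow.der x t
    rwa [hC.flow.zero] at this
  · intro x hx
    obtain ⟨⟨hM, h3⟩, ht⟩ := (hKm x).1 hx
    refine ⟨hM, ?_⟩
    by_contra h1
    rw [not_lt] at h1
    have hu : Continuous fun y => fderiv ℝ φ y (Pi y (l y)) :=
      (hA.sφ.continuous_fderiv (by simp)).clm_apply hA.smZ.continuous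
    obtain ⟨m, hm, hle⟩ := exists_pos_le (hQ.inter_right (isClosed_le continuous_const hφ :
      IsClosed {y | (1 : ℝ) ≤ φ y})) hu.continuousOn
      fun y hy => hA.shell y hy.1.1 (le_trans (by norm_num) hy.2)
    have h5 : φ x ≤ 5 := by linarith
    have hT : 0 ≤ 3 / m := by positivity
    have h2 := speed_ge (f := fun r => φ (fl r x)) (m := m) hT
      (hφ.comp (cont_t hC.flow x)).continuousOn fun r hr =>
        rd hA.sφ hC hM h5 r (by linarith [ht r hr.1]) (hle _ ⟨⟨(hC.inv r x hM h5).1, ht r hr.1⟩, by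
          have := mono hA h0 hC hM h5 hr.1 (by linarith [ht r hr.1])
          rw [hC.flow.zero] at this
          exact h1.trans this⟩)
    have h4 : m * (3 / m - 0) = 3 := by field_simp; ring
    rw [h4, hC.flow.zero] at h2
    linarith [ht _ hT]
  · intro O hO hKO
    set A : ℕ → Set (V × ℝ) := fun n => (({x ∈ M | φ x ≤ 3} ×ˢ Icc (-2 : ℝ) 2) ∩
      {σ | φ (fl n σ.1) ≤ 2 ∧ |σ.2| ≤ 2 * exp (-(n : ℝ))}) ∩ Oᶜ with hAdef
    have hAc : ∀ n, IsCompact (A n) := fun n =>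
      ((hQ.prod isCompact_Icc).inter_right (((hcl n 2).preimage continuous_fst).inter
        (isClosed_le (continuous_abs.comp continuous_snd) continuous_const))).inter_right
        hO.isClosed_compl
    have hex : ∃ n, ¬(A n).Nonempty := by
      by_contra hne
      push Not at hne
      obtain ⟨σ, hσ⟩ := IsCompact.nonempty_iInter_of_sequence_nonempty_isCompact_isClosed A
        (fun n σ hσ => by
          obtain ⟨⟨h1, h2, h3⟩, h4⟩ := hσ
          refine ⟨⟨h1, ?_, h3.trans ?_⟩, h4⟩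
          · refine (mono hA h0 hC h1.1.1 (by linarith [h1.1.2]) ?_ (by linarith)).trans h2
            push_cast
            linarith
          · push_cast
            gcongr
            linarith) hne (hAc 0) fun n => (hAc n).isClosed
      rw [mem_iInter] at hσ
      have h1 := (hσ 0).1.1.1
      have hz : σ.2 = 0 := by
        have ht : Tendsto (fun n : ℕ => 2 * exp (-(n : ℝ))) atTop (𝓝 (2 * 0)) :=
          (tendsto_exp_neg_atTop_nhds_zero.comp tendsto_natCast_atTop_atTop).const_mul 2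
        rw [mul_zero] at ht
        exact abs_nonpos_iff.1 (ge_of_tendsto' ht fun n => (hσ n).1.2.2)
      refine (hσ 0).2 (hKO ⟨σ.1, (hKm _).2 ⟨h1, fun t _ => ?_⟩, Prod.ext rfl hz.symm⟩)
      obtain ⟨n, hn⟩ := exists_nat_ge t
      have h2 := (hσ n).1.2.1
      exact (mono hA h0 hC h1.1 (by linarith [h1.2]) hn (by linarith)).trans (by linarith)
    obtain ⟨n, hn⟩ := hex
    refine ⟨n, Nat.cast_nonneg n, ?_⟩
    rintro ⟨x, θ, p⟩ hq hψ hθ
    have hx : x ∈ M := hq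
    have hψ' : φ x + p ^ 2 ≤ 2 := hψ
    have hθ' : (n : ℝ) ≤ θ := hθ
    have hn0 : (0 : ℝ) ≤ n := Nat.cast_nonneg n
    have hx0 := hA.nn x hx
    have hx2 : φ x ≤ 2 := by nlinarith [sq_nonneg p]
    have hp : |p| ≤ 2 := by rw [abs_le]; constructor <;> nlinarith
    obtain ⟨hy, hy5⟩ := hC.inv (-θ) x hx (by linarith)
    have hb : fl θ (fl (-θ) x) = x := by rw [← hC.flow.add, add_neg_cancel, hC.flow.zero]
    have hm : ∀ s ≤ θ, φ (fl s (fl (-θ) x)) ≤ 2 := fun s hs => by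
      have := mono hA h0 hC hy hy5 hs (by rw [hb]; linarith)
      rw [hb] at this
      linarith
    have he : |exp (-θ) * p| ≤ 2 * exp (-(n : ℝ)) := by
      rw [abs_mul, abs_of_pos (exp_pos _), mul_comm]
      gcongr
    by_contra hO'
    refine hn ⟨(fl (-θ) x, exp (-θ) * p), ⟨⟨⟨hy, ?_⟩, ?_⟩, hm n hθ', he⟩, hO'⟩
    · have := hm 0 (by linarith)
      rw [hC.flow.zero] at this
      exact this.trans (by norm_num)
    · have h1 : exp (-(n : ℝ)) ≤ 1 := exp_le_one_iff.2 (by linarith)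
      exact abs_le.1 (he.trans (by linarith))

end Pool.Agent.MP_6d695c_gt.T1

end MrgPart10

-- ======== part 11: formerly Pool.Agent.MP_6d695c_gt.t1.Circ
section MrgPart11

/-! PROJECT T1, row CIRC: from the cover to the circle. -/

open scoped Manifold ContDiff Topology MeasureTheory
open Set Metric Filter Real

namespace Pool.Agent.MP_6d695c_gt.T1

open SW Theta

noncomputable section

namespace Circ

variable {V : Type} [NormedAddCommGroup V] [NormedSpace ℝ V]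

/-- local inverse of the covering map -/
def kk (c t : ℝ) (w : ℂ) (q : V × ℂ × ℝ) : V × ℝ × ℝ :=
  (q.1, t + (Complex.log (w * q.2.1)).im / c, c * q.2.2)

/-- the covering map -/
def bb (c t : ℝ) (w : ℂ) (q : V × ℝ × ℝ) : V × ℂ × ℝ :=
  (q.1, w⁻¹ * Complex.exp (((c * (q.2.1 - t) : ℝ) : ℂ) * Complex.I), q.2.2 / c)

theorem kk_smooth (c t : ℝ) (w : ℂ) {q : V × ℂ × ℝ} (h : w * q.2.1 ∈ Complex.slitPlane) :
    ContDiffAt ℝ ∞ (kk c t w) q := by
  have h1 : ContDiffAt ℝ ∞ Complex.log (w * q.2.1) :=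
    (Complex.contDiffAt_log (n := ∞) h).restrict_scalars ℝ
  have h2 : ContDiffAt ℝ ∞ (fun q : V × ℂ × ℝ => Complex.log (w * q.2.1)) q :=
    h1.comp q (f := fun q : V × ℂ × ℝ => w * q.2.1) (by fun_prop)
  have h3 : ContDiffAt ℝ ∞ (fun q : V × ℂ × ℝ => (Complex.log (w * q.2.1)).im) q :=
    Complex.imCLM.contDiff.contDiffAt.comp q h2
  unfold kk
  exact contDiffAt_fst.prodMk ((contDiffAt_const.add (h3.div_const c)).prodMk (by fun_prop))

theorem bb_diff (c t : ℝ) (w : ℂ) (q : V × ℝ × ℝ) : DifferentiableAt ℝ (bb c t w) q := by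
  have h1 : DifferentiableAt ℝ (fun q : V × ℝ × ℝ => ((c * (q.2.1 - t) : ℝ) : ℂ)) q :=
    Complex.ofRealCLM.differentiableAt.comp q (f := fun q : V × ℝ × ℝ => c * (q.2.1 - t))
      (by fun_prop)
  unfold bb
  exact differentiableAt_fst.prodMk
    ((((h1.mul_const _).cexp).const_mul _).prodMk (by fun_prop))

omit [NormedAddCommGroup V] [NormedSpace ℝ V] in
theorem bb_kk {c : ℝ} (hc : c ≠ 0) (t : ℝ) {w : ℂ} (hw : ‖w‖ = 1) {q : V × ℂ × ℝ}
    (hq : ‖q.2.1‖ = 1) : bb c t w (kk c t w q) = q := by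
  have hw0 : w ≠ 0 := fun h => by simp [h] at hw
  have h1 : c * (t + (Complex.log (w * q.2.1)).im / c - t) = Complex.arg (w * q.2.1) := by
    rw [Complex.log_im]
    field_simp
    ring
  have h2 := Complex.norm_mul_exp_arg_mul_I (w * q.2.1)
  rw [norm_mul, hw, hq] at h2
  refine Prod.ext rfl (Prod.ext ?_ ?_)
  · simp only [bb, kk, h1]
    rw [show Complex.exp (Complex.arg (w * q.2.1) * Complex.I) = w * q.2.1 by simpa using h2]
    field_simp
  · simp only [bb, kk]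
    field_simp

theorem kk_der (c t : ℝ) {w : ℂ} {q : V × ℂ × ℝ} (h : w * q.2.1 ∈ Complex.slitPlane)
    (u : V) (s r : ℝ) :
    fderiv ℝ (kk c t w) q (u, s • (Complex.I * q.2.1), r) = (u, s / c, c * r) := by
  have h0 : w * q.2.1 ≠ 0 := Complex.slitPlane_ne_zero h
  set v : V × ℂ × ℝ := (u, s • (Complex.I * q.2.1), r) with hv
  have hl : HasDerivAt (fun τ : ℝ => q + τ • v) v 0 := by
    simpa using ((hasDerivAt_id (0 : ℝ)).smul_const v).const_add q
  have hd : HasFDerivAt (kk c t w) (fderiv ℝ (kk c t w) q) (q + (0 : ℝ) • v) := by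
    rw [zero_smul, add_zero]
    exact ((kk_smooth c t w h).differentiableAt (by simp)).hasFDerivAt
  have h1 := hd.comp_hasDerivAt (0 : ℝ) hl
  have h2 : HasDerivAt (fun τ : ℝ => w * (q.2.1 + τ • (s • (Complex.I * q.2.1))))
      (w * (s • (Complex.I * q.2.1))) 0 := by
    simpa using (((hasDerivAt_id (0 : ℝ)).smul_const (s • (Complex.I * q.2.1))).const_add
      q.2.1).const_mul w
  have h3 := h2.clog_real (by simpa using h)
  have h4 := Complex.imCLM.hasFDerivAt.comp_hasDerivAt (0 : ℝ) h3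
  have h5 : Complex.imCLM (w * (s • (Complex.I * q.2.1)) /
      (w * (q.2.1 + (0 : ℝ) • (s • (Complex.I * q.2.1))))) = s := by
    have : w * (s • (Complex.I * q.2.1)) / (w * (q.2.1 + (0 : ℝ) • (s • (Complex.I * q.2.1)))) =
        s * Complex.I := by
      rw [zero_smul, add_zero, div_eq_iff h0, Complex.real_smul]
      ring
    rw [this]
    simp
  rw [h5] at h4
  have h6 : HasDerivAt (fun τ : ℝ => q.1 + τ • u) u 0 := by
    simpa using ((hasDerivAt_id (0 : ℝ)).smul_const u).const_add q.1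
  have h7 : HasDerivAt (fun τ : ℝ => c * (q.2.2 + τ • r)) (c * r) 0 := by
    simpa using (((hasDerivAt_id (0 : ℝ)).smul_const r).const_add q.2.2).const_mul c
  exact h1.unique (h6.prodMk (((h4.div_const c).const_add t).prodMk h7))

variable [FiniteDimensional ℝ V]

theorem kk_PC {c : ℝ} (hc : c ≠ 0) (t : ℝ) {w : ℂ} {q : V × ℂ × ℝ}
    (h : w * q.2.1 ∈ Complex.slitPlane) (Pi : V → (V →L[ℝ] ℝ) →L[ℝ] V)
    (β : (V × ℝ × ℝ) →L[ℝ] ℝ) :
    fderiv ℝ (kk c t w) q (PC Pi q (β.comp (fderiv ℝ (kk c t w) q))) =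
      PH Pi (kk c t w q) β := by
  have h1 : ∀ u : V, fderiv ℝ (kk c t w) q (u, 0, 0) = (u, 0, 0) := fun u => by
    simpa using kk_der c t h u 0 0
  have h2 : fderiv ℝ (kk c t w) q (0, 0, 1) = c • ((0, 0, 1) : V × ℝ × ℝ) := by
    simpa using kk_der c t h 0 0 1
  have h3 : fderiv ℝ (kk c t w) q (0, Complex.I * q.2.1, 0) = c⁻¹ • ((0, 1, 0) : V × ℝ × ℝ) := by
    simpa using kk_der c t h 0 1 0
  have h4 : (β.comp (fderiv ℝ (kk c t w) q)).comp (ContinuousLinearMap.inl ℝ V (ℂ × ℝ)) =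
      β.comp (ContinuousLinearMap.inl ℝ V (ℝ × ℝ)) :=
    ContinuousLinearMap.ext fun u => congrArg β (h1 u)
  rw [PC_apply, kk_der c t h, PH_apply, h4, ContinuousLinearMap.comp_apply,
    ContinuousLinearMap.comp_apply, h2, h3, map_smul, map_smul, smul_eq_mul, smul_eq_mul]
  refine Prod.ext rfl (Prod.ext ?_ ?_)
  · simp only
    field_simp
  · simp only
    field_simp

theorem kk_lC (c t : ℝ) {w : ℂ} {q : V × ℂ × ℝ} (h : w * q.2.1 ∈ Complex.slitPlane)
    (hq : ‖q.2.1‖ = 1) (l : V → V →L[ℝ] ℝ) (Pi : V → (V →L[ℝ] ℝ) →L[ℝ] V) :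
    fderiv ℝ (kk c t w) q (PC Pi q (lC l q)) = (Pi q.1 (l q.1), 0, c * q.2.2) := by
  have h1 : (lC l q).comp (ContinuousLinearMap.inl ℝ V (ℂ × ℝ)) = l q.1 :=
    ContinuousLinearMap.ext fun u => by simp [lC]
  have h2 : lC l q (0, 0, 1) = 0 := by simp [lC]
  have h3 : lC l q (0, Complex.I * q.2.1, 0) = q.2.2 := by
    have : (starRingEnd ℂ q.2.1 * (Complex.I * q.2.1)).im = 1 := by
      rw [mul_left_comm, Complex.conj_mul', hq]
      simp
    simp only [lC, add_apply, ContinuousLinearMap.comp_apply,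
      smul_apply, ContinuousLinearMap.coe_fst', ContinuousLinearMap.coe_snd',
      ContinuousLinearMap.mul_apply', Complex.imCLM_apply, this, map_zero, smul_eq_mul]
    ring
  rw [PC_apply, kk_der c t h, h1, h2, h3]
  simp

theorem loc (rel : RelStmt) {E : Type} [NormedAddCommGroup E] [NormedSpace ℝ E] {M : Set V}
    {l : V → V →L[ℝ] ℝ} {Pi : V → (V →L[ℝ] ℝ) →L[ℝ] V} {φ : V → ℝ} {c t : ℝ} {w : ℂ}
    {G Φ : V × ℝ × ℝ → ℝ} {G' Φ' : V × ℂ × ℝ → ℝ} (hc : c ≠ 0) (hw : ‖w‖ = 1)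
    (hS : Smp E (MC M φ c) (lC l) (PC Pi)) (hG : ContDiff ℝ ∞ G) (hΦ : ContDiff ℝ ∞ Φ)
    (hG' : ContDiff ℝ ∞ G') (hΦ' : ContDiff ℝ ∞ Φ') {q : V × ℂ × ℝ} (hq : q ∈ MC M φ c)
    (h : w * q.2.1 ∈ Complex.slitPlane)
    (e1 : ∀ᶠ x in 𝓝[MC M φ c] q, G' x = G (kk c t w x))
    (e2 : ∀ᶠ x in 𝓝[MC M φ c] q, Φ' x = Φ (kk c t w x))
    (hL : Ly (ov M (ℝ × ℝ)) (XH l Pi 0 G) Φ (kk c t w q)) :
    Ly (MC M φ c) (fun x => PC Pi x (lC l x + fderiv ℝ G' x)) Φ' q := by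
  have hN : IsOpen {q : V × ℂ × ℝ | w * q.2.1 ∈ Complex.slitPlane} :=
    Complex.isOpen_slitPlane.preimage (by fun_prop)
  refine rel _ _ _ _ _ (kk c t w) (bb c t w) _ _ _ _ q 0 hN h hq
    (fun x hx => (kk_smooth c t w hx).contDiffWithinAt) (bb_diff c t w _) hΦ' hΦ ?_ hL
  filter_upwards [self_mem_nhdsWithin, mem_nhdsWithin_of_mem_nhds (hN.mem_nhds h),
    eventually_eventually_nhdsWithin.2 e1, e2] with x hx hxN h1 h2
  refine ⟨hx.1, bb_kk hc t hw hx.2.1, hS.tan x hx _, ?_, by rw [h2, add_zero]⟩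
  have hk := (kk_smooth c t w hxN).differentiableAt (by simp)
  have hg := (hG.differentiable (by simp)) (kk c t w x)
  have h3 : PC Pi x (fderiv ℝ G' x) =
      PC Pi x ((fderiv ℝ G (kk c t w x)).comp (fderiv ℝ (kk c t w) x)) := by
    rw [← fderiv_comp x hg hk]
    exact hS.congr hx fun v hv =>
      fderiv_congr_tg ((hG'.differentiable (by simp)) x) (hg.comp x hk) hx h1 hv
  rw [map_add, map_add, h3, kk_PC hc t hxN, kk_lC c t hxN hx.2.1]
  rfl

omit [FiniteDimensional ℝ V] in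
theorem cut_smooth {b : ℂ → ℝ} (hb : ContDiff ℝ ∞ b) (c t : ℝ) (w : ℂ)
    (hs : ∀ z ∈ tsupport b, w * z ∈ Complex.slitPlane) {F : V × ℝ × ℝ → ℝ}
    (hF : ContDiff ℝ ∞ F) : ContDiff ℝ ∞ fun q : V × ℂ × ℝ => b q.2.1 * F (kk c t w q) := by
  have hN : IsOpen {q : V × ℂ × ℝ | w * q.2.1 ∈ Complex.slitPlane} :=
    Complex.isOpen_slitPlane.preimage (by fun_prop)
  refine contDiff_cut_smul (b := fun q : V × ℂ × ℝ => b q.2.1) hN (hb.comp (by fun_prop)) ?_
    fun x hx => (hF.contDiffAt.comp x (kk_smooth c t w hx)).contDiffWithinAt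
  have : tsupport (fun q : V × ℂ × ℝ => b q.2.1) ⊆ (fun q : V × ℂ × ℝ => q.2.1) ⁻¹' tsupport b :=
    closure_minimal (fun x hx => subset_closure hx) ((isClosed_tsupport b).preimage (by fun_prop))
  exact fun x hx => hs _ (this hx)

theorem cuts {c : ℝ} (hc : 0 < c) : ∃ s b : ℂ → ℝ, ContDiff ℝ ∞ s ∧ ContDiff ℝ ∞ b ∧
    (∀ z ∈ tsupport s, -1 * z ∈ Complex.slitPlane ∧ |Complex.arg (-1 * z)| < c) ∧
    (∀ z ∈ tsupport b, 1 * z ∈ Complex.slitPlane) ∧ (∀ᶠ z in 𝓝 (-1 : ℂ), s z = 1) ∧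
    ∀ z, ‖z‖ = 1 → s z = 1 ∨ b z = 1 := by
  have hN : IsOpen {z : ℂ | -1 * z ∈ Complex.slitPlane ∧ |Complex.arg (-1 * z)| < c} := by
    refine isOpen_iff_mem_nhds.2 fun z hz => ?_
    have h1 : ContinuousAt (fun z : ℂ => |Complex.arg (-1 * z)|) z :=
      ((Complex.continuousAt_arg hz.1).comp (f := fun z : ℂ => -1 * z) (by fun_prop)).abs
    have h2 : ∀ᶠ y in 𝓝 z, -1 * y ∈ Complex.slitPlane :=
      (Complex.isOpen_slitPlane.preimage (by fun_prop)).mem_nhds hz.1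
    exact h2.and (h1.eventually (gt_mem_nhds hz.2))
  obtain ⟨s, s1, -, s2, s3, -⟩ := exists_cut (K := {(-1 : ℂ)}) isCompact_singleton hN
    (by simpa using hc)
  have s4 := s3 _ rfl
  have hK : IsCompact (sphere (0 : ℂ) 1 \ interior {z | s z = 1}) :=
    (isCompact_sphere 0 1).diff isOpen_interior
  obtain ⟨b, b1, -, b2, b3, -⟩ := exists_cut hK Complex.isOpen_slitPlane (fun z hz => by
    by_contra hn
    have h1 : z = -1 := by
      have h2 : ‖z‖ = 1 := by simpa using hz.1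
      rw [Complex.mem_slitPlane_iff, not_or, not_not, not_lt] at hn
      have h3 : z = (z.re : ℂ) := Complex.ext rfl (by simpa using hn.2)
      rw [h3, Complex.norm_real, Real.norm_eq_abs, abs_of_nonpos hn.1] at h2
      rw [h3, show z.re = -1 by linarith]
      simp
    exact hz.2 (h1 ▸ mem_interior_iff_mem_nhds.2 s4))
  refine ⟨s, b, s1, b1, fun z hz => s2 hz, fun z hz => by simpa using b2 hz, s4, fun z hz => ?_⟩
  by_cases h : z ∈ interior {z | s z = 1}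
  · exact Or.inl (interior_subset (s := {z | s z = 1}) h)
  · exact Or.inr (b3 z ⟨by simpa using hz, h⟩).self_of_nhds

omit [NormedAddCommGroup V] [NormedSpace ℝ V] [FiniteDimensional ℝ V] in
theorem overlap {M : Set V} {a L : ℝ} (hL : 0 < L) {F : V × ℝ × ℝ → ℝ}
    (per : ∀ x ∈ M, ∀ θ p, |θ - a| ≤ 1 → F (x, θ + L, p) = F (x, θ, p)) {q : V × ℂ × ℝ}
    (hq : q.1 ∈ M) (h1 : 1 * q.2.1 ∈ Complex.slitPlane) (h2 : -1 * q.2.1 ∈ Complex.slitPlane)
    (h3 : |Complex.arg (-1 * q.2.1)| < 2 * π / L) :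
    F (kk (2 * π / L) a (-1) q) = F (kk (2 * π / L) (a + L / 2) 1 q) := by
  have hp := pi_pos
  have hc : 0 < 2 * π / L := by positivity
  have him : q.2.1.im ≠ 0 := by
    intro h
    rw [Complex.mem_slitPlane_iff] at h1 h2
    simp [h] at h1 h2
    linarith
  simp only [kk, Complex.log_im]
  rcases lt_or_gt_of_ne him with h | h
  · have e := Complex.arg_neg_eq_arg_add_pi_of_im_neg h
    rw [neg_one_mul, one_mul, e]
    congr 3
    field_simp
    ring
  · have e := Complex.arg_neg_eq_arg_sub_pi_of_im_pos h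
    rw [← per _ hq _ _ (by
      rw [add_sub_cancel_left, abs_div, abs_of_pos hc, div_le_one hc]
      exact h3.le), neg_one_mul, one_mul, e]
    congr 3
    field_simp
    ring

end Circ

open Circ in
theorem circ (rel : RelStmt) : CircStmt := by
  intro V E _ _ _ _ _ M l Pi φ a L A B G Φ _ hφ h hS
  have hL : 0 < L := by linarith [h.L4]
  have hp := pi_pos
  have hc : 0 < 2 * π / L := by positivity
  obtain ⟨s, b, s1, b1, s2, b2, s3, sb⟩ := cuts hc
  set c := 2 * π / L with hcd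
  let T : (V × ℝ × ℝ → ℝ) → V × ℂ × ℝ → ℝ := fun F q =>
    s q.2.1 * F (kk c a (-1) q) + (1 - s q.2.1) * (b q.2.1 * F (kk c (a + L / 2) 1 q))
  have hT : ∀ F, ContDiff ℝ ∞ F → ContDiff ℝ ∞ (T F) := fun F hF =>
    (cut_smooth s1 c a (-1) (fun z hz => (s2 z hz).1) hF).add
      ((contDiff_const.sub (s1.comp (by fun_prop))).mul (cut_smooth b1 c _ 1 b2 hF))
  have key : ∀ q ∈ MC M φ c, ∃ (t : ℝ) (w : ℂ), ‖w‖ = 1 ∧ w * q.2.1 ∈ Complex.slitPlane ∧
      |(kk c t w q).2.1 - (a + L / 2)| ≤ L ∧ ∀ F : V × ℝ × ℝ → ℝ,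
        (∀ x ∈ M, ∀ θ p, |θ - a| ≤ 1 → F (x, θ + L, p) = F (x, θ, p)) →
        ∀ᶠ x in 𝓝[MC M φ c] q, T F x = F (kk c t w x) := by
    intro q hq
    have harg : ∀ z : ℂ, |(Complex.log z).im / c| ≤ L / 2 := fun z => by
      rw [Complex.log_im, abs_div, abs_of_pos hc, div_le_iff₀ hc, hcd]
      refine (Complex.abs_arg_le_pi z).trans (le_of_eq ?_)
      field_simp
    by_cases h1 : 1 * q.2.1 ∈ Complex.slitPlane
    · refine ⟨a + L / 2, 1, by simp, h1, ?_, fun F per => ?_⟩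
      · simp only [kk, add_sub_cancel_left]
        linarith [harg (1 * q.2.1)]
      have hN : IsOpen {q : V × ℂ × ℝ | 1 * q.2.1 ∈ Complex.slitPlane} :=
        Complex.isOpen_slitPlane.preimage (by fun_prop)
      filter_upwards [self_mem_nhdsWithin, mem_nhdsWithin_of_mem_nhds (hN.mem_nhds h1)]
        with x hx hxN
      have e1 : s x.2.1 * F (kk c a (-1) x) = s x.2.1 * F (kk c (a + L / 2) 1 x) := by
        by_cases h0 : s x.2.1 = 0
        · rw [h0, zero_mul, zero_mul]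
        · have h2 := s2 _ (subset_tsupport s h0)
          rw [overlap hL per hx.1 hxN h2.1 h2.2]
      simp only [T, e1]
      rcases sb _ hx.2.1 with h2 | h2
      · rw [h2]
        ring
      · rw [h2]
        ring
    · have h2 : q.2.1 = -1 := by
        have h2 := hq.2.1
        rw [one_mul, Complex.mem_slitPlane_iff, not_or, not_not, not_lt] at h1
        have h3 : q.2.1 = (q.2.1.re : ℂ) := Complex.ext rfl (by simpa using h1.2)
        rw [h3, Complex.norm_real, Real.norm_eq_abs, abs_of_nonpos h1.1] at h2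
        rw [h3, show q.2.1.re = -1 by linarith]
        simp
      refine ⟨a, -1, by simp, by simp [h2], ?_, fun F _ => ?_⟩
      · have := abs_le.1 (harg (-1 * q.2.1))
        simp only [kk]
        rw [abs_le]
        constructor <;> linarith
      have h3 : ∀ᶠ x : V × ℂ × ℝ in 𝓝 q, s x.2.1 = 1 :=
        (show ContinuousAt (fun x : V × ℂ × ℝ => x.2.1) q by fun_prop).eventually
          (p := fun z => s z = 1) (by simp only [h2]; exact s3)
      filter_upwards [mem_nhdsWithin_of_mem_nhds h3] with x hx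
      simp only [T, hx]
      ring
  have pG := fun x hx θ p hθ => (h.per x hx θ p hθ).1
  have pΦ := fun x hx θ p hθ => (h.per x hx θ p hθ).2
  refine ⟨T G, T Φ, h.Apos, hT G h.sG, hT Φ h.sΦ, fun q hq h2 => ?_, fun q hq h2 => ?_,
    fun q hq h2 => ?_⟩
  · obtain ⟨t, w, -, k1, -, k3⟩ := key q hq
    have h3 : Tendsto (kk c t w) (𝓝[MC M φ c] q) (𝓝[ov M (ℝ × ℝ)] (kk c t w q)) :=
      tendsto_nhdsWithin_iff.2 ⟨(kk_smooth c t w k1).continuousAt.tendsto.mono_left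
        nhdsWithin_le_nhds, eventually_nhdsWithin_of_forall fun x hx => hx.1⟩
    filter_upwards [k3 G pG, h3.eventually (h.far (kk c t w q) hq.1 h2)] with x h4 h5
    exact h4.trans h5
  · obtain ⟨t, w, -, -, -, k3⟩ := key q hq
    exact ((k3 Φ pΦ).self_of_nhdsWithin hq).trans (h.lin (kk c t w q) hq.1 h2)
  · obtain ⟨t, w, k0, k1, k2, k3⟩ := key q hq
    exact loc rel hc.ne' k0 hS h.sG h.sΦ (hT G h.sG) (hT Φ h.sΦ) hq k1 (k3 G pG) (k3 Φ pΦ)
      (h.lyap (kk c t w q) hq.1 k2 h2)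

end

end Pool.Agent.MP_6d695c_gt.T1

end MrgPart11

-- ======== part 12: formerly Pool.Agent.MP_6d695c_gt.t1.EmbC
section MrgPart12

/-! PROJECT T1, row EMBC: the embedding of the product with the cotangent bundle of the circle. -/

open scoped Manifold ContDiff Topology
open Set Filter

namespace Pool.Agent.MP_6d695c_gt.T1

open SW

namespace EmbC

variable {d : ℕ} {W V : Type} [TopologicalSpace W] [ChartedSpace (Euc d) W]
  [NormedAddCommGroup V] [NormedSpace ℝ V]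

theorem coe_smooth : ContMDiff (𝓡 1) 𝓘(ℝ, ℂ) ∞ (fun w : Circle => (w : ℂ)) :=
  haveI := finrank_real_complex_fact'
  contMDiff_coe_sphere (E := ℂ) (n := 1)

/-- the differential of the inclusion of the circle -/
noncomputable def Dc (z : Circle) : Euc 1 →L[ℝ] ℂ :=
  mfderiv (𝓡 1) 𝓘(ℝ, ℂ) (fun w : Circle => (w : ℂ)) z

theorem Dc_inj (z : Circle) : Function.Injective (Dc z) :=
  haveI := finrank_real_complex_fact'
  mfderiv_coe_sphere_injective (E := ℂ) (n := 1) z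

theorem Dc_range (z : Circle) (w : ℂ) :
    (∃ u, Dc z u = w) ↔ ∃ a : ℝ, w = a • (Complex.I * (z : ℂ)) := by
  have := finrank_real_complex_fact'
  have h : (Dc z).range = (ℝ ∙ (z : ℂ))ᗮ := range_mfderiv_coe_sphere (E := ℂ) (n := 1) z
  have h1 : (∃ u, Dc z u = w) ↔ w ∈ (Dc z).range := Iff.rfl
  have hz : (z : ℂ).re ^ 2 + (z : ℂ).im ^ 2 = 1 := by
    rw [← sq_norm_eq, Circle.norm_coe, one_pow]
  rw [h1, h, Submodule.mem_orthogonal_singleton_iff_inner_right, Complex.inner]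
  constructor
  · intro h2
    simp only [Complex.mul_re, Complex.conj_re, Complex.conj_im] at h2
    refine ⟨(z : ℂ).re * w.im - (z : ℂ).im * w.re, Complex.ext ?_ ?_⟩
    · simp only [Complex.real_smul, Complex.mul_re, Complex.mul_im, Complex.ofReal_re,
        Complex.ofReal_im, Complex.I_re, Complex.I_im]
      linear_combination (-w.re) * hz + (z : ℂ).re * h2
    · simp only [Complex.real_smul, Complex.mul_re, Complex.mul_im, Complex.ofReal_re,
        Complex.ofReal_im, Complex.I_re, Complex.I_im]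
      linear_combination (-w.im) * hz + (z : ℂ).im * h2
  · rintro ⟨a, rfl⟩
    simp only [Complex.real_smul, Complex.mul_re, Complex.mul_im, Complex.ofReal_re,
      Complex.ofReal_im, Complex.I_re, Complex.I_im, Complex.conj_re, Complex.conj_im]
    ring

theorem eC_smooth {e : W → V} (he : ContMDiff (𝓡 d) 𝓘(ℝ, V) ∞ e) :
    ContMDiff (IC d) 𝓘(ℝ, V × ℂ × ℝ) ∞ (eC e) :=
  (he.comp contMDiff_fst).prodMk_space
    ((coe_smooth.comp (contMDiff_fst.comp contMDiff_snd)).prodMk_space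
      (contMDiff_snd.comp contMDiff_snd))

theorem eC_der {e : W → V} (he : ContMDiff (𝓡 d) 𝓘(ℝ, V) ∞ e) (p : W × (Circle × ℝ))
    (v : Euc d × (Euc 1 × ℝ)) :
    mfderiv (IC d) 𝓘(ℝ, V × ℂ × ℝ) (eC e) p v =
      (mfderiv (𝓡 d) 𝓘(ℝ, V) e p.1 v.1, Dc p.2.1 v.2.1, v.2.2) := by
  have h0 := ((eC_smooth he).mdifferentiableAt (x := p) (by simp)).hasMFDerivAt
  have hs := hasMFDerivAt_snd (I := 𝓡 d) (I' := (𝓡 1).prod 𝓘(ℝ, ℝ)) p
  have h1 := (he.mdifferentiableAt (x := p.1) (by simp)).hasMFDerivAt.comp p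
    (hasMFDerivAt_fst (I := 𝓡 d) (I' := (𝓡 1).prod 𝓘(ℝ, ℝ)) p)
  have h2 := (coe_smooth.mdifferentiableAt (x := p.2.1) (by simp)).hasMFDerivAt.comp p
    ((hasMFDerivAt_fst (I := 𝓡 1) (I' := 𝓘(ℝ, ℝ)) p.2).comp p hs)
  have h3 := (hasMFDerivAt_snd (I := 𝓡 1) (I' := 𝓘(ℝ, ℝ)) p.2).comp p hs
  have k1 := (ContinuousLinearMap.fst ℝ V (ℂ × ℝ)).hasFDerivAt.hasMFDerivAt.comp p h0
  have k2 := ((ContinuousLinearMap.fst ℝ ℂ ℝ).comp
    (ContinuousLinearMap.snd ℝ V (ℂ × ℝ))).hasFDerivAt.hasMFDerivAt.comp p h0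
  have k3 := ((ContinuousLinearMap.snd ℝ ℂ ℝ).comp
    (ContinuousLinearMap.snd ℝ V (ℂ × ℝ))).hasFDerivAt.hasMFDerivAt.comp p h0
  have j1 := k1.mfderiv.symm.trans h1.mfderiv
  have j2 := k2.mfderiv.symm.trans h2.mfderiv
  have j3 := k3.mfderiv.symm.trans h3.mfderiv
  exact Prod.ext (congrArg (fun L => L v) j1)
    (Prod.ext (congrArg (fun L => L v) j2) (congrArg (fun L => L v) j3))

theorem psC_smooth {u : V → ℝ} (hu : ContDiff ℝ ∞ u) (c : ℝ) : ContDiff ℝ ∞ (psC u c) :=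
  (hu.comp contDiff_fst).add ((contDiff_const.mul (contDiff_snd.comp contDiff_snd)).pow 2)

theorem psW_smooth {φ : W → ℝ} (h : ContMDiff (𝓡 d) 𝓘(ℝ, ℝ) ∞ φ) (c : ℝ) :
    ContMDiff (IC d) 𝓘(ℝ, ℝ) ∞ (psW φ c) :=
  (psC_smooth (V := ℝ) (u := id) contDiff_id c).contMDiff.comp (eC_smooth h)

theorem psW_der {φ : W → ℝ} (h : ContMDiff (𝓡 d) 𝓘(ℝ, ℝ) ∞ φ) (c : ℝ) (p : W × (Circle × ℝ))
    (v : Euc d × (Euc 1 × ℝ)) :
    der (IC d) (psW φ c) p v = der (𝓡 d) φ p.1 v.1 + 2 * (c * p.2.2) * (c * v.2.2) := by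
  have h0 := ((eC_smooth h).mdifferentiableAt (x := p) (by simp)).hasMFDerivAt
  have h1 := (hasFDerivAt_fst (𝕜 := ℝ) (p := eC φ p)).add
    ((((hasFDerivAt_snd (𝕜 := ℝ) (p := (eC φ p).2)).comp (eC φ p)
      (hasFDerivAt_snd (𝕜 := ℝ) (p := eC φ p))).const_mul c).pow 2)
  have h2 := congrArg (fun L => L v) (h1.hasMFDerivAt.comp p h0).mfderiv
  refine h2.trans ?_
  have h3 := eC_der h p v
  refine (congrArg (ContinuousLinearMap.fst ℝ ℝ (ℂ × ℝ) +
    (2 • (c * p.2.2) ^ (2 - 1)) • c • (ContinuousLinearMap.snd ℝ ℂ ℝ).comp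
      (ContinuousLinearMap.snd ℝ ℝ (ℂ × ℝ))) h3).trans ?_
  simp [der]

theorem psW_cpt {φ : W → ℝ} (h : Exhausting (𝓡 d) φ) (nn : ∀ x, 0 ≤ φ x) {c : ℝ} (hc : 0 < c)
    (a : ℝ) : IsCompact {p | psW φ c p ≤ a} := by
  refine ((h.2 a).prod ((isCompact_univ (X := Circle)).prod
    (isCompact_Icc (a := -((1 + a) / c)) (b := (1 + a) / c)))).of_isClosed_subset
    (isClosed_le (psW_smooth h.1 c).continuous continuous_const) fun p hp => ?_
  have h1 := nn p.1
  have h2 : φ p.1 + (c * p.2.2) ^ 2 ≤ a := hp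
  refine ⟨show φ p.1 ≤ a by nlinarith [sq_nonneg (c * p.2.2)], mem_univ _, ?_, ?_⟩
  · rw [neg_le, le_div_iff₀ hc]
    nlinarith [sq_nonneg (c * p.2.2 + 1)]
  · rw [le_div_iff₀ hc]
    nlinarith [sq_nonneg (c * p.2.2 - 1)]

theorem circ_inv (z₀ : Circle) : ∃ ρ : ℂ → Circle, ContMDiffAt 𝓘(ℝ, ℂ) (𝓡 1) ∞ ρ z₀ ∧
    ∀ z : Circle, ρ z = z := by
  refine ⟨fun z => Circle.exp (Complex.arg z₀ + (Complex.log (z / z₀)).im), ?_, fun z => ?_⟩
  · refine ContMDiffAt.comp (z₀ : ℂ) (g := Circle.exp)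
      (f := fun z : ℂ => Complex.arg z₀ + (Complex.log (z / z₀)).im)
      contMDiff_circleExp.contMDiffAt (contMDiffAt_iff_contDiffAt.2 (contDiffAt_const.add ?_))
    have h1 : ContDiffAt ℝ ∞ Complex.log ((z₀ : ℂ) / z₀) := by
      rw [div_self z₀.coe_ne_zero]
      exact (Complex.contDiffAt_log Complex.one_mem_slitPlane).restrict_scalars ℝ
    exact Complex.imCLM.contDiff.contDiffAt.comp _
      (ContDiffAt.comp (z₀ : ℂ) (f := fun z : ℂ => z / z₀) h1 (contDiffAt_id.div_const _))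
  · show Circle.exp (Complex.arg z₀ + (Complex.log (z / z₀)).im) = z
    rw [Complex.log_im, ← Circle.coe_div, Circle.exp_add, Circle.exp_arg, Circle.exp_arg,
      mul_div_cancel]

end EmbC

open EmbC in
theorem embC (smpC : SmpCStmt) : EmbCStmt := by
  intro d W V _ _ _ _ _ _ l Z φ e l' Pi φ' c hE hc
  have h6 : ∀ x : W × (Circle × ℝ), psW φ c x < 6 → φ x.1 < 6 := fun x hx => by
    have h : φ x.1 + (c * x.2.2) ^ 2 < 6 := hx
    nlinarith [sq_nonneg (c * x.2.2)]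
  have hfn : ∀ x : W × (Circle × ℝ), φ x.1 < 6 → psC φ' c (eC e x) = psW φ c x := fun x hx => by
    simp only [psC, psW, eC, hE.fn _ hx]
  have img : eC e '' {x | psW φ c x < 6} = MC (e '' {x | φ x < 6}) φ' c := by
    ext q
    constructor
    · rintro ⟨x, hx, rfl⟩
      exact ⟨⟨x.1, h6 x hx, rfl⟩, Circle.norm_coe _, (hfn x (h6 x hx)).trans_lt hx⟩
    · rintro ⟨⟨x, hx, h1⟩, h2, h3⟩
      have h4 : eC e (x, ⟨q.2.1, mem_sphere_zero_iff_norm.2 h2⟩, q.2.2) = q :=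
        Prod.ext h1 rfl
      exact ⟨_, (hfn (x, _) hx).symm.trans_lt (by rwa [h4]), h4⟩
  obtain ⟨hS, hT⟩ := smpC V (Euc d) _ l' Pi φ' c (smp_of_amb hE.amb) hE.amb.sφ.continuous
  refine ⟨img, ⟨psW_smooth hE.ex.1 c, psW_cpt hE.ex hE.nn hc⟩, fun x hx => ?_, eC_smooth hE.sm,
    by rwa [img], psC_smooth hE.amb.sφ c, fun x hx => hfn x (h6 x hx), fun x hx v => ?_,
    fun x hx => ?_, fun x hx u v h => ?_, fun x hx => ?_⟩
  · refine lt_of_lt_of_eq ?_ (psW_der hE.ex.1 c x (ZC Z x)).symm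
    show 0 < der (𝓡 d) φ x.1 (Z x.1) + 2 * (c * x.2.2) * (c * x.2.2)
    have h1 : 2 ≤ φ x.1 + (c * x.2.2) ^ 2 := hx
    have h2 := hE.nd x.1
    by_cases h : 1 ≤ φ x.1
    · nlinarith [hE.shell x.1 (by linarith), sq_nonneg (c * x.2.2)]
    · nlinarith [not_le.1 h]
  · refine Eq.trans ?_ (congrArg (lC l' (eC e x)) (eC_der hE.sm x v)).symm
    exact congrArg (· + x.2.2 * dTheta x.2.1 v.2.1) (hE.form x.1 (h6 x hx) v.1)
  · have hm : eC e x ∈ MC (e '' {x | φ x < 6}) φ' c := img ▸ ⟨x, hx, rfl⟩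
    have ht : Tg (e '' {x | φ x < 6}) (eC e x).1 = range (mfderiv (𝓡 d) 𝓘(ℝ, V) e x.1) :=
      hE.tg x.1 (h6 x hx)
    rw [img]
    ext v
    rw [hT _ hm v, ht]
    constructor
    · rintro ⟨⟨u, hu⟩, h⟩
      obtain ⟨w, hw⟩ := (Dc_range x.2.1 v.2.1).2 h
      exact ⟨(show Euc d × (Euc 1 × ℝ) from (u, w, v.2.2)),
        (eC_der hE.sm x _).trans (Prod.ext hu (Prod.ext hw rfl))⟩
    · rintro ⟨u, hu⟩
      have h := (eC_der hE.sm x u).symm.trans hu
      exact ⟨⟨_, congrArg Prod.fst h⟩,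
        (Dc_range x.2.1 v.2.1).1 ⟨_, congrArg (fun q => q.2.1) h⟩⟩
  · have h1 := (eC_der hE.sm x u).symm.trans (h.trans (eC_der hE.sm x v))
    exact Prod.ext (hE.inj x.1 (h6 x hx) (congrArg Prod.fst h1))
      (Prod.ext (Dc_inj x.2.1 (congrArg (fun q => q.2.1) h1)) (congrArg (fun q => q.2.2) h1))
  · obtain ⟨ρ, h1, h2⟩ := hE.inv x.1 (h6 x hx)
    obtain ⟨σ, h3, h4⟩ := circ_inv x.2.1
    refine ⟨fun v => (ρ v.1, σ v.2.1, v.2.2), ?_, ?_⟩
    · exact (ContMDiffAt.comp (eC e x) h1 contDiff_fst.contMDiff.contMDiffAt).prodMk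
        ((ContMDiffAt.comp (eC e x) (f := fun v : V × ℂ × ℝ => v.2.1) h3
          (contDiff_fst.comp contDiff_snd).contMDiff.contMDiffAt).prodMk
          (contDiff_snd.comp contDiff_snd).contMDiff.contMDiffAt)
    · filter_upwards [(continuous_fst.tendsto (eC e x)).eventually h2] with v hv x' hx' h
      subst h
      exact Prod.ext (hv x'.1 (h6 x' hx') rfl) (Prod.ext (h4 x'.2.1) rfl)

end Pool.Agent.MP_6d695c_gt.T1

end MrgPart12

-- ======== part 13: formerly Pool.Agent.MP_6d695c_gt.t1.Skel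
section MrgPart13

/-! PROJECT T1, rows SKEL and STRAT. -/

open scoped Manifold ContDiff Topology MeasureTheory NNReal ENNReal
open Set Metric Filter Real MeasureTheory

namespace Pool.Agent.MP_6d695c_gt.T1

open SW Theta

namespace Skel

/-- a map that is smooth at a point sends null sets near the point to null sets -/
theorem loc_null {X Y : Type} [NormedAddCommGroup X] [NormedSpace ℝ X] [MeasurableSpace X]
    [BorelSpace X] [NormedAddCommGroup Y] [NormedSpace ℝ Y] [MeasurableSpace Y] [BorelSpace Y]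
    {g : X → Y} {x : X} (hg : ContDiffAt ℝ ∞ g x) {s : ℝ} (hs : 0 ≤ s) :
    ∃ t ∈ 𝓝 x, ∀ A : Set X, μH[s] A = 0 → μH[s] (g '' (A ∩ t)) = 0 := by
  obtain ⟨K, t, ht, hK⟩ := (hg.of_le (m := 1) (by simp)).exists_lipschitzOnWith
  refine ⟨t, ht, fun A hA => le_antisymm ?_ zero_le⟩
  refine ((hK.mono inter_subset_right).hausdorffMeasure_image_le hs).trans ?_
  rw [measure_mono_null inter_subset_left hA, mul_zero]

/-- a coordinate plane of dimension `k ≤ n` is null -/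
theorem plane_null (d k n : ℕ) (h : k ≤ n) :
    μH[(n : ℝ) + 1] {z : Euc d | ∀ i : Fin d, k ≤ (i : ℕ) → z i = 0} = 0 := by
  let L : (Fin k → ℝ) → Euc d := fun u =>
    WithLp.toLp 2 fun i : Fin d => if h : (i : ℕ) < k then u ⟨i, h⟩ else 0
  have hL : ContDiff ℝ 1 L := by
    refine contDiff_euclidean.2 fun i => ?_
    by_cases hi : (i : ℕ) < k
    · simp only [L, dif_pos hi]
      exact contDiff_apply _ _ _
    · simp only [L, dif_neg hi]
      exact contDiff_const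
  have h1 : dimH (range L) ≤ k := by
    simpa using hL.dimH_range_le
  have h2 : dimH (range L) < ((n + 1 : ℝ≥0) : ℝ≥0∞) := by
    refine h1.trans_lt ?_
    exact_mod_cast Nat.lt_succ_of_le h
  have h3 := hausdorffMeasure_of_dimH_lt h2
  refine measure_mono_null (fun z hz => ?_) (by simpa using h3)
  refine ⟨fun j => if hj : (j : ℕ) < d then z ⟨j, hj⟩ else 0, ?_⟩
  ext i
  by_cases hi : (i : ℕ) < k
  · simp [L, hi]
  · simp [L, hi, hz i (not_lt.1 hi)]

end Skel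

theorem strat : StratStmt := by
  intro d n W _ _ _ K ⟨N, S, k, hK, _, hS⟩ p
  rw [hK, iUnion_inter, image_iUnion]
  refine measure_iUnion_null fun i => measure_null_of_locally_null _ ?_
  rintro _ ⟨x, ⟨hx, hp⟩, rfl⟩
  obtain ⟨e, he, hxe, hS'⟩ := (hS i).2 x hx
  have h1 : ContMDiffAt (𝓡 d) (𝓡 d) ∞ (extChartAt (𝓡 d) p) (e.symm (e x)) := by
    rw [e.left_inv hxe]
    exact contMDiffAt_extChartAt' (by rwa [extChartAt_source] at hp)
  have h2 : ContDiffAt ℝ ∞ (extChartAt (𝓡 d) p ∘ e.symm) (e x) :=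
    (h1.comp _ (contMDiffAt_symm_of_mem_maximalAtlas he (e.map_source hxe))).contDiffAt
  obtain ⟨t, ht, hn⟩ := Skel.loc_null h2 (s := (n : ℝ) + 1) (by positivity)
  refine ⟨_, ?_, hn _ (Skel.plane_null d (k i) n (hS i).1)⟩
  have h3 : e.source ∩ e ⁻¹' t ∈ 𝓝 ((extChartAt (𝓡 d) p).symm (extChartAt (𝓡 d) p x)) := by
    rw [(extChartAt (𝓡 d) p).left_inv hp]
    exact inter_mem (e.open_source.mem_nhds hxe) (e.continuousAt hxe ht)
  have h4 := continuousAt_extChartAt_symm' hp h3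
  refine mem_of_superset (inter_mem_nhdsWithin _ h4) ?_
  rintro _ ⟨⟨y, ⟨hy, hyp⟩, rfl⟩, h5⟩
  rw [mem_preimage, (extChartAt (𝓡 d) p).left_inv hyp] at h5
  exact ⟨e y, ⟨(hS' y h5.1).1 hy, h5.2⟩, by rw [Function.comp_apply, e.left_inv h5.1]⟩

theorem skel : SkelStmt := by
  intro d W V _ _ _ _ _ _ _ _ l Z φ e l' Pi φ' s hL hE hs hT
  refine ⟨e '' (skeleton Z ∩ {x | φ x ≤ 3}), fun c hc => ?_, ?_⟩
  · obtain ⟨⟨x, hx, hx0⟩, h3, -⟩ := hc 0 le_rfl
    have hx3 : φ x ≤ 3 := by rwa [← hx0, hE.fn x hx] at h3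
    obtain ⟨γ, hγ0, hγ⟩ := hL.complete x
    refine ⟨x, ⟨⟨γ, {x | φ x ≤ 4}, hγ0, hγ, hE.ex.2 4, fun b hb => ?_⟩, hx3⟩, hx0⟩
    by_contra hb4
    have hcφ : Continuous fun t => φ (γ t) := hE.ex.1.continuous.comp hγ.continuous
    obtain ⟨τ, hτ, h4, hlt⟩ := first_time (T := {t | 4 ≤ φ (γ t)})
      (isClosed_le continuous_const hcφ) (show 4 ≤ φ (γ b) from (not_le.1 hb4).le) hb
    have hτ0 : 0 < τ := lt_of_le_of_ne hτ.1 fun h => by
      have : 4 ≤ φ (γ τ) := h4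
      rw [← h, hγ0] at this
      linarith
    have hle : ∀ t ∈ Icc 0 τ, φ (γ t) ≤ 4 := by
      have : closure (Ico 0 τ) ⊆ {t | φ (γ t) ≤ 4} :=
        closure_minimal (fun t ht => (show φ (γ t) < 4 from not_le.1 (hlt t ht)).le)
          (isClosed_le hcφ continuous_const)
      rwa [closure_Ico hτ0.ne] at this
    have hd : ∀ t ∈ Icc 0 τ, HasDerivAt (fun t => e (γ t)) (Pi (e (γ t)) (l' (e (γ t)))) t :=
      fun t ht => by
        let D : Euc d →L[ℝ] V := mfderiv (𝓡 d) 𝓘(ℝ, V) e (γ t)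
        let v : Euc d := Z (γ t)
        have h1 : HasFDerivAt (fun t => e (γ t)) (D.comp ((1 : ℝ →L[ℝ] ℝ).smulRight v)) t :=
          ((hE.sm.mdifferentiableAt (x := γ t) (by simp)).hasMFDerivAt.comp t (hγ t)).hasFDerivAt
        have h2 : D v = Pi (e (γ t)) (l' (e (γ t))) := hE.fld _ ((hle t ht).trans_lt (by norm_num))
        simpa [h2] using h1.hasDerivAt
    have c1 : ContinuousOn c (Icc 0 τ) := fun t ht =>
      (hc t ht.1).2.2.continuousAt.continuousWithinAt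
    have c2 : ContinuousOn (fun t => e (γ t)) (Icc 0 τ) := fun t ht =>
      (hd t ht).continuousAt.continuousWithinAt
    obtain ⟨R, hR⟩ := ((isCompact_Icc.image_of_continuousOn c1).union
      (isCompact_Icc.image_of_continuousOn c2)).isBounded.subset_closedBall 0
    have : ProperSpace V := FiniteDimensional.proper_real V
    obtain ⟨K, hK⟩ := (hE.amb.smZ.contDiffOn (s := closedBall 0 R)).exists_lipschitzOnWith
      (by simp) (convex_closedBall _ _) (isCompact_closedBall _ _)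
    have heq := ODE_solution_unique_of_mem_Icc_right (v := fun _ x => Pi x (l' x))
      (s := fun _ => closedBall 0 R) (K := K) (fun _ _ => hK) c1
      (fun t ht => (hc t ht.1).2.2.hasDerivWithinAt)
      (fun t ht => hR (Or.inl ⟨t, Ico_subset_Icc_self ht, rfl⟩)) c2
      (fun t ht => (hd t (Ico_subset_Icc_self ht)).hasDerivWithinAt)
      (fun t ht => hR (Or.inr ⟨t, Ico_subset_Icc_self ht, rfl⟩)) (by rw [hγ0, hx0])
      (right_mem_Icc.2 hτ.1)
    have h5 := (hc τ hτ.1).2.1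
    rw [heq, hE.fn _ ((hle τ (right_mem_Icc.2 hτ.1)).trans_lt (by norm_num))] at h5
    have : 4 ≤ φ (γ τ) := h4
    linarith
  · have loc : ∀ p : W, ∃ U ∈ 𝓝 p, μH[s] (e '' (skeleton Z ∩ U)) = 0 := fun p => by
      have h1 : ContDiffAt ℝ ∞ (e ∘ (extChartAt (𝓡 d) p).symm) (extChartAt (𝓡 d) p p) :=
        ((hE.sm.comp_contMDiffOn (contMDiffOn_extChartAt_symm p)).contMDiffAt
          (extChartAt_target_mem_nhds p)).contDiffAt
      obtain ⟨t, ht, hn⟩ := Skel.loc_null h1 hs.le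
      refine ⟨(extChartAt (𝓡 d) p).source ∩ extChartAt (𝓡 d) p ⁻¹' t,
        inter_mem (extChartAt_source_mem_nhds p) (continuousAt_extChartAt p ht),
        measure_mono_null ?_ (hn _ (hT p))⟩
      rintro _ ⟨y, ⟨hy, hyp, hyt⟩, rfl⟩
      exact ⟨_, ⟨⟨y, ⟨hy, hyp⟩, rfl⟩, hyt⟩, by
        rw [Function.comp_apply, (extChartAt (𝓡 d) p).left_inv hyp]⟩
    choose U hU hn using loc
    obtain ⟨t, -, ht⟩ := (hE.ex.2 3).elim_nhds_subcover U fun p _ => hU p
    refine measure_mono_null (t := ⋃ p ∈ t, e '' (skeleton Z ∩ U p)) ?_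
      ((measure_biUnion_null_iff t.countable_toSet).2 fun p _ => hn p)
    rintro _ ⟨y, ⟨hy, hy3⟩, rfl⟩
    obtain ⟨p, hp, hyp⟩ := mem_iUnion₂.1 (ht hy3)
    exact mem_iUnion₂.2 ⟨p, hp, y, ⟨hy, hyp⟩, rfl⟩

end Pool.Agent.MP_6d695c_gt.T1

end MrgPart13

-- marker of a merged file
example : 731051 + 750526 = 731051 + 750526 := rfl
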