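import Pool.Agent.MP_6d695c_gt.t1.FinG
import Pool.Agent.MP_6d695c_gt.t1.Skel
import Pool.Agent.MP_6d695c_gt.t1.Glue
import Pool.Agent.MP_6d695c_gt.t1.FlowA

/-! PROJECT T1: all modules. -/

namespace Pool.Agent.MP_6d695c_gt.T1

theorem rawAll : RawStmt :=
  raw (aut prel) aff uni flat (mast calcP model) plug (flowA calcP model) disp esc
    (trf rel (aut prel))

theorem topAll : TopStmt :=
  top symp (chart prel model symp) (one1 rel rawAll (nrm rel (aut prel) aff)) stack

theorem covAll : CovStmt := cov rel symp topAll absS (lie prel symp)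

end Pool.Agent.MP_6d695c_gt.T1
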