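import Mathlib.Algebra.Module.Torsion.Prod
import Mathlib.Algebra.Lie.OfAssociative
import Mathlib.RingTheory.TotallySplit
import Mathlib.RingTheory.Etale.Weakly
import Pool.Agent.MP_6d695c_gt.t1.Glue
import Pool.Agent.MP_6d695c_gt.sw.Zero
import Pool.Agent.MP_6d695c_gt.sw.Base
import Pool.Agent.MP_6d695c_gt.sw.Zer
import Pool.Agent.MP_6d695c_gt.sw.Compl

-- ======== part 0: formerly Pool.Agent.MP_6d695c_gt.t1.Final
section MrgPart0

/-! PROJECT T1: the theorem from the modules. -/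

open scoped Manifold ContDiff Topology MeasureTheory
open Set Metric Filter Real

namespace Pool.Agent.MP_6d695c_gt.T1

open SW Theta

theorem finalT (cov : CovStmt) (glueS : GlueStmt) (circ : CircStmt) (prodC : ProdCStmt)
    (embC : EmbCStmt) (finG : FinGStmt) (skel : SkelStmt) (strat : StratStmt) (n : ℕ) (W : Type)
    [TopologicalSpace W] [ChartedSpace (Euc (2 * n)) W] [IsManifold (𝓡 (2 * n)) ∞ W] [T2Space W]
    (l : OneForm (𝓡 (2 * n)) W) (Z : VField (𝓡 (2 * n)) W) (hZ : IsLiouville (𝓡 (2 * n)) l Z)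
    (h : LiouvilleMfd (𝓡 (2 * n)) l)
    (hK : Stratified (2 * n) n (skeleton Z) ∨ Thin (2 * n) (n + 1) (skeleton Z)) :
    ∃ l₁, Homotopic (IC (2 * n)) (cyl l) l₁ ∧ WeinsteinMfd (IC (2 * n)) l₁ := by
  obtain ⟨Z', φ₀, K, hL, hex, hKc, hpos⟩ := h
  obtain rfl : Z' = Z := funext fun x => by
    have key : ∀ a b v : Euc (2 * n), dForm (𝓡 (2 * n)) l x (a - b) v =
        dForm (𝓡 (2 * n)) l x a v - dForm (𝓡 (2 * n)) l x b v := fun a b v => by
      simp only [dForm, map_sub, sub_apply]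
      ring
    exact sub_eq_zero.1 (hZ.nondeg x _ fun v =>
      (key (Z' x) (Z x) v).trans (sub_eq_zero.2 ((hL.dual x v).trans (hZ.dual x v).symm)))
  have hT : Thin (2 * n) (n + 1) (skeleton Z') := hK.elim (strat _ n W _) id
  obtain ⟨N, φ, e, l', Pi, φ', hE⟩ := emb (2 * n) W l Z' φ₀ K ⟨hL.smooth, hL.nondeg, hL.dual⟩ hex
    hKc hpos
  have hlt : ∀ x, φ x < 6 → ∀ᶠ y in 𝓝 x, φ y < 6 := fun x hx =>
    hE.ex.1.continuous.continuousAt.eventually (gt_mem_nhds hx)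
  have hnn : ∀ x ∈ e '' {x | φ x < 6}, 0 ≤ fderiv ℝ φ' x (Pi x (l' x)) := by
    rintro _ ⟨x, hx, rfl⟩
    have := der_comp (u' := φ) (hE.sm.mdifferentiableAt (x := x) (by simp))
      (hE.amb.sφ.differentiable (by simp) _) ((hlt x hx).mono fun y hy => (hE.fn y hy).symm) (Z' x)
    rw [← hE.fld x hx]
    exact (hE.nd x).trans_eq this
  obtain ⟨K₀, hK₀, hnull⟩ := skel (2 * n) W _ l Z' φ e l' Pi φ' (n + 1) hL hE (by positivity) hT
  obtain ⟨a, L, f, Φ, hC⟩ := cov _ n _ K₀ l' Pi φ' hE.amb hnn hK₀ hnull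
  obtain ⟨A, B, G, Φ', hC2⟩ := glueS _ _ _ l' Pi φ' a L f Φ hE.amb hnn hC
  have hc : 0 < 2 * π / L := div_pos (by positivity) (by linarith [hC.L4])
  obtain ⟨himg, hG⟩ := embC (2 * n) W _ l Z' φ e l' Pi φ' _ hE hc
  obtain ⟨G', Φ'', hW⟩ := circ _ _ _ l' Pi φ' a L A B G Φ' (smp_of_amb hE.amb) hE.amb.sφ hC2
    (himg ▸ hG.smp)
  exact finG _ _ (IC (2 * n)) _ _ _ (cyl l) (ZC Z') _ _ _ _ _ G' Φ'' A B (prodC _ W l Z' hL) hG
    (himg ▸ hW)

end Pool.Agent.MP_6d695c_gt.T1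

end MrgPart0

-- ======== part 1: formerly Pool.Agent.MP_6d695c_gt.t1.Flat
section MrgPart1

/-! PROJECT T1, row FLAT: flattening at the critical points. -/

open scoped ContDiff Topology
open Set Metric Filter

namespace Pool.Agent.MP_6d695c_gt.T1

open SW Theta

namespace FlatAux

variable {m : ℕ}

theorem abs_sum_le (a b : Fin m → ℝ) : |∑ j, a j * b j| ≤ m * (‖a‖ * ‖b‖) := by
  refine (Finset.abs_sum_le_sum_abs _ _).trans ?_
  refine (Finset.sum_le_card_nsmul _ _ (‖a‖ * ‖b‖) fun j _ => ?_).trans (by simp)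
  rw [abs_mul]
  exact mul_le_mul (norm_le_pi_norm a j) (norm_le_pi_norm b j) (abs_nonneg _) (norm_nonneg _)

theorem q_le (ξ : Y m) : ‖ξ.2.1‖ ≤ ‖ξ‖ := (norm_fst_le _).trans (norm_snd_le ξ)

theorem b_le (ξ : Y m) : ‖ξ.2.2‖ ≤ ‖ξ‖ := (norm_snd_le _).trans (norm_snd_le ξ)

theorem norm_eR (c : ℝ) : ‖((c, 0, 0) : Y m)‖ = |c| := by simp [Prod.norm_def]

theorem norm_Lt (c ξ : Y m) (R : ℝ) (h : ‖c.2.2‖ ≤ R) : ‖Lt c ξ‖ ≤ (1 + m * R) * ‖ξ‖ := by
  have e : Lt c ξ = ξ - (∑ j, c.2.2 j * ξ.2.1 j, 0, 0) := by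
    rw [Lt_apply]
    ext <;> simp
  have h1 := norm_sub_le ξ ((∑ j, c.2.2 j * ξ.2.1 j, 0, 0) : Y m)
  have h2 := abs_sum_le c.2.2 ξ.2.1
  have h3 : ‖c.2.2‖ * ‖ξ.2.1‖ ≤ R * ‖ξ‖ :=
    mul_le_mul h (q_le ξ) (norm_nonneg _) ((norm_nonneg _).trans h)
  have h4 := mul_le_mul_of_nonneg_left h3 (Nat.cast_nonneg (α := ℝ) m)
  rw [norm_eR] at h1
  rw [e]
  linarith

theorem tri (p p' y : Y m) :
    ‖ldiv p p'‖ ≤ (‖ldiv p y‖ + ‖ldiv p' y‖) * (1 + m * ‖ldiv p' y‖) := by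
  have e : ldiv p p' = ldiv p y - ldiv p' y +
      (∑ j, (ldiv p y - ldiv p' y).2.2 j * (ldiv p' y).2.1 j, 0, 0) := by
    simp only [ldiv, Lt_apply]
    ext
    · simp only [Prod.fst_add, Prod.fst_sub, Prod.snd_sub, Prod.snd_neg, Pi.neg_apply, Pi.sub_apply]
      have : ∑ j, -p.2.2 j * (p'.2.1 j - p.2.1 j) = ∑ j, -p.2.2 j * (y.2.1 j - p.2.1 j) -
          ∑ j, -p'.2.2 j * (y.2.1 j - p'.2.1 j) -
          ∑ j, (y.2.2 j - p.2.2 j - (y.2.2 j - p'.2.2 j)) * (y.2.1 j - p'.2.1 j) := by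
        rw [← Finset.sum_sub_distrib, ← Finset.sum_sub_distrib]
        exact Finset.sum_congr rfl fun j _ => by ring
      rw [this]
      ring
    · simp
    · simp
  set a := ldiv p y
  set b := ldiv p' y
  have h1 := norm_add_le (a - b) ((∑ j, (a - b).2.2 j * b.2.1 j, 0, 0) : Y m)
  have h2 := abs_sum_le (a - b).2.2 b.2.1
  have h0 := norm_sub_le a b
  have h3 : ‖(a - b).2.2‖ * ‖b.2.1‖ ≤ (‖a‖ + ‖b‖) * ‖b‖ :=
    mul_le_mul ((b_le _).trans h0) (q_le b) (norm_nonneg _) (by positivity)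
  have h4 := mul_le_mul_of_nonneg_left h3 (Nat.cast_nonneg (α := ℝ) m)
  rw [norm_eR] at h1
  rw [e]
  linarith

theorem hasFDerivAt_ldiv (p y : Y m) : HasFDerivAt (ldiv p) (Lt (-p)) y :=
  (Lt (-p)).hasFDerivAt.comp y ((hasFDerivAt_id y).sub_const p)

theorem contDiff_ldiv (p : Y m) : ContDiff ℝ ∞ (ldiv p) :=
  (Lt (-p)).contDiff.comp (contDiff_id.sub contDiff_const)

theorem osc {u : Y m → ℝ} {σ : ℝ} (hu : ContDiff ℝ ∞ u) (hσ : 0 ≤ σ) (h : ∀ y, ‖nab u y‖ ≤ σ)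
    (p y : Y m) (hy : ‖ldiv p y‖ ≤ 2) : |u p - u y| ≤ 2 * (1 + m * 2) * σ := by
  set η := ldiv p y with hη
  have hd : ∀ s : ℝ, HasDerivAt (fun s : ℝ => u (p + s • Lt p η))
      (fderiv ℝ u (p + s • Lt p η) (Lt p η)) s := fun s =>
    (hu.differentiable (by simp) _).hasFDerivAt.comp_hasDerivAt s (by
      simpa using ((hasDerivAt_id s).smul_const (Lt p η)).const_add p)
  have := norm_image_sub_le_of_norm_deriv_le_segment_01' (C := 2 * (1 + m * 2) * σ)
    (fun s _ => (hd s).hasDerivWithinAt) fun s hs => by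
      have e : Lt p η = Lt (p + s • Lt p η) (Lt (-(s • Lt p η)) η) := by
        rw [Lt_Lt, add_neg_cancel_right]
      have h1 : ‖(-(s • Lt p η)).2.2‖ ≤ 2 := by
        have : (-(s • Lt p η)).2.2 = -(s • η.2.2) := rfl
        rw [this, norm_neg, norm_smul, Real.norm_eq_abs, abs_of_nonneg hs.1]
        nlinarith [b_le η, hs.1, hs.2, norm_nonneg η.2.2]
      have h2 := norm_Lt _ η 2 h1
      have h3 : ‖Lt (-(s • Lt p η)) η‖ ≤ (1 + m * 2) * 2 :=
        h2.trans (mul_le_mul_of_nonneg_left hy (by positivity))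
      calc ‖fderiv ℝ u (p + s • Lt p η) (Lt p η)‖
          = ‖nab u (p + s • Lt p η) (Lt (-(s • Lt p η)) η)‖ := by rw [nab_apply, ← e]
        _ ≤ σ * ((1 + m * 2) * 2) := (ContinuousLinearMap.le_opNorm _ _).trans
            (mul_le_mul (h _) h3 (norm_nonneg _) hσ)
        _ = _ := by ring
  rw [one_smul, zero_smul, add_zero, show p + Lt p η = y from mul_ldiv p y] at this
  rwa [abs_sub_comm]

theorem nab_congr {F F' : Y m → ℝ} {y : Y m} (h : F =ᶠ[𝓝 y] F') : nab F y = nab F' y := by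
  rw [nab, nab, h.fderiv_eq]

end FlatAux

open FlatAux

theorem flat : FlatStmt := by
  classical
  intro m G h B r γ hU
  have hr := hU.rpos
  obtain ⟨ρ, hρ, hρ1, hρr⟩ : ∃ ρ : ℝ, 0 < ρ ∧ ρ ≤ 1 ∧ 3 * ρ * (1 + m) ≤ r :=
    ⟨min 1 (r / (3 * (1 + m))), by positivity, min_le_left _ _, by
      have := min_le_right 1 (r / (3 * (1 + m)))
      rw [le_div_iff₀ (by positivity)] at this
      linarith⟩
  have hsep : ∀ p p' y, fderiv ℝ G p = 0 → fderiv ℝ G p' = 0 → ‖ldiv p y‖ < 2 * ρ →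
      ‖ldiv p' y‖ < ρ → p' = p := fun p p' y hp hp' h1 h2 => by
    refine hU.sep p p' hp hp' ((tri p p' y).trans (le_trans ?_ hρr))
    refine mul_le_mul (by linarith) ?_ (by positivity) (by positivity)
    have := mul_le_mul_of_nonneg_left (h2.le.trans hρ1) (Nat.cast_nonneg (α := ℝ) m)
    linarith
  let ψ : ContDiffBump (0 : Y m) := ⟨ρ / 2, ρ, by positivity, by linarith⟩
  have hψ : ContDiff ℝ ∞ ψ := ψ.contDiff
  obtain ⟨K, hK⟩ := (hψ.continuous_fderiv (by simp)).bounded_above_of_compact_support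
    (ψ.hasCompactSupport.fderiv ℝ)
  have hK0 : 0 ≤ K := (norm_nonneg _).trans (hK 0)
  obtain ⟨κ, hκ, hfar⟩ := hU.far (ρ / 2) (by positivity)
  set C' : ℝ := 1 + 2 * (1 + m * 2) * (K * (1 + m * 2)) with hC'
  have hC1 : 1 ≤ C' := le_add_of_nonneg_right (by positivity)
  have hCκ : 0 ≤ C' / κ := by positivity
  have hm2 : (1 : ℝ) ≤ 2 * (1 + m * 2) := by linarith [Nat.cast_nonneg (α := ℝ) m]
  refine ⟨C' / κ + 2 * (1 + m * 2), by linarith, fun u σ hu hσ hb => ?_⟩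
  let v : Y m → Y m → ℝ := fun p y => u y + ψ (ldiv p y) * (u p - u y)
  have hv : ∀ p, ContDiff ℝ ∞ (v p) := fun p =>
    hu.add ((hψ.comp (contDiff_ldiv p)).mul (contDiff_const.sub hu))
  let u' : Y m → ℝ := fun y =>
    if h : ∃ p, fderiv ℝ G p = 0 ∧ ‖ldiv p y‖ < ρ then v h.choose y else u y
  have h1 : ∀ p y, fderiv ℝ G p = 0 → ‖ldiv p y‖ < 2 * ρ → u' y = v p y := fun p y hp hy => by
    by_cases h : ∃ p, fderiv ℝ G p = 0 ∧ ‖ldiv p y‖ < ρ
    · simp only [u', dif_pos h]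
      rw [hsep p _ y hp h.choose_spec.1 hy h.choose_spec.2]
    · simp only [u', dif_neg h, v]
      rw [ψ.zero_of_le_dist (by simpa using not_lt.1 fun h' => h ⟨p, hp, h'⟩), zero_mul, add_zero]
  have hloc : ∀ y, (∃ p, fderiv ℝ G p = 0 ∧ ‖ldiv p y‖ < 2 * ρ ∧ u' =ᶠ[𝓝 y] v p) ∨
      ((∀ p, fderiv ℝ G p = 0 → 2 * ρ ≤ ‖ldiv p y‖) ∧ u' =ᶠ[𝓝 y] u) := fun y => by
    by_cases h : ∃ p, fderiv ℝ G p = 0 ∧ ‖ldiv p y‖ < 2 * ρ
    · obtain ⟨p, hp, hy⟩ := h
      refine Or.inl ⟨p, hp, hy, ?_⟩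
      filter_upwards [(isOpen_lt (contDiff_ldiv p).continuous.norm continuous_const).mem_nhds hy]
        with z hz using h1 p z hp hz
    · push Not at h
      refine Or.inr ⟨h, ?_⟩
      have hc : Continuous fun z => (ρ + ‖ldiv y z‖) * (1 + m * ‖ldiv y z‖) := by
        have := (contDiff_ldiv y).continuous
        fun_prop
      have h0 : (ρ + ‖ldiv y y‖) * (1 + m * ‖ldiv y y‖) < 2 * ρ := by
        simp only [ldiv, sub_self, map_zero, norm_zero]
        linarith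
      filter_upwards [(isOpen_lt hc continuous_const).mem_nhds h0] with z hz
      refine dif_neg fun ⟨p, hp, hpz⟩ => ?_
      have h2 := (h p hp).trans (tri p y z)
      have h3 : (‖ldiv p z‖ + ‖ldiv y z‖) * (1 + m * ‖ldiv y z‖) ≤
          (ρ + ‖ldiv y z‖) * (1 + m * ‖ldiv y z‖) :=
        mul_le_mul_of_nonneg_right (by linarith) (by positivity)
      exact absurd (h2.trans h3) (not_le.2 hz)
  have hnab : ∀ p y, ‖ldiv p y‖ < 2 * ρ → ‖nab (v p) y‖ ≤ C' * σ := fun p y hy => by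
    have hy2 : ‖ldiv p y‖ ≤ 2 := by linarith
    have d1 := (hu.differentiable (by simp) y).hasFDerivAt
    have d2 := (hψ.differentiable (by simp) (ldiv p y)).hasFDerivAt.comp y (hasFDerivAt_ldiv p y)
    have d3 : HasFDerivAt (v p) _ y := d1.add (d2.mul (d1.const_sub (u p)))
    refine ContinuousLinearMap.opNorm_le_bound _ (by positivity) fun ξ => ?_
    have e : nab (v p) y ξ = (1 - ψ (ldiv p y)) * nab u y ξ +
        (u p - u y) * fderiv ℝ ψ (ldiv p y) (Lt (-p + y) ξ) := by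
      rw [nab_apply, d3.fderiv, nab_apply, ← Lt_Lt]
      simp
      ring
    have a1 : |nab u y ξ| ≤ σ * ‖ξ‖ :=
      ((nab u y).le_opNorm ξ).trans (mul_le_mul_of_nonneg_right (hb y) (norm_nonneg _))
    have a2 : |1 - ψ (ldiv p y)| ≤ 1 :=
      abs_le.2 ⟨by linarith [ψ.le_one (x := ldiv p y)], by linarith [ψ.nonneg (x := ldiv p y)]⟩
    have a3 : ‖Lt (-p + y) ξ‖ ≤ (1 + m * 2) * ‖ξ‖ := norm_Lt _ _ 2 (by
      have : (-p + y).2.2 = (ldiv p y).2.2 := by
        simp only [ldiv, Lt_apply]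
        simp [neg_add_eq_sub]
      rw [this]
      exact (b_le _).trans hy2)
    have a4 : |fderiv ℝ ψ (ldiv p y) (Lt (-p + y) ξ)| ≤ K * ((1 + m * 2) * ‖ξ‖) :=
      (ContinuousLinearMap.le_opNorm _ _).trans (mul_le_mul (hK _) a3 (norm_nonneg _) hK0)
    have a5 := mul_le_mul (osc hu hσ hb p y hy2) a4 (abs_nonneg _) (by positivity)
    have a6 := mul_le_mul a2 a1 (abs_nonneg _) zero_le_one
    rw [e, Real.norm_eq_abs]
    refine (abs_add_le _ _).trans ?_
    rw [abs_mul, abs_mul, hC']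
    linarith
  have hend : ∀ y, ‖nab u' y‖ ≤ C' * σ → (∀ p, fderiv ℝ G p = 0 → ρ / 2 ≤ ‖ldiv p y‖) →
      ‖nab u' y‖ ≤ (C' / κ + 2 * (1 + m * 2)) * σ * ‖nab G y‖ := fun y a1 a2 => by
    have a3 := mul_le_mul_of_nonneg_left (hfar y a2) (mul_nonneg hCκ hσ)
    have a4 : C' / κ * σ * κ = C' * σ := by field_simp
    have a5 : 0 ≤ 2 * (1 + m * 2) * σ * ‖nab G y‖ := by positivity
    linarith
  refine ⟨u', ⟨contDiff_iff_contDiffAt.2 fun y => ?_, fun y => ?_⟩, fun y => ?_⟩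
  · rcases hloc y with ⟨p, -, -, he⟩ | ⟨-, he⟩
    · exact (hv p).contDiffAt.congr_of_eventuallyEq he
    · exact hu.contDiffAt.congr_of_eventuallyEq he
  · rcases hloc y with ⟨p, hp, hy, he⟩ | ⟨hy, he⟩
    · by_cases h2 : ‖ldiv p y‖ < ρ / 2
      · have : u' =ᶠ[𝓝 y] fun _ => u p := by
          filter_upwards [he, (isOpen_lt (contDiff_ldiv p).continuous.norm
            continuous_const).mem_nhds h2] with z hz hz'
          rw [hz]
          simp only [v]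
          rw [ψ.one_of_mem_closedBall (by simpa using le_of_lt hz')]
          ring
        rw [nab_congr this, nab_eq_zero.2 (by simp), norm_zero]
        positivity
      · refine hend y (by rw [nab_congr he]; exact hnab p y hy) fun p' hp' => ?_
        by_contra h3
        rw [hsep p p' y hp hp' hy (by linarith [not_le.1 h3])] at h3
        exact h3 (not_lt.1 h2)
    · refine hend y ?_ fun p hp => by linarith [hy p hp]
      rw [nab_congr he]
      exact (hb y).trans (le_mul_of_one_le_left hσ hC1)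
  · have a0 := mul_nonneg hCκ hσ
    rcases hloc y with ⟨p, -, hy, he⟩ | ⟨-, he⟩
    · rw [he.self_of_nhds]
      simp only [v]
      rw [add_sub_cancel_left, abs_mul]
      have a1 := mul_le_mul (abs_le.2 ⟨by linarith [ψ.nonneg (x := ldiv p y)], ψ.le_one⟩ :
        |ψ (ldiv p y)| ≤ 1) (osc hu hσ hb p y (by linarith)) (abs_nonneg _) zero_le_one
      linarith
    · rw [he.self_of_nhds, sub_self, abs_zero]
      positivity

end Pool.Agent.MP_6d695c_gt.T1

end MrgPart1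

-- ======== part 2: formerly Pool.Agent.MP_6d695c_gt.t1.Nrm
section MrgPart2

/-! PROJECT T1, row NORM: normalisation of the trap at every height. -/

open scoped Manifold ContDiff Topology MeasureTheory
open Set Metric Filter Real

namespace Pool.Agent.MP_6d695c_gt.T1

open SW Theta

namespace NrmAux

variable {m : ℕ}

/-- the derivative in the direction of the first coordinate -/
theorem fderiv_one {F : ℝ × Y m → ℝ} (hF : ContDiff ℝ ∞ F) (x : ℝ × Y m) :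
    HasDerivAt (fun r : ℝ => F (r, x.2)) (fderiv ℝ F x (1, 0)) x.1 := by
  have h1 : HasDerivAt (fun r : ℝ => ((r, x.2) : ℝ × Y m)) (1, 0) x.1 :=
    (hasDerivAt_id x.1).prodMk (hasDerivAt_const x.1 x.2)
  exact (hF.differentiable (by simp) x).hasFDerivAt.comp_hasDerivAt x.1 h1

/-- the shift in the first coordinate -/
theorem hasFDerivAt_shift (c : ℝ) (x : ℝ × Y m) :
    HasFDerivAt (fun x : ℝ × Y m => ((x.1 + c, x.2) : ℝ × Y m))
      (ContinuousLinearMap.id ℝ (ℝ × Y m)) x := by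
  have : (fun x : ℝ × Y m => ((x.1 + c, x.2) : ℝ × Y m)) = fun x => x + (c, 0) := by
    funext x
    ext <;> simp
  rw [this]
  exact (hasFDerivAt_id x).add_const _

theorem fderiv_shift {F : ℝ × Y m → ℝ} (hF : ContDiff ℝ ∞ F) (c : ℝ) (x v : ℝ × Y m) :
    fderiv ℝ (fun x : ℝ × Y m => F (x.1 + c, x.2)) x v = fderiv ℝ F (x.1 + c, x.2) v := by
  have := (hF.differentiable (by simp) (x.1 + c, x.2)).hasFDerivAt.comp x (hasFDerivAt_shift c x)
  exact congrArg (fun L : (ℝ × Y m) →L[ℝ] ℝ => L v) this.fderiv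

theorem mono_T {U C O : Set (Y m)} {u : Y m → ℝ} {η T T' B : ℝ} {f Λ Ξ E : ℝ × Y m → ℝ}
    (h : Raw U u η T B C O f Λ Ξ E) (hT : T ≤ T') : Raw U u η T' B C O f Λ Ξ E :=
  { h with
    far := fun x hx => h.far x (hT.trans hx)
    low := fun x hx => h.low x (by linarith)
    high := fun x hx => h.high x (hT.trans hx) }

end NrmAux

open NrmAux

theorem nrm (rel : RelStmt) (aut : AutStmt) (aff : AffStmt) : NrmStmt := by
  intro m U C O τ u η T₀ B f Λ Ξ E hU hτ hu h₀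
  obtain ⟨T, hT, h⟩ : ∃ T, 0 ≤ T ∧ Raw U u η T B C O f Λ Ξ E :=
    ⟨max T₀ 0, le_max_right _ _, mono_T h₀ (le_max_left _ _)⟩
  clear h₀ T₀
  obtain ⟨χ, sχ, cχ, hχU, hχ1, hχr⟩ := exists_cut h.cpt hU h.sub
  have hCC : C ⊆ tsupport χ := fun y hy =>
    subset_tsupport _ (by rw [Function.mem_support, (hχ1 y hy).self_of_nhds]; exact one_ne_zero)
  obtain ⟨M₀, hM₀⟩ := (show IsCompact (tsupport χ) from cχ).exists_bound_of_continuousOn
    hτ.continuous.continuousOn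
  obtain ⟨M, hM0, hM⟩ : ∃ M, 0 ≤ M ∧ ∀ y ∈ tsupport χ, |τ y| ≤ M :=
    ⟨max M₀ 0, le_max_right _ _, fun y hy => (hM₀ y hy).trans (le_max_left _ _)⟩
  have hB : 0 ≤ B := (abs_nonneg _).trans (h.bd 0)
  have hOC : O ⊆ C := fun y hy => by
    by_contra hC
    have h1 := h.high (T, y) le_rfl hy
    rw [(h.out (T, y) hC).2.1] at h1
    exact zero_ne_one h1
  refine ⟨2 * (T + M + 2), 2 * (B + M), by linarith, fun s => ?_⟩
  obtain ⟨c, hc⟩ : ∃ c, c = T + M + 2 - s := ⟨_, rfl⟩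
  obtain ⟨a, ha⟩ : ∃ a, a = s - 2 * (T + M + 2) := ⟨_, rfl⟩
  rw [← ha]
  obtain ⟨b₁, s₁, h₁1, h₁0, r₁, d₁⟩ := exists_step (show a < a + 1 by linarith)
  obtain ⟨b₂, s₂, h₂1, h₂0, r₂, d₂⟩ := exists_step (show s - 1 < s by linarith)
  have hA := (aff m).1 c
  obtain ⟨f', hf'⟩ : ∃ f' : ℝ × Y m → ℝ, f' = fun x => (exp c)⁻¹ * f (x.1 + c, x.2) := ⟨_, rfl⟩
  have hX : ∀ x, XY f' x = XY f (x.1 + c, x.2) := fun x => by
    have := (aut m _ _ _ hA).1 f h.sf x
    rwa [(hasFDerivAt_shift c x).fderiv, ← hf'] at this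
  obtain ⟨Γ, hΓ⟩ : ∃ Γ : ℝ × Y m → ℝ, Γ = fun x => Λ (x.1 + c, x.2) - (x.1 + c) + τ x.2 := ⟨_, rfl⟩
  have sΛ := h.sΛ
  have sΓ : ContDiff ℝ ∞ Γ := by rw [hΓ]; fun_prop
  have bΓ : ∀ x : ℝ × Y m, |χ x.2 * Γ x| ≤ B + M := fun x => by
    by_cases hx : x.2 ∈ tsupport χ
    · have h1 := h.bd (x.1 + c, x.2)
      have h2 : |Γ x| ≤ B + M := by
        rw [hΓ]
        exact (abs_add_le _ _).trans (add_le_add h1 (hM _ hx))
      rw [abs_mul, abs_of_nonneg (hχr _).1]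
      exact (mul_le_of_le_one_left (abs_nonneg _) (hχr _).2).trans h2
    · rw [image_eq_zero_of_notMem_tsupport hx, zero_mul, abs_zero]
      linarith
  obtain ⟨Λ', hΛ'⟩ : ∃ Λ' : ℝ × Y m → ℝ, Λ' = fun x => x.1 - τ x.2 +
      (b₂ (x.1 - τ x.2) * (1 - b₁ (x.1 - τ x.2)) * (χ x.2 * Γ x + (B + M)) +
        2 * (B + M) * (1 - b₂ (x.1 - τ x.2))) := ⟨_, rfl⟩
  have sΛ' : ContDiff ℝ ∞ Λ' := by rw [hΛ']; fun_prop
  have sf := h.sf
  have sΞ := h.sΞ
  have sE := h.slow.sE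
  refine ⟨f', Λ', fun x => Ξ (x.1 + c, x.2), fun x => E (x.1 + c, x.2),
    { sf := by rw [hf']; fun_prop
      sΛ := sΛ'
      sΞ := by fun_prop
      out := ⟨tsupport χ, fun r => b₂ r * (1 - b₁ r) * (B + M) + 2 * (B + M) * (1 - b₂ r), cχ, hχU,
        by fun_prop, fun r => ?_, fun r hr => ?_, fun r hr => ?_, fun x hx => ?_⟩
      far := fun x hx => ?_
      lyap := fun x => ?_
      low := fun x hx => ⟨?_, ?_⟩
      high := fun x hx => ⟨?_, fun hO => ?_⟩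
      rng := fun x => h.rng _
      mono := fun x => ?_
      slow := ⟨by fun_prop, fun x _ => h.slow.bd _ (mem_univ _), fun x _ => ?_⟩ }⟩
  · have e1 := (s₁.differentiable (by simp) r).hasDerivAt
    have e2 := (s₂.differentiable (by simp) r).hasDerivAt
    have e3 := ((e2.mul (e1.const_sub 1)).mul_const (B + M)).add
      ((e2.const_sub 1).const_mul (2 * (B + M)))
    have e4 : deriv (fun r => b₂ r * (1 - b₁ r) * (B + M) + 2 * (B + M) * (1 - b₂ r)) r = _ :=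
      e3.deriv
    rw [e4]
    have q1 := mul_nonneg (mul_nonneg (neg_nonneg.2 (d₂ r)) (show 0 ≤ 1 + b₁ r by
      linarith [(r₁ r).1])) (show 0 ≤ B + M by linarith)
    have q2 := mul_nonneg (mul_nonneg (r₂ r).1 (neg_nonneg.2 (d₁ r))) (show 0 ≤ B + M by linarith)
    linarith
  · simp only [h₁1 r hr, h₂1 r (by linarith)]
    ring
  · simp only [h₂0 r hr]
    ring
  · have hx' : x.2 ∉ C := fun hC => hx (hCC hC)
    obtain ⟨o1, o2, o3⟩ := h.out (x.1 + c, x.2) hx'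
    refine ⟨by simp only [hf', o1, mul_zero], o2, o3, ?_⟩
    simp only [hΛ', image_eq_zero_of_notMem_tsupport hx, zero_mul, zero_add]
  · by_cases hC : x.2 ∈ C
    · have h1 := abs_le.1 (hM _ (hCC hC))
      have h2 : f (x.1 + c, x.2) = 0 := h.far _ (by
        rcases hx with hx | hx
        · exact le_abs.2 (Or.inr (by simp only; linarith [h1.2]))
        · exact le_abs.2 (Or.inl (by simp only; linarith [h1.1])))
      simp only [hf', h2, mul_zero]
    · simp only [hf', (h.out (x.1 + c, x.2) hC).1, mul_zero]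
  · by_cases hx : x.2 ∈ C ∧ |x.1 + c| ≤ T
    · obtain ⟨hC, ht⟩ := hx
      have h1 := abs_le.1 (hM _ (hCC hC))
      have h2 := abs_le.1 ht
      have ct : Continuous fun x : ℝ × Y m => x.1 - τ x.2 := by
        have := hτ.continuous
        fun_prop
      have e1 : ∀ᶠ x' : ℝ × Y m in 𝓝 x, a + 1 < x'.1 - τ x'.2 :=
        continuousAt_const.eventually_lt ct.continuousAt (by linarith [h1.2, h2.1])
      have e2 : ∀ᶠ x' : ℝ × Y m in 𝓝 x, x'.1 - τ x'.2 < s - 1 :=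
        ct.continuousAt.eventually_lt continuousAt_const (by linarith [h1.1, h2.2])
      have e3 : ∀ᶠ x' : ℝ × Y m in 𝓝 x, χ x'.2 = 1 :=
        continuous_snd.continuousAt.eventually (hχ1 _ hC)
      refine rel _ _ univ univ univ (fun x => (x.1 + c, x.2)) (fun x => (x.1 - c, x.2)) (XY f')
        (XY f) Λ' Λ x (B + M - c) isOpen_univ (mem_univ _) (mem_univ _) hA.sA.contDiffOn
        (hA.sA'.differentiable (by simp) _) sΛ' sΛ ?_ (h.lyap _)
      rw [nhdsWithin_univ]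
      filter_upwards [e1, e2, e3] with y y1 y2 y3
      refine ⟨mem_univ _, hA.li y, tg_univ _ _, ?_, ?_⟩
      · rw [(hasFDerivAt_shift c y).fderiv, hX]
        rfl
      · simp only [hΛ', hΓ, h₁0 _ y1.le, h₂1 _ y2.le, y3]
        ring
    · have hz : ∀ᶠ x' in 𝓝 ((x.1 + c, x.2) : ℝ × Y m), f x' = 0 := by
        rcases not_and_or.1 hx with hC | ht
        · have : ∀ᶠ x' in 𝓝 ((x.1 + c, x.2) : ℝ × Y m), x'.2 ∈ Cᶜ :=
            continuous_snd.continuousAt.eventually (h.cpt.isClosed.isOpen_compl.mem_nhds hC)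
          exact this.mono fun y hy => (h.out y hy).1
        · have : ∀ᶠ x' in 𝓝 ((x.1 + c, x.2) : ℝ × Y m), T < |x'.1| :=
            continuousAt_const.eventually_lt (continuous_fst.abs).continuousAt (not_le.1 ht)
          exact this.mono fun y hy => h.far y hy.le
      have hX0 : XY f (x.1 + c, x.2) = (1, 0) := XS_of_zero hz
      have hL : 0 < fderiv ℝ Λ (x.1 + c, x.2) (1, 0) := by
        have := (h.lyap (x.1 + c, x.2)).pos (by rw [hX0]; simp)
        rwa [hX0] at this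
      refine Or.inl ?_
      rw [hX, hX0]
      have e0 : HasDerivAt (fun r : ℝ => r - τ x.2) 1 x.1 := (hasDerivAt_id x.1).sub_const _
      have e1 := (s₁.differentiable (by simp) (x.1 - τ x.2)).hasDerivAt.comp x.1 e0
      have e2 := (s₂.differentiable (by simp) (x.1 - τ x.2)).hasDerivAt.comp x.1 e0
      have e3 : HasDerivAt (fun r : ℝ => Γ (r, x.2)) (fderiv ℝ Λ (x.1 + c, x.2) (1, 0) - 1) x.1 := by
        have g1 := fderiv_one (F := fun x : ℝ × Y m => Λ (x.1 + c, x.2)) (by fun_prop) x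
        rw [fderiv_shift sΛ] at g1
        rw [hΓ]
        exact (g1.sub ((hasDerivAt_id x.1).add_const c)).add_const (τ x.2)
      have e4 := e0.add (((e2.mul (e1.const_sub 1)).mul ((e3.const_mul (χ x.2)).add_const
        (B + M))).add ((e2.const_sub 1).const_mul (2 * (B + M))))
      have e5 := e4.congr_of_eventuallyEq (f₁ := fun r : ℝ => Λ' (r, x.2))
        (.of_forall fun r => by rw [hΛ']; rfl)
      rw [(fderiv_one sΛ' x).unique e5]
      simp only [Function.comp, Pi.mul_apply, mul_one, Prod.mk.eta]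
      obtain ⟨g1, g2⟩ := abs_le.1 (bΓ x)
      generalize χ x.2 * Γ x = g at g1 g2 ⊢
      obtain ⟨p1, p2⟩ := r₁ (x.1 - τ x.2)
      obtain ⟨p3, p4⟩ := r₂ (x.1 - τ x.2)
      obtain ⟨p5, p6⟩ := hχr x.2
      have p7 := d₁ (x.1 - τ x.2)
      have p8 := d₂ (x.1 - τ x.2)
      generalize b₁ (x.1 - τ x.2) = v₁ at *
      generalize b₂ (x.1 - τ x.2) = v₂ at *
      generalize deriv b₁ (x.1 - τ x.2) = w₁ at *
      generalize deriv b₂ (x.1 - τ x.2) = w₂ at *
      generalize fderiv ℝ Λ (x.1 + c, x.2) (1, 0) = L at *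
      generalize χ x.2 = k at *
      have q1 : 0 ≤ -w₂ * (2 * (B + M) - (1 - v₁) * (g + (B + M))) :=
        mul_nonneg (by linarith) (by nlinarith)
      have q2 : 0 ≤ v₂ * -w₁ * (g + (B + M)) :=
        mul_nonneg (mul_nonneg p3 (by linarith)) (by linarith)
      have q3 : 0 ≤ v₂ * (1 - v₁) * k := mul_nonneg (mul_nonneg p3 (by linarith)) p5
      have q4 : v₂ * (1 - v₁) * k ≤ 1 :=
        mul_le_one₀ (mul_le_one₀ p4 (by linarith) (by linarith)) p5 p6
      have q5 : 0 < 1 + v₂ * (1 - v₁) * k * (L - 1) := by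
        generalize v₂ * (1 - v₁) * k = z at q3 q4
        rcases q3.eq_or_lt with q | q
        · rw [← q]; norm_num
        · nlinarith [mul_pos q hL]
      linarith
  · simp only [hΛ', h₁1 _ hx, h₂1 _ (show x.1 - τ x.2 ≤ s - 1 by linarith)]
    ring
  · by_cases hC : x.2 ∈ C
    · have h1 := abs_le.1 (hM _ (hCC hC))
      exact h.low _ (by simp only; linarith [h1.2])
    · exact (h.out (x.1 + c, x.2) hC).2.1
  · simp only [hΛ', h₂0 _ hx]
    ring
  · have h1 := abs_le.1 (hM _ (hCC (hOC hO)))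
    exact h.high _ (by simp only; linarith [h1.1]) hO
  · rw [fderiv_shift sΞ, hX]
    exact h.mono _
  · have := fderiv_shift (F := fun x : ℝ × Y m => u x.2 + E x) (by fun_prop) c x (XY f' x)
    refine this.trans_le ?_
    rw [hX]
    exact h.slow.mono _ (mem_univ _)

end Pool.Agent.MP_6d695c_gt.T1

end MrgPart2

-- ======== part 3: formerly Pool.Agent.MP_6d695c_gt.t1.Symp
section MrgPart3

/-! PROJECT T1, row SYMP: the symplectisation of the contactisation, and the cover. -/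

open scoped ContDiff Topology
open Set Filter Real

namespace Pool.Agent.MP_6d695c_gt.T1

open SW Theta

namespace Symp

variable {X : Type} [NormedAddCommGroup X] [NormedSpace ℝ X] {E : Type} [NormedAddCommGroup E]
  [NormedSpace ℝ E] {F : Type} [NormedAddCommGroup F] [NormedSpace ℝ F] {S : Set X}

theorem fd_app {l : X → X →L[ℝ] ℝ} {x : X} (hl : DifferentiableAt ℝ l x) (u v : X) :
    fderiv ℝ l x u v = fderiv ℝ (fun y => l y v) x u := by
  rw [fderiv_clm_apply hl (differentiableAt_const v)]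
  simp

theorem sub_ov (h : Sub E S) : Sub (E × F) (ov S F) := by
  intro p hp
  obtain ⟨g, r, O, N, hP, hN⟩ := h p.1 hp
  refine ⟨fun y => (g y.1, y.2), fun x => (r x.1, x.2), O ×ˢ univ, N ×ˢ univ,
    ⟨hP.oO.prod isOpen_univ, hP.oN.prod isOpen_univ, ?_, ?_, fun y hy => ?_, fun x hx hx' => ?_⟩,
    ⟨hN, trivial⟩⟩
  · exact (hP.sg.comp contDiffOn_fst fun y hy => hy.1).prodMk contDiffOn_snd
  · exact (hP.sr.comp contDiffOn_fst fun y hy => hy.1).prodMk contDiffOn_snd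
  · have := hP.gm y.1 hy.1
    exact ⟨this.1, ⟨this.2.1, trivial⟩, by simp [this.2.2]⟩
  · have := hP.rm x.1 hx hx'.1
    exact ⟨⟨this.1, trivial⟩, by simp [this.2]⟩

theorem sub_cy (h : Sub E S) : Sub (ℝ × E) (cy S) := by
  intro p hp
  obtain ⟨g, r, O, N, hP, hN⟩ := h p.2 hp
  refine ⟨fun y => (y.1, g y.2), fun x => (x.1, r x.2), univ ×ˢ O, univ ×ˢ N,
    ⟨isOpen_univ.prod hP.oO, isOpen_univ.prod hP.oN, ?_, ?_, fun y hy => ?_, fun x hx hx' => ?_⟩,
    ⟨trivial, hN⟩⟩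
  · exact contDiffOn_fst.prodMk (hP.sg.comp contDiffOn_snd fun y hy => hy.2)
  · exact contDiffOn_fst.prodMk (hP.sr.comp contDiffOn_snd fun y hy => hy.2)
  · have := hP.gm y.2 hy.2
    exact ⟨this.1, ⟨trivial, this.2.1⟩, by simp [this.2.2]⟩
  · have := hP.rm x.2 hx hx'.2
    exact ⟨⟨trivial, this.1⟩, by simp [this.2]⟩

theorem tg_ov {p v : X × F} : v ∈ Tg (ov S F) p ↔ v.1 ∈ Tg S p.1 := by
  constructor
  · rintro ⟨γ, h0, h1, h2⟩
    exact ⟨fun t => (γ t).1, by simp [h0],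
      (ContinuousLinearMap.fst ℝ X F).hasFDerivAt.comp_hasDerivAt 0 h1, h2⟩
  · rintro ⟨γ, h0, h1, h2⟩
    have h3 : HasDerivAt (fun t : ℝ => p.2 + t • v.2) v.2 0 := by
      simpa using ((hasDerivAt_id (0 : ℝ)).smul_const v.2).const_add p.2
    exact ⟨fun t => (γ t, p.2 + t • v.2), by simp [h0], h1.prodMk h3, h2⟩

theorem tg_cy {p v : ℝ × X} : v ∈ Tg (cy S) p ↔ v.2 ∈ Tg S p.2 := by
  constructor
  · rintro ⟨γ, h0, h1, h2⟩
    exact ⟨fun t => (γ t).2, by simp [h0],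
      (ContinuousLinearMap.snd ℝ ℝ X).hasFDerivAt.comp_hasDerivAt 0 h1, h2⟩
  · rintro ⟨γ, h0, h1, h2⟩
    have h3 : HasDerivAt (fun t : ℝ => p.1 + t • v.1) v.1 0 := by
      simpa using ((hasDerivAt_id (0 : ℝ)).smul_const v.1).const_add p.1
    exact ⟨fun t => (p.1 + t • v.1, γ t), by simp [h0], h3.prodMk h1, h2⟩

theorem tg_zero {x : X} (hx : x ∈ S) : (0 : X) ∈ Tg S x :=
  ⟨fun _ => x, rfl, hasDerivAt_const 0 x, .of_forall fun _ => hx⟩

variable {l : X → X →L[ℝ] ℝ} {Pi : X → (X →L[ℝ] ℝ) →L[ℝ] X}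

theorem lS_apply (x v : ℝ × (X × ℝ)) : lS l x v = exp x.1 * (l x.2.1 v.2.1 - v.2.2) := by
  simp [lS]

theorem rS_apply (β : (ℝ × (X × ℝ)) →L[ℝ] ℝ) (v : X) : rS β v = β (0, v, 0) := rfl

theorem contDiff_lS (hl : ContDiff ℝ ∞ l) : ContDiff ℝ ∞ (lS l) := by
  unfold lS
  exact (contDiff_exp.comp contDiff_fst).smul
    ((((hl.comp (contDiff_fst.comp contDiff_snd)).clm_comp contDiff_const).sub
      contDiff_const).clm_comp contDiff_const)

theorem fderiv_lS (hl : ContDiff ℝ ∞ l) (x u v : ℝ × (X × ℝ)) :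
    fderiv ℝ (lS l) x u v =
      exp x.1 * (u.1 * (l x.2.1 v.2.1 - v.2.2) + fderiv ℝ l x.2.1 u.2.1 v.2.1) := by
  have hd : DifferentiableAt ℝ l x.2.1 := hl.differentiable (by simp) _
  rw [fd_app ((contDiff_lS hl).differentiable (by simp) _), fd_app hd]
  have h1 : HasFDerivAt (fun y => l y v.2.1) (fderiv ℝ (fun y => l y v.2.1) x.2.1) x.2.1 :=
    (hd.clm_apply (differentiableAt_const _)).hasFDerivAt
  have h2 : HasFDerivAt (fun y : ℝ × (X × ℝ) => y.2.1)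
      ((ContinuousLinearMap.fst ℝ X ℝ).comp (ContinuousLinearMap.snd ℝ ℝ (X × ℝ))) x :=
    ((ContinuousLinearMap.fst ℝ X ℝ).comp (ContinuousLinearMap.snd ℝ ℝ (X × ℝ))).hasFDerivAt
  have h3 := ((hasFDerivAt_fst (𝕜 := ℝ) (p := x)).exp).mul ((h1.comp x h2).sub_const v.2.2)
  have h4 : (fun y => lS l y v) = (fun y : ℝ × (X × ℝ) => exp y.1) *
      fun y => ((fun y => l y v.2.1) ∘ fun y : ℝ × (X × ℝ) => y.2.1) y - v.2.2 := by
    funext y; simp [lS_apply]
  rw [h4, h3.fderiv]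
  simp
  ring

theorem split3 (β : (ℝ × (X × ℝ)) →L[ℝ] ℝ) (v : ℝ × (X × ℝ)) :
    β v = v.1 * β (1, 0, 0) + β (0, v.2.1, 0) + v.2.2 * β (0, 0, 1) := by
  have : v = v.1 • ((1, 0, 0) : ℝ × (X × ℝ)) + (0, v.2.1, 0) + v.2.2 • (0, 0, 1) := by
    ext <;> simp
  conv_lhs => rw [this]
  simp only [map_add, map_smul, smul_eq_mul]

theorem split3' (β : (X × ℝ × ℝ) →L[ℝ] ℝ) (v : X × ℝ × ℝ) :
    β v = β (v.1, 0, 0) + v.2.1 * β (0, 1, 0) + v.2.2 * β (0, 0, 1) := by
  have : v = (v.1, 0, 0) + v.2.1 • ((0, 1, 0) : X × ℝ × ℝ) + v.2.2 • (0, 0, 1) := by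
    ext <;> simp
  conv_lhs => rw [this]
  simp only [map_add, map_smul, smul_eq_mul]

/-- the Liouville form of the cover -/
noncomputable def lH (l : X → X →L[ℝ] ℝ) (q : X × ℝ × ℝ) : (X × ℝ × ℝ) →L[ℝ] ℝ :=
  (l q.1).comp (ContinuousLinearMap.fst ℝ X (ℝ × ℝ)) +
    (q.2.2 • ContinuousLinearMap.fst ℝ ℝ ℝ - ContinuousLinearMap.snd ℝ ℝ ℝ).comp
      (ContinuousLinearMap.snd ℝ X (ℝ × ℝ))

theorem lH_apply (q v : X × ℝ × ℝ) : lH l q v = l q.1 v.1 + (q.2.2 * v.2.1 - v.2.2) := by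
  simp [lH]

theorem contDiff_lH (hl : ContDiff ℝ ∞ l) : ContDiff ℝ ∞ (lH l) := by
  unfold lH
  exact ((hl.comp contDiff_fst).clm_comp contDiff_const).add
    ((((contDiff_snd.comp contDiff_snd).smul contDiff_const).sub contDiff_const).clm_comp
      contDiff_const)

theorem fderiv_lH (hl : ContDiff ℝ ∞ l) (q u v : X × ℝ × ℝ) :
    fderiv ℝ (lH l) q u v = fderiv ℝ l q.1 u.1 v.1 + u.2.2 * v.2.1 := by
  have hd : DifferentiableAt ℝ l q.1 := hl.differentiable (by simp) _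
  rw [fd_app ((contDiff_lH hl).differentiable (by simp) _), fd_app hd]
  have h1 : HasFDerivAt (fun y => l y v.1) (fderiv ℝ (fun y => l y v.1) q.1) q.1 :=
    (hd.clm_apply (differentiableAt_const _)).hasFDerivAt
  have h2 : HasFDerivAt (fun y : X × ℝ × ℝ => y.2.2)
      ((ContinuousLinearMap.snd ℝ ℝ ℝ).comp (ContinuousLinearMap.snd ℝ X (ℝ × ℝ))) q :=
    ((ContinuousLinearMap.snd ℝ ℝ ℝ).comp (ContinuousLinearMap.snd ℝ X (ℝ × ℝ))).hasFDerivAt
  have h3 := (h1.comp q (hasFDerivAt_fst (𝕜 := ℝ) (p := q))).add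
    ((h2.mul_const v.2.1).sub_const v.2.2)
  have h4 : (fun y => lH l y v) = ((fun y => l y v.1) ∘ Prod.fst) +
      fun y : X × ℝ × ℝ => y.2.2 * v.2.1 - v.2.2 := by
    funext y; simp [lH_apply]
  rw [h4, h3.fderiv]
  simp
  ring

variable [FiniteDimensional ℝ X]

theorem contDiff_PS (hl : ContDiff ℝ ∞ l) (hP : ContDiff ℝ ∞ Pi) : ContDiff ℝ ∞ (PS l Pi) := by
  refine contDiff_clm_apply_iff.2 fun β => ?_
  simp only [PS_apply]
  have h1 : ContDiff ℝ ∞ fun σ : X × ℝ => Pi σ.1 (rS β + β (0, 0, 1) • l σ.1) :=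
    (hP.comp contDiff_fst).clm_apply
      (contDiff_const.add ((hl.comp contDiff_fst).const_smul (β (0, 0, 1))))
  exact contDiff_const.prodMk
    (h1.prodMk (((hl.comp contDiff_fst).clm_apply h1).add contDiff_const))

theorem contDiff_PH (hP : ContDiff ℝ ∞ Pi) : ContDiff ℝ ∞ (PH Pi) := by
  refine contDiff_clm_apply_iff.2 fun β => ?_
  simp only [PH_apply]
  exact ((hP.comp contDiff_fst).clm_apply contDiff_const).prodMk contDiff_const

end Symp

open Symp in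
theorem symp : SympStmt := by
  intro V E _ _ _ _ _ M l Pi h
  have tg2 : ∀ x v : ℝ × (V × ℝ), v ∈ Tg (cy (ov M ℝ)) x ↔ v.2.1 ∈ Tg M x.2.1 := fun x v =>
    tg_cy.trans tg_ov
  refine ⟨⟨contDiff_PS h.sl h.sP, fun x hx c β => ?_, fun x hx β β' hβ => ?_⟩,
    ⟨sub_cy (sub_ov h.sub), contDiff_lS h.sl, ?_, fun x hx β => ?_, fun x hx β v hv => ?_⟩,
    fun x => ?_, fun x v _ => tg2 x v, fun q v _ => tg_ov,
    ⟨sub_ov h.sub, contDiff_lH h.sl, contDiff_PH h.sP, fun q hq β => ?_, fun q hq β v hv => ?_⟩⟩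
  · rw [tg2]
    have := h.sub.tg_smul (x := x.2.1) hx c (h.tan x.2.1 hx (rS β + β (0, 0, 1) • l x.2.1))
    simpa [PS_apply] using this
  · have e1 : β (0, 0, 1) = β' (0, 0, 1) := hβ _ ((tg2 _ _).2 (tg_zero hx))
    have e2 : β (1, 0, 0) = β' (1, 0, 0) := hβ _ ((tg2 _ _).2 (tg_zero hx))
    have e3 : Pi x.2.1 (rS β + β (0, 0, 1) • l x.2.1) =
        Pi x.2.1 (rS β' + β' (0, 0, 1) • l x.2.1) :=
      h.congr hx fun v hv => by
        have : β (0, v, 0) = β' (0, v, 0) := hβ _ ((tg2 _ _).2 hv)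
        simp only [add_apply, rS_apply, this, e1]
    rw [PS_apply, PS_apply, e3, e1, e2]
  · refine contDiff_clm_apply_iff.2 fun β => ?_
    exact (contDiff_exp.comp contDiff_fst.neg).smul
      (((contDiff_PS h.sl h.sP).comp contDiff_snd).clm_apply (contDiff_const (c := β)))
  · rw [tg2]
    have := h.sub.tg_smul (x := x.2.1) hx (exp (-x.1))
      (h.tan x.2.1 hx (rS β + β (0, 0, 1) • l x.2.1))
    simpa [PS_apply] using this
  · have k := h.dual x.2.1 hx (rS β + β (0, 0, 1) • l x.2.1) v.2.1 ((tg2 _ _).1 hv)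
    have e : exp x.1 * exp (-x.1) = 1 := by rw [← exp_add]; simp
    simp only [dd, add_apply, smul_apply, rS_apply,
      smul_eq_mul] at k
    rw [split3 β v]
    simp only [dd, fderiv_lS h.sl, smul_apply, PS_apply, Prod.smul_fst,
      Prod.smul_snd, smul_eq_mul, map_smul]
    set w := Pi x.2.1 (rS β + β (0, 0, 1) • l x.2.1)
    linear_combination (exp x.1 * exp (-x.1)) * k +
      (v.1 * β (1, 0, 0) + β (0, v.2.1, 0) + v.2.2 * β (0, 0, 1)) * e
  · have e0 : lS l x (0, 0, 1) = -exp x.1 := by simp [lS_apply]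
    have e1 : lS l x (1, 0, 0) = 0 := by simp [lS_apply]
    have e2 : rS (lS l x) + lS l x (0, 0, 1) • l x.2.1 = 0 := by
      ext v
      simp [rS_apply, lS_apply]
    have e : exp (-x.1) * exp x.1 = 1 := by rw [← exp_add]; simp
    rw [PS_apply, e2, e0, e1]
    ext <;> simp [e]
  · exact tg_ov.2 (h.tan q.1 hq _)
  · have k := h.dual q.1 hq (β.comp (ContinuousLinearMap.inl ℝ V (ℝ × ℝ))) v.1 (tg_ov.1 hv)
    have e : β.comp (ContinuousLinearMap.inl ℝ V (ℝ × ℝ)) v.1 = β (v.1, 0, 0) := rfl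
    rw [e, dd] at k
    change dd (lH l) q (PH Pi q β) v = β v
    rw [split3' β v]
    simp only [dd, fderiv_lH h.sl, PH_apply]
    linear_combination k

end Pool.Agent.MP_6d695c_gt.T1

end MrgPart3

-- ======== part 4: formerly Pool.Agent.MP_6d695c_gt.t1.Chart
section MrgPart4

/-! PROJECT T1, row CHART: contact charts of the contactisation. -/

open scoped ContDiff Topology
open Set Metric Filter Real

namespace Pool.Agent.MP_6d695c_gt.T1

open SW SW.Darb Theta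

namespace Chart

section Gen
variable {X : Type} [NormedAddCommGroup X] [NormedSpace ℝ X] {E : Type} [NormedAddCommGroup E]
  [NormedSpace ℝ E] {S : Set X} {g : E → X} {r : X → E} {O : Set E} {N : Set X}

theorem par_ov (h : Par S g r O N) : Par (ov S ℝ) (fun y : E × ℝ => (g y.1, y.2))
    (fun x => (r x.1, x.2)) (O ×ˢ univ) (N ×ˢ univ) := by
  refine ⟨h.oO.prod isOpen_univ, h.oN.prod isOpen_univ, ?_, ?_, fun y hy => ?_, fun x hx hx' => ?_⟩
  · exact (h.sg.comp contDiffOn_fst fun y hy => hy.1).prodMk contDiffOn_snd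
  · exact (h.sr.comp contDiffOn_fst fun y hy => hy.1).prodMk contDiffOn_snd
  · have := h.gm y.1 hy.1
    exact ⟨this.1, ⟨this.2.1, trivial⟩, by simp [this.2.2]⟩
  · have := h.rm x.1 hx hx'.1
    exact ⟨⟨this.1, trivial⟩, by simp [this.2]⟩

theorem par_cy (h : Par S g r O N) : Par (cy S) (fun y : ℝ × E => (y.1, g y.2))
    (fun x => (x.1, r x.2)) (univ ×ˢ O) (univ ×ˢ N) := by
  refine ⟨isOpen_univ.prod h.oO, isOpen_univ.prod h.oN, ?_, ?_, fun y hy => ?_, fun x hx hx' => ?_⟩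
  · exact contDiffOn_fst.prodMk (h.sg.comp contDiffOn_snd fun y hy => hy.2)
  · exact contDiffOn_fst.prodMk (h.sr.comp contDiffOn_snd fun y hy => hy.2)
  · have := h.gm y.2 hy.2
    exact ⟨this.1, ⟨trivial, this.2.1⟩, by simp [this.2.2]⟩
  · have := h.rm x.2 hx hx'.2
    exact ⟨⟨trivial, this.1⟩, by simp [this.2]⟩

theorem tg_cy {x v : ℝ × X} : v ∈ Tg (cy S) x ↔ v.2 ∈ Tg S x.2 := by
  constructor
  · rintro ⟨γ, h0, h1, h2⟩
    exact ⟨fun t => (γ t).2, by simp [h0],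
      (ContinuousLinearMap.snd ℝ ℝ X).hasFDerivAt.comp_hasDerivAt (0 : ℝ) h1, h2⟩
  · rintro ⟨γ, h0, h1, h2⟩
    have h3 : HasDerivAt (fun t : ℝ => x.1 + t • v.1) v.1 0 := by
      simpa using ((hasDerivAt_id (0 : ℝ)).smul_const v.1).const_add x.1
    exact ⟨fun t => (x.1 + t • v.1, γ t), by simp [h0], h3.prodMk h1, h2⟩

/-- Darboux in the parameter space -/
theorem loc [FiniteDimensional ℝ E] {E' : Type} [NormedAddCommGroup E'] [NormedSpace ℝ E']
    {l : X → X →L[ℝ] ℝ} {Pi : X → (X →L[ℝ] ℝ) →L[ℝ] X} (h : Smp E' S l Pi) (hP : Par S g r O N)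
    {y : E} (hy : y ∈ O) (h0 : ∃ v ∈ Tg S (g y), l (g y) v ≠ 0) :
    ∃ (n : ℕ) (Θ : Q n → E), ContDiff ℝ ∞ Θ ∧ Θ 0 = y ∧
      Module.finrank ℝ (Q n) = Module.finrank ℝ E ∧
      ∀ᶠ q in 𝓝 (0 : Q n), Θ q ∈ O ∧ pb l (g ∘ Θ) q = l0 q := by
  have hp := (hP.gm y hy).1
  obtain ⟨b, hb, -, hs, h1, -⟩ := exists_cut (isCompact_singleton (x := y)) hP.oO
    (singleton_subset_iff.2 hy)
  have sl : ContDiff ℝ ∞ fun y => b y • pb l g y := contDiff_cut_smul hP.oO hb hs fun y hy =>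
    (contDiffAt_pb h.sl.contDiffAt (hP.cg hy)).contDiffWithinAt
  have he : (fun y => b y • pb l g y) =ᶠ[𝓝 y] pb l g :=
    (h1 _ rfl).mono fun y hy => by simp only [hy, one_smul]
  have htg := hP.tg hy
  obtain ⟨n, Θ, sΘ, Θ0, hr, hΘ⟩ := local_darb sl (y := y) (fun u hu => by
    have : fderiv ℝ g y u = 0 := h.nondeg hp (htg ▸ mem_range_self u) fun v hv => by
      rw [htg] at hv
      obtain ⟨w, rfl⟩ := hv
      have := hu w
      rwa [dd_congr he, dd_pb h.sl.contDiffAt (hP.cg hy)] at this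
    rw [← hP.dr_dg hy u, this, map_zero]) fun e => by
    obtain ⟨v, hv, hv0⟩ := h0
    rw [htg] at hv
    obtain ⟨w, rfl⟩ := hv
    exact hv0 (congrArg (fun T => T w) (he.self_of_nhds.symm.trans e))
  refine ⟨n, Θ, sΘ, Θ0, hr, ?_⟩
  filter_upwards [sΘ.continuous.continuousAt.preimage_mem_nhds (hP.oO.mem_nhds (Θ0 ▸ hy)),
    sΘ.continuous.continuousAt.eventually (Θ0 ▸ he), hΘ] with q k2 k3 k4
  refine ⟨k2, ?_⟩
  rw [pb_comp (hP.cg k2) sΘ.contDiffAt, ← k4, pb, ← k3]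
  rfl

/-- reparametrisation by a local diffeomorphism -/
theorem repar {F : Type} [NormedAddCommGroup F] [NormedSpace ℝ F] [CompleteSpace F]
    (hp : Par S g r O N) {f : F → E} {U : Set F} (hU : IsOpen U) (hf : ContDiffOn ℝ ∞ f U)
    (h1 : ∀ q ∈ U, f q ∈ O ∧ (fderiv ℝ f q).IsInvertible) {y : F} (hy : y ∈ U) :
    ∃ r' O' N', Par S (g ∘ f) r' O' N' ∧ O' ⊆ U ∧ y ∈ O' := by
  have cf : ∀ q ∈ U, ContDiffAt ℝ ∞ f q := fun q hq => hf.contDiffAt (hU.mem_nhds hq)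
  obtain ⟨A, hA⟩ := (h1 y hy).2
  have hA' : HasFDerivAt f (A : F →L[ℝ] E) y := by
    rw [hA]
    exact ((cf y hy).differentiableAt (by simp)).hasFDerivAt
  set e := (cf y hy).toOpenPartialHomeomorph f hA' (by simp) with hedef
  have h0 : y ∈ e.source := (cf y hy).mem_toOpenPartialHomeomorph_source hA' (by simp)
  have hef : ∀ q, e q = f q := fun _ => rfl
  have hU' := hU.inter e.open_source
  refine ⟨e.symm ∘ r, U ∩ e.source, N ∩ r ⁻¹' (e.target ∩ e.symm ⁻¹' (U ∩ e.source)), ⟨hU',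
    hp.sr.continuousOn.isOpen_inter_preimage hp.oN (e.isOpen_inter_preimage_symm hU'),
    hp.sg.comp (hf.mono inter_subset_left) fun q hq => (h1 q hq.1).1, fun x hx => ?_,
    fun q hq => ?_, fun x hx hN => ?_⟩, inter_subset_left, hy, h0⟩
  · obtain ⟨B, hB⟩ := (h1 _ hx.2.2.1).2
    refine ((e.contDiffAt_symm (f₀' := B) hx.2.1 ?_ (cf _ hx.2.2.1)).comp x
      (hp.cr hx.1)).contDiffWithinAt
    rw [hB]
    exact ((cf _ hx.2.2.1).differentiableAt (by simp)).hasFDerivAt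
  · obtain ⟨k3, k4, k5⟩ := hp.gm _ (h1 q hq.1).1
    have k6 := e.left_inv hq.2
    rw [hef] at k6
    refine ⟨k3, ⟨k4, ?_⟩, ?_⟩
    · rw [mem_preimage, Function.comp_apply, k5]
      exact ⟨e.map_source hq.2, by rwa [mem_preimage, k6]⟩
    · rw [Function.comp_apply, Function.comp_apply, k5, k6]
  · refine ⟨hN.2.2, ?_⟩
    rw [Function.comp_apply, Function.comp_apply, ← hef, e.right_inv hN.2.1]
    exact (hp.rm x hx hN.1).2

end Gen

section Model
variable {n : ℕ}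

/-- from the Heisenberg group to the model of Darboux -/
noncomputable def cv (y : Y n) : Q n :=
  (Fin.cons 0 fun j => log (y.2.2 j), Fin.cons y.1 y.2.1)

/-- the domain of `cv` -/
def Up (n : ℕ) : Set (Y n) := {y | ∀ j, 0 < y.2.2 j}

theorem isOpen_Up : IsOpen (Up n) := by
  have : Up n = ⋂ j, {y : Y n | 0 < y.2.2 j} := by ext; simp [Up]
  rw [this]
  exact isOpen_iInter_of_finite fun j => isOpen_lt continuous_const (by fun_prop)

/-- the base point -/
def y1 (n : ℕ) : Y n := (0, 0, fun _ => 1)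

theorem y1_mem : y1 n ∈ Up n := fun _ => one_pos

theorem cv_y1 : cv (y1 n) = 0 := by
  refine Prod.ext (funext fun i => ?_) (funext fun i => ?_) <;>
    refine Fin.cases ?_ (fun j => ?_) i <;> simp [cv, y1]

theorem contDiffAt_cv {y : Y n} (hy : y ∈ Up n) : ContDiffAt ℝ ∞ cv y := by
  refine ContDiffAt.prodMk (contDiffAt_pi.2 fun i => ?_) (contDiffAt_pi.2 fun i => ?_)
  · refine Fin.cases ?_ (fun j => ?_) i
    · simpa using contDiffAt_const
    · simp only [Fin.cons_succ]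
      exact ContDiffAt.log (by fun_prop) (hy j).ne'
  · refine Fin.cases ?_ (fun j => ?_) i
    · simp only [Fin.cons_zero]
      fun_prop
    · simp only [Fin.cons_succ]
      fun_prop

theorem al0_apply (y v : Y n) : al0 y v = v.1 + ∑ j, y.2.2 j * v.2.1 j := by
  simp [al0, Lt_apply]

theorem l0_cv {y : Y n} (hy : y ∈ Up n) (v : Y n) : l0 (cv y) (fderiv ℝ cv y v) = al0 y v := by
  have d := ((contDiffAt_cv hy).differentiableAt (by simp)).hasFDerivAt
  have k : ∀ (i : Fin (n + 1)) (L : Y n →L[ℝ] ℝ), (∀ y, (cv y).2 i = L y) →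
      (fderiv ℝ cv y v).2 i = L v := fun i L hL => by
    have h1 := ((ContinuousLinearMap.proj (R := ℝ) (φ := fun _ : Fin (n + 1) => ℝ) i).comp
      (ContinuousLinearMap.snd ℝ (Fin (n + 1) → ℝ) _)).hasFDerivAt.comp y d
    have h2 := h1.unique ((L.hasFDerivAt (x := y)).congr_of_eventuallyEq (.of_forall hL))
    exact congrArg (fun T => T v) h2
  rw [l0_apply, al0_apply, Fin.sum_univ_succ, k 0 (ContinuousLinearMap.fst ℝ _ _) fun _ => rfl]
  congr 1
  · simp [cv]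
  · refine Finset.sum_congr rfl fun j _ => ?_
    rw [k j.succ ((ContinuousLinearMap.proj j).comp ((ContinuousLinearMap.fst ℝ _ _).comp
      (ContinuousLinearMap.snd ℝ ℝ _))) fun _ => rfl]
    simp [cv, exp_log (hy j)]

theorem finrank_Y : Module.finrank ℝ (Y n) = 2 * n + 1 := by
  simp [Module.finrank_prod]
  ring

theorem finrank_Q : Module.finrank ℝ (Q n) = 2 * n + 2 := by
  simp [Module.finrank_prod]
  ring

end Model

section Main
variable {V : Type} [NormedAddCommGroup V] [NormedSpace ℝ V] {l : V → V →L[ℝ] ℝ} {n : ℕ}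

theorem lS_apply (x v : ℝ × (V × ℝ)) : lS l x v = exp x.1 * (l x.2.1 v.2.1 - v.2.2) := by
  simp [lS]

theorem lam0_apply (x v : ℝ × Y n) : lam0 x v = exp x.1 * al0 x.2 v.2 := by
  simp [lam0]

/-- a map that pulls the contact form back to a multiple of the model is an immersion -/
theorem inj (model : ModelStmt) (sl : ContDiff ℝ ∞ (lS l)) {g : Y n → V × ℝ} {τ : Y n → ℝ}
    {U : Set (Y n)} (hU : IsOpen U) (hg : ContDiffOn ℝ ∞ g U) (hτ : ContDiffOn ℝ ∞ τ U)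
    (hF : ∀ y ∈ U, ∀ v, l (g y).1 (fderiv ℝ g y v).1 - (fderiv ℝ g y v).2 = exp (τ y) * al0 y v)
    {y : Y n} (hy : y ∈ U) {w : Y n} (hw : fderiv ℝ g y w = 0) : w = 0 := by
  let Ψ : ℝ × Y n → ℝ × (V × ℝ) := fun q => (q.1 - τ q.2, g q.2)
  have cg : ∀ y ∈ U, ContDiffAt ℝ ∞ g y := fun y hy => hg.contDiffAt (hU.mem_nhds hy)
  have cτ : ∀ y ∈ U, ContDiffAt ℝ ∞ τ y := fun y hy => hτ.contDiffAt (hU.mem_nhds hy)
  have dΨ : ∀ q : ℝ × Y n, q.2 ∈ U → ∀ v, fderiv ℝ Ψ q v =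
      (v.1 - fderiv ℝ τ q.2 v.2, fderiv ℝ g q.2 v.2) := fun q hq v => by
    have h1 := ((cτ _ hq).differentiableAt (by simp)).hasFDerivAt.comp q hasFDerivAt_snd
    have h2 := ((cg _ hq).differentiableAt (by simp)).hasFDerivAt.comp q hasFDerivAt_snd
    have h3 : fderiv ℝ Ψ q = _ := ((hasFDerivAt_fst.sub h1).prodMk h2).fderiv
    rw [h3]
    simp
  have cΨ : ContDiffAt ℝ ∞ Ψ (0, y) :=
    (contDiffAt_fst.sub ((cτ y hy).comp (0, y) contDiffAt_snd)).prodMk
      ((cg y hy).comp (0, y) contDiffAt_snd)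
  have he : pb (lS l) Ψ =ᶠ[𝓝 (0, y)] lam0 := by
    filter_upwards [continuous_snd.continuousAt.preimage_mem_nhds
      (hU.mem_nhds (show ((0 : ℝ), y).2 ∈ U from hy))] with q hq
    refine ContinuousLinearMap.ext fun v => ?_
    rw [pb_apply, dΨ q hq, lS_apply, lam0_apply, hF _ hq, ← mul_assoc, ← exp_add, sub_add_cancel]
  have h0 := (model n).1.nondeg (x := (0, y)) (u := (fderiv ℝ τ y w, w)) trivial (tg_univ _ _)
    fun v _ => by
      rw [← dd_congr he, dd_pb sl.contDiffAt cΨ, dΨ (0, y) hy, sub_self, hw]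
      simp [dd, show (((0 : ℝ), (0 : V × ℝ))) = 0 from rfl]
  exact congrArg Prod.snd h0

variable [FiniteDimensional ℝ V] {M : Set V} {Pi : V → (V →L[ℝ] ℝ) →L[ℝ] V}

/-- a chart that pulls the contact form back to a multiple of the model is a contact chart -/
theorem cch (prel : PrelStmt) (model : ModelStmt) {E : Type} [NormedAddCommGroup E]
    [NormedSpace ℝ E]
    (hS : Smp E (cy (ov M ℝ)) (lS l) fun x => exp (-x.1) • PS l Pi x.2)
    {g : Y n → V × ℝ} {r : V × ℝ → Y n} {τ : Y n → ℝ} {O : Set (Y n)} {N : Set (V × ℝ)}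
    (hp : Par (ov M ℝ) g r O N) (sr : ContDiff ℝ ∞ r) (sτ : ContDiff ℝ ∞ τ)
    (hF : ∀ y ∈ O, ∀ v, l (g y).1 (fderiv ℝ g y v).1 - (fderiv ℝ g y v).2 = exp (τ y) * al0 y v) :
    CCh (ov M ℝ) (PS l Pi) g r τ O N := by
  refine ⟨hp, sr, sτ, fun x hx hN β => ?_⟩
  have sk : ContDiff ℝ ∞ (kap r τ) :=
    (contDiff_fst.add (sτ.comp (sr.comp contDiff_snd))).prodMk (sr.comp contDiff_snd)
  have dk : ∀ q v : ℝ × (V × ℝ), fderiv ℝ (kap r τ) q v =
      (v.1 + fderiv ℝ τ (r q.2) (fderiv ℝ r q.2 v.2), fderiv ℝ r q.2 v.2) := fun q v => by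
    have h1 := (sr.differentiable (by simp) q.2).hasFDerivAt.comp q hasFDerivAt_snd
    have h2 := (sτ.differentiable (by simp) (r q.2)).hasFDerivAt.comp q h1
    have h3 : fderiv ℝ (kap r τ) q = _ := ((hasFDerivAt_fst.add h2).prodMk h1).fderiv
    rw [h3]
    simp
  have key := (prel _ _ _ _ _ (univ ×ˢ N) univ _ _ _ _ (kap r τ) 1 x hS (model n).1
    (isOpen_univ.prod hp.oN) ⟨trivial, hN⟩ hx sk.contDiffOn (fun q hq hqN => ⟨trivial, fun v hv => by
      obtain ⟨h1, h2⟩ := hp.rm q.2 hq hqN.2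
      have h3 := hp.ret hq hqN.2 (tg_cy.1 hv)
      have h4 := hF _ h1 (fderiv ℝ r q.2 v.2)
      rw [h3, h2] at h4
      rw [dk, lam0_apply, lS_apply, h4, one_mul, ← mul_assoc, ← exp_add]
      rfl⟩) fun w _ => by
      obtain ⟨h1, h2⟩ := hp.rm x.2 hx hN
      have h3 := hp.tg h1
      have h4 := hp.dr_dg h1 w.2
      rw [h2] at h3 h4
      refine ⟨(w.1 - fderiv ℝ τ (r x.2) w.2, fderiv ℝ g (r x.2) w.2),
        tg_cy.2 (h3 ▸ mem_range_self _), ?_⟩
      rw [dk, h4, sub_add_cancel]).1 β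
  simp only [smul_apply, map_smul, one_smul] at key
  have e : exp (-(kap r τ x).1) = exp (-x.1) * exp (-τ (r x.2)) := by
    rw [← exp_add, ← neg_add]; rfl
  rw [e, mul_smul] at key
  exact smul_right_injective _ (exp_ne_zero _) key

end Main

end Chart

open Chart in
theorem chart (prel : PrelStmt) (model : ModelStmt) (symp : SympStmt) : ChartStmt := by
  intro V _ _ _ n M l Pi φ s h x hx _
  obtain ⟨-, hS, -, hT, -⟩ := symp V _ M l Pi (smp_of_amb h)
  obtain ⟨g0, r0, O0, N0, hP0, hN0⟩ := h.sub x hx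
  obtain ⟨hy0, hg0⟩ := hP0.rm x hx hN0
  have hP1 := par_ov hP0
  have hP2 := par_cy hP1
  obtain ⟨n', Θ, sΘ, Θ0, hr, hΘ⟩ := loc hS hP2 (y := (0, (r0 x, 0))) ⟨trivial, hy0, trivial⟩
    ⟨(0, (0, 1)), (hT _ _ (by simpa [hg0] using hx)).2
      ⟨fun _ => g0 (r0 x), rfl, hasDerivAt_const _ _, .of_forall fun _ => by rwa [hg0]⟩,
      by simp [lS_apply]⟩
  obtain rfl : n' = n := by
    rw [finrank_Q] at hr
    simp [Module.finrank_prod] at hr
    omega
  have hc : ContinuousAt cv (y1 n') := (contDiffAt_cv y1_mem).continuousAt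
  obtain ⟨U0, hU0, oU0, yU0⟩ := _root_.eventually_nhds_iff.1 (hc.eventually (cv_y1 ▸ hΘ))
  have oU := oU0.inter (isOpen_Up (n := n'))
  set U := U0 ∩ Up n' with hUdef
  have yU : y1 n' ∈ U := ⟨yU0, y1_mem⟩
  have sc : ContDiffOn ℝ ∞ (Θ ∘ cv) U := fun y hy =>
    (sΘ.contDiffAt.comp y (contDiffAt_cv hy.2)).contDiffWithinAt
  set f : Y n' → Euc (2 * n') × ℝ := fun y => (Θ (cv y)).2 with hf
  set τ0 : Y n' → ℝ := fun y => -(Θ (cv y)).1 with hτ0
  set g1 : Euc (2 * n') × ℝ → V × ℝ := fun y => (g0 y.1, y.2) with hg1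
  have sf : ContDiffOn ℝ ∞ f U := sc.snd
  have sτ0 : ContDiffOn ℝ ∞ τ0 U := sc.fst.neg
  have fO : ∀ y ∈ U, f y ∈ O0 ×ˢ univ := fun y hy => (hU0 y hy.1).1.2
  have sg : ContDiffOn ℝ ∞ (g1 ∘ f) U := hP1.sg.comp sf fO
  have hF : ∀ y ∈ U, ∀ v, l ((g1 ∘ f) y).1 (fderiv ℝ (g1 ∘ f) y v).1 -
      (fderiv ℝ (g1 ∘ f) y v).2 = exp (τ0 y) * al0 y v := fun y hy v => by
    obtain ⟨k1, k2⟩ := hU0 y hy.1
    have c1 : ContDiffAt ℝ ∞ ((fun y : ℝ × (Euc (2 * n') × ℝ) => (y.1, g1 y.2)) ∘ Θ) (cv y) :=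
      (hP2.cg k1).comp _ sΘ.contDiffAt
    have k3 := congrArg (fun T => T v) (pb_comp (a := lS l) c1 (contDiffAt_cv hy.2))
    simp only [pb_apply (pb _ _)] at k3
    rw [k2, l0_cv hy.2, pb_apply, lS_apply] at k3
    have d1 := ((c1.comp y (contDiffAt_cv hy.2)).differentiableAt (by simp)).hasFDerivAt
    have d2 : fderiv ℝ (g1 ∘ f) y = _ := d1.snd.fderiv
    rw [d2, ← k3, ← mul_assoc, ← exp_add]
    simp [hτ0, hf]
  have hinv : ∀ y ∈ U, (fderiv ℝ f y).IsInvertible := fun y hy => by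
    have hi : Function.Injective (fderiv ℝ f y).toLinearMap :=
      (injective_iff_map_eq_zero _).2 fun w hw => inj model hS.sl oU sg sτ0 hF hy (by
        rw [fderiv_comp y (hP1.dg (fO y hy))
          ((sf.contDiffAt (oU.mem_nhds hy)).differentiableAt (by simp)),
          ContinuousLinearMap.comp_apply, show fderiv ℝ f y w = 0 from hw, map_zero])
    exact ⟨((fderiv ℝ f y).toLinearMap.linearEquivOfInjective hi (by
      rw [finrank_Y]; simp [Module.finrank_prod])).toContinuousLinearEquiv,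
      ContinuousLinearMap.ext fun _ => rfl⟩
  obtain ⟨r1, O1, N1, hp1, hO1, yO1⟩ := repar hP1 oU sf (fun y hy => ⟨fO y hy, hinv y hy⟩) yU
  obtain ⟨b, hb, -, hs, h1, -⟩ := exists_cut (isCompact_singleton (x := y1 n')) oU
    (singleton_subset_iff.2 yU)
  obtain ⟨W, hW, oW, yW⟩ := _root_.eventually_nhds_iff.1 (h1 _ rfl)
  have hp2 := hp1.mono (hp1.oO.inter oW) inter_subset_left
  have hb0 : (g1 ∘ f) (y1 n') = (x, 0) := by simp [hg1, hf, cv_y1, Θ0, hg0]
  obtain ⟨k1, k2, -⟩ := hp2.gm (y1 n') ⟨yO1, yW⟩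
  rw [hb0] at k1 k2
  obtain ⟨r, O, N, hp3, sr, xN, -, hO, -⟩ := hp2.global k1 k2
  refine ⟨g1 ∘ f, r, fun y => b y • τ0 y, O, N,
    cch prel model hS hp3 sr (contDiff_cut_smul oU hb hs sτ0) fun y hy v => ?_, xN⟩
  rw [hF y (hO1 (hO hy).1), hW y (hO hy).2, one_smul]

end Pool.Agent.MP_6d695c_gt.T1

end MrgPart4

-- ======== part 5: formerly Pool.Agent.MP_6d695c_gt.t1.Lie
section MrgPart5

/-! PROJECT T1, module LIE: the map `pr` relates the inverses of the symplectic forms. -/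

open scoped Manifold ContDiff Topology MeasureTheory
open Set Metric Filter Real

namespace Pool.Agent.MP_6d695c_gt.T1

open SW Theta

namespace Lie

section Gen
variable {X : Type} [NormedAddCommGroup X] [NormedSpace ℝ X] {X' : Type} [NormedAddCommGroup X']
  [NormedSpace ℝ X']

/-- a map of subsets maps tangent vectors to tangent vectors -/
theorem tg_map {S : Set X} {S' : Set X'} {A : X → X'} {p v : X} (hA : DifferentiableAt ℝ A p)
    (h : ∀ᶠ x in 𝓝[S] p, A x ∈ S') (hv : v ∈ Tg S p) : fderiv ℝ A p v ∈ Tg S' (A p) := by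
  obtain ⟨γ, h0, h1, h2⟩ := hv
  subst h0
  have h3 : Tendsto γ (𝓝 0) (𝓝[S] (γ 0)) :=
    tendsto_nhdsWithin_iff.2 ⟨h1.continuousAt.tendsto, h2⟩
  exact ⟨A ∘ γ, rfl, hA.hasFDerivAt.comp_hasDerivAt (0 : ℝ) h1, h3.eventually h⟩

theorem der_slice {F : ℝ × X → X'} {s : ℝ} {x : X} (h : DifferentiableAt ℝ F (s, x)) :
    HasDerivAt (fun t => F (t, x)) (fderiv ℝ F (s, x) (1, 0)) s :=
  HasFDerivAt.comp_hasDerivAt (f := fun t => (t, x)) s h.hasFDerivAt
    ((hasDerivAt_id s).prodMk (hasDerivAt_const s x))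

variable {W : X → X} {fl : ℝ → X → X} (hf : IsFlow W fl)
include hf

theorem flow_sm (s : ℝ) : ContDiff ℝ ∞ (fl s) :=
  hf.sm.comp (contDiff_const.prodMk contDiff_id)

theorem flow_fderiv (s : ℝ) (x : X) (a : ℝ) (u : X) :
    fderiv ℝ (fun q : ℝ × X => fl q.1 q.2) (s, x) (a, u) =
      a • W (fl s x) + fderiv ℝ (fl s) x u := by
  have h0 := (hf.sm.differentiable (by simp) (s, x)).hasFDerivAt
  have h1 := (der_slice h0.differentiableAt).unique (hf.der x s)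
  have h2 : fderiv ℝ (fl s) x = _ := (h0.comp x (hasFDerivAt_prodMk_right s x)).fderiv
  rw [h2, ← h1, ← map_smul, ContinuousLinearMap.comp_apply, ← map_add]
  simp

end Gen

variable {V : Type} [NormedAddCommGroup V] [NormedSpace ℝ V] {E : Type} [NormedAddCommGroup E]
  [NormedSpace ℝ E] {M : Set V} {l : V → V →L[ℝ] ℝ} {Pi : V → (V →L[ℝ] ℝ) →L[ℝ] V} {φ : V → ℝ}
  {Z : V → V} {fl : ℝ → V → V}

theorem l_Z (h : Smp E M l Pi) (hc : Cut M l Pi φ Z fl) {x : V} (hx : x ∈ M) (h4 : φ x < 4) :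
    l x (Z x) = 0 := by
  rw [hc.eq x hx h4.le]
  exact h.self hx _

theorem tg_flow (hφ : ContDiff ℝ ∞ φ) (hc : Cut M l Pi φ Z fl) {x v : V} (h4 : φ x < 4)
    (hv : v ∈ Tg M x) (s : ℝ) : fderiv ℝ (fl s) x v ∈ Tg M (fl s x) := by
  refine tg_map ((flow_sm hc.flow s).differentiable (by simp) x) ?_ hv
  have : ∀ᶠ y in 𝓝 x, φ y < 4 := hφ.continuous.continuousAt.eventually_lt continuousAt_const h4
  filter_upwards [self_mem_nhdsWithin, mem_nhdsWithin_of_mem_nhds this] with y h1 h2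
  exact (hc.inv s y h1 (by linarith [show φ y < 4 from h2])).1

/-- the flow expands the Liouville form -/
theorem conf (h : Smp E M l Pi) (hφ : ContDiff ℝ ∞ φ) (hc : Cut M l Pi φ Z fl) {x v : V}
    (hx : x ∈ M) (hv : v ∈ Tg M x) {t : ℝ} (ht : ∀ s ∈ uIcc 0 t, φ (fl s x) < 4) :
    l (fl t x) (fderiv ℝ (fl t) x v) = exp t * l x v := by
  have hf := hc.flow
  have h4 : φ x < 4 := by simpa [hf.zero] using ht 0 left_mem_uIcc
  obtain ⟨g, r, O, N, hP, hN⟩ := h.sub x hx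
  obtain ⟨hy, hg⟩ := hP.rm x hx hN
  have e := hP.tg hy
  rw [hg] at e
  obtain ⟨u, hu⟩ : v ∈ range (fderiv ℝ g (r x)) := e ▸ hv
  generalize r x = y at hy hg hu
  subst hg hu
  set F : ℝ × E → V := fun q => fl q.1 (g q.2) with hF
  have sG : ∀ s : ℝ, ∀ z ∈ O, ContDiffAt ℝ ∞ (fun q : ℝ × E => (q.1, g q.2)) (s, z) :=
    fun s z hz => contDiffAt_fst.prodMk ((hP.cg hz).comp (s, z) contDiffAt_snd)
  have sF : ∀ s : ℝ, ∀ z ∈ O, ContDiffAt ℝ ∞ F (s, z) := fun s z hz =>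
    hf.sm.contDiffAt.comp (s, z) (sG s z hz)
  have dF : ∀ s : ℝ, ∀ z ∈ O, ∀ a w, fderiv ℝ F (s, z) (a, w) =
      a • Z (fl s (g z)) + fderiv ℝ (fl s) (g z) (fderiv ℝ g z w) := fun s z hz a w => by
    have h1 : HasFDerivAt (fun q : ℝ × E => (q.1, g q.2)) _ (s, z) :=
      hasFDerivAt_fst.prodMk ((hP.dg hz).hasFDerivAt.comp (s, z) hasFDerivAt_snd)
    have h2 := (hf.sm.differentiable (by simp) (s, g z)).hasFDerivAt.comp (s, z) h1
    rw [show fderiv ℝ F (s, z) = _ from h2.fderiv, ← flow_fderiv hf]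
    rfl
  set A : ℝ × E → (ℝ × E) →L[ℝ] ℝ := fun q => (l (F q)).comp (fderiv ℝ F q) with hA
  have sA : ∀ s : ℝ, DifferentiableAt ℝ A (s, y) := fun s =>
    (((h.sl.contDiffAt.comp (s, y) (sF s y hy)).clm_comp
      ((sF s y hy).fderiv_right (m := ∞) (by simp)))).differentiableAt (by simp)
  have hv' : ∀ s, A (s, y) (0, u) = l (fl s (g y)) (fderiv ℝ (fl s) (g y) (fderiv ℝ g y u)) :=
    fun s => by
      rw [hA, ContinuousLinearMap.comp_apply, dF s y hy, zero_smul, zero_add]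
  have hd : ∀ s ∈ uIcc 0 t, HasDerivAt (fun s => A (s, y) (0, u)) (A (s, y) (0, u)) s :=
    fun s hs => by
      have d0 := (der_slice (sA s)).clm_apply (hasDerivAt_const s ((0 : ℝ), u))
      rw [map_zero, add_zero] at d0
      have hM := (hc.inv s _ hx (by linarith)).1
      have e1 : dd A (s, y) (1, 0) (0, u) = A (s, y) (0, u) := by
        rw [hv', hA, dd_pullback (h.sl.differentiable (by simp) _) ((sF s y hy).of_le (by norm_cast)),
          dF s y hy, dF s y hy, map_zero, map_zero, add_zero, one_smul, zero_smul, zero_add,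
          hc.eq _ hM (ht s hs).le]
        exact h.dual _ hM _ _ (tg_flow hφ hc h4 hv s)
      have e2 : (fun q => A q (1, 0)) =ᶠ[𝓝 (s, y)] fun _ => 0 := by
        have c1 : ∀ᶠ q : ℝ × E in 𝓝 (s, y), q.2 ∈ O :=
          continuous_snd.continuousAt.preimage_mem_nhds (hP.oO.mem_nhds hy)
        have c2 : ∀ᶠ q : ℝ × E in 𝓝 (s, y), φ (g q.2) < 4 :=
          (hφ.continuous.continuousAt.comp ((hP.cg hy).continuousAt.comp_of_eq
            continuous_snd.continuousAt rfl)).eventually_lt continuousAt_const h4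
        have c3 : ∀ᶠ q : ℝ × E in 𝓝 (s, y), φ (F q) < 4 :=
          (hφ.continuous.continuousAt.comp (sF s y hy).continuousAt).eventually_lt
            continuousAt_const (ht s hs)
        filter_upwards [c1, c2, c3] with q q1 q2 q3
        rw [hA, ContinuousLinearMap.comp_apply, dF q.1 q.2 q1, map_zero, map_zero, add_zero,
          one_smul]
        exact l_Z h hc (hc.inv _ _ (hP.gm _ q1).1 (by linarith)).1 q3
      have e3 := e2.fderiv_eq (𝕜 := ℝ)
      rw [fderiv_clm_apply (sA s) (differentiableAt_const _)] at e3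
      have e4 := congrArg (fun T => T (0, u)) e3
      simp only [dd] at e1
      simp at e4
      rwa [show fderiv ℝ A (s, y) (1, 0) (0, u) = A (s, y) (0, u) by linarith] at d0
  have key := (convex_uIcc 0 t).norm_image_sub_le_of_norm_hasDerivWithin_le
    (f := fun s => exp (-s) * A (s, y) (0, u)) (f' := fun _ => 0) (C := 0)
    (fun s hs => by
      exact (((hasDerivAt_neg s).exp.fun_mul (hd s hs)).congr_deriv (by ring)).hasDerivWithinAt)
    (fun _ _ => by simp) left_mem_uIcc right_mem_uIcc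
  rw [zero_mul, norm_le_zero_iff, sub_eq_zero, hv', hv', show fl 0 = id from funext hf.zero,
    fderiv_id] at key
  simp only [neg_zero, exp_zero, one_mul, id_eq, ContinuousLinearMap.id_apply] at key
  rw [← key, ← mul_assoc, ← exp_add, add_neg_cancel, exp_zero, one_mul]

theorem sm_pr (hf : IsFlow Z fl) : ContDiff ℝ ∞ (pr fl) :=
  contDiff_snd.fst.prodMk ((hf.sm.comp (contDiff_snd.fst.neg.prodMk contDiff_fst)).prodMk
    (contDiff_snd.fst.neg.exp.mul contDiff_snd.snd))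

theorem fderiv_pr (hf : IsFlow Z fl) (q v : V × ℝ × ℝ) : fderiv ℝ (pr fl) q v =
    (v.2.1, -v.2.1 • Z (fl (-q.2.1) q.1) + fderiv ℝ (fl (-q.2.1)) q.1 v.1,
      exp (-q.2.1) * (v.2.2 - q.2.2 * v.2.1)) := by
  have h1 : HasFDerivAt (fun q : V × ℝ × ℝ => q.2.1) _ q := (hasFDerivAt_snd (𝕜 := ℝ)).fst
  have h2 : HasFDerivAt (fun q : V × ℝ × ℝ => q.2.2) _ q := (hasFDerivAt_snd (𝕜 := ℝ)).snd
  have h3 := (hf.sm.differentiable (by simp) (-q.2.1, q.1)).hasFDerivAt.comp q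
    (h1.neg.prodMk hasFDerivAt_fst)
  have h4 : fderiv ℝ (pr fl) q = _ := (h1.prodMk (h3.prodMk (h1.neg.exp.mul h2))).fderiv
  rw [h4, ← flow_fderiv hf]
  refine Prod.ext rfl (Prod.ext rfl ?_)
  simp
  ring

/-- the inverse of `pr` -/
noncomputable def up (fl : ℝ → V → V) (x : ℝ × (V × ℝ)) : V × ℝ × ℝ :=
  (fl x.1 x.2.1, x.1, exp x.1 * x.2.2)

theorem sm_up (hf : IsFlow Z fl) : ContDiff ℝ ∞ (up fl) :=
  (hf.sm.comp (contDiff_fst.prodMk contDiff_snd.fst)).prodMk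
    (contDiff_fst.prodMk (contDiff_fst.exp.mul contDiff_snd.snd))

theorem pr_up (hf : IsFlow Z fl) (x : ℝ × (V × ℝ)) : pr fl (up fl x) = x := by
  simp only [pr, up, ← hf.add, neg_add_cancel, hf.zero, ← mul_assoc, ← exp_add, exp_zero, one_mul]

theorem up_pr (hf : IsFlow Z fl) (q : V × ℝ × ℝ) : up fl (pr fl q) = q := by
  simp only [pr, up, ← hf.add, add_neg_cancel, hf.zero, ← mul_assoc, ← exp_add, exp_zero, one_mul]

theorem fderiv_pr_Z (hf : IsFlow Z fl) (q : V × ℝ × ℝ) :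
    fderiv ℝ (pr fl) q (Z q.1, 1, q.2.2) = (1, 0) := by
  have h1 : HasDerivAt (fun s => fl s q.1) (Z q.1) 0 := by simpa [hf.zero] using hf.der q.1 0
  have h2 := HasFDerivAt.comp_hasDerivAt_of_eq (0 : ℝ)
    ((flow_sm hf (-q.2.1)).differentiable (by simp) q.1).hasFDerivAt h1 (hf.zero _).symm
  have h3 : HasDerivAt (fun s => fl s (fl (-q.2.1) q.1)) (Z (fl (-q.2.1) q.1)) 0 := by
    simpa [hf.zero] using hf.der (fl (-q.2.1) q.1) 0
  have h4 := h2.unique (h3.congr_of_eventuallyEq (.of_forall fun s => by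
    simp only [Function.comp, ← hf.add, add_comm]))
  rw [fderiv_pr hf, h4]
  simp

theorem seg {t s : ℝ} (hs : s ∈ uIcc 0 t) : ∃ r ∈ Icc (0 : ℝ) 1, s = r * t := by
  rw [← segment_eq_uIcc, segment_eq_image] at hs
  obtain ⟨r, hr, rfl⟩ := hs
  exact ⟨r, hr, by simp⟩

theorem seg' {t r : ℝ} (hr : r ∈ Icc (0 : ℝ) 1) : r * t ∈ uIcc 0 t := by
  rw [← segment_eq_uIcc, segment_eq_image]
  exact ⟨r, hr, by simp⟩

end Lie

open T1.Lie in
theorem lie (prel : PrelStmt) (symp : SympStmt) : LieStmt := by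
  intro V E _ _ _ _ _ M l Pi φ Z fl h hφ hc
  have hf := hc.flow
  refine ⟨sm_pr hf, fun q hq h4 => ⟨by rw [← hc.eq _ hq h4.le, fderiv_pr_Z hf], fun ht β => ?_⟩⟩
  obtain ⟨-, s1, -, -, t2, s2⟩ := symp V E M l Pi h
  have c0 : Continuous fun z : (V × ℝ × ℝ) × ℝ => φ (fl (z.2 * -z.1.2.1) z.1.1) :=
    hφ.continuous.comp (hf.sm.continuous.comp
      (f := fun z : (V × ℝ × ℝ) × ℝ => (z.2 * -z.1.2.1, z.1.1)) (by fun_prop))
  have ev : ∀ᶠ q' : V × ℝ × ℝ in 𝓝 q, ∀ r ∈ Icc (0 : ℝ) 1, φ (fl (r * -q'.2.1) q'.1) < 4 :=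
    isCompact_Icc.eventually_forall_of_forall_eventually fun r hr =>
      c0.continuousAt.eventually_lt continuousAt_const (ht _ (seg' hr))
  obtain ⟨N, hN, oN, qN⟩ := _root_.eventually_nhds_iff.1 ev
  have key := (prel _ _ _ _ _ N _ _ _ _ _ (pr fl) 1 q s2 s1 oN qN hq (sm_pr hf).contDiffOn
    (fun x hx xN => ?_) fun w hw => ?_).1 β
  · rw [key, one_smul]
    rfl
  · have b : ∀ s ∈ uIcc 0 (-x.2.1), φ (fl s x.1) < 4 := fun s hs => by
      obtain ⟨r, hr, rfl⟩ := seg hs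
      exact hN x xN r hr
    have b0 : φ x.1 < 4 := by simpa [hf.zero] using b 0 left_mem_uIcc
    have hM := (hc.inv (-x.2.1) _ hx (by linarith)).1
    refine ⟨hM, fun v hv => ?_⟩
    have e1 := conf h hφ hc hx ((t2 x v hx).1 hv) b
    have e2 := l_Z h hc hM (b _ right_mem_uIcc)
    have e3 : exp x.2.1 * exp (-x.2.1) = 1 := by rw [← exp_add, add_neg_cancel, exp_zero]
    rw [fderiv_pr hf]
    simp [lS, pr, e1, e2]
    linear_combination (l x.1 v.1 - (v.2.2 - x.2.2 * v.2.1)) * e3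
  · have d1 := (sm_up hf).differentiable (by simp) (pr fl q)
    have d2 := (sm_pr hf).differentiable (by simp) q
    refine ⟨fderiv ℝ (up fl) (pr fl q) w, ?_, ?_⟩
    · have := tg_map (S' := ov M (ℝ × ℝ)) d1 ?_ hw
      · rwa [up_pr hf] at this
      have c1 : ∀ᶠ y : ℝ × (V × ℝ) in 𝓝 (pr fl q), φ y.2.1 < 4 :=
        (hφ.continuous.comp continuous_snd.fst).continuousAt.eventually_lt continuousAt_const
          (ht _ right_mem_uIcc)
      filter_upwards [self_mem_nhdsWithin, mem_nhdsWithin_of_mem_nhds c1] with y y1 y2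
      exact (hc.inv y.1 _ y1 (by linarith [show φ y.2.1 < 4 from y2])).1
    · have h1 := HasFDerivAt.comp (pr fl q) (g := pr fl) (f := up fl)
        (by rw [up_pr hf]; exact d2.hasFDerivAt) d1.hasFDerivAt
      rw [show pr fl ∘ up fl = id from funext (pr_up hf)] at h1
      simpa using congrArg (fun L => L w) (h1.unique (hasFDerivAt_id _))

end Pool.Agent.MP_6d695c_gt.T1

end MrgPart5

-- ======== part 6: formerly Pool.Agent.MP_6d695c_gt.t1.Cov
section MrgPart6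

/-! PROJECT T1, row COV: the data on the cover. -/

open scoped Manifold ContDiff Topology MeasureTheory
open Set Metric Filter Real

namespace Pool.Agent.MP_6d695c_gt.T1

open SW Theta

namespace CovAux

variable {V : Type} [NormedAddCommGroup V] [NormedSpace ℝ V] {M : Set V}
  {l : V → V →L[ℝ] ℝ} {Pi : V → (V →L[ℝ] ℝ) →L[ℝ] V} {φ : V → ℝ} {Z : V → V} {fl : ℝ → V → V}

theorem pr_mem (hc : Cut M l Pi φ Z fl) {q : V × ℝ × ℝ} (hq : q ∈ ov M (ℝ × ℝ))
    (h5 : φ q.1 ≤ 5) : pr fl q ∈ cy (ov M ℝ) :=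
  (hc.inv (-q.2.1) q.1 hq h5).1

theorem ev_lt (hφ : ContDiff ℝ ∞ φ) {q : V × ℝ × ℝ} {c : ℝ} (h : φ q.1 < c) :
    ∀ᶠ q' in 𝓝 q, φ q'.1 < c :=
  (hφ.continuous.comp continuous_fst).continuousAt.eventually (gt_mem_nhds h)

theorem ev_gt (hφ : ContDiff ℝ ∞ φ) {q : V × ℝ × ℝ} {c : ℝ} (h : c < φ q.1) :
    ∀ᶠ q' in 𝓝 q, c < φ q'.1 :=
  (hφ.continuous.comp continuous_fst).continuousAt.eventually (lt_mem_nhds h)

theorem pr_tendsto (hc : Cut M l Pi φ Z fl) (hφ : ContDiff ℝ ∞ φ) (hp : ContDiff ℝ ∞ (pr fl))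
    {q : V × ℝ × ℝ} (h5 : φ q.1 < 5) :
    Tendsto (pr fl) (𝓝[ov M (ℝ × ℝ)] q) (𝓝[cy (ov M ℝ)] (pr fl q)) := by
  refine tendsto_nhdsWithin_iff.2 ⟨hp.continuous.continuousAt.tendsto.mono_left nhdsWithin_le_nhds,
    ?_⟩
  filter_upwards [self_mem_nhdsWithin, mem_nhdsWithin_of_mem_nhds (ev_lt hφ h5)] with q' h1 h2
  exact pr_mem hc h1 h2.le

/-- the inverse of `pr` -/
noncomputable def ip (fl : ℝ → V → V) (x : ℝ × (V × ℝ)) : V × ℝ × ℝ :=
  (fl x.1 x.2.1, x.1, exp x.1 * x.2.2)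

theorem ip_pr (hf : IsFlow Z fl) (q : V × ℝ × ℝ) : ip fl (pr fl q) = q := by
  obtain ⟨x, θ, p⟩ := q
  simp only [ip, pr]
  rw [← hf.add, add_neg_cancel, hf.zero, ← mul_assoc, ← exp_add, add_neg_cancel, exp_zero, one_mul]

theorem ip_sm (hf : IsFlow Z fl) : ContDiff ℝ ∞ (ip fl) := by
  have h1 : ContDiff ℝ ∞ fun x : ℝ × (V × ℝ) => fl x.1 x.2.1 :=
    hf.sm.comp (f := fun x : ℝ × (V × ℝ) => (x.1, x.2.1)) (by fun_prop)
  exact h1.prodMk (contDiff_fst.prodMk ((contDiff_exp.comp contDiff_fst).mul (by fun_prop)))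

end CovAux

open CovAux

theorem cov (rel : RelStmt) (symp : SympStmt) (top : TopStmt) (absS : AbsStmt) (lie : LieStmt) :
    CovStmt := by
  intro V _ _ _ _ _ n M K₀ l Pi φ hA hnn hK₀ hμ
  obtain ⟨Z, -, fl, hZ, -, hZe, hf, hinv⟩ := aflow V (Euc (2 * n)) M (fun x => Pi x (l x)) φ 4
    hA.sub hA.smZ hA.sφ (fun x hx => hA.tan x hx _) (hA.cpt _ (by norm_num))
  have hc : Cut M l Pi φ Z fl := ⟨hZ, hZe, hf, fun t x hx h5 => by
    have := hinv t x hx (by linarith)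
    exact ⟨this.1, by linarith [this.2]⟩⟩
  have hS := smp_of_amb hA
  have hφ := hA.sφ
  obtain ⟨hmono, K, hK, hKK, hKM, habs⟩ := absS V (Euc (2 * n)) M K₀ l Pi φ Z fl hA hnn hc hK₀
  obtain ⟨hp, hlie⟩ := lie V (Euc (2 * n)) M l Pi φ Z fl hS hφ hc
  obtain ⟨hSy, -, -, -, htg, hH⟩ := symp V (Euc (2 * n)) M l Pi hS
  obtain ⟨O, H, D, hO, hKO, hH0, htr⟩ := top V n M K l Pi φ (1 / 8) hA hK hKM
    (MeasureTheory.measure_mono_null hKK hμ)
  obtain ⟨f, Λ, Ξ, hT⟩ := htr 0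
  obtain ⟨L₀, hL₀, hL⟩ := habs O hO hKO
  obtain ⟨χ, hχ, hχ1, hχ0, -, -⟩ := exists_step (show (5 / 2 : ℝ) < 3 by norm_num)
  obtain ⟨C, -, hCΩ, hsupp⟩ := hT.supp
  set L : ℝ := 6 + |D| + L₀ + H with hLdef
  have hLD : 0 ≤ L + D := by
    have := neg_abs_le D
    linarith
  have hab := abs_nonneg D
  set F : V × ℝ × ℝ → ℝ := fun q => χ (φ q.1) * f (pr fl q) with hF
  set Ψ : ℝ × (V × ℝ) → ℝ := fun x => Λ x - (L + D) * Ξ x with hΨ
  have sF : ContDiff ℝ ∞ F := (hχ.comp (hφ.comp contDiff_fst)).mul (hT.sf.comp hp)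
  have sΨ : ContDiff ℝ ∞ Ψ := hT.sΛ.sub (contDiff_const.mul hT.sΞ)
  have hzero : ∀ q : V × ℝ × ℝ, φ q.1 < 5 → (∀ᶠ x in 𝓝[cy (ov M ℝ)] (pr fl q), f x = 0) →
      ∀ᶠ q' in 𝓝[ov M (ℝ × ℝ)] q, F q' = 0 := fun q h5 h0 => by
    filter_upwards [(pr_tendsto hc hφ hp h5).eventually h0] with q' hq'
    simp only [hF, hq', mul_zero]
  refine ⟨-H - 1, L, F, fun q => Ψ (pr fl q), by linarith, sF, sΨ.comp hp, fun q hq h => ?_,
    fun q hq h2 h => ?_, fun q hq h2 h => ?_, fun q hq h2 => ?_⟩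
  · by_cases h3 : 3 < φ q.1
    · filter_upwards [mem_nhdsWithin_of_mem_nhds (ev_gt hφ h3)] with q' hq'
      simp only [hF, hχ0 _ hq'.le, zero_mul]
    rw [not_lt] at h3
    refine hzero q (by linarith) (hsupp _ (pr_mem hc hq (by linarith)) ?_)
    by_cases h0 : 0 ≤ q.2.1
    · exact Or.inr (Or.inl h0)
    rw [not_le] at h0
    rcases h with h | h | h
    · exact Or.inl (show q.2.1 ≤ 0 - H by linarith)
    · linarith
    · refine Or.inr (Or.inr fun hC => ?_)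
      have h1 : φ (fl (-q.2.1) q.1) + (exp (-q.2.1) * q.2.2) ^ 2 < 1 := hCΩ hC
      have h4 := hmono q.1 hq (by linarith) 0 (-q.2.1) (by linarith)
        (by nlinarith [sq_nonneg (exp (-q.2.1) * q.2.2)])
      rw [hf.zero] at h4
      have h5 : 1 ≤ exp (-q.2.1) := one_le_exp (by linarith)
      have h6 : q.2.2 ^ 2 ≤ (exp (-q.2.1) * q.2.2) ^ 2 := by
        rw [mul_pow]
        exact le_mul_of_one_le_left (sq_nonneg _) (one_le_pow₀ h5)
      simp only [psH] at h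
      linarith
  · have h5 : φ q.1 ≤ 5 := by
      simp only [psH] at h2
      nlinarith [sq_nonneg q.2.2]
    obtain ⟨h3, h4⟩ := hT.low _ (pr_mem hc hq h5) (show q.2.1 ≤ 0 - H by linarith)
    simp only [hΨ, h3, h4, mul_zero, sub_zero]
    rfl
  · have h5 : φ q.1 ≤ 5 := by
      simp only [psH] at h2
      nlinarith [sq_nonneg q.2.2]
    obtain ⟨h3, h4⟩ := hT.high _ (pr_mem hc hq h5) (show 0 ≤ q.2.1 by linarith)
    simp only [hΨ, h3, h4 (hL q hq h2 (by linarith))]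
    show q.2.1 + D - (L + D) * 1 = _
    ring
  · have h5 : φ q.1 < 5 / 2 := by
      simp only [psH] at h2
      nlinarith [sq_nonneg q.2.2]
    have hup : Ly (cy (ov M ℝ)) (XS (PS l Pi) f) Ψ (pr fl q) := by
      refine (hT.lyap _ (pr_mem hc hq (by linarith))).le (pr_mem hc hq (by linarith)) ?_
      filter_upwards [self_mem_nhdsWithin] with y hy
      have h1 := (hT.sΛ.differentiable (by simp) y).hasFDerivAt
      have h3 := (hT.sΞ.differentiable (by simp) y).hasFDerivAt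
      have h4 : HasFDerivAt Ψ _ y := h1.sub (h3.const_mul (L + D))
      rw [h4.fderiv]
      have := mul_nonneg hLD (neg_nonneg.2 (hT.mono y hy))
      simp only [sub_apply, smul_apply, smul_eq_mul]
      linarith
    refine rel (V × ℝ × ℝ) (ℝ × (V × ℝ)) (ov M (ℝ × ℝ)) univ (cy (ov M ℝ)) (pr fl) (ip fl)
      (XH l Pi 1 F) (XS (PS l Pi) f) (fun q => Ψ (pr fl q)) Ψ q 0 isOpen_univ (mem_univ _) hq
      hp.contDiffOn ((ip_sm hf).differentiable (by simp) _) (sΨ.comp hp) sΨ ?_ hup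
    filter_upwards [self_mem_nhdsWithin, mem_nhdsWithin_of_mem_nhds (ev_lt hφ h5)] with y hy hy5
    have hm := pr_mem hc hy (by linarith)
    refine ⟨hm, ip_pr hf y, (htg y _ hy).2 ?_, ?_, (add_zero _).symm⟩
    · exact hA.sub.tg_add hy (hA.tan _ hy _) (hA.tan _ hy _)
    obtain ⟨hl1, hl2⟩ := hlie y hy (by linarith)
    rw [XH, map_add, hl1]
    by_cases hseg : ∀ t ∈ uIcc 0 (-y.2.1), φ (fl t y.1) < 4
    · have he : F =ᶠ[𝓝 y] f ∘ pr fl := by
        filter_upwards [ev_lt hφ hy5] with y' hy'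
        simp only [hF, hχ1 _ hy'.le, one_mul, Function.comp]
      rw [he.fderiv_eq, fderiv_comp y (hT.sf.differentiable (by simp) _)
        (hp.differentiable (by simp) _), hl2 hseg]
      rfl
    · have hout : (pr fl y).2 ∉ C := fun hC => hseg fun t ht => by
        have h1 : φ (fl (-y.2.1) y.1) + (exp (-y.2.1) * y.2.2) ^ 2 < 1 := hCΩ hC
        have h3 : φ (fl (-y.2.1) y.1) < 4 := by nlinarith [sq_nonneg (exp (-y.2.1) * y.2.2)]
        have h4 : φ (fl 0 y.1) < 4 := by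
          rw [hf.zero]
          linarith
        rcases le_max_iff.1 ht.2 with h | h
        · exact (hmono y.1 hy (by linarith) t 0 h h4).trans_lt h4
        · exact (hmono y.1 hy (by linarith) t _ h h3).trans_lt h3
      have h0 := hsupp _ hm (Or.inr (Or.inr hout))
      rw [hSy.XS_zero hm (hT.sf.differentiable (by simp) _) h0,
        hH.congr (β := 0) hy fun v hv => ?_, map_zero, map_zero, add_zero]
      rw [fderiv_congr_tg (sF.differentiable (by simp) _) (differentiableAt_const (0 : ℝ)) hy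
        (hzero y (by linarith) h0) hv]
      simp

end Pool.Agent.MP_6d695c_gt.T1

end MrgPart6

-- ======== part 7: formerly Pool.Agent.MP_6d695c_gt.t1.SmpC
section MrgPart7

/-! PROJECT T1, module SMPC: the product with the circle and the line is symplectic. -/

open scoped Manifold ContDiff Topology
open Set Metric Filter Real

namespace Pool.Agent.MP_6d695c_gt.T1

open SW Theta

section SmpC
variable {V : Type} [NormedAddCommGroup V] [NormedSpace ℝ V] {M : Set V} {φ : V → ℝ} {c : ℝ}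

theorem smpC_nsq {z : ℂ} (hz : ‖z‖ = 1) : z.re * z.re + z.im * z.im = 1 := by
  rw [← Complex.normSq_apply, Complex.normSq_eq_norm_sq, hz, one_pow]

theorem smpC_conj {z : ℂ} (hz : ‖z‖ = 1) : z * starRingEnd ℂ z = 1 := by
  rw [Complex.mul_conj, Complex.normSq_eq_norm_sq, hz]; simp

omit [NormedSpace ℝ V] in
theorem smpC_cont (hφ : Continuous φ) : Continuous (psC φ c) := by
  unfold psC
  fun_prop

theorem smpC_tg (hφ : Continuous φ) {q : V × ℂ × ℝ} (hq : q ∈ MC M φ c) (v : V × ℂ × ℝ) :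
    v ∈ Tg (MC M φ c) q ↔ v.1 ∈ Tg M q.1 ∧ ∃ a : ℝ, v.2.1 = a • (Complex.I * q.2.1) := by
  have hn := smpC_nsq hq.2.1
  constructor
  · rintro ⟨γ, h0, h1, h2⟩
    have d1 : HasDerivAt (fun t => (γ t).1) v.1 0 :=
      (ContinuousLinearMap.fst ℝ V (ℂ × ℝ)).hasFDerivAt.comp_hasDerivAt (0 : ℝ) h1
    have d2 : HasDerivAt (fun t => (γ t).2.1) v.2.1 0 :=
      ((ContinuousLinearMap.fst ℝ ℂ ℝ).comp
        (ContinuousLinearMap.snd ℝ V (ℂ × ℝ))).hasFDerivAt.comp_hasDerivAt (0 : ℝ) h1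
    have d3 : HasDerivAt (fun t => (γ t).2.1.re) v.2.1.re 0 :=
      Complex.reCLM.hasFDerivAt.comp_hasDerivAt (0 : ℝ) d2
    have d4 : HasDerivAt (fun t => (γ t).2.1.im) v.2.1.im 0 :=
      Complex.imCLM.hasFDerivAt.comp_hasDerivAt (0 : ℝ) d2
    have d5 := (d3.mul d3).add (d4.mul d4)
    have d6 : HasDerivAt (fun _ : ℝ => (1 : ℝ)) _ 0 := d5.congr_of_eventuallyEq (by
      filter_upwards [h2] with t ht using (smpC_nsq ht.2.1).symm)
    have d7 := d6.unique (hasDerivAt_const (0 : ℝ) (1 : ℝ))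
    rw [h0] at d7
    refine ⟨⟨fun t => (γ t).1, by simp [h0], d1, h2.mono fun t ht => ht.1⟩,
      q.2.1.re * v.2.1.im - q.2.1.im * v.2.1.re, ?_⟩
    apply Complex.ext
    · simp
      linear_combination (-v.2.1.re) * hn + (q.2.1.re / 2) * d7
    · simp
      linear_combination (-v.2.1.im) * hn + (q.2.1.im / 2) * d7
  · rintro ⟨⟨γ, h0, h1, h2⟩, a, ha⟩
    have d1 : HasDerivAt (fun t : ℝ => ((a * t : ℝ) : ℂ) * Complex.I) ((a : ℂ) * Complex.I) 0 := by
      have := ((hasDerivAt_id (0 : ℝ)).const_mul a).ofReal_comp.mul_const Complex.I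
      simpa using this
    have d2 : HasDerivAt (fun t : ℝ => q.2.1 * Complex.exp (((a * t : ℝ) : ℂ) * Complex.I))
        v.2.1 0 := by
      refine (d1.cexp.const_mul q.2.1).congr_deriv ?_
      rw [ha]
      simp
      ring
    have d3 : HasDerivAt (fun t : ℝ => q.2.2 + t * v.2.2) v.2.2 0 := by
      simpa using ((hasDerivAt_id (0 : ℝ)).mul_const v.2.2).const_add q.2.2
    have d4 := h1.prodMk (d2.prodMk d3)
    have e0 : (γ 0, q.2.1 * Complex.exp (((a * 0 : ℝ) : ℂ) * Complex.I), q.2.2 + 0 * v.2.2) = q := by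
      simp [h0]
    refine ⟨_, e0, d4, ?_⟩
    have c1 := ((smpC_cont (c := c) hφ).continuousAt.comp d4.continuousAt).eventually
      (gt_mem_nhds (a := 6) (by
        exact lt_of_eq_of_lt (congrArg (psC φ c) e0) hq.2.2))
    filter_upwards [h2, c1] with t ht ht'
    refine ⟨ht, ?_, ht'⟩
    show ‖q.2.1 * Complex.exp (((a * t : ℝ) : ℂ) * Complex.I)‖ = 1
    rw [norm_mul, hq.2.1, Complex.norm_exp_ofReal_mul_I, one_mul]

theorem smpC_sub {E : Type} [NormedAddCommGroup E] [NormedSpace ℝ E] (h : Sub E M)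
    (hφ : Continuous φ) : Sub (E × ℝ × ℝ) (MC M φ c) := by
  intro p hp
  obtain ⟨g, r, O, N, hP, hN⟩ := h p.1 hp.1
  have hz := smpC_conj hp.2.1
  set z := p.2.1 with hzz
  have sg : ContDiffOn ℝ ∞ (fun y : E × ℝ × ℝ =>
      ((g y.1, z * Complex.exp ((y.2.1 : ℂ) * Complex.I), y.2.2) : V × ℂ × ℝ))
      (O ×ˢ (Ioo (-π) π ×ˢ univ)) := by
    refine (hP.sg.comp contDiffOn_fst fun y hy => hy.1).prodMk
      (ContDiff.contDiffOn (ContDiff.prodMk ?_ (by fun_prop)))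
    refine contDiff_const.mul (ContDiff.cexp (ContDiff.mul ?_ contDiff_const))
    exact Complex.ofRealCLM.contDiff.comp (by fun_prop)
  have oO : IsOpen (O ×ˢ (Ioo (-π) π ×ˢ (univ : Set ℝ))) :=
    hP.oO.prod (isOpen_Ioo.prod isOpen_univ)
  have ee : ∀ θ : ℝ, z * Complex.exp ((θ : ℂ) * Complex.I) * starRingEnd ℂ z =
      Complex.exp ((θ : ℂ) * Complex.I) := fun θ => by
    rw [mul_right_comm, hz, one_mul]
  have ea : ∀ θ ∈ Ioo (-π) π, (Complex.exp ((θ : ℂ) * Complex.I)).arg = θ := fun θ hθ => by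
    rw [Complex.exp_mul_I]
    exact_mod_cast Complex.arg_cos_add_sin_mul_I ⟨hθ.1, hθ.2.le⟩
  refine ⟨fun y => (g y.1, z * Complex.exp ((y.2.1 : ℂ) * Complex.I), y.2.2),
    fun x => (r x.1, (x.2.1 * starRingEnd ℂ z).arg, x.2.2),
    O ×ˢ (Ioo (-π) π ×ˢ univ) ∩ (fun y : E × ℝ × ℝ => psC φ c
      (g y.1, z * Complex.exp ((y.2.1 : ℂ) * Complex.I), y.2.2)) ⁻¹' Iio 6,
    N ×ˢ ({w | w * starRingEnd ℂ z ∈ Complex.slitPlane} ×ˢ univ),
    ⟨?_, ?_, sg.mono inter_subset_left, ?_, fun y hy => ?_, fun x hx hx' => ?_⟩, hN, ?_, trivial⟩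
  · exact ((smpC_cont hφ).comp_continuousOn sg.continuousOn).isOpen_inter_preimage oO isOpen_Iio
  · exact hP.oN.prod ((Complex.isOpen_slitPlane.preimage (by fun_prop)).prod isOpen_univ)
  · refine (hP.sr.comp contDiffOn_fst fun y hy => hy.1).prodMk
      (ContDiffOn.prodMk (fun x hx => ContDiffAt.contDiffWithinAt ?_) (by fun_prop))
    have h1 : ContDiffAt ℝ ∞ Complex.log (x.2.1 * starRingEnd ℂ z) :=
      (Complex.contDiffAt_log hx.2.1).restrict_scalars ℝ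
    have h2 : ContDiffAt ℝ ∞ (fun x : V × ℂ × ℝ => x.2.1 * starRingEnd ℂ z) x := by fun_prop
    have h3 := Complex.imCLM.contDiff.contDiffAt.comp x (h1.comp x h2)
    simpa [Function.comp_def, Complex.log_im] using h3
  · have h1 := hP.gm y.1 hy.1.1
    have h2 := ea _ hy.1.2.1
    refine ⟨⟨h1.1, ?_, hy.2⟩, ⟨h1.2.1, ?_, trivial⟩, ?_⟩
    · show ‖z * Complex.exp ((y.2.1 : ℂ) * Complex.I)‖ = 1
      rw [norm_mul, hp.2.1, Complex.norm_exp_ofReal_mul_I, one_mul]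
    · show z * Complex.exp ((y.2.1 : ℂ) * Complex.I) * starRingEnd ℂ z ∈ Complex.slitPlane
      rw [ee, Complex.mem_slitPlane_iff_arg, h2]
      exact ⟨hy.1.2.1.2.ne, Complex.exp_ne_zero _⟩
    · show (r (g y.1), (z * Complex.exp ((y.2.1 : ℂ) * Complex.I) * starRingEnd ℂ z).arg,
        y.2.2) = y
      rw [ee, h2, h1.2.2]
  · have h1 := hP.rm x.1 hx.1 hx'.1
    have h2 : ‖x.2.1 * starRingEnd ℂ z‖ = 1 := by
      rw [norm_mul, hx.2.1, Complex.norm_conj, hp.2.1, one_mul]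
    have h3 := Complex.norm_mul_exp_arg_mul_I (x.2.1 * starRingEnd ℂ z)
    rw [h2, Complex.ofReal_one, one_mul] at h3
    have h4 : (g (r x.1), z * Complex.exp (((x.2.1 * starRingEnd ℂ z).arg : ℂ) * Complex.I),
        x.2.2) = x := by
      rw [h1.2, h3, mul_left_comm, hz, mul_one]
    refine ⟨⟨⟨h1.1, ⟨Complex.neg_pi_lt_arg _, ?_⟩, trivial⟩, ?_⟩, h4⟩
    · exact lt_of_le_of_ne (Complex.arg_le_pi _) (Complex.slitPlane_arg_ne_pi hx'.2.1)
    · show psC φ c _ < 6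
      rw [h4]; exact hx.2.2
  · show z * starRingEnd ℂ z ∈ Complex.slitPlane
    rw [hz]; exact Complex.one_mem_slitPlane

theorem lC_apply (l : V → V →L[ℝ] ℝ) (q v : V × ℂ × ℝ) :
    lC l q v = l q.1 v.1 + q.2.2 * (q.2.1.re * v.2.1.im - q.2.1.im * v.2.1.re) := by
  simp [lC]
  left; ring

theorem smpC_sl [FiniteDimensional ℝ V] {l : V → V →L[ℝ] ℝ} (hl : ContDiff ℝ ∞ l) :
    ContDiff ℝ ∞ (lC l) := by
  refine contDiff_clm_apply_iff.2 fun v => ?_
  simp only [lC_apply]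
  have h1 : ContDiff ℝ ∞ fun q : V × ℂ × ℝ => q.2.1.re :=
    Complex.reCLM.contDiff.comp (by fun_prop)
  have h2 : ContDiff ℝ ∞ fun q : V × ℂ × ℝ => q.2.1.im :=
    Complex.imCLM.contDiff.comp (by fun_prop)
  exact ((hl.comp contDiff_fst).clm_apply contDiff_const).add (ContDiff.mul (by fun_prop)
    ((h1.mul contDiff_const).sub (h2.mul contDiff_const)))

theorem smpC_sP [FiniteDimensional ℝ V] {Pi : V → (V →L[ℝ] ℝ) →L[ℝ] V} (hP : ContDiff ℝ ∞ Pi) :
    ContDiff ℝ ∞ (PC Pi) := by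
  refine contDiff_clm_apply_iff.2 fun β => ?_
  simp only [PC_apply]
  exact ((hP.comp contDiff_fst).clm_apply contDiff_const).prodMk
    (ContDiff.prodMk (by fun_prop) (β.contDiff.comp (by fun_prop)))

theorem smpC_fd [FiniteDimensional ℝ V] {l : V → V →L[ℝ] ℝ} (hl : ContDiff ℝ ∞ l)
    (q u v : V × ℂ × ℝ) :
    fderiv ℝ (lC l) q u v = fderiv ℝ l q.1 u.1 v.1 +
      (u.2.2 * (q.2.1.re * v.2.1.im - q.2.1.im * v.2.1.re) +
        q.2.2 * (u.2.1.re * v.2.1.im - u.2.1.im * v.2.1.re)) := by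
  have d0 : HasDerivAt (fun t : ℝ => q + t • u) u 0 := by
    simpa using ((hasDerivAt_id (0 : ℝ)).smul_const u).const_add q
  have d1 : HasDerivAt (fun t : ℝ => q.1 + t • u.1) u.1 0 := by
    simpa using ((hasDerivAt_id (0 : ℝ)).smul_const u.1).const_add q.1
  have lin : ∀ a b : ℝ, HasDerivAt (fun t : ℝ => a + t * b) b 0 := fun a b => by
    simpa using ((hasDerivAt_id (0 : ℝ)).mul_const b).const_add a
  have a1 := (HasFDerivAt.comp_hasDerivAt_of_eq (0 : ℝ)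
    ((smpC_sl hl).differentiable (by simp) q).hasFDerivAt d0 (by simp)).clm_apply
      (hasDerivAt_const (0 : ℝ) v)
  have a2 := (HasFDerivAt.comp_hasDerivAt_of_eq (0 : ℝ)
    (hl.differentiable (by simp) q.1).hasFDerivAt d1 (by simp)).clm_apply
      (hasDerivAt_const (0 : ℝ) v.1)
  have a3 := a2.add ((lin q.2.2 u.2.2).mul (((lin q.2.1.re u.2.1.re).mul_const v.2.1.im).sub
    ((lin q.2.1.im u.2.1.im).mul_const v.2.1.re)))
  have a4 := a1.unique (a3.congr_of_eventuallyEq (Eventually.of_forall fun t => by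
    simp [lC_apply]))
  simpa using a4

end SmpC

theorem smpC : SmpCStmt := by
  intro V E _ _ _ _ _ M l Pi φ c h hφ
  refine ⟨⟨smpC_sub h.sub hφ, smpC_sl h.sl, smpC_sP h.sP, fun q hq α => ?_,
    fun q hq α v hv => ?_⟩, fun q hq v => smpC_tg hφ hq v⟩
  · exact (smpC_tg hφ hq _).2 ⟨h.tan _ hq.1 _, -α (0, 0, 1), rfl⟩
  · obtain ⟨h1, a, ha⟩ := (smpC_tg hφ hq v).1 hv
    have hn := smpC_nsq hq.2.1
    have h2 := h.dual _ hq.1 (α.comp (ContinuousLinearMap.inl ℝ V (ℂ × ℝ))) _ h1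
    have h3 : v = (v.1, 0, 0) + a • ((0 : V), Complex.I * q.2.1, (0 : ℝ)) +
        v.2.2 • ((0 : V), (0 : ℂ), (1 : ℝ)) := by
      ext <;> simp [ha]
    have h4 : α v = α (v.1, 0, 0) + a * α (0, Complex.I * q.2.1, 0) + v.2.2 * α (0, 0, 1) := by
      conv_lhs => rw [h3]
      rw [map_add, map_add, map_smul, map_smul, smul_eq_mul, smul_eq_mul]
    have h5 : (α.comp (ContinuousLinearMap.inl ℝ V (ℂ × ℝ))) v.1 = α (v.1, 0, 0) := rfl
    rw [h5] at h2
    rw [h4, ← h2]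
    simp only [dd, smpC_fd h.sl, PC_apply, ha]
    simp
    linear_combination (a * α (0, Complex.I * q.2.1, 0) + v.2.2 * α (0, 0, 1)) * hn

end Pool.Agent.MP_6d695c_gt.T1

end MrgPart7

-- ======== part 8: formerly Pool.Agent.MP_6d695c_gt.t1.ProdC
section MrgPart8

/-! PROJECT T1, row PRODC: the product with the cotangent bundle of the circle is Liouville. -/

open scoped Manifold ContDiff Topology
open Set Metric Filter Real

namespace Pool.Agent.MP_6d695c_gt.T1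

open SW

namespace ProdC

theorem sm_coe : ContMDiff (𝓡 1) 𝓘(ℝ, ℂ) ∞ (fun w : Circle => (w : ℂ)) :=
  haveI := finrank_real_complex_fact'
  contMDiff_coe_sphere

theorem dTheta_inj (z : Circle) {u : Euc 1} (h : dTheta z u = 0) : u = 0 := by
  have := finrank_real_complex_fact'
  obtain ⟨D, hD⟩ : ∃ D : Euc 1 →L[ℝ] ℂ, D = mfderiv (𝓡 1) 𝓘(ℝ, ℂ) (fun w : Circle => (w : ℂ)) z :=
    ⟨_, rfl⟩
  have h1 : Function.Injective D := by
    rw [hD]
    exact injective_mvfderiv_subtypeVal_sphere (n := 1) (E := ℂ) z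
  have h2 : D u ∈ (ℝ ∙ (z : ℂ))ᗮ := by
    have := range_mvfderiv_subtypeVal (n := 1) (E := ℂ) z
    refine this ▸ ⟨u, ?_⟩
    rw [hD]
    rfl
  have h3 : (starRingEnd ℂ (z : ℂ) * D u).im = 0 := by
    rw [hD]
    exact h
  have h4 : (starRingEnd ℂ (z : ℂ) * D u).re = 0 := by
    have := Submodule.mem_orthogonal_singleton_iff_inner_right.1 h2
    rw [Complex.inner, mul_comm] at this
    exact this
  have h5 : starRingEnd ℂ (z : ℂ) * D u = 0 := Complex.ext h4 h3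
  refine h1 ?_
  rw [map_zero]
  exact (mul_eq_zero.1 h5).resolve_left (by simp)

/-- the angular form in a chart -/
noncomputable def th (z : Circle) : Euc 1 → Euc 1 →L[ℝ] ℝ := formIn (𝓡 1) (M := Circle) dTheta z

theorem sm_th (z : Circle) : ContDiffOn ℝ ∞ (th z) (extChartAt (𝓡 1) z).target := by
  have hc : ContDiffOn ℝ ∞ (fun y => (((extChartAt (𝓡 1) z).symm y : Circle) : ℂ))
      (extChartAt (𝓡 1) z).target :=
    fun _ hy => ((sm_coe _).comp _ (Mfd.sm_symm hy)).contDiffAt.contDiffWithinAt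
  have hd := hc.fderiv_of_isOpen (m := ∞) (isOpen_extChartAt_target z) (by simp)
  have hm := ((ContinuousLinearMap.mul ℝ ℂ).comp
    (Complex.conjCLE : ℂ →L[ℝ] ℂ)).contDiff.comp_contDiffOn hc
  refine ((contDiffOn_const (c := Complex.imCLM)).clm_comp (hm.clm_comp hd)).congr fun y hy => ?_
  refine ContinuousLinearMap.ext fun v => ?_
  exact congrArg (fun w => (starRingEnd ℂ (((extChartAt (𝓡 1) z).symm y : Circle) : ℂ) * w).im)
    (Mfd.fderiv_in hy (sm_coe.mdifferentiableAt (by simp)) v).symm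

theorem th_self (z : Circle) (v : Euc 1) : th z (extChartAt (𝓡 1) z z) v = dTheta z v := by
  have := Mfd.formIn_dC (I := 𝓡 1) (M := Circle) dTheta (mem_extChartAt_source z) v
  rwa [Mfd.dC_self] at this

theorem symm1 (B : Euc 1 →L[ℝ] Euc 1 →L[ℝ] ℝ) (u v : Euc 1) : B u v = B v u := by
  have h : ∀ w : Euc 1, w = w 0 • EuclideanSpace.single 0 (1 : ℝ) := fun w => by
    ext i
    simp [Subsingleton.elim i 0]
  rw [h u, h v]
  simp only [map_smul, smul_apply, smul_eq_mul]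
  ring

section Sum
variable {E F : Type} [NormedAddCommGroup E] [NormedSpace ℝ E] [NormedAddCommGroup F]
  [NormedSpace ℝ F]

theorem dd_sum {a : E → E →L[ℝ] ℝ} {b : F → F →L[ℝ] ℝ} {y : E × (F × ℝ)}
    (ha : DifferentiableAt ℝ a y.1) (hb : DifferentiableAt ℝ b y.2.1) (u v : E × (F × ℝ)) :
    dd (fun y : E × (F × ℝ) => (a y.1).comp (ContinuousLinearMap.fst ℝ E (F × ℝ)) +
      y.2.2 • (b y.2.1).comp ((ContinuousLinearMap.fst ℝ F ℝ).comp
        (ContinuousLinearMap.snd ℝ E (F × ℝ)))) y u v =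
      dd a y.1 u.1 v.1 + (u.2.2 * b y.2.1 v.2.1 - v.2.2 * b y.2.1 u.2.1) +
        y.2.2 * dd b y.2.1 u.2.1 v.2.1 := by
  have h3 := ((ha.hasFDerivAt.comp y hasFDerivAt_fst).clm_comp
    (hasFDerivAt_const (ContinuousLinearMap.fst ℝ E (F × ℝ)) y)).add
    ((hasFDerivAt_snd (𝕜 := ℝ) (p := y)).snd.smul
      ((hb.hasFDerivAt.comp y (hasFDerivAt_snd (𝕜 := ℝ) (p := y)).fst).clm_comp
        (hasFDerivAt_const ((ContinuousLinearMap.fst ℝ F ℝ).comp
          (ContinuousLinearMap.snd ℝ E (F × ℝ))) y)))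
  have h4 : fderiv ℝ (fun y : E × (F × ℝ) => (a y.1).comp (ContinuousLinearMap.fst ℝ E (F × ℝ)) +
      y.2.2 • (b y.2.1).comp ((ContinuousLinearMap.fst ℝ F ℝ).comp
        (ContinuousLinearMap.snd ℝ E (F × ℝ)))) y = _ := h3.fderiv
  simp only [dd, h4]
  simp
  ring

end Sum

variable {d : ℕ} {W : Type} [TopologicalSpace W] [ChartedSpace (Euc d) W]

theorem symm_eq (p : W × (Circle × ℝ)) : ⇑(extChartAt (IC d) p).symm =
    fun y : Euc d × (Euc 1 × ℝ) =>
      ((extChartAt (𝓡 d) p.1).symm y.1, (extChartAt (𝓡 1) p.2.1).symm y.2.1, y.2.2) := by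
  rw [extChartAt_prod, extChartAt_prod]
  rfl

theorem chart_eq (p : W × (Circle × ℝ)) : ⇑(extChartAt (IC d) p) =
    fun x : W × (Circle × ℝ) =>
      (extChartAt (𝓡 d) p.1 x.1, extChartAt (𝓡 1) p.2.1 x.2.1, x.2.2) := by
  rw [extChartAt_prod, extChartAt_prod]
  rfl

theorem mem_target {p : W × (Circle × ℝ)} {y : Euc d × (Euc 1 × ℝ)}
    (h : y ∈ (extChartAt (IC d) p).target) :
    y.1 ∈ (extChartAt (𝓡 d) p.1).target ∧ y.2.1 ∈ (extChartAt (𝓡 1) p.2.1).target := by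
  rw [extChartAt_prod, extChartAt_prod] at h
  exact ⟨h.1, h.2.1⟩

variable [IsManifold (𝓡 d) ∞ W]

theorem dS_prod {p : W × (Circle × ℝ)} {y : Euc d × (Euc 1 × ℝ)}
    (hy : y ∈ (extChartAt (IC d) p).target) (v : Euc d × (Euc 1 × ℝ)) :
    mfderiv 𝓘(ℝ, Euc d × (Euc 1 × ℝ)) (IC d) (extChartAt (IC d) p).symm y v =
      (show Euc d × (Euc 1 × ℝ) from
        (mfderiv 𝓘(ℝ, Euc d) (𝓡 d) (extChartAt (𝓡 d) p.1).symm y.1 v.1,
          mfderiv 𝓘(ℝ, Euc 1) (𝓡 1) (extChartAt (𝓡 1) p.2.1).symm y.2.1 v.2.1, v.2.2)) := by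
  have h1 := ((Mfd.sm_symm (mem_target hy).1).mdifferentiableAt (by simp)).hasMFDerivAt.comp y
    (hasFDerivAt_fst (𝕜 := ℝ) (p := y)).hasMFDerivAt
  have h1' := ((Mfd.sm_symm (mem_target hy).2).mdifferentiableAt (by simp)).hasMFDerivAt.comp y
    (hasFDerivAt_snd (𝕜 := ℝ) (p := y)).fst.hasMFDerivAt
  have h2 := (h1.prodMk (h1'.prodMk
    (hasFDerivAt_snd (𝕜 := ℝ) (p := y)).snd.hasMFDerivAt)).mfderiv
  rw [symm_eq]
  exact congrArg (fun L => L v) h2

theorem formIn_cyl (l : OneForm (𝓡 d) W) {p : W × (Circle × ℝ)} {y : Euc d × (Euc 1 × ℝ)}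
    (hy : y ∈ (extChartAt (IC d) p).target) :
    formIn (IC d) (cyl l) p y =
      (formIn (𝓡 d) l p.1 y.1).comp (ContinuousLinearMap.fst ℝ _ _) +
      y.2.2 • (th p.2.1 y.2.1).comp ((ContinuousLinearMap.fst ℝ _ _).comp
        (ContinuousLinearMap.snd ℝ _ _)) := by
  refine ContinuousLinearMap.ext fun v => ?_
  have h2 := dS_prod hy v
  have h3 := congrFun (symm_eq p) y
  change cyl l _ (mfderiv 𝓘(ℝ, Euc d × (Euc 1 × ℝ)) (IC d) (extChartAt (IC d) p).symm y v) = _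
  rw [h2]
  have h4 : ∀ x, x = ((extChartAt (𝓡 d) p.1).symm y.1, (extChartAt (𝓡 1) p.2.1).symm y.2.1, y.2.2) →
      ∀ w : Euc d × (Euc 1 × ℝ), cyl l x w = l ((extChartAt (𝓡 d) p.1).symm y.1) w.1 +
        y.2.2 * dTheta ((extChartAt (𝓡 1) p.2.1).symm y.2.1) w.2.1 := by
    rintro _ rfl w
    rfl
  exact (h4 _ h3 _).trans rfl

theorem dForm_cyl {l : OneForm (𝓡 d) W}
    (hl : ∀ p, ContDiffOn ℝ ∞ (formIn (𝓡 d) l p) (extChartAt (𝓡 d) p).target)
    (p : W × (Circle × ℝ)) (u v : Euc d × (Euc 1 × ℝ)) :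
    dForm (IC d) (cyl l) p u v = dForm (𝓡 d) l p.1 u.1 v.1 +
      (u.2.2 * dTheta p.2.1 v.2.1 - v.2.2 * dTheta p.2.1 u.2.1) := by
  have hn := extChartAt_target_mem_nhds (I := IC d) p
  have e := congrFun (chart_eq (d := d) p) p
  have h1 : formIn (IC d) (cyl l) p =ᶠ[𝓝 (extChartAt (IC d) p p)] _ :=
    mem_of_superset hn fun y hy => formIn_cyl l hy
  have h2 := dd_sum (a := formIn (𝓡 d) l p.1) (b := th p.2.1) (y := extChartAt (IC d) p p)
    (by rw [e]; exact ((hl p.1).contDiffAt (extChartAt_target_mem_nhds _)).differentiableAt (by simp))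
    (by rw [e]; exact ((sm_th _).contDiffAt (extChartAt_target_mem_nhds _)).differentiableAt (by simp))
    u v
  rw [dForm, h1.fderiv_eq]
  refine h2.trans ?_
  rw [e]
  simp only [th_self, dd, symm1 _ v.2.1 u.2.1, sub_self, mul_zero, add_zero]
  rfl

end ProdC

theorem prodC : ProdCStmt := by
  intro d W _ _ _ l Z hl
  refine ⟨fun p => ?_, fun p u hu => ?_, fun p v => ?_, fun p => ?_⟩
  · refine ContDiffOn.congr ((((hl.smooth p.1).comp contDiffOn_fst
      fun q hq => (ProdC.mem_target hq).1).clm_comp contDiffOn_const).add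
      (contDiffOn_snd.snd.smul (((ProdC.sm_th p.2.1).comp contDiffOn_snd.fst
        fun q hq => (ProdC.mem_target hq).2).clm_comp contDiffOn_const)))
      fun q hq => ProdC.formIn_cyl l hq
  · simp only [ProdC.dForm_cyl hl.smooth] at hu
    refine Prod.ext (hl.nondeg p.1 u.1 fun v => ?_) (Prod.ext (ProdC.dTheta_inj p.2.1 ?_) ?_)
    · simpa using hu (v, 0, 0)
    · simpa [dForm] using hu (0, 0, 1)
    · have h1 : u.2.2 * dTheta p.2.1 (EuclideanSpace.single 0 1) = 0 := by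
        simpa [dForm] using hu (0, EuclideanSpace.single 0 1, 0)
      refine (mul_eq_zero.1 h1).resolve_right fun h => ?_
      simpa using congrArg (fun w : Euc 1 => w 0) (ProdC.dTheta_inj _ h)
  · refine (ProdC.dForm_cyl hl.smooth p _ v).trans ?_
    change dForm (𝓡 d) l p.1 (Z p.1) v.1 + (p.2.2 * dTheta p.2.1 v.2.1 - v.2.2 * dTheta p.2.1 0) =
      l p.1 v.1 + p.2.2 * dTheta p.2.1 v.2.1
    rw [hl.dual, map_zero, mul_zero, sub_zero]
  · obtain ⟨γ, h0, hγ⟩ := hl.complete p.1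
    refine ⟨fun t => (γ t, p.2.1, exp t * p.2.2), by simp [h0], fun t => ?_⟩
    have h1 := (((hasDerivAt_exp t).mul_const p.2.2).hasFDerivAt).hasMFDerivAt
    have h2 := (hγ t).prodMk ((hasMFDerivAt_const (I := 𝓘(ℝ, ℝ)) (I' := 𝓡 1) p.2.1 t).prodMk h1)
    refine h2.congr_mfderiv (ContinuousLinearMap.ext fun s => ?_)
    refine Prod.ext rfl (Prod.ext ?_ rfl)
    exact (smul_zero (A := Euc 1) (show ℝ from s)).symm

end Pool.Agent.MP_6d695c_gt.T1

end MrgPart8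

-- ======== part 9: formerly Pool.Agent.MP_6d695c_gt.t1.FinG
section MrgPart9

/-! PROJECT T1, row FING: from the ambient space to the manifold. -/

open scoped Manifold ContDiff Topology
open Set Metric Filter Real

namespace Pool.Agent.MP_6d695c_gt.T1

open SW

namespace FinG

variable {E : Type} [NormedAddCommGroup E] [NormedSpace ℝ E] {H : Type} [TopologicalSpace H]
  {I : ModelWithCorners ℝ E H} {W : Type} [TopologicalSpace W] [ChartedSpace H W]
  {V : Type} [NormedAddCommGroup V] [NormedSpace ℝ V]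

open Classical in
/-- `G ∘ e` on `ψ < 6`, and `F` elsewhere -/
noncomputable def gl (ψ : W → ℝ) (e : W → V) (G : V → ℝ) (F : W → ℝ) (p : W) : ℝ :=
  if ψ p < 6 then G (e p) else F p

section
variable {ψ : W → ℝ} {e : W → V} {G : V → ℝ} {F : W → ℝ}

omit [NormedAddCommGroup V] [NormedSpace ℝ V] in
theorem gl_in (hψ : Continuous ψ) {p : W} (hp : ψ p < 6) : ∀ᶠ q in 𝓝 p, gl ψ e G F q = G (e q) := by
  filter_upwards [hψ.continuousAt.eventually (gt_mem_nhds hp)] with q hq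
  exact if_pos hq

omit [NormedAddCommGroup V] [NormedSpace ℝ V] in
theorem gl_out {p : W} (h : ∀ᶠ q in 𝓝 p, ψ q < 6 → G (e q) = F q) :
    ∀ᶠ q in 𝓝 p, gl ψ e G F q = F q := by
  filter_upwards [h] with q hq
  by_cases h6 : ψ q < 6
  · exact (if_pos h6).trans (hq h6)
  · exact if_neg h6

theorem gl_smooth (hψ : Continuous ψ) (he : ContMDiff I 𝓘(ℝ, V) ∞ e) (hG : ContDiff ℝ ∞ G)
    (hF : ContMDiff I 𝓘(ℝ, ℝ) ∞ F) (h : ∀ q, 5 < ψ q → ψ q < 6 → G (e q) = F q) :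
    ContMDiff I 𝓘(ℝ, ℝ) ∞ (gl ψ e G F) := fun p => by
  by_cases hp : ψ p < 6
  · exact ((hG.contMDiff.comp he) p).congr_of_eventuallyEq (gl_in hψ hp)
  · refine (hF p).congr_of_eventuallyEq (gl_out ?_)
    filter_upwards [hψ.continuousAt.eventually
      (lt_mem_nhds (show 5 < ψ p by linarith [not_lt.1 hp]))] with q hq using h q hq

end

/-- the form `l + t dG` -/
noncomputable def LG (l : OneForm I W) (G : W → ℝ) (t : ℝ) : OneForm I W :=
  fun p => l p + t • dfun I G p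

/-- the field `Z + t X` -/
noncomputable def ZG (Z X : VField I W) (t : ℝ) : VField I W := fun p => Z p + t • X p

/-- the derivative of `e` -/
noncomputable def De (I : ModelWithCorners ℝ E H) {W : Type} [TopologicalSpace W] [ChartedSpace H W]
    (e : W → V) (x : W) : E →L[ℝ] V := mfderiv I 𝓘(ℝ, V) e x

theorem dForm_add (l : OneForm I W) (p : W) (t : ℝ) (a b v : E) :
    dForm I l p (a + t • b) v = dForm I l p a v + t * dForm I l p b v := by
  simp only [dForm, map_add, map_smul, add_apply, smul_apply, smul_eq_mul]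
  ring

variable [I.Boundaryless] [IsManifold I ∞ W]

theorem formIn_LG (l : OneForm I W) {G : W → ℝ} (hG : ContMDiff I 𝓘(ℝ, ℝ) ∞ G) (t : ℝ) {p : W}
    {y : E} (hy : y ∈ (extChartAt I p).target) :
    formIn I (LG l G t) p y = formIn I l p y + t • fderiv ℝ (funIn I G p) y := by
  refine ContinuousLinearMap.ext fun v => ?_
  have h1 := Mfd.fderiv_in hy (hG.mdifferentiableAt (by simp)) v
  change formIn I l p y v + t • der I G _ (mfderiv 𝓘(ℝ, E) I (extChartAt I p).symm y v) = _ + t • _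
  congr 1
  exact congrArg _ h1.symm

theorem sm_funIn {G : W → ℝ} (hG : ContMDiff I 𝓘(ℝ, ℝ) ∞ G) (p : W) :
    ContDiffOn ℝ ∞ (funIn I G p) (extChartAt I p).target :=
  fun _ hy => ((hG _).comp _ (Mfd.sm_symm hy)).contDiffAt.contDiffWithinAt

theorem sm_LG {l : OneForm I W} (hl : ∀ p, ContDiffOn ℝ ∞ (formIn I l p) (extChartAt I p).target)
    {G : W → ℝ} (hG : ContMDiff I 𝓘(ℝ, ℝ) ∞ G) (p : W) :
    ContDiffOn ℝ ∞ (fun q : ℝ × E => formIn I (LG l G q.1) p q.2)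
      (univ ×ˢ (extChartAt I p).target) :=
  ContDiffOn.congr (((hl p).comp contDiffOn_snd fun _ hq => hq.2).add
    (contDiffOn_fst.smul ((((sm_funIn hG p).fderiv_of_isOpen (m := ∞) (isOpen_extChartAt_target p)
      (by simp))).comp contDiffOn_snd fun _ hq => hq.2))) fun q hq => formIn_LG l hG q.1 hq.2

theorem dForm_LG {l : OneForm I W} (hl : ∀ p, ContDiffOn ℝ ∞ (formIn I l p) (extChartAt I p).target)
    {G : W → ℝ} (hG : ContMDiff I 𝓘(ℝ, ℝ) ∞ G) (t : ℝ) (p : W) (u v : E) :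
    dForm I (LG l G t) p u v = dForm I l p u v := by
  have hn := extChartAt_target_mem_nhds (I := I) p
  have hg : ContDiffAt ℝ 2 (funIn I G p) (extChartAt I p p) :=
    ((sm_funIn hG p).contDiffAt hn).of_le (by decide)
  have h1 : formIn I (LG l G t) p =ᶠ[𝓝 (extChartAt I p p)]
      fun y => formIn I l p y + fderiv ℝ (fun y => t * funIn I G p y) y := by
    filter_upwards [hn] with y hy
    rw [formIn_LG l hG t hy, fderiv_const_mul (((sm_funIn hG p).contDiffAt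
      (extChartAt_target_mem_nhds' hy)).differentiableAt (by simp))]
  have h2 := dd_add_fderiv (l := formIn I l p) (H := fun y => t * funIn I G p y)
    (((hl p).contDiffAt hn).differentiableAt (by simp)) (contDiffAt_const.mul hg) u v
  rw [dForm, h1.fderiv_eq]
  exact h2

theorem family [FiniteDimensional ℝ E] {l : OneForm I W} {Z : VField I W} (hl : PreL I l Z)
    {G : W → ℝ} (hG : ContMDiff I 𝓘(ℝ, ℝ) ∞ G) :
    ∃ X : VField I W, (∀ p (v : E), dForm I l p (X p) v = der I G p v) ∧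
      ∀ t, PreL I (LG l G t) (ZG Z X t) := by
  have ex : ∀ (x : W) (α : E →L[ℝ] ℝ), ∃ u : E, ∀ v, dForm I l x u v = α v :=
    fun x α => by
      obtain ⟨B, hB⟩ := Mfd.isInvertible_of_nondeg
        (B := fderiv ℝ (formIn I l x) (extChartAt I x x) -
          (fderiv ℝ (formIn I l x) (extChartAt I x x)).flip) (hl.nondeg x)
      refine ⟨B.symm α, fun v => ?_⟩
      have h := congrArg (fun L => L (B.symm α) v) hB
      simp only [ContinuousLinearEquiv.coe_coe, ContinuousLinearEquiv.apply_symm_apply] at h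
      exact h.symm
  choose sh hsh using ex
  have hX : ∀ p (v : E), dForm I l p (sh p (dfun I G p)) v = der I G p v := fun p v => hsh p _ v
  refine ⟨fun p => sh p (dfun I G p), hX, fun t => ⟨fun p => ?_, fun p u hu => ?_, fun p v => ?_⟩⟩
  · exact (sm_LG hl.smooth hG p).comp (f := fun y => (t, y))
      (contDiffOn_const.prodMk contDiffOn_id) fun y hy => ⟨trivial, hy⟩
  · simp only [dForm_LG hl.smooth hG] at hu
    exact hl.nondeg p u hu
  · refine (dForm_LG hl.smooth hG t p _ v).trans ((dForm_add l p t (Z p) _ v).trans ?_)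
    rw [hX, hl.dual]
    rfl

variable {E' : Type} [NormedAddCommGroup E'] [NormedSpace ℝ E'] {l : OneForm I W} {Z : VField I W}
  {ψ : W → ℝ} {e : W → V} {l' : V → V →L[ℝ] ℝ} {Pi : V → (V →L[ℝ] ℝ) →L[ℝ] V} {ψ' : V → ℝ}

omit [I.Boundaryless] [IsManifold I ∞ W] in
/-- a vector dual to a pulled back covector -/
theorem push (hE : EmbG I E' l Z ψ e l' Pi ψ') {p : W} (hp : ψ p < 6)
    (hd : ∀ u v, dForm I l p u v = dd l' (e p) (De I e p u) (De I e p v)) {u : E}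
    {α : V →L[ℝ] ℝ} (h : ∀ v, dForm I l p u v = α (De I e p v)) : De I e p u = Pi (e p) α := by
  have htg : Tg (e '' {x | ψ x < 6}) (e p) = range (De I e p) := hE.tg p hp
  refine hE.smp.uniq ⟨p, hp, rfl⟩ (by rw [htg]; exact ⟨_, rfl⟩) fun v hv => ?_
  rw [htg] at hv
  obtain ⟨w, rfl⟩ := hv
  rw [← hd, h]

omit [I.Boundaryless] [IsManifold I ∞ W] in
theorem chart_le (hE : EmbG I E' l Z ψ e l' Pi ψ') {p : W} (hp : ψ p < 6) :
    ∃ L, 0 < L ∧ ∀ᶠ x in 𝓝 p, ‖extChartAt I p x - extChartAt I p p‖ ≤ L * ‖e x - e p‖ := by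
  obtain ⟨ρ, h1, h2⟩ := hE.inv p hp
  have h0 : ρ (e p) = p := h2.self_of_nhds p hp rfl
  have h3 : ContMDiffAt 𝓘(ℝ, V) 𝓘(ℝ, E) ∞ (extChartAt I p ∘ ρ) (e p) :=
    ContMDiffAt.comp _ (by rw [h0]; exact contMDiffAt_extChartAt) h1
  obtain ⟨L, hL, h4⟩ := ((contMDiffAt_iff_contDiffAt.1 h3).differentiableAt
    (by simp)).hasFDerivAt.isBigO_sub.exists_pos
  have ht : Tendsto e (𝓝 p) (𝓝 (e p)) := hE.sm.continuous.tendsto p
  refine ⟨L, hL, ?_⟩
  filter_upwards [ht.eventually h4.bound, ht.eventually h2,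
    hE.ex.1.continuous.continuousAt.eventually (gt_mem_nhds hp)] with x h5 h6 h7
  simpa only [Function.comp_apply, h0, h6 x h7 rfl] using h5

end FinG

open FinG in
theorem finG : FinGStmt := by
  intro E _ _ _ H _ I _ W _ _ _ V E' _ _ _ _ _ _ l Z ψ e l' Pi ψ' G Φ A B hL hE hW
  have hP : PreL I l Z := ⟨hL.smooth, hL.nondeg, hL.dual⟩
  have hψ := hE.ex.1
  have hc : Continuous ψ := hψ.continuous
  have hlt : ∀ x, ψ x < 6 → ∀ᶠ y in 𝓝 x, ψ y < 6 := fun x hx =>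
    hc.continuousAt.eventually (gt_mem_nhds hx)
  have hd : ∀ x, ψ x < 6 → ∀ u v, dForm I l x u v = dd l' (e x) (De I e x u) (De I e x v) :=
    fun x hx => (mfd _ _ I W l hL.smooth).2.1 _ e l' x (hE.sm x) hE.smp.sl.contDiffAt
      ((hlt x hx).mono fun y hy => hE.form y hy)
  have ht : ∀ p, ψ p < 6 → Tendsto e (𝓝 p) (𝓝[e '' {x | ψ x < 6}] (e p)) := fun p hp =>
    tendsto_nhdsWithin_iff.2 ⟨hE.sm.continuous.tendsto p, (hlt p hp).mono fun q hq => ⟨q, hq, rfl⟩⟩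
  have hG := hW.sG
  have hΦ := hW.sΦ
  have hA := hW.Apos
  have hG0 : ∀ q, 2 ≤ ψ q → ψ q < 6 → ∀ᶠ v in 𝓝 q, G (e v) = 0 := fun q h h6 =>
    (ht q h6).eventually (hW.far _ ⟨q, h6, rfl⟩ (by rwa [hE.fn _ h6]))
  obtain ⟨GW, hGW⟩ : ∃ GW, GW = gl ψ e G fun _ => 0 := ⟨_, rfl⟩
  have hGWs : ContMDiff I 𝓘(ℝ, ℝ) ∞ GW := hGW ▸ gl_smooth hc hE.sm hG contMDiff_const
    fun q h5 h6 => (hG0 q (by linarith) h6).self_of_nhds
  have hGW0 : ∀ p, 2 ≤ ψ p → ∀ᶠ q in 𝓝 p, GW q = 0 := fun p hp => by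
    rw [hGW]
    refine gl_out ?_
    by_cases h6 : ψ p < 6
    · exact (hG0 p hp h6).mono fun q hq _ => hq
    · filter_upwards [hc.continuousAt.eventually
        (lt_mem_nhds (show 5 < ψ p by linarith [not_lt.1 h6]))] with q hq h7
      exact (hG0 q (by linarith [show 5 < ψ q from hq]) h7).self_of_nhds
  obtain ⟨X, hX, hPre⟩ := family hP hGWs
  have hfarZ : ∀ t p, 2 ≤ ψ p → ZG Z X t p = Z p := fun t p hp => by
    have h1 : X p = 0 := hP.nondeg p _ fun v => (hX p v).trans (der_zero (hGW0 p hp) _)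
    rw [ZG, h1, smul_zero, add_zero]
  have hlink : ∀ t p, ψ p < 6 →
      De I e p (ZG Z X t p) = Pi (e p) (l' (e p) + t • fderiv ℝ G (e p)) := fun t p hp => by
    refine push hE hp (hd p hp) fun v => (dForm_add l p t (Z p) (X p) v).trans ?_
    rw [hX, hP.dual, hE.form p hp, der_comp (hE.sm.mdifferentiableAt (by simp))
      (hG.differentiable (by simp) _) (hGW ▸ gl_in hc hp) v]
    rfl
  have hLi : ∀ t, IsLiouville I (LG l GW t) (ZG Z X t) := fun t => by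
    refine ⟨(hPre t).smooth, (hPre t).nondeg, (hPre t).dual, ?_⟩
    exact compl aflow _ _ I _ _ E' Z (ZG Z X t) ψ {p | ψ p < 6} e
      (fun x => Pi x (l' x + t • fderiv ℝ G x)) ψ' hL.complete hψ
      (fun p hp => ⟨hfarZ t p hp, hE.shell p hp⟩) (fun p hp => show ψ p < 6 by linarith) hE.sm
      hE.smp.sub (hE.smp.sP.clm_apply (hE.smp.sl.add
        ((hG.fderiv_right (m := ∞) (by simp)).const_smul t))) hE.sψ hE.fn (hE.ex.2 5) fun p hp =>
      ⟨hE.smp.tan _ ⟨p, hp, rfl⟩ _, hlink t p hp, hE.inj p hp, hE.inv p hp⟩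
  have hout : ∀ t, ∀ p ∉ {p | ψ p ≤ 2}, 0 < der I ψ p (ZG Z X t p) := fun t p hp => by
    rw [hfarZ t p (not_le.1 hp).le]
    exact hE.shell p (not_le.1 hp).le
  obtain ⟨ΦW, hΦW⟩ : ∃ ΦW, ΦW = gl ψ e Φ fun p => A * ψ p + B := ⟨_, rfl⟩
  have hΦeq : ∀ q, 3 ≤ ψ q → ψ q < 6 → Φ (e q) = A * ψ q + B := fun q h3 h6 => by
    rw [hW.lin _ ⟨q, h6, rfl⟩ (by rwa [hE.fn q h6]), hE.fn q h6]
  have hΦWs : ContMDiff I 𝓘(ℝ, ℝ) ∞ ΦW := hΦW ▸ gl_smooth hc hE.sm hΦ
    (((contDiff_const.mul contDiff_id).add contDiff_const).contMDiff.comp hψ)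
    fun q h5 h6 => hΦeq q (by linarith) h6
  have hΦW3 : ∀ p, 3 < ψ p → ∀ᶠ q in 𝓝 p, ΦW q = A * ψ q + B := fun p hp =>
    hΦW ▸ gl_out ((hc.continuousAt.eventually (lt_mem_nhds hp)).mono fun q hq => hΦeq q hq.le)
  refine ⟨LG l GW 1, ⟨LG l GW, ZG Z X, ψ, _, ?_, rfl,
    fun p => (sm_LG hL.smooth hGWs p).mono (prod_mono (subset_univ _) Subset.rfl),
    fun t _ => hLi t, hE.ex, hE.ex.2 2, fun t _ => hout t⟩,
    ⟨_, _, _, hLi 1, hE.ex, hE.ex.2 2, hout 1⟩, ZG Z X 1, ΦW, hLi 1,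
    ⟨hΦWs, fun c => ?_⟩, wcrit _ _ I _ _ _ ΦW (hPre 1) hΦWs fun p => ?_⟩
  · funext p
    exact (congrArg (l p + ·) (zero_smul ℝ _)).trans (add_zero _)
  · refine (hE.ex.2 (max 3 ((c - B) / A))).of_isClosed_subset
      (isClosed_le hΦWs.continuous continuous_const) fun p hp => ?_
    by_contra h
    have h1 := max_lt_iff.1 (show max 3 ((c - B) / A) < ψ p from not_le.1 h)
    have h2 := (hΦW3 p h1.1).self_of_nhds
    have h3 := (div_lt_iff₀' hA).1 h1.2
    linarith [show ΦW p ≤ c from hp]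
  by_cases hp : ψ p ≤ 4
  swap
  · left
    refine lt_of_lt_of_eq ?_ (der_affine (hψ.mdifferentiableAt (by simp))
      (hΦW3 p (by linarith [not_le.1 hp])) (ZG Z X 1 p)).symm
    exact mul_pos hA (hout 1 p fun h => hp (by linarith [show ψ p ≤ 2 from h]))
  have h6 : ψ p < 6 := by linarith
  have hl1 : ∀ q, ψ q < 6 →
      De I e q (ZG Z X 1 q) = Pi (e q) (l' (e q) + fderiv ℝ G (e q)) :=
    fun q hq => by simpa only [one_smul] using hlink 1 q hq
  have hder : ∀ (u : V → ℝ) (u' : W → ℝ), ContDiff ℝ ∞ u → ∀ q, ψ q < 6 →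
      (∀ᶠ y in 𝓝 q, u' y = u (e y)) → der I u' q (ZG Z X 1 q) =
        fderiv ℝ u (e q) (Pi (e q) (l' (e q) + fderiv ℝ G (e q))) :=
    fun u u' hu q hq h => (der_comp (hE.sm.mdifferentiableAt (by simp))
      (hu.differentiable (by simp) _) h (ZG Z X 1 q)).trans (congrArg _ (hl1 q hq))
  rcases hW.lyap (e p) ⟨p, h6, rfl⟩ (by rwa [hE.fn p h6]) with h |
    ⟨u, ⟨h0, hu, h1, c, hc', h2⟩, h3⟩
  · exact Or.inl (h.trans_eq (hder Φ ΦW hΦ p h6 (hΦW ▸ gl_in hc h6)).symm)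
  right
  obtain ⟨L, hLp, hLe⟩ := chart_le hE h6
  refine ⟨hE.inj p h6 ((hl1 p h6).trans (h0.trans (map_zero _).symm)), fun q => u (e q),
    c / L ^ 2, (hu.contMDiff.comp hE.sm) p, fun v => ?_, by positivity, ?_⟩
  · refine (der_comp (hE.sm.mdifferentiableAt (by simp))
      (hu.differentiable (by simp) _) (Eventually.of_forall fun _ => rfl) v).trans ?_
    rw [h1]; rfl
  · filter_upwards [hlt p h6, hLe, (ht p h6).eventually h2, (ht p h6).eventually h3]
      with q a1 a2 a3 a4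
    rw [hder u _ hu q a1 (Eventually.of_forall fun _ => rfl),
      hder Φ ΦW hΦ q a1 (hΦW ▸ gl_in hc a1)]
    refine ⟨le_trans ?_ a3, a4⟩
    calc _ ≤ c / L ^ 2 * (L * ‖e q - e p‖) ^ 2 := by gcongr
      _ = _ := by field_simp

end Pool.Agent.MP_6d695c_gt.T1

end MrgPart9

-- marker of a merged file
example : 731051 + 77898 = 731051 + 77898 := rfl
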